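import Pool.Agent.H132.LG.Upp

/-!
# Lower bounds for the chains of a given length: the tools
-/

set_option autoImplicit false

namespace KN.ST

open KN KN.KQ Finset
open scoped Classical ENNReal

noncomputable section

variable {s q : ℝ≥0∞}

/-- concatenation -/
theorem UA_add (a b : ℕ) (φ : Z3 → ℝ≥0∞) (D : Z3) :
    UA s q a (UA s q b φ) D ≤ UA s q (a + b) φ D := by
  induction a using Nat.strong_induction_on generalizing D with
  | _ a ih =>
    cases a with
    | zero => rw [UA_zero, zero_add]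
    | succ a =>
      rw [show a + 1 + b = (a + b) + 1 by ring, UA_succ, UA_succ]
      refine ENNReal.tsum_le_tsum fun c => ?_
      by_cases h : TD D (nxt D c) c ∧ bl c + 2 ≤ a + 1
      · rw [if_pos h, if_pos ⟨h.1, by omega⟩]
        refine mul_le_mul_right ?_ _
        have e : a + b + 1 - (bl c + 2) = a + 1 - (bl c + 2) + b := by omega
        rw [e]
        exact ih _ (by omega) _
      · rw [if_neg h]
        exact zero_le

theorem Un_UA (n : ℕ) (D E : Z3) : Un s q n D E = UA s q n (fun F => if F = E then 1 else 0) D := by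
  unfold UA
  rw [tsum_eq_single E]
  · simp
  · intro F hF
    simp [hF]

theorem Un_add (a b : ℕ) (D E : Z3) :
    ∑' F, Un s q a D F * Un s q b F E ≤ Un s q (a + b) D E := by
  have h := UA_add (s := s) (q := q) a b (fun F => if F = E then 1 else 0) D
  rw [← Un_UA] at h
  refine le_trans (le_of_eq ?_) h
  have e : (fun F => Un s q b F E) = UA s q b (fun F => if F = E then 1 else 0) := by
    funext F
    exact Un_UA b F E
  rw [← e]
  rfl

/-! ### symmetry -/

theorem cp_app {D E : Z3} {p r : List Blk} :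
    CP D E (p ++ r) ↔ ∃ F, CP D F p ∧ CP F E r := by
  induction p generalizing D with
  | nil =>
    constructor
    · intro h
      exact ⟨D, cp_nil.2 rfl, h⟩
    · rintro ⟨F, h1, h2⟩
      rw [cp_nil] at h1
      rw [h1]
      exact h2
  | cons b p ih =>
    rw [List.cons_append, cp_cons, ih]
    constructor
    · rintro ⟨h1, F, h2, h3⟩
      exact ⟨F, cp_cons.2 ⟨h1, h2⟩, h3⟩
    · rintro ⟨F, h1, h2⟩
      exact ⟨(cp_cons.1 h1).1, F, (cp_cons.1 h1).2, h2⟩

/-- the reversed chain -/
def rv (bs : List Blk) : List Blk := (bs.map sb).reverse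

theorem rv_rv (bs : List Blk) : rv (rv bs) = bs := by
  unfold rv
  rw [List.map_reverse, List.reverse_reverse, List.map_map]
  have : sb ∘ sb = id := by
    funext b
    exact sb_sb b
  rw [this, List.map_id]

theorem rv_cons (b : Blk) (bs : List Blk) : rv (b :: bs) = rv bs ++ [sb b] := by
  simp [rv]

theorem wt_rv (s q : ℝ≥0∞) (bs : List Blk) : wt s q (rv bs) = wt s q bs := by
  induction bs with
  | nil => rfl
  | cons b bs ih =>
    rw [rv_cons, wt_append, ih, wt_cons, wt_cons, om_sb]
    simp [wt, mul_comm]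

theorem ln_app (p r : List Blk) : ln (p ++ r) = ln p + ln r := by
  induction p with
  | nil => simp [ln]
  | cons b p ih =>
    rw [List.cons_append, ln_cons, ln_cons, ih]
    ring

theorem ln_rv (bs : List Blk) : ln (rv bs) = ln bs := by
  induction bs with
  | nil => rfl
  | cons b bs ih =>
    rw [rv_cons, ln_app, ih, ln_cons, ln_cons, bl_sb]
    simp [ln, add_comm]

theorem cp_rv {D E : Z3} {bs : List Blk} (h : CP D E bs) : CP E D (rv bs) := by
  induction bs generalizing D with
  | nil =>
    rw [cp_nil] at h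
    rw [h]
    exact cp_nil.2 rfl
  | cons b bs ih =>
    obtain ⟨h1, h2⟩ := cp_cons.1 h
    rw [rv_cons, cp_app]
    refine ⟨nxt D b, ih h2, cp_cons.2 ?_⟩
    have h3 := h1.sb
    rw [h3.nxt]
    exact ⟨h3, cp_nil.2 rfl⟩

theorem Un_symm (n : ℕ) (D E : Z3) : Un s q n D E = Un s q n E D := by
  have key : ∀ D E, Un s q n D E ≤ Un s q n E D := by
    intro D E
    unfold Un
    have e : ∑' bs : List Blk, (if CP E D bs ∧ ln bs = n then wt s q bs else 0) =
        ∑' bs : List Blk, (if CP E D (rv bs) ∧ ln (rv bs) = n then wt s q (rv bs) else 0) :=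
      ((⟨rv, rv, rv_rv, rv_rv⟩ : List Blk ≃ List Blk).tsum_eq
        (fun bs => if CP E D bs ∧ ln bs = n then wt s q bs else 0)).symm
    rw [e]
    refine ENNReal.tsum_le_tsum fun bs => ?_
    by_cases h : CP D E bs ∧ ln bs = n
    · rw [if_pos h, if_pos ⟨cp_rv h.1, by rw [ln_rv]; exact h.2⟩, wt_rv]
    · rw [if_neg h]
      exact zero_le
  exact le_antisymm (key D E) (key E D)

/-! ### shifted sums -/

theorem shift_sum {l N : ℕ} (hl : 1 ≤ l) (g : ℕ → ℝ≥0∞) :
    ∑ k ∈ range (N + 1 - l), g k ≤ ∑ k ∈ range N, if l ≤ k + 1 then g (k + 1 - l) else 0 := by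
  have h1 : ∑ k ∈ range (N + 1 - l), g k =
      ∑ k ∈ (range (N + 1 - l)).image (fun k => k + (l - 1)),
        (if l ≤ k + 1 then g (k + 1 - l) else 0) := by
    rw [sum_image (fun a _ b _ hab => by
      have h9 : a + (l - 1) = b + (l - 1) := hab
      omega)]
    refine sum_congr rfl fun k _ => ?_
    rw [if_pos (by omega)]
    congr 1
    omega
  rw [h1]
  refine sum_le_sum_of_subset ?_
  intro k hk
  simp only [mem_image, mem_range] at hk ⊢
  omega

/-- the sum of the actions -/
theorem UA_sum (N : ℕ) (f : ℕ → Z3 → ℝ≥0∞) (D : Z3) :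
    ∑' b : Blk, (if TD D (nxt D b) b then om s q b *
      ∑ k ∈ range (N + 1 - (bl b + 2)), UA s q k (f (k + (bl b + 2))) (nxt D b) else 0) ≤
      ∑ k ∈ range N, UA s q (k + 1) (f (k + 1)) D := by
  simp only [UA_succ]
  rw [← Summable.tsum_finsetSum (fun _ _ => ENNReal.summable)]
  refine ENNReal.tsum_le_tsum fun b => ?_
  by_cases h : TD D (nxt D b) b
  · rw [if_pos h]
    have h1 := shift_sum (l := bl b + 2) (N := N) (by omega)
      (fun k => UA s q k (f (k + (bl b + 2))) (nxt D b))
    refine (mul_le_mul_right h1 _).trans (le_of_eq ?_)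
    rw [mul_sum]
    refine sum_congr rfl fun k _ => ?_
    by_cases hk : bl b + 2 ≤ k + 1
    · rw [if_pos hk, if_pos ⟨h, hk⟩]
      congr 3
      omega
    · rw [if_neg hk, mul_zero, if_neg (fun h' => hk h'.2)]
  · rw [if_neg h]
    exact zero_le

/-- linear growth -/
theorem Cr.umom (h : Cr s q) (n : ℕ) {D : Z3} (hD : St D) :
    UA s q n qq D ≤ qq D + ∑ k ∈ range (n + 1), UA s q k (fun _ => 1) D := by
  induction n using Nat.strong_induction_on generalizing D with
  | _ n ih =>
    cases n with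
    | zero =>
      rw [UA_zero]
      exact le_self_add
    | succ n =>
      have hm : ∑' E, Kr s q D E * qq E ≤ qq D + 1 := by
        have := mom_qq h.hs h.q2 hD.1 hD.2
        rwa [h.hc, one_mul] at this
      rw [sum_range_succ', UA_zero, UA_succ]
      have h1 : ∑' b : Blk, (if TD D (nxt D b) b ∧ bl b + 2 ≤ n + 1 then
          om s q b * UA s q (n + 1 - (bl b + 2)) qq (nxt D b) else 0) ≤
          ∑' b : Blk, ((if TD D (nxt D b) b then om s q b * qq (nxt D b) else 0) +
            (if TD D (nxt D b) b then om s q b *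
              ∑ k ∈ range (n + 1 + 1 - (bl b + 2)), UA s q k (fun _ => 1) (nxt D b) else 0)) := by
        refine ENNReal.tsum_le_tsum fun b => ?_
        by_cases hb : TD D (nxt D b) b
        · rw [if_pos hb, if_pos hb]
          by_cases h2 : bl b + 2 ≤ n + 1
          · rw [if_pos ⟨hb, h2⟩, ← mul_add]
            refine mul_le_mul_right ?_ _
            have h3 := ih (n + 1 - (bl b + 2)) (by omega) hb.st
            have e : n + 1 + 1 - (bl b + 2) = n + 1 - (bl b + 2) + 1 := by omega
            rw [e]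
            exact h3
          · rw [if_neg (fun h' => h2 h'.2)]
            exact zero_le
        · rw [if_neg (fun h' => hb h'.1)]
          exact zero_le
      refine h1.trans ?_
      rw [ENNReal.tsum_add, ← Kr_sum]
      have h2 := UA_sum (s := s) (q := q) (n + 1) (fun _ _ => 1) D
      calc _ ≤ (qq D + 1) + ∑ k ∈ range (n + 1), UA s q (k + 1) (fun _ => 1) D :=
            add_le_add hm h2
        _ = _ := by ring

/-- the last jump -/
def TT (s q : ℝ≥0∞) (i : ℕ) (F : Z3) : ℝ≥0∞ :=
  ∑' b : Blk, if TD F (nxt F b) b ∧ i ≤ bl b + 2 then om s q b * gg (nxt F b) else 0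

/-- optional stopping -/
theorem Cr.stop (h : Cr s q) (n : ℕ) {D : Z3} (hD : St D) :
    gg D ≤ ∑ k ∈ range (n + 1), UA s q k (TT s q (n + 1 - k)) D := by
  induction n using Nat.strong_induction_on generalizing D with
  | _ n ih =>
    have hm : gg D ≤ ∑' E, Kr s q D E * gg E := by
      have := sub_gg h.hs h.q2 h.h1 hD.1 hD.2
      rwa [h.hc, one_mul] at this
    rw [sum_range_succ', UA_zero]
    refine hm.trans ?_
    rw [Kr_sum]
    have h1 : ∑' b : Blk, (if TD D (nxt D b) b then om s q b * gg (nxt D b) else 0) ≤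
        ∑' b : Blk, ((if TD D (nxt D b) b then om s q b * ∑ k ∈ range (n + 1 - (bl b + 2)),
          UA s q k (TT s q (n + 1 - (k + (bl b + 2)))) (nxt D b) else 0) +
          (if TD D (nxt D b) b ∧ n + 1 - 0 ≤ bl b + 2 then om s q b * gg (nxt D b) else 0)) := by
      refine ENNReal.tsum_le_tsum fun b => ?_
      by_cases hb : TD D (nxt D b) b
      · rw [if_pos hb, if_pos hb]
        by_cases h2 : n + 1 - 0 ≤ bl b + 2
        · rw [if_pos ⟨hb, h2⟩]
          exact le_add_self
        · rw [if_neg (fun h' => h2 h'.2), add_zero]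
          refine mul_le_mul_right ?_ _
          have h3 := ih (n - (bl b + 2)) (by omega) hb.st
          have e : n - (bl b + 2) + 1 = n + 1 - (bl b + 2) := by omega
          rw [e] at h3
          refine h3.trans (le_of_eq (sum_congr rfl fun k _ => ?_))
          congr 2
          omega
      · rw [if_neg hb]
        exact zero_le
    refine h1.trans ?_
    rw [ENNReal.tsum_add]
    refine add_le_add ?_ le_rfl
    exact UA_sum (s := s) (q := q) n (fun k => TT s q (n + 1 - k)) D

theorem gg_le_lg {D : Z3} (hD : St D) : gg D ≤ lg D := by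
  rw [lg_ne hD.2]
  unfold gg
  refine ENNReal.ofReal_le_ofReal ?_
  unfold gr lr AA
  have h2 := inv_rr hD.1 hD.2
  have e : 2 / rr D = 2 * (1 / rr D) := by ring
  rw [e]
  linarith

theorem TT_le (h : Cr s q) (i : ℕ) {F : Z3} (hF : St F) : TT s q i F ≤ 5 * 2⁻¹ ^ i * lg F := by
  have h1 : TT s q i F ≤ 2⁻¹ ^ i * ∑' E, Kr s 2 F E * lg E := by
    rw [Kr_sum, ← ENNReal.tsum_mul_left]
    unfold TT
    refine ENNReal.tsum_le_tsum fun b => ?_
    by_cases hb : TD F (nxt F b) b ∧ i ≤ bl b + 2
    · rw [if_pos hb, if_pos hb.1]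
      have e : om s 2 b = 2 ^ (bl b + 2) * om s 1 b := by
        have := om_mul s 1 2 b
        rwa [one_mul] at this
      have h2 : om s q b ≤ om s 1 b := by
        unfold om
        exact mul_le_mul_left (pow_le_pow_left' h.h2 _) _
      have h3 : (1 : ℝ≥0∞) ≤ 2⁻¹ ^ i * 2 ^ (bl b + 2) := by
        calc (1 : ℝ≥0∞) = 2⁻¹ ^ i * 2 ^ i := by
              rw [← mul_pow, ENNReal.inv_mul_cancel (by norm_num) (by simp), one_pow]
          _ ≤ _ := mul_le_mul_right (pow_le_pow_right₀ (by norm_num) hb.2) _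
      calc om s q b * gg (nxt F b) ≤ om s 1 b * lg (nxt F b) := mul_le_mul' h2 (gg_le_lg hb.1.st)
        _ = 1 * (om s 1 b * lg (nxt F b)) := (one_mul _).symm
        _ ≤ (2⁻¹ ^ i * 2 ^ (bl b + 2)) * (om s 1 b * lg (nxt F b)) := mul_le_mul_left h3 _
        _ = _ := by rw [e]; ring
    · rw [if_neg hb]
      exact zero_le
  refine h1.trans ?_
  have h4 := super_lg h.hs (le_refl 2) (q := 2) (by
    refine num_le (x := 7 / 10) (y := 2) ?_ (by simp) (by norm_num)
    rw [ENNReal.ofReal_div_of_pos (by norm_num)]; simp) hF.1 hF.2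
  calc 2⁻¹ ^ i * ∑' E, Kr s 2 F E * lg E ≤ 2⁻¹ ^ i * (Ms s 2 * lg F) := mul_le_mul_right h4 _
    _ ≤ 2⁻¹ ^ i * (5 * lg F) :=
        mul_le_mul_right (mul_le_mul_left (Ms_le_five h.hs (le_refl 2)) _) _
    _ = _ := by ring

/-- the logarithmic mass -/
theorem Cr.phi_sum (h : Cr s q) (n : ℕ) {D : Z3} (hD : St D) :
    gg D ≤ ∑ k ∈ range (n + 1), 5 * 2⁻¹ ^ (n + 1 - k) * UA s q k lg D := by
  refine (h.stop n hD).trans (sum_le_sum fun k _ => ?_)
  rw [← UA_const]
  exact UA_mono hD fun F hF => TT_le h _ hF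

end

end KN.ST
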