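import Mathlib

/-!
# Inequalities for orbits of the rotation of order four
-/

set_option autoImplicit false

namespace KN.ST

/-- the average of the inverse squares over an orbit -/
theorem inv4 {ρ ν s t : ℝ} (hρ : 0 < ρ) (hν : 0 ≤ ν) (hn : ν < ρ) (h : s ^ 2 + t ^ 2 = ρ * ν) :
    4 / ρ + 4 * ν * (ρ - ν) / (ρ * (ρ ^ 2 + ν ^ 2)) ≤
      1 / (ρ + ν - 2 * s) + 1 / (ρ + ν + 2 * t) + 1 / (ρ + ν + 2 * s) + 1 / (ρ + ν - 2 * t) := by
  have hm : 0 < ρ - ν := by linarith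
  have hs : 4 * s ^ 2 < (ρ + ν) ^ 2 := by nlinarith [sq_nonneg t, mul_pos hm hm]
  have ht : 4 * t ^ 2 < (ρ + ν) ^ 2 := by nlinarith [sq_nonneg s, mul_pos hm hm]
  have hp : 0 < ρ + ν := by linarith
  have p1 : 0 < ρ + ν - 2 * s := by
    by_contra hc
    push Not at hc
    nlinarith
  have p2 : 0 < ρ + ν + 2 * s := by
    by_contra hc
    push Not at hc
    nlinarith
  have p3 : 0 < ρ + ν - 2 * t := by
    by_contra hc
    push Not at hc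
    nlinarith
  have p4 : 0 < ρ + ν + 2 * t := by
    by_contra hc
    push Not at hc
    nlinarith
  have e1 : 1 / (ρ + ν - 2 * s) + 1 / (ρ + ν + 2 * s) = 2 * (ρ + ν) / ((ρ + ν) ^ 2 - 4 * s ^ 2) := by
    have : (ρ + ν) ^ 2 - 4 * s ^ 2 = (ρ + ν - 2 * s) * (ρ + ν + 2 * s) := by ring
    rw [this]
    field_simp
    ring
  have e2 : 1 / (ρ + ν + 2 * t) + 1 / (ρ + ν - 2 * t) = 2 * (ρ + ν) / ((ρ + ν) ^ 2 - 4 * t ^ 2) := by
    have : (ρ + ν) ^ 2 - 4 * t ^ 2 = (ρ + ν + 2 * t) * (ρ + ν - 2 * t) := by ring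
    rw [this]
    field_simp
    ring
  have e3 : 4 / ρ + 4 * ν * (ρ - ν) / (ρ * (ρ ^ 2 + ν ^ 2)) = 4 * (ρ + ν) / (ρ ^ 2 + ν ^ 2) := by
    have : 0 < ρ ^ 2 + ν ^ 2 := by positivity
    field_simp
    ring
  have d1 : 0 < (ρ + ν) ^ 2 - 4 * s ^ 2 := by linarith
  have d2 : 0 < (ρ + ν) ^ 2 - 4 * t ^ 2 := by linarith
  have hsum : ((ρ + ν) ^ 2 - 4 * s ^ 2) + ((ρ + ν) ^ 2 - 4 * t ^ 2) = 2 * (ρ ^ 2 + ν ^ 2) := by
    nlinarith
  have key : 4 * (ρ + ν) / (ρ ^ 2 + ν ^ 2) ≤ 2 * (ρ + ν) / ((ρ + ν) ^ 2 - 4 * s ^ 2) +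
      2 * (ρ + ν) / ((ρ + ν) ^ 2 - 4 * t ^ 2) := by
    set A := (ρ + ν) ^ 2 - 4 * s ^ 2 with hA
    set B := (ρ + ν) ^ 2 - 4 * t ^ 2 with hB
    have hQ : ρ ^ 2 + ν ^ 2 = (A + B) / 2 := by linarith
    rw [hQ, div_add_div _ _ d1.ne' d2.ne', div_le_div_iff₀ (by positivity) (by positivity)]
    nlinarith [mul_nonneg hp.le (sq_nonneg (A - B))]
  rw [e3]
  linarith

/-- the average of the logarithms over an orbit -/
theorem log4 {ρ ν s t : ℝ} (hρ : 0 < ρ) (hν : 0 ≤ ν) (hn : ν < ρ) (h : s ^ 2 + t ^ 2 = ρ * ν) :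
    4 * Real.log ρ + 2 * Real.log (1 - ν ^ 2 / ρ ^ 2) ≤
      Real.log (ρ + ν - 2 * s) + Real.log (ρ + ν + 2 * t) + Real.log (ρ + ν + 2 * s) +
        Real.log (ρ + ν - 2 * t) := by
  have hm : 0 < ρ - ν := by linarith
  have hs : 4 * s ^ 2 < (ρ + ν) ^ 2 := by nlinarith [sq_nonneg t, mul_pos hm hm]
  have ht : 4 * t ^ 2 < (ρ + ν) ^ 2 := by nlinarith [sq_nonneg s, mul_pos hm hm]
  have hp : 0 < ρ + ν := by linarith
  have p1 : 0 < ρ + ν - 2 * s := by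
    by_contra hc
    push Not at hc
    nlinarith
  have p2 : 0 < ρ + ν + 2 * s := by
    by_contra hc
    push Not at hc
    nlinarith
  have p3 : 0 < ρ + ν - 2 * t := by
    by_contra hc
    push Not at hc
    nlinarith
  have p4 : 0 < ρ + ν + 2 * t := by
    by_contra hc
    push Not at hc
    nlinarith
  have q1 : 0 < 1 - ν ^ 2 / ρ ^ 2 := by
    rw [sub_pos, div_lt_one (by positivity)]
    nlinarith
  have e1 : 4 * Real.log ρ + 2 * Real.log (1 - ν ^ 2 / ρ ^ 2) =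
      Real.log ((ρ ^ 2 - ν ^ 2) ^ 2) := by
    have : (ρ ^ 2 - ν ^ 2) = ρ ^ 2 * (1 - ν ^ 2 / ρ ^ 2) := by field_simp
    rw [this, Real.log_pow, Real.log_mul (by positivity) q1.ne', Real.log_pow]
    push_cast
    ring
  rw [e1, ← Real.log_mul p1.ne' p4.ne', ← Real.log_mul (by positivity) p2.ne',
    ← Real.log_mul (by positivity) p3.ne']
  have d0 : 0 < (ρ ^ 2 - ν ^ 2) ^ 2 := by
    have : 0 < ρ ^ 2 - ν ^ 2 := by nlinarith
    positivity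
  refine Real.log_le_log d0 ?_
  have e2 : (ρ + ν - 2 * s) * (ρ + ν + 2 * t) * (ρ + ν + 2 * s) * (ρ + ν - 2 * t) =
      (ρ ^ 2 - ν ^ 2) ^ 2 + 16 * (s * t) ^ 2 := by
    have h2 : t ^ 2 = ρ * ν - s ^ 2 := by linarith
    have : (ρ + ν - 2 * s) * (ρ + ν + 2 * t) * (ρ + ν + 2 * s) * (ρ + ν - 2 * t) =
      ((ρ + ν) ^ 2 - 4 * s ^ 2) * ((ρ + ν) ^ 2 - 4 * t ^ 2) := by ring
    rw [this, mul_pow, h2]
    ring
  rw [e2]
  have : 0 ≤ (s * t) ^ 2 := sq_nonneg _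
  linarith

/-- a lower bound of the logarithm -/
theorem log_lb {x : ℝ} (hx : 0 ≤ x) (h : x ≤ 1 / 2) : -(2 * x) ≤ Real.log (1 - x) := by
  have h1 : 0 < 1 - x := by linarith
  have h2 := Real.one_sub_inv_le_log_of_pos h1
  refine le_trans ?_ h2
  have h3 : (1 - x)⁻¹ ≤ 1 + 2 * x := by
    rw [inv_le_comm₀ h1 (by linarith), inv_eq_one_div, div_le_iff₀ (by linarith)]
    nlinarith
  linarith

end KN.ST
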