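import Pool.Agent.H132.ST.Link

/-!
# Planar arcs which can be exchanged, rotation around the third axis
-/

set_option autoImplicit false

namespace KN.ST

open KN KN.KQ
open scoped Classical

noncomputable section

theorem Eqp.symm {D : Z3} {q q' : List Dir} (h : Eqp D q q') : Eqp D q' q :=
  ⟨fun l hl => (h.1 l hl).symm, fun r hr => (h.2 r hr).symm⟩

/-- a letter is moved past a run -/
theorem eqp_move {E : Z3} {v z : Dir} (hvz : perp v z) (A : List Dir) (n : ℕ) :
    ∀ B : List Dir, (∀ i j, i + j = n →
      PA E (A ++ (List.replicate i z ++ v :: (List.replicate j z ++ B)))) →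
    Eqp E (A ++ v :: (List.replicate n z ++ B)) (A ++ (List.replicate n z ++ v :: B)) := by
  induction n with
  | zero => intro B _; exact Eqp.refl _ _
  | succ n ih =>
    intro B h
    have e1 : List.replicate (n + 1) z ++ B = List.replicate n z ++ z :: B := by
      rw [List.replicate_succ', List.append_assoc]; rfl
    have e2 : A ++ (List.replicate (n + 1) z ++ v :: B) =
        (A ++ List.replicate n z) ++ z :: v :: B := by
      rw [List.replicate_succ']; simp
    have h1 := ih (z :: B) (fun i j hij => by
      have := h i (j + 1) (by omega)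
      rw [List.replicate_succ'] at this
      simpa using this)
    rw [e1, e2]
    refine h1.trans ?_
    have p1 := h n 1 rfl
    have p2 := h (n + 1) 0 rfl
    have e3 : A ++ (List.replicate n z ++ v :: (List.replicate 1 z ++ B)) =
        (A ++ List.replicate n z) ++ v :: z :: B := by simp
    have e4 : A ++ (List.replicate (n + 1) z ++ v :: (List.replicate 0 z ++ B)) =
        (A ++ List.replicate n z) ++ z :: v :: B := by
      rw [List.replicate_succ']; simp
    rw [e3] at p1
    rw [e4] at p2
    have h2 := eqp_flip hvz p1 p2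
    have e5 : A ++ (List.replicate n z ++ v :: z :: B) =
        (A ++ List.replicate n z) ++ v :: z :: B := by simp
    rw [e5]
    exact h2

/-- removal of a bump of a planar arc -/
theorem eqp_unbump {D : Z3} {A B : List Dir} {x y : Dir} (hxy : perp x y)
    (h : PA D (A ++ x :: y :: neg x :: B)) (h' : PA D (A ++ y :: B)) :
    Eqp D (A ++ x :: y :: neg x :: B) (A ++ y :: B) := by
  constructor
  · intro l hl
    have h1 := sap_poly hl h.ra
    have h2 := sap_poly hl h'.ra
    have e1 : Poly l (A ++ x :: y :: neg x :: B) =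
        (Dir.xp :: (l ++ Dir.xm :: A)) ++ x :: y :: neg x :: B := by simp [Poly]
    have e2 : Poly l (A ++ y :: B) = (Dir.xp :: (l ++ Dir.xm :: A)) ++ y :: B := by simp [Poly]
    rw [e1] at h1 ⊢
    rw [e2] at h2 ⊢
    exact (unbump _ _ x y hxy h1 h2.1).2
  · intro r hr
    have h1 := sap_poly h.la hr
    have h2 := sap_poly h'.la hr
    have e1 : Poly (back (A ++ x :: y :: neg x :: B)) r =
        (Dir.xp :: back B) ++ x :: neg y :: neg x :: (back A ++ Dir.xm :: r) := by
      simp [Poly, back]
    have e2 : Poly (back (A ++ y :: B)) r =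
        (Dir.xp :: back B) ++ neg y :: (back A ++ Dir.xm :: r) := by
      simp [Poly, back]
    rw [e1] at h1 ⊢
    rw [e2] at h2 ⊢
    have hp : perp x (neg y) := by
      cases x <;> cases y <;> simp_all [perp, ax, neg]
    exact (unbump _ _ x (neg y) hp h1 h2.1).2

theorem mono_pa (s t : ℤ) (w : List Dir) (h : ∀ a ∈ w, Lat a ∧ 0 < fn s t (vec a)) {D : Z3}
    (hD : pos w = D) (h0 : D ≠ 0) : PA D w :=
  ⟨fun a ha => (h a ha).1, (mono_nodup _ (fn_add s t) w (fun a ha => (h a ha).2)).1, hD, h0⟩

/-- two monotone pieces -/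
theorem two_pa (u : List Dir) (a : ℕ) (hu : ∀ d ∈ u, d = Dir.zp ∨ d = Dir.ym) {D : Z3}
    (hD : pos (List.replicate a Dir.zm ++ Dir.ym :: u) = D) (h0 : D ≠ 0) :
    PA D (List.replicate a Dir.zm ++ Dir.ym :: u) := by
  refine ⟨?_, ?_, hD, h0⟩
  · intro d hd
    rw [List.mem_append, List.mem_cons, List.mem_replicate] at hd
    rcases hd with ⟨-, rfl⟩ | rfl | hd
    · simp [Lat]
    · simp [Lat]
    · rcases hu d hd with rfl | rfl <;> simp [Lat]
  · rw [path_mid, List.nodup_append']
    refine ⟨nodup_sh.2 ?_, ?_, ?_⟩
    · refine (mono_nodup _ (fn_add (-1) (-1)) _ ?_).1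
      intro d hd
      rw [List.mem_replicate] at hd
      rw [hd.2]
      simp [fn, vec]
    · refine (mono_nodup _ (fn_add (-1) 1) _ ?_).1
      intro d hd
      rcases hu d hd with rfl | rfl <;> simp [fn, vec]
    · intro p hp hq
      have h1 : ∀ p ∈ path (List.replicate a Dir.zm), p.2.1 = 0 := by
        clear hD hp hq
        induction a with
        | zero => intro p hp; simp [path] at hp; rw [hp]; rfl
        | succ a ih =>
          intro p hp
          rw [List.replicate_succ, path] at hp
          rcases List.mem_cons.1 hp with rfl | hp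
          · have := ih _ (pos_mem_path _)
            simp only [Prod.snd_add, Prod.fst_add, vec]
            omega
          · exact ih p hp
      have h2 : ∀ (u : List Dir), (∀ d ∈ u, d = Dir.zp ∨ d = Dir.ym) → ∀ p ∈ path u,
          (pos u).2.1 ≤ p.2.1 := by
        intro u
        induction u with
        | nil => intro _ p hp; simp [path] at hp; rw [hp]; exact le_rfl
        | cons d u ih =>
          intro hu p hp
          rcases List.mem_cons.1 hp with rfl | hp
          · exact le_rfl
          · have h3 := ih (fun d hd => hu d (List.mem_cons_of_mem _ hd)) p hp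
            have h4 : (vec d).2.1 ≤ 0 := by
              rcases hu d List.mem_cons_self with rfl | rfl <;> simp [vec]
            simp only [pos, Prod.snd_add, Prod.fst_add]
            omega
      have h5 := h1 _ (mem_sh.1 hp)
      have h6 := h2 u hu p hq
      simp only [Prod.snd_sub, Prod.fst_sub, Prod.snd_add, Prod.fst_add, vec] at h5
      omega

theorem zl_succ' {c : ℤ} (h : 0 ≤ c) : zl (c + 1) = zl c ++ [Dir.zp] := by
  rw [zl_succ h]
  unfold zl
  rw [if_pos h, ← List.replicate_succ, List.replicate_succ']

theorem q1_pos {c : ℤ} (hc : 0 ≤ c) (m h : ℕ) {E : Z3}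
    (hE : pos (zl c ++ (List.replicate (m + 1) Dir.ym ++ Dir.zp :: List.replicate (h + 1) Dir.ym)) = E)
    (h0 : E ≠ 0) (i j : ℕ) (hij : i + j = m + 1) :
    PA E (zl c ++ (List.replicate i Dir.ym ++ Dir.zp :: (List.replicate j Dir.ym ++
      List.replicate (h + 1) Dir.ym))) := by
  refine mono_pa (-1) 1 _ ?_ ?_ h0
  · intro a ha
    simp only [List.mem_append, List.mem_cons, List.mem_replicate] at ha
    rcases ha with ha | ⟨-, rfl⟩ | rfl | ⟨-, rfl⟩ | ⟨-, rfl⟩
    · unfold zl at ha
      rw [if_pos hc, List.mem_replicate] at ha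
      rw [ha.2]; simp [Lat, fn, vec]
    all_goals simp [Lat, fn, vec]
  · rw [← hE, ← hij]
    simp only [pos_append, pos, pos_replicate]
    push_cast
    simp only [add_smul]
    abel

theorem q1_neg (p m h : ℕ) {E : Z3}
    (hE : pos (List.replicate (p + 1) Dir.zm ++ (List.replicate (m + 1) Dir.ym ++
      Dir.zp :: List.replicate (h + 1) Dir.ym)) = E)
    (h0 : E ≠ 0) (i j : ℕ) (hij : i + j = m) :
    PA E ((List.replicate (p + 1) Dir.zm ++ [Dir.ym]) ++ (List.replicate i Dir.ym ++
      Dir.zp :: (List.replicate j Dir.ym ++ List.replicate (h + 1) Dir.ym))) := by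
  have e2 : (List.replicate (p + 1) Dir.zm ++ [Dir.ym]) ++ (List.replicate i Dir.ym ++
      Dir.zp :: (List.replicate j Dir.ym ++ List.replicate (h + 1) Dir.ym)) =
      List.replicate (p + 1) Dir.zm ++ Dir.ym :: (List.replicate i Dir.ym ++
      Dir.zp :: (List.replicate j Dir.ym ++ List.replicate (h + 1) Dir.ym)) := by simp
  rw [e2]
  refine two_pa _ _ ?_ ?_ h0
  · intro d hd
    simp only [List.mem_append, List.mem_cons, List.mem_replicate] at hd
    tauto
  · rw [← hE, ← hij]
    simp only [pos_append, pos, pos_replicate]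
    push_cast
    simp only [add_smul, one_smul]
    abel

theorem q1_bump (p k : ℕ) {E : Z3}
    (hpos : pos (List.replicate p Dir.zm ++ Dir.zm :: Dir.ym :: neg Dir.zm ::
          List.replicate k Dir.ym) = E) (h0 : E ≠ 0) :
    Eqp E (List.replicate p Dir.zm ++ Dir.zm :: Dir.ym :: neg Dir.zm :: List.replicate k Dir.ym)
      (List.replicate p Dir.zm ++ Dir.ym :: List.replicate k Dir.ym) := by
  refine eqp_unbump (by decide) ?_ ?_
  · have e5 : List.replicate p Dir.zm ++ Dir.zm :: Dir.ym :: neg Dir.zm ::
        List.replicate k Dir.ym = List.replicate (p + 1) Dir.zm ++ Dir.ym :: (Dir.zp ::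
        List.replicate k Dir.ym) := by
      rw [List.replicate_succ' (n := p)]; simp [neg]
    rw [e5] at hpos ⊢
    refine two_pa _ _ ?_ hpos h0
    intro d hd
    simp only [List.mem_cons, List.mem_replicate] at hd
    tauto
  · refine two_pa _ _ ?_ ?_ h0
    · intro d hd
      rw [List.mem_replicate] at hd
      exact Or.inr hd.2
    · rw [← hpos]
      simp only [pos_append, pos, neg]
      have e7 : ∀ x y z w u : Z3, z + w = 0 → x + (y + u) = x + (y + z + u + w) := by
        intro x y z w u h
        rw [show y + z + u + w = y + u + (z + w) by abel, h, add_zero]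
      exact e7 _ _ _ _ _ (show vec Dir.zp + vec Dir.zm = 0 by decide)

/-- the exchange of an arc with a step in the run and the canonical arc -/
theorem eqp_q1 (c : ℤ) (m h : ℕ) {E : Z3}
    (hE : pos (zl c ++ (List.replicate (m + 1) Dir.ym ++ Dir.zp :: List.replicate (h + 1) Dir.ym)) = E)
    (h0 : E ≠ 0) :
    Eqp E (zl c ++ (List.replicate (m + 1) Dir.ym ++ Dir.zp :: List.replicate (h + 1) Dir.ym))
      (zl (c + 1) ++ List.replicate (m + 1 + (h + 1)) Dir.ym) := by
  rcases le_or_gt 0 c with hc | hc
  · rw [zl_succ' hc]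
    have e1 : zl c ++ [Dir.zp] ++ List.replicate (m + 1 + (h + 1)) Dir.ym =
        zl c ++ Dir.zp :: (List.replicate (m + 1) Dir.ym ++ List.replicate (h + 1) Dir.ym) := by
      rw [List.replicate_append_replicate]; simp
    rw [e1]
    have := eqp_move (E := E) (v := Dir.zp) (z := Dir.ym) (by decide) (zl c) (m + 1)
      (List.replicate (h + 1) Dir.ym) (q1_pos hc m h hE h0)
    exact Eqp.symm this
  · obtain ⟨p, hp⟩ : ∃ p : ℕ, c = -((p : ℤ) + 1) := ⟨(-c).toNat - 1, by omega⟩
    have z1 : zl c = List.replicate (p + 1) Dir.zm := by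
      unfold zl
      rw [if_neg (by omega)]
      congr 1
      omega
    have z2 : zl (c + 1) = List.replicate p Dir.zm := by
      unfold zl
      split_ifs with h1
      · have : p = 0 := by omega
        subst this
        have : (c + 1).toNat = 0 := by omega
        rw [this]; rfl
      · congr 1
        omega
    rw [z1] at hE
    rw [z1, z2]
    have e1 : List.replicate (p + 1) Dir.zm ++ (List.replicate (m + 1) Dir.ym ++
        Dir.zp :: List.replicate (h + 1) Dir.ym) =
        (List.replicate (p + 1) Dir.zm ++ [Dir.ym]) ++ (List.replicate m Dir.ym ++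
        Dir.zp :: List.replicate (h + 1) Dir.ym) := by
      rw [List.replicate_succ (n := m)]; simp
    rw [e1]
    have g1 := eqp_move (E := E) (v := Dir.zp) (z := Dir.ym) (by decide)
      (List.replicate (p + 1) Dir.zm ++ [Dir.ym]) m (List.replicate (h + 1) Dir.ym)
      (q1_neg p m h hE h0)
    have g2 := Eqp.symm g1
    have e3 : (List.replicate (p + 1) Dir.zm ++ [Dir.ym]) ++
        Dir.zp :: (List.replicate m Dir.ym ++ List.replicate (h + 1) Dir.ym) =
        List.replicate p Dir.zm ++ Dir.zm :: Dir.ym :: neg Dir.zm ::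
          List.replicate (m + (h + 1)) Dir.ym := by
      rw [List.replicate_append_replicate, List.replicate_succ' (n := p)]
      simp [neg]
    have e4 : List.replicate p Dir.zm ++ List.replicate (m + 1 + (h + 1)) Dir.ym =
        List.replicate p Dir.zm ++ Dir.ym :: List.replicate (m + (h + 1)) Dir.ym := by
      rw [← List.replicate_succ]
      congr 2
      ring
    rw [e3] at g2
    rw [e4]
    have hpos : pos (List.replicate p Dir.zm ++ Dir.zm :: Dir.ym :: neg Dir.zm ::
          List.replicate (m + (h + 1)) Dir.ym) = E := by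
      rw [← hE]
      simp only [pos_append, pos, pos_replicate, neg]
      push_cast
      simp only [add_smul, one_smul]
      abel
    exact Eqp.trans g2 (q1_bump p (m + (h + 1)) hpos h0)

end

end KN.ST
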