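import Pool.Agent.H132.LG.Est
import Pool.Agent.H132.ST.Main

/-!
# Chains and powers of the kernel
-/

set_option autoImplicit false

namespace KN.ST

open KN KN.KQ Finset
open scoped Classical ENNReal

noncomputable section

/-- chains without knotted blocks from `D` to `E` -/
def CP (D E : Z3) (bs : List Blk) : Prop := VC D bs E ∧ (∀ b ∈ bs, Irr b) ∧ nb D bs = 0

/-- the weight of a chain -/
def wt (s q : ℝ≥0∞) (bs : List Blk) : ℝ≥0∞ := (bs.map (om s q)).prod

theorem cp_cons {D E : Z3} {b : Blk} {bs : List Blk} :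
    CP D E (b :: bs) ↔ TD D (nxt D b) b ∧ CP (nxt D b) E bs := by
  unfold CP TD
  simp only [VC, nb, List.forall_mem_cons]
  constructor
  · rintro ⟨⟨h1, h2⟩, ⟨h3, h4⟩, h5⟩
    have h6 : Same (tB D (nxt D b) b) sq := by
      by_contra hn
      rw [if_neg hn] at h5
      omega
    rw [if_pos h6] at h5
    exact ⟨⟨h1, h3, h6⟩, h2, h4, by omega⟩
  · rintro ⟨⟨h1, h3, h6⟩, h2, h4, h5⟩
    exact ⟨⟨h1, h2⟩, ⟨h3, h4⟩, by rw [if_pos h6, h5]⟩

theorem cp_nil {D E : Z3} : CP D E [] ↔ D = E := by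
  unfold CP
  simp [VC, nb]

theorem wt_cons (s q : ℝ≥0∞) (b : Blk) (bs : List Blk) :
    wt s q (b :: bs) = om s q b * wt s q bs := by simp [wt]

/-- sums over nonempty lists -/
theorem tsum_cons' (f : List Blk → ℝ≥0∞) (h : f [] = 0) :
    ∑' l : List Blk, f l = ∑' b : Blk, ∑' l : List Blk, f (b :: l) := by
  have h1 : ∑' x : Blk × List Blk, f (x.1 :: x.2) = ∑' l : List Blk, f l := by
    refine Function.Injective.tsum_eq (g := fun x : Blk × List Blk => x.1 :: x.2) ?_ ?_
    · rintro ⟨b, l⟩ ⟨b', l'⟩ h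
      simpa using h
    · intro l hl
      cases l with
      | nil => exact absurd h hl
      | cons b l => exact ⟨(b, l), rfl⟩
  rw [← h1]
  exact ENNReal.tsum_prod'

/-- chains with `m` blocks -/
theorem chain_pw (s q : ℝ≥0∞) (m : ℕ) (D E : Z3) :
    ∑' bs : List Blk, (if CP D E bs ∧ bs.length = m then wt s q bs else 0) =
      pw (Kr s q) m D E := by
  induction m generalizing D with
  | zero =>
    rw [tsum_eq_single []]
    · simp only [cp_nil, List.length_nil, and_true, pw]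
      simp [wt]
    · intro bs hbs
      rw [if_neg]
      rintro ⟨-, h⟩
      exact hbs (List.length_eq_zero_iff.1 h)
  | succ m ih =>
    rw [tsum_cons' _ (by simp)]
    simp only [pw]
    rw [Kr_sum]
    refine tsum_congr fun b => ?_
    by_cases h : TD D (nxt D b) b
    · rw [if_pos h, ← ih, ← ENNReal.tsum_mul_left]
      refine tsum_congr fun l => ?_
      by_cases hc : CP (nxt D b) E l ∧ l.length = m
      · rw [if_pos hc, if_pos ⟨cp_cons.2 ⟨h, hc.1⟩, by rw [List.length_cons, hc.2]⟩, wt_cons]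
      · rw [if_neg hc, mul_zero, if_neg]
        rintro ⟨h1, h2⟩
        exact hc ⟨(cp_cons.1 h1).2, by simpa using h2⟩
    · rw [if_neg h, ENNReal.tsum_eq_zero]
      intro l
      rw [if_neg]
      rintro ⟨h1, -⟩
      exact h (cp_cons.1 h1).1

/-- chains of length `n` -/
def Un (s q : ℝ≥0∞) (n : ℕ) (D E : Z3) : ℝ≥0∞ :=
  ∑' bs : List Blk, if CP D E bs ∧ ln bs = n then wt s q bs else 0

theorem two_len (bs : List Blk) : 2 * bs.length ≤ ln bs := by
  rw [ln_eq]
  omega

/-- the sum over the lengths -/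
theorem Un_sum (s q : ℝ≥0∞) (D E : Z3) :
    ∑' n : ℕ, Un s q n D E = ∑' m : ℕ, pw (Kr s q) m D E := by
  have key : ∀ f : List Blk → ℕ, ∑' n : ℕ, ∑' bs : List Blk,
      (if CP D E bs ∧ f bs = n then wt s q bs else 0) =
      ∑' bs : List Blk, (if CP D E bs then wt s q bs else 0) := by
    intro f
    rw [ENNReal.tsum_comm]
    refine tsum_congr fun bs => ?_
    by_cases h : CP D E bs
    · simp only [h, true_and, if_true]
      rw [tsum_eq_single (f bs)]
      · simp
      · intro n hn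
        rw [if_neg (fun h => hn h.symm)]
    · simp [h]
  unfold Un
  rw [key ln]
  simp only [← chain_pw]
  rw [key List.length]

/-- the tails -/
theorem Un_tail (s q : ℝ≥0∞) (D E : Z3) (M : ℕ) :
    ∑' m : ℕ, pw (Kr s q) (M + m) D E ≤ ∑' n : ℕ, Un s q (2 * M + n) D E := by
  have h1 : ∀ m : ℕ, pw (Kr s q) (M + m) D E =
      ∑' bs : List Blk, (if CP D E bs ∧ bs.length = M + m then wt s q bs else 0) :=
    fun m => (chain_pw s q _ D E).symm
  simp only [h1]
  unfold Un
  rw [ENNReal.tsum_comm, ENNReal.tsum_comm (f := fun n bs => if CP D E bs ∧ ln bs = 2 * M + n then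
    wt s q bs else 0)]
  refine ENNReal.tsum_le_tsum fun bs => ?_
  by_cases h : CP D E bs
  · by_cases hm : M ≤ bs.length
    · have e1 : ∑' m : ℕ, (if CP D E bs ∧ bs.length = M + m then wt s q bs else 0) =
          wt s q bs := by
        rw [tsum_eq_single (bs.length - M), if_pos ⟨h, by omega⟩]
        intro m hm'
        rw [if_neg]
        rintro ⟨-, h2⟩
        omega
      have e2 : ∑' n : ℕ, (if CP D E bs ∧ ln bs = 2 * M + n then wt s q bs else 0) =
          wt s q bs := by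
        have := two_len bs
        rw [tsum_eq_single (ln bs - 2 * M), if_pos ⟨h, by omega⟩]
        intro m hm'
        rw [if_neg]
        rintro ⟨-, h2⟩
        omega
      rw [e1, e2]
    · refine le_trans (le_of_eq ?_) zero_le
      rw [ENNReal.tsum_eq_zero]
      intro m
      rw [if_neg]
      rintro ⟨-, h2⟩
      omega
  · refine le_trans (le_of_eq ?_) zero_le
    rw [ENNReal.tsum_eq_zero]
    intro m
    rw [if_neg (fun h' => h h'.1)]

/-! ### the sums over the chains -/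

theorem wt_eq {t s : ℝ≥0∞} (q : ℝ≥0∞) (ht : t ^ 6 * s ^ 8 = 1) {bs : List Blk} {D E : Z3}
    (h : VC D bs E) (hI : ∀ b ∈ bs, Irr b) :
    t ^ (6 * sp bs) * (q * s ^ 4) ^ ln bs = wt s q bs := by
  induction bs generalizing D with
  | nil => simp [sp, ln, wt]
  | cons b bs ih =>
    have h1 := ih h.2 (fun c hc => hI c (List.mem_cons_of_mem _ hc))
    have h2 := irr4 h.1 (hI b List.mem_cons_self)
    rw [sp_cons, ln_cons, wt_cons, ← h1, mul_add 6, pow_add, pow_add (q * s ^ 4)]
    have h3 : t ^ (6 * (wd b + 1)) * (q * s ^ 4) ^ (bl b + 2) = om s q b := by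
      unfold om
      have e1 : 4 * (bl b + 2) = (4 * bl b - 8 * wd b) + 8 * (wd b + 1) := by omega
      rw [mul_pow, ← pow_mul s 4, e1, pow_add s, pow_mul t 6, pow_mul s 8]
      calc (t ^ 6) ^ (wd b + 1) * (q ^ (bl b + 2) * (s ^ (4 * bl b - 8 * wd b) *
            (s ^ 8) ^ (wd b + 1))) = q ^ (bl b + 2) * s ^ (4 * bl b - 8 * wd b) *
            (t ^ 6 * s ^ 8) ^ (wd b + 1) := by rw [mul_pow]; ring
        _ = _ := by rw [ht, one_pow, mul_one]
    rw [← h3]
    ring

/-- the sum over the chains of length `n` -/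
theorem Zc_Un {t s : ℝ≥0∞} (q : ℝ≥0∞) (ht : t ^ 6 * s ^ 8 = 1) (n : ℕ) :
    Zc t (PQ 0) n * (q * s ^ 4) ^ n =
      ∑' e : Dir × Dir, if Lat e.1 ∧ Lat e.2 then Un s q n (vec e.1) (vec e.2) else 0 := by
  unfold Zc
  rw [← ENNReal.tsum_mul_right]
  refine (le_of_eq ENNReal.tsum_prod').antisymm (le_of_eq ENNReal.tsum_prod'.symm) |>.trans ?_
  refine tsum_congr fun e => ?_
  by_cases he : Lat e.1 ∧ Lat e.2
  · rw [if_pos he]
    unfold Un
    refine tsum_congr fun bs => ?_
    have hiff : (Good (e, bs) ∧ ln bs = n ∧ PQ 0 (e, bs)) ↔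
        (CP (vec e.1) (vec e.2) bs ∧ ln bs = n) := by
      constructor
      · rintro ⟨g, h1, h2⟩
        exact ⟨⟨g.vc, g.ir, Nat.le_zero.1 h2⟩, h1⟩
      · rintro ⟨⟨g1, g2, g3⟩, h1⟩
        exact ⟨⟨he.1, he.2, g1, g2⟩, h1, le_of_eq g3⟩
    by_cases hc : CP (vec e.1) (vec e.2) bs ∧ ln bs = n
    · rw [if_pos hc, if_pos (hiff.2 hc), ← hc.2]
      exact wt_eq q ht hc.1.1 hc.1.2.1
    · rw [if_neg hc, if_neg (fun h => hc (hiff.1 h)), zero_mul]
  · rw [if_neg he, ENNReal.tsum_eq_zero]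
    intro bs
    rw [if_neg (fun h => he ⟨h.1.l0, h.1.l1⟩), zero_mul]

end

end KN.ST
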