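import Mathlib

/-!
# Powers of kernels
-/

set_option autoImplicit false

namespace KN.ST

open Finset
open scoped Classical ENNReal

noncomputable section

variable {α : Type}

/-- powers of a kernel -/
def pw (K : α → α → ℝ≥0∞) : ℕ → α → α → ℝ≥0∞
  | 0, x, y => if x = y then 1 else 0
  | m + 1, x, y => ∑' z, K x z * pw K m z y

/-- the action on functions -/
def ap (K : α → α → ℝ≥0∞) (m : ℕ) (φ : α → ℝ≥0∞) (x : α) : ℝ≥0∞ := ∑' y, pw K m x y * φ y

theorem ap_zero (K : α → α → ℝ≥0∞) (φ : α → ℝ≥0∞) (x : α) : ap K 0 φ x = φ x := by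
  unfold ap
  rw [tsum_eq_single x]
  · simp [pw]
  · intro y hy
    simp [pw, hy.symm]

theorem ap_succ (K : α → α → ℝ≥0∞) (m : ℕ) (φ : α → ℝ≥0∞) (x : α) :
    ap K (m + 1) φ x = ∑' z, K x z * ap K m φ z := by
  unfold ap
  simp only [pw]
  simp only [← ENNReal.tsum_mul_left, ← ENNReal.tsum_mul_right]
  rw [ENNReal.tsum_comm]
  refine tsum_congr fun z => tsum_congr fun y => ?_
  ring

theorem ap_pw (K : α → α → ℝ≥0∞) (m : ℕ) (x y : α) :
    pw K m x y = ap K m (fun z => if z = y then 1 else 0) x := by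
  unfold ap
  rw [tsum_eq_single y]
  · simp
  · intro z hz
    simp [hz]

theorem ap_ap (K : α → α → ℝ≥0∞) (m n : ℕ) (φ : α → ℝ≥0∞) (x : α) :
    ap K (m + n) φ x = ap K m (ap K n φ) x := by
  induction m generalizing x with
  | zero => rw [zero_add, ap_zero]
  | succ m ih =>
    rw [add_right_comm, ap_succ, ap_succ]
    refine tsum_congr fun z => ?_
    rw [ih]

theorem pw_add (K : α → α → ℝ≥0∞) (m n : ℕ) (x y : α) :
    pw K (m + n) x y = ∑' z, pw K m x z * pw K n z y := by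
  rw [ap_pw, ap_ap]
  unfold ap
  refine tsum_congr fun z => ?_
  congr 1
  rw [ap_pw]
  rfl

theorem ap_one (K : α → α → ℝ≥0∞) (φ : α → ℝ≥0∞) (x : α) : ap K 1 φ x = ∑' z, K x z * φ z := by
  rw [← zero_add 1, ap_succ]
  refine tsum_congr fun z => ?_
  rw [ap_zero]

theorem pw_one (K : α → α → ℝ≥0∞) (x y : α) : pw K 1 x y = K x y := by
  rw [ap_pw, ap_one, tsum_eq_single y]
  · simp
  · intro z hz
    simp [hz]

theorem pw_succ' (K : α → α → ℝ≥0∞) (m : ℕ) (x y : α) :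
    pw K (m + 1) x y = ∑' z, pw K m x z * K z y := by
  rw [pw_add]
  refine tsum_congr fun z => ?_
  rw [pw_one]

theorem pw_symm {K : α → α → ℝ≥0∞} (hK : ∀ x y, K x y = K y x) (m : ℕ) (x y : α) :
    pw K m x y = pw K m y x := by
  induction m generalizing x y with
  | zero => simp only [pw, eq_comm]
  | succ m ih =>
    rw [pw_succ' K m y x]
    simp only [pw]
    refine tsum_congr fun z => ?_
    rw [hK x z, ih z y, mul_comm]

theorem pw_G {K : α → α → ℝ≥0∞} {G : α → Prop} (hK : ∀ x y, K x y ≠ 0 → G y) {m : ℕ} {x y : α}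
    (hx : G x) (h : pw K m x y ≠ 0) : G y := by
  cases m with
  | zero =>
    simp only [pw] at h
    by_cases hxy : x = y
    · rwa [← hxy]
    · rw [if_neg hxy] at h; exact absurd rfl h
  | succ m =>
    rw [pw_succ'] at h
    by_contra hy
    apply h
    rw [ENNReal.tsum_eq_zero]
    intro z
    by_cases hz : K z y = 0
    · rw [hz, mul_zero]
    · exact absurd (hK z y hz) hy

theorem ap_mono {K : α → α → ℝ≥0∞} {G : α → Prop} (hK : ∀ x y, K x y ≠ 0 → G y) {m : ℕ} {x : α}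
    (hx : G x) {φ ψ : α → ℝ≥0∞} (h : ∀ y, G y → φ y ≤ ψ y) : ap K m φ x ≤ ap K m ψ x := by
  refine ENNReal.tsum_le_tsum fun y => ?_
  by_cases hy : pw K m x y = 0
  · rw [hy, zero_mul, zero_mul]
  · exact mul_le_mul_right (h y (pw_G hK hx hy)) _

theorem ap_add (K : α → α → ℝ≥0∞) (m : ℕ) (φ ψ : α → ℝ≥0∞) (x : α) :
    ap K m (fun y => φ y + ψ y) x = ap K m φ x + ap K m ψ x := by
  unfold ap
  rw [← ENNReal.tsum_add]
  refine tsum_congr fun y => ?_
  rw [mul_add]

theorem ap_const (K : α → α → ℝ≥0∞) (m : ℕ) (c : ℝ≥0∞) (φ : α → ℝ≥0∞) (x : α) :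
    ap K m (fun y => c * φ y) x = c * ap K m φ x := by
  unfold ap
  rw [← ENNReal.tsum_mul_left]
  refine tsum_congr fun y => ?_
  ring

/-- supersolutions -/
theorem super_it {K : α → α → ℝ≥0∞} {G : α → Prop} (hK : ∀ x y, K x y ≠ 0 → G y)
    {h s : α → ℝ≥0∞} (H : ∀ x, G x → ∑' y, K x y * h y + s x ≤ h x) (n : ℕ) {x : α} (hx : G x) :
    ∑ m ∈ range n, ap K m s x + ap K n h x ≤ h x := by
  induction n generalizing x with
  | zero => simp [ap_zero]
  | succ n ih =>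
    rw [sum_range_succ']
    simp only [ap_succ, ap_zero]
    have e : ∑ m ∈ range n, ∑' z, K x z * ap K m s z + s x + ∑' z, K x z * ap K n h z =
        ∑' z, K x z * (∑ m ∈ range n, ap K m s z + ap K n h z) + s x := by
      simp only [mul_add, mul_sum]
      rw [ENNReal.tsum_add, add_right_comm]
      congr 2
      exact (Summable.tsum_finsetSum (fun _ _ => ENNReal.summable)).symm
    rw [e]
    refine le_trans (add_le_add_left (ENNReal.tsum_le_tsum fun z => ?_) _) (H x hx)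
    by_cases hz : K x z = 0
    · rw [hz, zero_mul, zero_mul]
    · exact mul_le_mul_right (ih (hK x z hz)) _

/-- subsolutions -/
theorem sub_it {K : α → α → ℝ≥0∞} {G : α → Prop} (hK : ∀ x y, K x y ≠ 0 → G y)
    {g : α → ℝ≥0∞} (H : ∀ x, G x → g x ≤ ∑' y, K x y * g y) (n : ℕ) {x : α} (hx : G x) :
    g x ≤ ap K n g x := by
  induction n generalizing x with
  | zero => rw [ap_zero]
  | succ n ih =>
    rw [ap_succ]
    refine (H x hx).trans (ENNReal.tsum_le_tsum fun z => ?_)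
    by_cases hz : K x z = 0
    · rw [hz, zero_mul, zero_mul]
    · exact mul_le_mul_right (ih (hK x z hz)) _

/-- linear growth -/
theorem mom_it {K : α → α → ℝ≥0∞} {G : α → Prop} (hK : ∀ x y, K x y ≠ 0 → G y)
    {φ : α → ℝ≥0∞} {c B : ℝ≥0∞} (H : ∀ x, G x → ∑' y, K x y * φ y ≤ φ x + c)
    (hB : ∀ m x, G x → ap K m (fun _ => 1) x ≤ B) (n : ℕ) {x : α} (hx : G x) :
    ap K n φ x ≤ φ x + n * (c * B) := by
  induction n with
  | zero => rw [ap_zero]; simp
  | succ n ih =>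
    rw [ap_ap]
    calc ap K n (ap K 1 φ) x ≤ ap K n (fun y => φ y + c * 1) x := by
          refine ap_mono hK hx fun y hy => ?_
          rw [ap_one, mul_one]
          exact H y hy
      _ = ap K n φ x + c * ap K n (fun _ => 1) x := by
          rw [ap_add, ap_const]
      _ ≤ (φ x + n * (c * B)) + c * B := add_le_add ih (mul_le_mul_right (hB n x hx) _)
      _ = _ := by push_cast; ring

/-- the inequality of Cauchy and Schwarz -/
theorem cs_sum (B : Finset α) (a : α → ℝ≥0∞) (ha : ∀ y ∈ B, a y ≠ ⊤) :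
    (∑ y ∈ B, a y) ^ 2 ≤ (B.card : ℝ≥0∞) * ∑ y ∈ B, a y ^ 2 := by
  have h1 := sq_sum_le_card_mul_sum_sq (s := B) (f := fun y => (a y).toNNReal)
  have e1 : ∑ y ∈ B, a y = ((∑ y ∈ B, (a y).toNNReal : NNReal) : ℝ≥0∞) := by
    rw [ENNReal.ofNNReal_finsetSum]
    exact sum_congr rfl fun y hy => (ENNReal.coe_toNNReal (ha y hy)).symm
  have e2 : ∑ y ∈ B, a y ^ 2 = ((∑ y ∈ B, (a y).toNNReal ^ 2 : NNReal) : ℝ≥0∞) := by
    rw [ENNReal.ofNNReal_finsetSum]
    refine sum_congr rfl fun y hy => ?_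
    rw [ENNReal.coe_pow, ENNReal.coe_toNNReal (ha y hy)]
  rw [e1, e2]
  exact_mod_cast h1

theorem pw_cs {K : α → α → ℝ≥0∞} (hs : ∀ x y, K x y = K y x) (m : ℕ) (x : α) (B : Finset α)
    (ha : ∀ y ∈ B, pw K m x y ≠ ⊤) :
    (∑ y ∈ B, pw K m x y) ^ 2 ≤ (B.card : ℝ≥0∞) * pw K (m + m) x x := by
  refine (cs_sum B _ ha).trans (mul_le_mul_right ?_ _)
  rw [pw_add]
  refine le_trans ?_ (ENNReal.sum_le_tsum B)
  refine sum_le_sum fun y _ => ?_
  rw [pw_symm hs m y x, sq]

end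

end KN.ST
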