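import Pool.Agent.H132.LG.Sub
import Pool.Agent.H132.LG.It

/-!
# The critical value
-/

set_option autoImplicit false

namespace KN.ST

open KN KN.KQ Finset
open scoped Classical ENNReal

noncomputable section

theorem s_le1 {s : ℝ≥0∞} (hs : s ≤ 1 / 10 ^ 12) : s ≤ 1 := hs.trans (by
  rw [one_div]
  exact ENNReal.inv_le_one.2 (one_le_pow₀ (by norm_num)))

theorem s4_le {s : ℝ≥0∞} (hs : s ≤ 1 / 10 ^ 12) : s ^ 4 ≤ 1 / 10 ^ 12 :=
  calc s ^ 4 ≤ s ^ 1 := pow_le_pow_right_of_le_one' (s_le1 hs) (by norm_num)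
    _ = s := pow_one _
    _ ≤ _ := hs

theorem Mr_le {s q : ℝ≥0∞} (hs : s ≤ 1 / 10 ^ 12) (hq : q ≤ 2) : Mr s q ≤ s ^ 4 := by
  have h1 : Mr s q ≤ s ^ 4 / 40 := by
    refine le_trans (ENNReal.tsum_le_tsum fun b => ?_) (big_sum hs hq)
    by_cases h : B2 b ∧ Sb b
    · rw [if_pos h, if_pos h.1]
      exact le_mul_of_one_le_right zero_le (one_le_pow₀ (by exact_mod_cast (by omega)))
    · rw [if_neg h]
      exact zero_le
  refine h1.trans ?_
  rw [div_eq_mul_inv]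
  exact mul_le_of_le_one_right zero_le (ENNReal.inv_le_one.2 (by norm_num))

theorem Ms_ne_top {s q : ℝ≥0∞} (hs : s ≤ 1 / 10 ^ 12) (hq : q ≤ 2) : Ms s q ≠ ⊤ := by
  rw [Ms_eq]
  have hqt : q ≠ ⊤ := ne_top_of_le_ne_top (by simp) hq
  have hst : s ≠ ⊤ := ne_top_of_le_ne_top (by simp) (s_le1 hs)
  have h1 : Mr s q ≠ ⊤ := ne_top_of_le_ne_top (ENNReal.pow_ne_top hst) (Mr_le hs hq)
  refine ENNReal.add_ne_top.2 ⟨ENNReal.add_ne_top.2 ⟨ENNReal.pow_ne_top hqt, ?_⟩, h1⟩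
  exact ENNReal.mul_ne_top (ENNReal.mul_ne_top (by simp) (ENNReal.pow_ne_top hqt))
    (ENNReal.pow_ne_top hst)

theorem Ms_one (s : ℝ≥0∞) : 1 ≤ Ms s 1 := by
  rw [Ms_eq, one_pow, add_assoc]
  exact le_self_add

theorem Ms_low {s : ℝ≥0∞} (hs : s ≤ 1 / 10 ^ 12) : Ms s (7 / 10) ≤ 1 := by
  have e7 : (7 / 10 : ℝ≥0∞) = ENNReal.ofReal (7 / 10) := by
    rw [ENNReal.ofReal_div_of_pos (by norm_num)]; simp
  have h7 : (7 / 10 : ℝ≥0∞) ≤ 1 := by
    rw [e7, ENNReal.ofReal_le_one]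
    norm_num
  rw [Ms_eq]
  have h1 : (7 / 10 : ℝ≥0∞) ^ 2 ≤ 1 / 2 := by
    have e2 : (1 / 2 : ℝ≥0∞) = ENNReal.ofReal (1 / 2) := by
      rw [ENNReal.ofReal_div_of_pos (by norm_num)]; simp
    rw [e7, e2, ← ENNReal.ofReal_pow (by norm_num)]
    exact ENNReal.ofReal_le_ofReal (by norm_num)
  calc (7 / 10 : ℝ≥0∞) ^ 2 + 8 * (7 / 10) ^ 3 * s ^ 4 + Mr s (7 / 10) ≤
        1 / 2 + 8 * 1 ^ 3 * s ^ 4 + s ^ 4 := by
        gcongr
        exact Mr_le hs (h7.trans (by norm_num))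
    _ = 1 / 2 + 9 * s ^ 4 := by ring
    _ ≤ 1 / 2 + 9 * (1 / 10 ^ 12) := by
        gcongr
        exact s4_le hs
    _ ≤ 1 / 2 + 1 / 2 := by
        gcongr
        rw [← mul_div_assoc, mul_one, ENNReal.div_le_iff_le_mul (Or.inl (by norm_num))
          (Or.inl (by simp)), one_div, mul_comm, ← div_eq_mul_inv,
          ENNReal.le_div_iff_mul_le (Or.inl (by norm_num)) (Or.inl (by simp))]
        norm_num
    _ = 1 := ENNReal.add_halves 1

theorem om_real (s : ℝ≥0∞) {x : ℝ} (hx : 0 ≤ x) (b : Blk) :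
    (om s (ENNReal.ofReal x) b).toReal = x ^ (bl b + 2) * (s ^ (4 * bl b - 8 * wd b)).toReal := by
  unfold om
  rw [ENNReal.toReal_mul, ENNReal.toReal_pow, ENNReal.toReal_ofReal hx]

/-- the critical value -/
theorem crit {s : ℝ≥0∞} (hs : s ≤ 1 / 10 ^ 12) : ∃ q : ℝ≥0∞, 7 / 10 ≤ q ∧ q ≤ 1 ∧ Ms s q = 1 := by
  have hst : s ≠ ⊤ := ne_top_of_le_ne_top (by simp) (s_le1 hs)
  set m : ℝ → ℝ := fun x => ∑' b : Blk, (if Sb b then
    x ^ (bl b + 2) * (s ^ (4 * bl b - 8 * wd b)).toReal else 0) with hm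
  have hfin : ∀ b : Blk, (if Sb b then om s 1 b else 0) ≠ ⊤ := by
    intro b
    have := Ms_ne_top hs (q := 1) (by norm_num)
    exact ne_top_of_le_ne_top this (ENNReal.le_tsum b)
  have hsum : Summable (fun b : Blk => ((if Sb b then om s 1 b else 0) : ℝ≥0∞).toReal) :=
    ENNReal.summable_toReal (Ms_ne_top hs (q := 1) (by norm_num))
  have hcont : ContinuousOn m (Set.Icc (7 / 10) 1) := by
    refine continuousOn_tsum (u := fun b : Blk => ((if Sb b then om s 1 b else 0) : ℝ≥0∞).toReal)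
      ?_ hsum ?_
    · intro b
      split_ifs
      · exact ((continuous_pow _).mul continuous_const).continuousOn
      · exact continuousOn_const
    · intro b x hx
      have h0 : (0 : ℝ) ≤ x := by linarith [hx.1]
      by_cases h : Sb b
      · rw [if_pos h, if_pos h]
        have := om_real s (x := 1) zero_le_one b
        rw [ENNReal.ofReal_one] at this
        rw [this, one_pow, one_mul, Real.norm_of_nonneg (by positivity)]
        exact mul_le_of_le_one_left ENNReal.toReal_nonneg (pow_le_one₀ h0 hx.2)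
      · rw [if_neg h, if_neg h]
        simp
  have hreal : ∀ x : ℝ, 0 ≤ x → x ≤ 1 → m x = (Ms s (ENNReal.ofReal x)).toReal := by
    intro x h0 h1
    have hx1 : ENNReal.ofReal x ≤ 1 := ENNReal.ofReal_le_one.2 h1
    unfold Ms
    rw [ENNReal.tsum_toReal_eq]
    · refine tsum_congr fun b => ?_
      split_ifs with h
      · exact (om_real s h0 b).symm
      · rfl
    · intro b
      have := Ms_ne_top hs (q := ENNReal.ofReal x) (hx1.trans (by norm_num))
      exact ne_top_of_le_ne_top this (ENNReal.le_tsum b)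
  have h7 : m (7 / 10) ≤ 1 := by
    rw [hreal _ (by norm_num) (by norm_num)]
    have e7 : (7 / 10 : ℝ≥0∞) = ENNReal.ofReal (7 / 10) := by
      rw [ENNReal.ofReal_div_of_pos (by norm_num)]; simp
    rw [← e7]
    have := ENNReal.toReal_mono ENNReal.one_ne_top (Ms_low hs)
    simpa using this
  have h1 : 1 ≤ m 1 := by
    rw [hreal _ (by norm_num) le_rfl, ENNReal.ofReal_one]
    have := ENNReal.toReal_mono (Ms_ne_top hs (q := 1) (by norm_num)) (Ms_one s)
    simpa using this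
  obtain ⟨x, hx, hx1⟩ := intermediate_value_Icc (by norm_num) hcont ⟨h7, h1⟩
  have hx0 : (0 : ℝ) ≤ x := by linarith [hx.1]
  refine ⟨ENNReal.ofReal x, ?_, ENNReal.ofReal_le_one.2 hx.2, ?_⟩
  · have e7 : (7 / 10 : ℝ≥0∞) = ENNReal.ofReal (7 / 10) := by
      rw [ENNReal.ofReal_div_of_pos (by norm_num)]; simp
    rw [e7]
    exact ENNReal.ofReal_le_ofReal hx.1
  · rw [hreal x hx0 hx.2] at hx1
    have h2 := ENNReal.ofReal_toReal (Ms_ne_top hs (q := ENNReal.ofReal x)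
      ((ENNReal.ofReal_le_one.2 hx.2).trans (by norm_num)))
    rw [hx1, ENNReal.ofReal_one] at h2
    exact h2.symm

end

end KN.ST
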