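import Pool.Agent.H132.LG.Dir

/-!
# Bounds of the powers of the kernel and survival
-/

set_option autoImplicit false

namespace KN.ST

open KN KN.KQ Finset
open scoped Classical ENNReal

noncomputable section

variable {K : Z3 → Z3 → ℝ≥0∞} {κ : ℝ≥0∞}

theorem rec_real {x : ℕ → ℝ} {k : ℝ} (hk : 0 < k) (hk1 : k ≤ 1) (h0 : x 0 ≤ 1)
    (hx : ∀ m, 0 ≤ x m) (h : ∀ m, 324 * x (m + 1) + k * x m ^ 2 ≤ 324 * x m) (m : ℕ) :
    k * (m + 1) * x m ≤ 324 := by
  have key : ∀ m : ℕ, (k * x m / 324) * (m + 1) ≤ 1 := by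
    intro m
    induction m with
    | zero =>
      have := hx 0
      push_cast
      nlinarith
    | succ m ih =>
      set t := k * x m / 324 with ht
      have ht0 : 0 ≤ t := by
        have := hx m
        positivity
      have hm0 : (0 : ℝ) ≤ m := Nat.cast_nonneg m
      have h1 : k * x (m + 1) / 324 ≤ t - t ^ 2 := by
        have h2 := mul_le_mul_of_nonneg_left (h m) hk.le
        rw [ht]
        have e : k * x m / 324 - (k * x m / 324) ^ 2 =
            (k * (324 * x m) - k * (k * x m ^ 2)) / (324 * 324) := by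
          field_simp
        rw [e, div_le_div_iff₀ (by norm_num) (by norm_num)]
        nlinarith
      have h3 : (t - t ^ 2) * (m + 1 + 1) ≤ 1 := by
        have h4 : 0 ≤ (1 - t * (m + 1)) * (1 - t) := by
          refine mul_nonneg (by linarith) ?_
          nlinarith
        nlinarith [sq_nonneg t]
      have h5 := hx (m + 1)
      push_cast
      calc k * x (m + 1) / 324 * (m + 1 + 1) ≤ (t - t ^ 2) * (m + 1 + 1) :=
            mul_le_mul_of_nonneg_right h1 (by linarith)
        _ ≤ 1 := h3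
  have h1 := key m
  have e : k * (m + 1) * x m = 324 * ((k * x m / 324) * (m + 1)) := by field_simp
  rw [e]
  linarith

theorem WK.ktop (h : WK K κ) : κ ≠ ⊤ := ne_top_of_le_ne_top (by simp) h.k1

theorem sq_sum (h : WK K κ) (m : ℕ) (E : Z3) : ∑' D, pw K m D E ^ 2 = pw K (m + m) E E := by
  rw [pw_add]
  refine tsum_congr fun D => ?_
  rw [pow_two, pw_symm h.sym m E D]

theorem WK.diag (h : WK K κ) {E : Z3} (hE : St E) (m : ℕ) :
    κ * ((m + 1 : ℕ) : ℝ≥0∞) * pw K (m + m) E E ≤ 324 := by
  have hrec : ∀ m, 324 * pw K (m + 1 + (m + 1)) E E + κ * pw K (m + m) E E ^ 2 ≤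
      324 * pw K (m + m) E E := by
    intro m
    have h1 := h.nash (φ := fun D => pw K m D E) (fun D hD => by
      rw [pw_symm h.sym] at hD
      exact pw_G (G := St) h.st hE hD) (by
      have := h.mass m hE
      unfold ap at this
      refine le_trans (le_of_eq (tsum_congr fun D => ?_)) this
      rw [mul_one, pw_symm h.sym])
    rw [sq_sum h] at h1
    have e : ∑' D, ∑' F, pw K 2 D F * (pw K m D E * pw K m F E) =
        pw K (m + 1 + (m + 1)) E E := by
      rw [show m + 1 + (m + 1) = m + (2 + m) by ring, pw_add]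
      refine tsum_congr fun D => ?_
      rw [pw_add, ← ENNReal.tsum_mul_left, pw_symm h.sym m E D]
      refine tsum_congr fun F => ?_
      ring
    rw [e] at h1
    exact h1
  have ht : ∀ m, pw K (m + m) E E ≠ ⊤ := fun m =>
    ne_top_of_le_ne_top (by simp) (h.pw_top hE (m + m) E)
  have h1 := rec_real (x := fun m => (pw K (m + m) E E).toReal) (k := κ.toReal)
    (ENNReal.toReal_pos h.k0 h.ktop) (by
      have := ENNReal.toReal_mono (by simp) h.k1
      simpa using this) (by simp [pw]) (fun m => ENNReal.toReal_nonneg) (fun m => by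
      have h2 := ENNReal.toReal_mono (ENNReal.mul_ne_top (by simp) (ht m)) (hrec m)
      rw [ENNReal.toReal_add (ENNReal.mul_ne_top (by simp) (ht _))
        (ENNReal.mul_ne_top h.ktop (ENNReal.pow_ne_top (ht _))), ENNReal.toReal_mul,
        ENNReal.toReal_mul, ENNReal.toReal_pow, ENNReal.toReal_mul] at h2
      simpa using h2) m
  have h3 : (κ * ((m + 1 : ℕ) : ℝ≥0∞) * pw K (m + m) E E).toReal ≤ (324 : ℝ≥0∞).toReal := by
    rw [ENNReal.toReal_mul, ENNReal.toReal_mul, ENNReal.toReal_natCast]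
    push_cast
    simpa using h1
  exact (ENNReal.toReal_le_toReal (ENNReal.mul_ne_top (ENNReal.mul_ne_top h.ktop
    (ENNReal.natCast_ne_top _)) (ht m)) (by simp)).1 h3

theorem WK.even (h : WK K κ) {D E : Z3} (hD : St D) (hE : St E) (m : ℕ) :
    κ * ((m + 1 : ℕ) : ℝ≥0∞) * pw K (m + m) D E ≤ 324 := by
  refine le_of_sq ?_
  have h1 : pw K (m + m) D E ^ 2 ≤ pw K (m + m) D D * pw K (m + m) E E := by
    rw [← sq_sum h m D, ← sq_sum h m E, pw_add]
    have := cs_tsum (fun F => pw K m F D) (fun F => pw K m F E)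
    refine le_trans (le_of_eq ?_) this
    congr 1
    refine tsum_congr fun F => ?_
    rw [pw_symm h.sym m D F]
  calc (κ * ((m + 1 : ℕ) : ℝ≥0∞) * pw K (m + m) D E) ^ 2 =
        (κ * ((m + 1 : ℕ) : ℝ≥0∞)) ^ 2 * pw K (m + m) D E ^ 2 := by ring
    _ ≤ (κ * ((m + 1 : ℕ) : ℝ≥0∞)) ^ 2 * (pw K (m + m) D D * pw K (m + m) E E) :=
        mul_le_mul_right h1 _
    _ = (κ * ((m + 1 : ℕ) : ℝ≥0∞) * pw K (m + m) D D) *
        (κ * ((m + 1 : ℕ) : ℝ≥0∞) * pw K (m + m) E E) := by ring
    _ ≤ 324 * 324 := mul_le_mul' (h.diag hD m) (h.diag hE m)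
    _ = _ := by ring

/-- the decay of the powers -/
theorem WK.off (h : WK K κ) {D E : Z3} (hD : St D) (hE : St E) (m : ℕ) :
    κ * ((m + 1 : ℕ) : ℝ≥0∞) * pw K m D E ≤ 1296 := by
  rcases Nat.even_or_odd' m with ⟨n, rfl | rfl⟩
  · have h1 := h.even hD hE n
    rw [← two_mul] at h1
    calc κ * ((2 * n + 1 : ℕ) : ℝ≥0∞) * pw K (2 * n) D E ≤
          κ * ((2 * (n + 1) : ℕ) : ℝ≥0∞) * pw K (2 * n) D E := by
          gcongr
          omega
      _ = 2 * (κ * ((n + 1 : ℕ) : ℝ≥0∞) * pw K (2 * n) D E) := by push_cast; ring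
      _ ≤ 2 * 324 := mul_le_mul_right h1 _
      _ ≤ 1296 := by norm_num
  · have h2 : κ * ((n + 1 : ℕ) : ℝ≥0∞) * pw K (2 * n + 1) D E ≤ 2 * 324 := by
      rw [add_comm (2 * n) 1, pw_add]
      simp only [pw_one]
      have h3 := h.mass 1 hD
      rw [ap_one] at h3
      calc κ * ((n + 1 : ℕ) : ℝ≥0∞) * ∑' F, K D F * pw K (2 * n) F E =
            ∑' F, K D F * (κ * ((n + 1 : ℕ) : ℝ≥0∞) * pw K (2 * n) F E) := by
            rw [← ENNReal.tsum_mul_left]
            refine tsum_congr fun F => ?_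
            ring
        _ ≤ ∑' F, K D F * 1 * 324 := by
            refine ENNReal.tsum_le_tsum fun F => ?_
            by_cases hF : K D F = 0
            · rw [hF]; simp
            · rw [mul_one]
              refine mul_le_mul_right ?_ _
              have := h.even (h.st D F hF) hE n
              rwa [← two_mul] at this
        _ = (∑' F, K D F * 1) * 324 := ENNReal.tsum_mul_right
        _ ≤ 2 * 324 := mul_le_mul_left h3 _
    calc κ * ((2 * n + 1 + 1 : ℕ) : ℝ≥0∞) * pw K (2 * n + 1) D E =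
          2 * (κ * ((n + 1 : ℕ) : ℝ≥0∞) * pw K (2 * n + 1) D E) := by push_cast; ring
      _ ≤ 2 * (2 * 324) := mul_le_mul_right h2 _
      _ = 1296 := by norm_num

/-- survival far away -/
theorem WK.out (h : WK K κ) {D : Z3} (hD : St D) (m : ℕ) {R : ℕ} (hR : 1 ≤ R) :
    ENNReal.ofReal (LR R) * ∑' E, (if E ∈ BR R then 0 else pw K m D E) ≤ lg D := by
  set L := ENNReal.ofReal (LR R) with hL
  have h1 := super_it (G := St) h.st (h := fun E => min (lg E) (L * hh E)) (s := fun _ => 0)
    (fun D hD => by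
      rw [add_zero]
      refine le_min ?_ ?_
      · exact (ENNReal.tsum_le_tsum fun E => mul_le_mul_right (min_le_left _ _) _).trans
          (h.sup2 D hD)
      · calc ∑' E, K D E * min (lg E) (L * hh E) ≤ ∑' E, K D E * (L * hh E) :=
              ENNReal.tsum_le_tsum fun E => mul_le_mul_right (min_le_right _ _) _
          _ = L * ∑' E, K D E * hh E := by
              rw [← ENNReal.tsum_mul_left]
              refine tsum_congr fun E => ?_
              ring
          _ ≤ _ := mul_le_mul_right (le_self_add.trans (h.sup D hD)) _) m hD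
  refine le_trans ?_ ((le_add_self).trans (h1.trans (min_le_left _ _)))
  unfold ap
  rw [← ENNReal.tsum_mul_left]
  refine ENNReal.tsum_le_tsum fun E => ?_
  by_cases hE : E ∈ BR R
  · rw [if_pos hE, mul_zero]
    exact zero_le
  · rw [if_neg hE, mul_comm]
    by_cases h0 : pw K m D E = 0
    · rw [h0, zero_mul, zero_mul]
    · refine mul_le_mul_right ?_ _
      have hS := pw_G (G := St) h.st hD h0
      refine le_min ?_ ?_
      · rw [lg_ne hS.2, hL]
        refine ENNReal.ofReal_le_ofReal ?_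
        have g1 := lr_ge hS.1 hS.2
        have g2 := rr_out hS.1 hE
        have hR1 : (1 : ℝ) ≤ R := by exact_mod_cast hR
        have g3 : LR R ≤ Real.log (rr E) := by
          unfold LR
          exact Real.log_le_log (by positivity) g2
        linarith
      · exact le_mul_of_one_le_right zero_le (le_trans (by norm_num) (hh_ge hS.1 hS.2))

/-- survival in a ball -/
theorem WK.inn (h : WK K κ) {D : Z3} (hD : St D) (m R : ℕ) :
    κ * ((m + 1 : ℕ) : ℝ≥0∞) * ∑' E, (if E ∈ BR R then pw K m D E else 0) ≤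
      1296 * ((2 * R + 1 : ℕ) : ℝ≥0∞) ^ 2 := by
  rw [tsum_eq_sum (s := BR R) (fun E hE => if_neg hE), mul_sum]
  calc ∑ E ∈ BR R, κ * ((m + 1 : ℕ) : ℝ≥0∞) * (if E ∈ BR R then pw K m D E else 0) ≤
        ∑ E ∈ BR R, 1296 := by
        refine sum_le_sum fun E hE => ?_
        rw [if_pos hE]
        by_cases h0 : pw K m D E = 0
        · rw [h0, mul_zero]
          exact zero_le
        · exact h.off hD (pw_G (G := St) h.st hD h0) m
    _ = _ := by
        rw [sum_const, card_BR, nsmul_eq_mul, mul_comm]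
        push_cast
        ring

end

end KN.ST
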