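import Mathlib

/-!
# The inequality of Nash on the square lattice
-/

set_option autoImplicit false

namespace KN.ST

open Finset
open scoped Classical ENNReal

noncomputable section

/-- the distance of two numbers -/
def dd (a b : ℝ≥0∞) : ℝ≥0∞ := (a - b) + (b - a)

theorem dd_comm (a b : ℝ≥0∞) : dd a b = dd b a := by
  unfold dd
  rw [add_comm]

theorem dd_add {a c : ℝ≥0∞} (ha : a ≠ ⊤) : dd (a + c) a = c := by
  unfold dd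
  rw [ENNReal.add_sub_cancel_left ha, tsub_eq_zero_of_le le_self_add, add_zero]

theorem dd_zero (a : ℝ≥0∞) : dd a 0 = a := by simp [dd]

theorem exists_dd {a b : ℝ≥0∞} (h : b ≤ a) : ∃ c, a = b + c := exists_add_of_le h

theorem dd_sq {a b : ℝ≥0∞} (ha : a ≠ ⊤) (hb : b ≠ ⊤) :
    a ^ 2 + b ^ 2 = 2 * (a * b) + dd a b ^ 2 := by
  rcases le_total b a with h | h
  · obtain ⟨c, rfl⟩ := exists_dd h
    rw [dd_add hb]
    ring
  · obtain ⟨c, rfl⟩ := exists_dd h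
    rw [dd_comm, dd_add ha]
    ring

theorem two_mul_le (a b : ℝ≥0∞) : 2 * (a * b) ≤ a ^ 2 + b ^ 2 := by
  rcases le_total b a with h | h
  · obtain ⟨c, rfl⟩ := exists_dd h
    calc 2 * ((b + c) * b) ≤ 2 * ((b + c) * b) + c ^ 2 := le_self_add
      _ = _ := by ring
  · obtain ⟨c, rfl⟩ := exists_dd h
    calc 2 * (a * (a + c)) ≤ 2 * (a * (a + c)) + c ^ 2 := le_self_add
      _ = _ := by ring

theorem dd_sq_mul {a b : ℝ≥0∞} (ha : a ≠ ⊤) (hb : b ≠ ⊤) :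
    dd (a ^ 2) (b ^ 2) = dd a b * (a + b) := by
  rcases le_total b a with h | h
  · obtain ⟨c, rfl⟩ := exists_dd h
    rw [dd_add hb]
    have e : (b + c) ^ 2 = b ^ 2 + c * (b + c + b) := by ring
    rw [e, dd_add (ENNReal.pow_ne_top hb)]
  · obtain ⟨c, rfl⟩ := exists_dd h
    rw [dd_comm, dd_comm a, dd_add ha]
    have e : (a + c) ^ 2 = a ^ 2 + c * (a + (a + c)) := by ring
    rw [e, dd_add (ENNReal.pow_ne_top ha)]

theorem le_add_dd (a b : ℝ≥0∞) : a ≤ b + dd a b := by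
  unfold dd
  calc a ≤ b + (a - b) := le_add_tsub
    _ ≤ _ := by
      rw [← add_assoc]
      exact le_self_add

/-- the inequality of Cauchy and Schwarz -/
theorem cs_tsum {β : Type} (f g : β → ℝ≥0∞) :
    (∑' x, f x * g x) ^ 2 ≤ (∑' x, f x ^ 2) * ∑' x, g x ^ 2 := by
  have e1 : (∑' x, f x * g x) ^ 2 = ∑' x, ∑' y, (f x * g y) * (f y * g x) := by
    rw [sq, ← ENNReal.tsum_mul_right]
    refine tsum_congr fun x => ?_
    rw [← ENNReal.tsum_mul_left]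
    refine tsum_congr fun y => ?_
    ring
  have e2 : (∑' x, f x ^ 2) * ∑' x, g x ^ 2 = ∑' x, ∑' y, (f x * g y) ^ 2 := by
    rw [← ENNReal.tsum_mul_right]
    refine tsum_congr fun x => ?_
    rw [← ENNReal.tsum_mul_left]
    refine tsum_congr fun y => ?_
    ring
  have e3 : (∑' x, f x ^ 2) * ∑' x, g x ^ 2 = ∑' x, ∑' y, (f y * g x) ^ 2 := by
    rw [e2, ENNReal.tsum_comm]
  have h1 : 2 * (∑' x, f x * g x) ^ 2 ≤ 2 * ((∑' x, f x ^ 2) * ∑' x, g x ^ 2) := by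
    rw [e1, two_mul ((∑' x, f x ^ 2) * ∑' x, g x ^ 2)]
    nth_rewrite 1 [e2]
    rw [e3, ← ENNReal.tsum_add, ← ENNReal.tsum_mul_left]
    refine ENNReal.tsum_le_tsum fun x => ?_
    rw [← ENNReal.tsum_add, ← ENNReal.tsum_mul_left]
    refine ENNReal.tsum_le_tsum fun y => ?_
    exact two_mul_le _ _
  exact (ENNReal.mul_le_mul_iff_right (by norm_num) (by norm_num)).1 h1

/-- telescoping -/
theorem tele {u : ℤ → ℝ≥0∞} (hu : ∑' i, u i ≠ ⊤) (a : ℤ) :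
    u a ≤ ∑' i : ℤ, dd (u (i + 1)) (u i) := by
  set S := ∑' i : ℤ, dd (u (i + 1)) (u i) with hS
  have h1 : ∀ n : ℕ, u a ≤ u (a - n) + S := by
    have h2 : ∀ n : ℕ, u a ≤ u (a - n) + ∑ j ∈ range n, dd (u (a - j - 1 + 1)) (u (a - j - 1)) := by
      intro n
      induction n with
      | zero => simp
      | succ n ih =>
        refine ih.trans ?_
        rw [sum_range_succ]
        have h3 := le_add_dd (u (a - n)) (u (a - ((n + 1 : ℕ) : ℤ)))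
        have e1 : a - (n : ℤ) - 1 + 1 = a - n := by ring
        have e2 : a - (n : ℤ) - 1 = a - ((n + 1 : ℕ) : ℤ) := by push_cast; ring
        rw [e1, e2]
        calc u (a - n) + ∑ j ∈ range n, dd (u (a - j - 1 + 1)) (u (a - j - 1)) ≤
            (u (a - ((n + 1 : ℕ) : ℤ)) + dd (u (a - n)) (u (a - ((n + 1 : ℕ) : ℤ)))) +
              ∑ j ∈ range n, dd (u (a - j - 1 + 1)) (u (a - j - 1)) := add_le_add_left h3 _
          _ = _ := by ring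
    intro n
    refine (h2 n).trans (add_le_add_right ?_ _)
    have h3 : ∑ j ∈ range n, dd (u (a - j - 1 + 1)) (u (a - j - 1)) =
        ∑ i ∈ (range n).image (fun j : ℕ => a - (j : ℤ) - 1), dd (u (i + 1)) (u i) := by
      rw [sum_image]
      intro x _ y _ hxy
      simp only at hxy
      omega
    rw [h3]
    exact ENNReal.sum_le_tsum _
  -- the values are small somewhere
  refine le_of_forall_pos_le_add fun ε hε => ?_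
  by_contra hn
  push Not at hn
  have h2 : ∀ n : ℕ, ε ≤ u (a - n) := by
    intro n
    by_contra hc
    push Not at hc
    have := hn.trans_le (h1 n)
    rw [add_comm] at this
    exact absurd (add_le_add_left hc.le S) (not_le.2 this)
  have h3 : ∑' n : ℕ, ε ≤ ∑' i, u i := by
    refine (ENNReal.tsum_le_tsum h2).trans ?_
    exact ENNReal.tsum_comp_le_tsum_of_injective (fun x y hxy => by omega) u
  rw [ENNReal.tsum_const_eq_top_of_ne_zero hε.ne'] at h3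
  exact hu (top_le_iff.1 h3)

/-- the inequality of Gagliardo and Nirenberg -/
theorem gn {u : ℤ × ℤ → ℝ≥0∞} (hu : ∑' p, u p ≠ ⊤) :
    ∑' p, u p ^ 2 ≤ (∑' p : ℤ × ℤ, dd (u (p.1 + 1, p.2)) (u p)) *
      ∑' p : ℤ × ℤ, dd (u (p.1, p.2 + 1)) (u p) := by
  have hu1 : ∑' a : ℤ, ∑' b : ℤ, u (a, b) ≠ ⊤ := by rwa [← ENNReal.tsum_prod]
  have hu2 : ∑' b : ℤ, ∑' a : ℤ, u (a, b) ≠ ⊤ := by rwa [ENNReal.tsum_comm]
  have h1 : ∀ a b : ℤ, u (a, b) ≤ ∑' i : ℤ, dd (u (i + 1, b)) (u (i, b)) := fun a b =>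
    tele (u := fun i => u (i, b)) (ne_top_of_le_ne_top hu2 (ENNReal.le_tsum b)) a
  have h2 : ∀ a b : ℤ, u (a, b) ≤ ∑' i : ℤ, dd (u (a, i + 1)) (u (a, i)) := fun a b =>
    tele (u := fun i => u (a, i)) (ne_top_of_le_ne_top hu1 (ENNReal.le_tsum a)) b
  have e1 : ∑' p : ℤ × ℤ, dd (u (p.1 + 1, p.2)) (u p) =
      ∑' b : ℤ, ∑' i : ℤ, dd (u (i + 1, b)) (u (i, b)) := by
    rw [ENNReal.tsum_comm]
    exact ENNReal.tsum_prod'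
  have e2 : ∑' p : ℤ × ℤ, dd (u (p.1, p.2 + 1)) (u p) =
      ∑' a : ℤ, ∑' i : ℤ, dd (u (a, i + 1)) (u (a, i)) := ENNReal.tsum_prod'
  rw [e1, e2, ENNReal.tsum_prod', mul_comm, ← ENNReal.tsum_mul_right]
  refine ENNReal.tsum_le_tsum fun a => ?_
  rw [← ENNReal.tsum_mul_left]
  refine ENNReal.tsum_le_tsum fun b => ?_
  rw [sq]
  exact mul_le_mul' (h2 a b) (h1 a b)

/-- the two parts of the energy -/
def E1 (ψ : ℤ × ℤ → ℝ≥0∞) : ℝ≥0∞ := ∑' p : ℤ × ℤ, dd (ψ (p.1 + 1, p.2)) (ψ p) ^ 2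
def E2 (ψ : ℤ × ℤ → ℝ≥0∞) : ℝ≥0∞ := ∑' p : ℤ × ℤ, dd (ψ (p.1, p.2 + 1)) (ψ p) ^ 2

theorem sq_add_le (a b : ℝ≥0∞) : (a + b) ^ 2 ≤ 2 * a ^ 2 + 2 * b ^ 2 := by
  calc (a + b) ^ 2 = a ^ 2 + b ^ 2 + 2 * (a * b) := by ring
    _ ≤ a ^ 2 + b ^ 2 + (a ^ 2 + b ^ 2) := add_le_add_right (two_mul_le a b) _
    _ = _ := by ring

theorem tshift1 (f : ℤ × ℤ → ℝ≥0∞) : ∑' p : ℤ × ℤ, f (p.1 + 1, p.2) = ∑' p, f p := by
  have := (((Equiv.addRight (1 : ℤ)).prodCongr (Equiv.refl ℤ))).tsum_eq f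
  rw [← this]
  rfl

theorem tshift2 (f : ℤ × ℤ → ℝ≥0∞) : ∑' p : ℤ × ℤ, f (p.1, p.2 + 1) = ∑' p, f p := by
  have := (((Equiv.refl ℤ).prodCongr (Equiv.addRight (1 : ℤ)))).tsum_eq f
  rw [← this]
  rfl

theorem grad1 {ψ : ℤ × ℤ → ℝ≥0∞} (h : ∀ p, ψ p ≠ ⊤) :
    (∑' p : ℤ × ℤ, dd (ψ (p.1 + 1, p.2) ^ 2) (ψ p ^ 2)) ^ 2 ≤ E1 ψ * (4 * ∑' p, ψ p ^ 2) := by
  have e : ∀ p : ℤ × ℤ, dd (ψ (p.1 + 1, p.2) ^ 2) (ψ p ^ 2) =
      dd (ψ (p.1 + 1, p.2)) (ψ p) * (ψ (p.1 + 1, p.2) + ψ p) := fun p => dd_sq_mul (h _) (h _)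
  simp only [e]
  refine (cs_tsum _ _).trans (mul_le_mul_right ?_ _)
  calc ∑' p : ℤ × ℤ, (ψ (p.1 + 1, p.2) + ψ p) ^ 2 ≤
        ∑' p : ℤ × ℤ, (2 * ψ (p.1 + 1, p.2) ^ 2 + 2 * ψ p ^ 2) :=
        ENNReal.tsum_le_tsum fun p => sq_add_le _ _
    _ = 2 * ∑' p : ℤ × ℤ, ψ (p.1 + 1, p.2) ^ 2 + 2 * ∑' p, ψ p ^ 2 := by
        rw [ENNReal.tsum_add, ENNReal.tsum_mul_left, ENNReal.tsum_mul_left]
    _ = _ := by
        rw [tshift1 (fun p => ψ p ^ 2)]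
        ring

theorem grad2 {ψ : ℤ × ℤ → ℝ≥0∞} (h : ∀ p, ψ p ≠ ⊤) :
    (∑' p : ℤ × ℤ, dd (ψ (p.1, p.2 + 1) ^ 2) (ψ p ^ 2)) ^ 2 ≤ E2 ψ * (4 * ∑' p, ψ p ^ 2) := by
  have e : ∀ p : ℤ × ℤ, dd (ψ (p.1, p.2 + 1) ^ 2) (ψ p ^ 2) =
      dd (ψ (p.1, p.2 + 1)) (ψ p) * (ψ (p.1, p.2 + 1) + ψ p) := fun p => dd_sq_mul (h _) (h _)
  simp only [e]
  refine (cs_tsum _ _).trans (mul_le_mul_right ?_ _)
  calc ∑' p : ℤ × ℤ, (ψ (p.1, p.2 + 1) + ψ p) ^ 2 ≤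
        ∑' p : ℤ × ℤ, (2 * ψ (p.1, p.2 + 1) ^ 2 + 2 * ψ p ^ 2) :=
        ENNReal.tsum_le_tsum fun p => sq_add_le _ _
    _ = 2 * ∑' p : ℤ × ℤ, ψ (p.1, p.2 + 1) ^ 2 + 2 * ∑' p, ψ p ^ 2 := by
        rw [ENNReal.tsum_add, ENNReal.tsum_mul_left, ENNReal.tsum_mul_left]
    _ = _ := by
        rw [tshift2 (fun p => ψ p ^ 2)]
        ring

theorem le_of_sq {a b : ℝ≥0∞} (h : a ^ 2 ≤ b ^ 2) : a ≤ b := by
  by_contra hn
  push Not at hn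
  exact absurd (ENNReal.pow_lt_pow_left (by norm_num : (2 : ℕ) ≠ 0) hn) (not_lt.2 h)

/-- the inequality of Nash -/
theorem nash {ψ : ℤ × ℤ → ℝ≥0∞} (hs : ∑' p, ψ p ≠ ⊤) :
    (∑' p, ψ p ^ 2) ^ 2 ≤ 4 * (∑' p, ψ p) ^ 2 * (E1 ψ + E2 ψ) := by
  have hf : ∀ p, ψ p ≠ ⊤ := fun p => ne_top_of_le_ne_top hs (ENNReal.le_tsum p)
  set A := ∑' p, ψ p with hA
  set B := ∑' p, ψ p ^ 2 with hB
  set C := ∑' p, ψ p ^ 4 with hC
  have hBA : B ≤ A ^ 2 := by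
    rw [sq, hB, hA, ← ENNReal.tsum_mul_right]
    refine ENNReal.tsum_le_tsum fun p => ?_
    rw [sq]
    exact mul_le_mul_right (ENNReal.le_tsum p) _
  have hBt : B ≠ ⊤ := ne_top_of_le_ne_top (ENNReal.pow_ne_top hs) hBA
  by_cases hB0 : B = 0
  · rw [hB0]; simp
  -- interpolation
  have h1 : B ^ 2 ≤ A * ∑' p, ψ p ^ 3 := by
    -- `ψ ^ 2 = sqrt ψ * sqrt (ψ ^ 3)`: by expansion
    have e1 : B ^ 2 = ∑' x, ∑' y, ψ x ^ 2 * ψ y ^ 2 := by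
      rw [sq, hB, ← ENNReal.tsum_mul_right]
      refine tsum_congr fun x => ?_
      rw [← ENNReal.tsum_mul_left]
    have e2 : A * ∑' p, ψ p ^ 3 = ∑' x, ∑' y, ψ x * ψ y ^ 3 := by
      rw [hA, ← ENNReal.tsum_mul_right]
      refine tsum_congr fun x => ?_
      rw [← ENNReal.tsum_mul_left]
    have e3 : A * ∑' p, ψ p ^ 3 = ∑' x, ∑' y, ψ y * ψ x ^ 3 := by
      rw [e2, ENNReal.tsum_comm]
    have h2 : 2 * B ^ 2 ≤ 2 * (A * ∑' p, ψ p ^ 3) := by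
      rw [e1, two_mul (A * ∑' p, ψ p ^ 3)]
      nth_rewrite 1 [e2]
      rw [e3, ← ENNReal.tsum_add, ← ENNReal.tsum_mul_left]
      refine ENNReal.tsum_le_tsum fun x => ?_
      rw [← ENNReal.tsum_add, ← ENNReal.tsum_mul_left]
      refine ENNReal.tsum_le_tsum fun y => ?_
      calc 2 * (ψ x ^ 2 * ψ y ^ 2) = ψ x * ψ y * (2 * (ψ y * ψ x)) := by ring
        _ ≤ ψ x * ψ y * (ψ y ^ 2 + ψ x ^ 2) := mul_le_mul_right (two_mul_le _ _) _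
        _ = _ := by ring
    exact (ENNReal.mul_le_mul_iff_right (by norm_num) (by norm_num)).1 h2
  have h2 : (∑' p, ψ p ^ 3) ^ 2 ≤ B * C := by
    have := cs_tsum (fun p => ψ p) (fun p => ψ p ^ 2)
    have e1 : ∀ p, ψ p * ψ p ^ 2 = ψ p ^ 3 := fun p => by ring
    have e2 : ∀ p, (ψ p ^ 2) ^ 2 = ψ p ^ 4 := fun p => by ring
    simp only [e1, e2] at this
    exact this
  have h3 : B ^ 3 ≤ A ^ 2 * C := by
    have h4 : B * B ^ 3 ≤ B * (A ^ 2 * C) := by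
      calc B * B ^ 3 = (B ^ 2) ^ 2 := by ring
        _ ≤ (A * ∑' p, ψ p ^ 3) ^ 2 := pow_le_pow_left' h1 2
        _ = A ^ 2 * (∑' p, ψ p ^ 3) ^ 2 := by ring
        _ ≤ A ^ 2 * (B * C) := mul_le_mul_right h2 _
        _ = _ := by ring
    exact (ENNReal.mul_le_mul_iff_right hB0 hBt).1 h4
  have h4 : C ≤ (∑' p : ℤ × ℤ, dd (ψ (p.1 + 1, p.2) ^ 2) (ψ p ^ 2)) *
      ∑' p : ℤ × ℤ, dd (ψ (p.1, p.2 + 1) ^ 2) (ψ p ^ 2) := by
    have := gn (u := fun p => ψ p ^ 2) hBt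
    have e2 : ∀ p, (ψ p ^ 2) ^ 2 = ψ p ^ 4 := fun p => by ring
    simp only [e2] at this
    exact this
  have h5 : C ^ 2 ≤ 16 * (E1 ψ * E2 ψ) * B ^ 2 := by
    calc C ^ 2 ≤ ((∑' p : ℤ × ℤ, dd (ψ (p.1 + 1, p.2) ^ 2) (ψ p ^ 2)) *
          ∑' p : ℤ × ℤ, dd (ψ (p.1, p.2 + 1) ^ 2) (ψ p ^ 2)) ^ 2 := pow_le_pow_left' h4 2
      _ = (∑' p : ℤ × ℤ, dd (ψ (p.1 + 1, p.2) ^ 2) (ψ p ^ 2)) ^ 2 *
          (∑' p : ℤ × ℤ, dd (ψ (p.1, p.2 + 1) ^ 2) (ψ p ^ 2)) ^ 2 := by ring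
      _ ≤ E1 ψ * (4 * B) * (E2 ψ * (4 * B)) := mul_le_mul' (grad1 hf) (grad2 hf)
      _ = _ := by ring
  have h6 : (B ^ 2) ^ 2 ≤ (4 * A ^ 2 * (E1 ψ + E2 ψ)) ^ 2 := by
    have h7 : B ^ 2 * (B ^ 2) ^ 2 ≤ B ^ 2 * (4 * A ^ 2 * (E1 ψ + E2 ψ)) ^ 2 := by
      calc B ^ 2 * (B ^ 2) ^ 2 = (B ^ 3) ^ 2 := by ring
        _ ≤ (A ^ 2 * C) ^ 2 := pow_le_pow_left' h3 2
        _ = A ^ 4 * C ^ 2 := by ring
        _ ≤ A ^ 4 * (16 * (E1 ψ * E2 ψ) * B ^ 2) := mul_le_mul_right h5 _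
        _ ≤ A ^ 4 * (16 * ((E1 ψ + E2 ψ) * (E1 ψ + E2 ψ)) * B ^ 2) := by
            gcongr
            · exact le_self_add
            · exact le_add_self
        _ = _ := by ring
    exact (ENNReal.mul_le_mul_iff_right (pow_ne_zero _ hB0) (ENNReal.pow_ne_top hBt)).1 h7
  exact le_of_sq h6

end

end KN.ST
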