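import Pool.Agent.H132.LG.Wk
import Pool.Agent.H132.LG.Nash

/-!
# The decay of the powers of the kernel
-/

set_option autoImplicit false

namespace KN.ST

open KN KN.KQ Finset
open scoped Classical ENNReal

noncomputable section

variable {K : Z3 → Z3 → ℝ≥0∞} {κ : ℝ≥0∞}

theorem WK.mass (h : WK K κ) (m : ℕ) {D : Z3} (hD : St D) : ap K m (fun _ => 1) D ≤ 2 := by
  have h1 := super_it (G := St) h.st (h := hh) (s := fun _ => 0) (fun D hD => by
    rw [add_zero]
    exact le_self_add.trans (h.sup D hD)) m hD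
  have h2 : 2 * ap K m (fun _ => 1) D ≤ 3 := by
    rw [← ap_const]
    refine le_trans ?_ ((le_add_self).trans (h1.trans (hh_le D)))
    refine ap_mono (G := St) h.st hD fun E hE => ?_
    rw [mul_one]
    exact hh_ge hE.1 hE.2
  have h3 : 2 * ap K m (fun _ => 1) D ≤ 2 * 2 := h2.trans (by norm_num)
  exact (ENNReal.mul_le_mul_iff_right (by norm_num) (by norm_num)).1 h3

theorem WK.pw_top (h : WK K κ) {D : Z3} (hD : St D) (m : ℕ) (E : Z3) : pw K m D E ≤ 2 := by
  refine le_trans ?_ (h.mass m hD)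
  unfold ap
  refine le_trans ?_ (ENNReal.le_tsum E)
  rw [mul_one]

/-- the energy -/
def En (ψ : Z3 → ℝ≥0∞) : ℝ≥0∞ := ∑' D : Z3, (dd (ψ (D + vec .yp)) (ψ D) ^ 2 +
  dd (ψ (D + vec .zp)) (ψ D) ^ 2)

/-- the sum over the edges between the states -/
def Ed (ψ : Z3 → ℝ≥0∞) : ℝ≥0∞ := ∑' D : Z3, ∑ v ∈ lat, if St D ∧ D - vec v ≠ 0 then
  dd (ψ D) (ψ (D - vec v)) ^ 2 else 0

theorem En_one {ψ : Z3 → ℝ≥0∞} (hψ : ∀ D, ψ D ≠ 0 → St D) {v : Dir} (hv : Lat v) :
    ∑' D : Z3, dd (ψ (D + vec v)) (ψ D) ^ 2 ≤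
      ∑' D : Z3, (if St D ∧ D - vec v ≠ 0 then dd (ψ D) (ψ (D - vec v)) ^ 2 else 0) +
      (ψ (vec v) ^ 2 + ψ (-vec v) ^ 2) := by
  have e1 : ∑' D : Z3, (if St D ∧ D - vec v ≠ 0 then dd (ψ D) (ψ (D - vec v)) ^ 2 else 0) =
      ∑' D : Z3, (if St (D + vec v) ∧ D ≠ 0 then dd (ψ (D + vec v)) (ψ D) ^ 2 else 0) := by
    rw [← (Equiv.addRight (vec v)).tsum_eq]
    refine tsum_congr fun D => ?_
    simp only [Equiv.coe_addRight, add_sub_cancel_right]
  have e2 : ψ (vec v) ^ 2 = ∑' D : Z3, (if D = 0 then ψ (vec v) ^ 2 else 0) := by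
    rw [tsum_ite_eq]
  have e3 : ψ (-vec v) ^ 2 = ∑' D : Z3, (if D = -vec v then ψ (-vec v) ^ 2 else 0) := by
    rw [tsum_ite_eq]
  rw [e1, e2, e3, ← ENNReal.tsum_add, ← ENNReal.tsum_add]
  refine ENNReal.tsum_le_tsum fun D => ?_
  have h0 : ψ 0 = 0 := by
    by_contra h
    exact (hψ 0 h).2 rfl
  by_cases hD : D = 0
  · subst hD
    rw [if_pos (c := (0 : Z3) = 0) rfl, zero_add, h0, dd_zero]
    exact le_trans le_self_add le_add_self
  by_cases hD2 : D = -vec v
  · subst hD2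
    rw [if_pos (c := (-vec v) = -vec v) rfl, neg_add_cancel, h0, dd_comm, dd_zero]
    exact le_trans le_add_self le_add_self
  have hne : D + vec v ≠ 0 := fun h => hD2 (eq_neg_of_add_eq_zero_left h)
  by_cases hx : D.1 = 0
  · rw [if_pos (c := St (D + vec v) ∧ D ≠ 0) ⟨⟨by rw [Prod.fst_add, hx, hv.x]; rfl, hne⟩, hD⟩]
    exact le_self_add
  · have g1 : ψ D = 0 := by
      by_contra h
      exact hx (hψ D h).1
    have g2 : ψ (D + vec v) = 0 := by
      by_contra h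
      have := (hψ _ h).1
      rw [Prod.fst_add, hv.x, add_zero] at this
      exact hx this
    rw [g1, g2, dd_zero]
    simp

theorem En_le {ψ : Z3 → ℝ≥0∞} (hψ : ∀ D, ψ D ≠ 0 → St D) :
    En ψ ≤ Ed ψ + ∑ w ∈ lat, ψ (vec w) ^ 2 := by
  have h1 := En_one hψ (v := .yp) (by simp [Lat])
  have h2 := En_one hψ (v := .zp) (by simp [Lat])
  have e1 : -vec Dir.yp = vec .ym := by decide
  have e2 : -vec Dir.zp = vec .zm := by decide
  rw [e1] at h1
  rw [e2] at h2
  unfold En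
  rw [ENNReal.tsum_add]
  refine (add_le_add h1 h2).trans ?_
  have e3 : ∑ w ∈ lat, ψ (vec w) ^ 2 = ψ (vec .yp) ^ 2 + (ψ (vec .ym) ^ 2 + (ψ (vec .zp) ^ 2 +
      ψ (vec .zm) ^ 2)) := by
    unfold lat
    rw [sum_insert (by decide), sum_insert (by decide), sum_insert (by decide), sum_singleton]
  have e4 : ∑' D : Z3, (if St D ∧ D - vec .yp ≠ 0 then dd (ψ D) (ψ (D - vec .yp)) ^ 2 else 0) +
      ∑' D : Z3, (if St D ∧ D - vec .zp ≠ 0 then dd (ψ D) (ψ (D - vec .zp)) ^ 2 else 0) ≤ Ed ψ := by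
    unfold Ed
    rw [← ENNReal.tsum_add]
    refine ENNReal.tsum_le_tsum fun D => ?_
    unfold lat
    rw [sum_insert (by decide), sum_insert (by decide), sum_insert (by decide), sum_singleton]
    refine add_le_add_right ?_ _
    exact le_trans le_self_add le_add_self
  rw [e3]
  calc _ = (∑' D : Z3, (if St D ∧ D - vec .yp ≠ 0 then dd (ψ D) (ψ (D - vec .yp)) ^ 2 else 0) +
      ∑' D : Z3, (if St D ∧ D - vec .zp ≠ 0 then dd (ψ D) (ψ (D - vec .zp)) ^ 2 else 0)) +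
      (ψ (vec .yp) ^ 2 + (ψ (vec .ym) ^ 2 + (ψ (vec .zp) ^ 2 + ψ (vec .zm) ^ 2))) := by ring
    _ ≤ _ := add_le_add_left e4 _

theorem pw_two (K : Z3 → Z3 → ℝ≥0∞) (D E : Z3) : pw K 2 D E = ∑' F, K D F * K F E := by
  rw [show 2 = 1 + 1 by rfl, pw_add]
  simp only [pw_one]

theorem WK.two (h : WK K κ) {D : Z3} (hD : St D) {v : Dir} (hv : Lat v) (hne : D - vec v ≠ 0) :
    κ / 2 ≤ pw K 2 D (D - vec v) := by
  rw [pw_two]
  have hE : St (D - vec v) := ⟨by rw [Prod.fst_sub, hD.1, hv.x]; rfl, hne⟩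
  have hDE : D ≠ D - vec v := by
    intro h'
    have : vec v = 0 := by
      have h2 := congrArg (fun x => D - x) h'
      simpa using h2.symm
    exact vec_ne v this
  have h1 : K D D * K D (D - vec v) + K D (D - vec v) * K (D - vec v) (D - vec v) ≤
      ∑' F, K D F * K F (D - vec v) := by
    have := ENNReal.sum_le_tsum (f := fun F => K D F * K F (D - vec v)) {D, D - vec v}
    rwa [sum_pair hDE] at this
  refine le_trans ?_ h1
  have h2 := h.lazy D hD
  have h3 := h.lazy _ hE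
  have h4 := h.unit D hD v hv hne
  calc κ / 2 = 1 / 4 * κ + κ * (1 / 4) := by
        have : (2 : ℝ≥0∞)⁻¹ = 4⁻¹ + 4⁻¹ := by
          have h22 : (4 : ℝ≥0∞)⁻¹ = 2⁻¹ * 2⁻¹ := by
            rw [← ENNReal.mul_inv (Or.inl (by norm_num)) (Or.inl (by simp))]
            norm_num
          rw [h22, ← mul_add, ENNReal.inv_two_add_inv_two, mul_one]
        simp only [div_eq_mul_inv, one_mul]
        rw [this]
        ring
    _ ≤ _ := add_le_add (mul_le_mul' h2 h4) (mul_le_mul' h4 h3)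

theorem WK.sup_two (h : WK K κ) {D : Z3} (hD : St D) :
    ∑' E, pw K 2 D E * hh E + κ * r2 D ≤ hh D := by
  have e : ∑' E, pw K 2 D E * hh E = ∑' F, K D F * ∑' E, K F E * hh E := by
    simp only [pw_two, ← ENNReal.tsum_mul_left, ← ENNReal.tsum_mul_right]
    rw [ENNReal.tsum_comm]
    refine tsum_congr fun F => tsum_congr fun E => ?_
    ring
  rw [e]
  refine le_trans (add_le_add_left (ENNReal.tsum_le_tsum fun F => ?_) _) (h.sup D hD)
  by_cases hF : K D F = 0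
  · rw [hF, zero_mul, zero_mul]
  · exact mul_le_mul_right (le_self_add.trans (h.sup F (h.st D F hF))) _

theorem hh_top (D : Z3) : hh D ≠ ⊤ := ne_top_of_le_ne_top (by simp) (hh_le D)

theorem sum_edge (f : Z3 → ℝ≥0∞) (D : Z3) : ∑ v ∈ lat, f (D - vec v) ≤ ∑' E, f E := by
  have h : ∑ v ∈ lat, f (D - vec v) = ∑ E ∈ lat.image (fun v => D - vec v), f E := by
    rw [sum_image]
    intro v _ w _ hvw
    have h1 : vec v = vec w := by
      have := congrArg (fun x => D - x) hvw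
      simpa using this
    cases v <;> cases w <;> first | rfl | (exact absurd h1 (by decide))
  rw [h]
  exact ENNReal.sum_le_tsum _

theorem rr_neg (D : Z3) : rr (-D) = rr D := by
  unfold rr
  simp

theorem rr_lat {w : Dir} (hw : Lat w) : rr (vec w) = 1 := by
  have h := mem_lat.2 hw
  unfold lat at h
  simp only [mem_insert, mem_singleton] at h
  rcases h with rfl | rfl | rfl | rfl <;> norm_num [rr, vec]

/-- the inequality between the norms and the energy -/
theorem WK.dir (h : WK K κ) {φ : Z3 → ℝ≥0∞} (hφ : ∀ D, φ D ≠ 0 → St D) (hf : ∀ D, φ D ≠ ⊤) :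
    ∑' D, ∑' E, pw K 2 D E * (φ D * φ E) + κ * En (fun D => φ D / hh D) ≤ ∑' D, φ D ^ 2 := by
  set ψ : Z3 → ℝ≥0∞ := fun D => φ D / hh D with hψd
  have h0 : ∀ D, ¬ St D → φ D = 0 := fun D hD => by
    by_contra hn
    exact hD (hφ D hn)
  have hψ0 : ∀ D, ¬ St D → ψ D = 0 := fun D hD => by
    simp only [hψd, h0 D hD, ENNReal.zero_div]
  have hψ : ∀ D, ψ D ≠ 0 → St D := fun D hD => by
    by_contra hn
    exact hD (hψ0 D hn)
  have hhne : ∀ D, St D → hh D ≠ 0 := fun D hD hn => by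
    have := hh_ge hD.1 hD.2
    rw [hn] at this
    simp at this
  have hφψ : ∀ D, φ D = hh D * ψ D := by
    intro D
    by_cases hD : St D
    · exact (ENNReal.mul_div_cancel (hhne D hD) (hh_top D)).symm
    · rw [h0 D hD, hψ0 D hD, mul_zero]
  have hψt : ∀ D, ψ D ≠ ⊤ := by
    intro D
    by_cases hD : St D
    · exact ENNReal.div_ne_top (hf D) (hhne D hD)
    · rw [hψ0 D hD]; simp
  set J := pw K 2 with hJ
  have hJs : ∀ D E, J D E = J E D := fun D E => pw_symm h.sym 2 D E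
  set A := ∑' D, ∑' E, J D E * (hh D * hh E) * ψ D ^ 2 with hA
  have hA2 : A = ∑' D, ∑' E, J D E * (hh D * hh E) * ψ E ^ 2 := by
    rw [hA, ENNReal.tsum_comm]
    refine tsum_congr fun D => tsum_congr fun E => ?_
    rw [hJs E D, mul_comm (hh E)]
  -- the sum of squares
  have h1 : A + κ * ∑' D, hh D * r2 D * ψ D ^ 2 ≤ ∑' D, φ D ^ 2 := by
    rw [hA, ← ENNReal.tsum_mul_left, ← ENNReal.tsum_add]
    refine ENNReal.tsum_le_tsum fun D => ?_
    by_cases hD : St D
    · have h2 := h.sup_two hD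
      rw [← hJ] at h2
      calc ∑' E, J D E * (hh D * hh E) * ψ D ^ 2 + κ * (hh D * r2 D * ψ D ^ 2) =
            hh D * ψ D ^ 2 * (∑' E, J D E * hh E + κ * r2 D) := by
            rw [mul_add, ← ENNReal.tsum_mul_left]
            congr 1
            · refine tsum_congr fun E => ?_
              ring
            · ring
        _ ≤ hh D * ψ D ^ 2 * hh D := mul_le_mul_right h2 _
        _ = φ D ^ 2 := by rw [hφψ D]; ring
    · rw [hψ0 D hD]
      simp
  -- the symmetrization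
  have h2 : 2 * A = 2 * ∑' D, ∑' E, J D E * (φ D * φ E) +
      ∑' D, ∑' E, J D E * (hh D * hh E) * dd (ψ D) (ψ E) ^ 2 := by
    rw [two_mul A]
    nth_rewrite 1 [hA]
    rw [hA2, ← ENNReal.tsum_add, ← ENNReal.tsum_mul_left, ← ENNReal.tsum_add]
    refine tsum_congr fun D => ?_
    rw [← ENNReal.tsum_add, ← ENNReal.tsum_mul_left, ← ENNReal.tsum_add]
    refine tsum_congr fun E => ?_
    rw [← mul_add, dd_sq (hψt D) (hψt E), hφψ D, hφψ E]
    ring
  -- the edges
  have h3 : 2 * κ * Ed ψ ≤ ∑' D, ∑' E, J D E * (hh D * hh E) * dd (ψ D) (ψ E) ^ 2 := by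
    unfold Ed
    rw [← ENNReal.tsum_mul_left]
    refine ENNReal.tsum_le_tsum fun D => ?_
    refine le_trans ?_ (sum_edge (fun E => J D E * (hh D * hh E) * dd (ψ D) (ψ E) ^ 2) D)
    rw [mul_sum]
    refine sum_le_sum fun v hv => ?_
    by_cases hc : St D ∧ D - vec v ≠ 0
    · rw [if_pos hc]
      refine mul_le_mul_left ?_ _
      have hv' := mem_lat.1 hv
      have hE : St (D - vec v) := ⟨by rw [Prod.fst_sub, hc.1.1, hv'.x]; rfl, hc.2⟩
      calc 2 * κ = κ / 2 * (2 * 2) := by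
            rw [div_eq_mul_inv]
            calc 2 * κ = κ * 2 * (2⁻¹ * 2) := by
                  rw [ENNReal.inv_mul_cancel (by norm_num) (by simp), mul_one, mul_comm]
              _ = _ := by ring
        _ ≤ J D (D - vec v) * (hh D * hh (D - vec v)) :=
            mul_le_mul' (h.two hc.1 hv' hc.2)
              (mul_le_mul' (hh_ge hc.1.1 hc.1.2) (hh_ge hE.1 hE.2))
    · rw [if_neg hc, mul_zero]
      exact zero_le
  -- the unit vectors
  have h4 : ∑ w ∈ lat, ψ (vec w) ^ 2 ≤ ∑' D, hh D * r2 D * ψ D ^ 2 := by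
    have h5 := sum_edge (fun D => hh D * r2 D * ψ D ^ 2) 0
    refine le_trans ?_ h5
    have e : ∑ w ∈ lat, ψ (vec w) ^ 2 = ∑ w ∈ lat, ψ (0 - vec w) ^ 2 := by
      unfold lat
      rw [sum_insert (by decide), sum_insert (by decide), sum_insert (by decide), sum_singleton,
        sum_insert (by decide), sum_insert (by decide), sum_insert (by decide), sum_singleton]
      have e1 : (0 : Z3) - vec .yp = vec .ym := by decide
      have e2 : (0 : Z3) - vec .ym = vec .yp := by decide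
      have e3 : (0 : Z3) - vec .zp = vec .zm := by decide
      have e4 : (0 : Z3) - vec .zm = vec .zp := by decide
      rw [e1, e2, e3, e4]
      ring
    rw [e]
    refine sum_le_sum fun w hw => ?_
    have hw' := mem_lat.1 hw
    have hne : (0 : Z3) - vec w ≠ 0 := by
      rw [zero_sub]
      exact neg_ne_zero.2 (vec_ne w)
    have hx : ((0 : Z3) - vec w).1 = 0 := by
      rw [Prod.fst_sub, hw'.x]
      rfl
    have hr : r2 (0 - vec w) = 1 := by
      have : rr ((0 : Z3) - vec w) = 1 := by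
        rw [zero_sub, rr_neg, rr_lat hw']
      unfold r2
      rw [this]
      simp
    rw [hr, mul_one]
    exact le_mul_of_one_le_left zero_le (le_trans (by norm_num) (hh_ge hx hne))
  have h5 := En_le hψ
  -- together
  have h6 : 2 * (∑' D, ∑' E, J D E * (φ D * φ E) + κ * En ψ) ≤ 2 * ∑' D, φ D ^ 2 := by
    calc 2 * (∑' D, ∑' E, J D E * (φ D * φ E) + κ * En ψ) ≤
          2 * (∑' D, ∑' E, J D E * (φ D * φ E) + κ * (Ed ψ + ∑' D, hh D * r2 D * ψ D ^ 2)) := by
          gcongr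
          exact h5.trans (add_le_add_right h4 _)
      _ = (2 * ∑' D, ∑' E, J D E * (φ D * φ E) + 2 * κ * Ed ψ) +
          2 * (κ * ∑' D, hh D * r2 D * ψ D ^ 2) := by ring
      _ ≤ (2 * ∑' D, ∑' E, J D E * (φ D * φ E) +
          ∑' D, ∑' E, J D E * (hh D * hh E) * dd (ψ D) (ψ E) ^ 2) +
          2 * (κ * ∑' D, hh D * r2 D * ψ D ^ 2) := by gcongr
      _ = 2 * (A + κ * ∑' D, hh D * r2 D * ψ D ^ 2) := by rw [← h2]; ring
      _ ≤ _ := mul_le_mul_right h1 _
  exact (ENNReal.mul_le_mul_iff_right (by norm_num) (by norm_num)).1 h6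

/-- the inequality of Nash for the kernel -/
theorem WK.nash (h : WK K κ) {φ : Z3 → ℝ≥0∞} (hφ : ∀ D, φ D ≠ 0 → St D)
    (hs : ∑' D, φ D ≤ 2) :
    324 * ∑' D, ∑' E, pw K 2 D E * (φ D * φ E) + κ * (∑' D, φ D ^ 2) ^ 2 ≤
      324 * ∑' D, φ D ^ 2 := by
  have hst : ∑' D, φ D ≠ ⊤ := ne_top_of_le_ne_top (by simp) hs
  have hf : ∀ D, φ D ≠ ⊤ := fun D => ne_top_of_le_ne_top hst (ENNReal.le_tsum D)
  have h1 := h.dir hφ hf
  set ψ : Z3 → ℝ≥0∞ := fun D => φ D / hh D with hψd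
  have h0 : ∀ D, ¬ St D → φ D = 0 := fun D hD => by
    by_contra hn
    exact hD (hφ D hn)
  have hψ0 : ∀ D, ¬ St D → ψ D = 0 := fun D hD => by
    simp only [hψd, h0 D hD, ENNReal.zero_div]
  -- comparison of the functions
  have c1 : ∀ D, φ D ≤ 3 * ψ D := by
    intro D
    by_cases hD : St D
    · have hne : hh D ≠ 0 := fun hn => by
        have := hh_ge hD.1 hD.2
        rw [hn] at this
        simp at this
      calc φ D = hh D * ψ D := (ENNReal.mul_div_cancel hne (hh_top D)).symm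
        _ ≤ _ := mul_le_mul_left (hh_le D) _
    · rw [h0 D hD]
      exact zero_le
  have c2 : ∀ D, 2 * ψ D ≤ φ D := by
    intro D
    by_cases hD : St D
    · have hne : hh D ≠ 0 := fun hn => by
        have := hh_ge hD.1 hD.2
        rw [hn] at this
        simp at this
      calc 2 * ψ D ≤ hh D * ψ D := mul_le_mul_left (hh_ge hD.1 hD.2) _
        _ = _ := ENNReal.mul_div_cancel hne (hh_top D)
    · rw [hψ0 D hD, mul_zero]
      exact zero_le
  -- the plane
  set Ψ : ℤ × ℤ → ℝ≥0∞ := fun p => ψ (0, p.1, p.2) with hΨ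
  have hsum : ∀ f : Z3 → ℝ≥0∞, (∀ D, ¬ St D → f D = 0) →
      ∑' p : ℤ × ℤ, f (0, p.1, p.2) = ∑' D, f D := by
    intro f hf
    refine Eq.trans ?_ (ENNReal.tsum_prod' (f := f)).symm
    symm
    refine tsum_eq_single (0 : ℤ) ?_
    intro x hx
    rw [ENNReal.tsum_eq_zero]
    intro p
    exact hf _ (fun h' => hx h'.1)
  have e1 : ∑' p, Ψ p = ∑' D, ψ D := hsum ψ hψ0
  have e2 : ∑' p, Ψ p ^ 2 = ∑' D, ψ D ^ 2 :=
    hsum (fun D => ψ D ^ 2) (fun D hD => by simp only [hψ0 D hD]; norm_num)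
  have e3 : E1 Ψ + E2 Ψ ≤ En ψ := by
    unfold E1 E2 En
    rw [← ENNReal.tsum_add]
    have hinj : Function.Injective (fun p : ℤ × ℤ => ((0, p.1, p.2) : Z3)) := by
      rintro ⟨a, b⟩ ⟨c, d⟩ hab
      simpa using hab
    refine le_trans ?_ (ENNReal.tsum_comp_le_tsum_of_injective hinj _)
    refine ENNReal.tsum_le_tsum fun p => le_of_eq ?_
    have g1 : ((0, p.1, p.2) : Z3) + vec .yp = (0, p.1 + 1, p.2) :=
      Prod.ext (by simp [vec]) (Prod.ext (by simp [vec]) (by simp [vec]))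
    have g2 : ((0, p.1, p.2) : Z3) + vec .zp = (0, p.1, p.2 + 1) :=
      Prod.ext (by simp [vec]) (Prod.ext (by simp [vec]) (by simp [vec]))
    simp only [g1, g2, hΨ]
  have hψs : 2 * ∑' D, ψ D ≤ 2 := by
    rw [← ENNReal.tsum_mul_left]
    exact (ENNReal.tsum_le_tsum c2).trans hs
  have hψs1 : ∑' D, ψ D ≤ 1 := by
    have : 2 * ∑' D, ψ D ≤ 2 * 1 := by rw [mul_one]; exact hψs
    exact (ENNReal.mul_le_mul_iff_right (by norm_num) (by norm_num)).1 this
  have hN := KN.ST.nash (ψ := Ψ) (by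
    rw [e1]
    exact ne_top_of_le_ne_top (by simp) hψs1)
  rw [e1, e2] at hN
  have h2 : (∑' D, φ D ^ 2) ^ 2 ≤ 324 * En ψ := by
    calc (∑' D, φ D ^ 2) ^ 2 ≤ (∑' D, (3 * ψ D) ^ 2) ^ 2 := by
          gcongr with D
          exact c1 D
      _ = 81 * (∑' D, ψ D ^ 2) ^ 2 := by
          simp only [mul_pow, ENNReal.tsum_mul_left]
          norm_num
      _ ≤ 81 * (4 * (∑' D, ψ D) ^ 2 * (E1 Ψ + E2 Ψ)) := mul_le_mul_right hN _
      _ ≤ 81 * (4 * 1 ^ 2 * En ψ) := by gcongr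
      _ = _ := by ring
  calc 324 * ∑' D, ∑' E, pw K 2 D E * (φ D * φ E) + κ * (∑' D, φ D ^ 2) ^ 2 ≤
        324 * ∑' D, ∑' E, pw K 2 D E * (φ D * φ E) + κ * (324 * En ψ) := by gcongr
    _ = 324 * (∑' D, ∑' E, pw K 2 D E * (φ D * φ E) + κ * En ψ) := by ring
    _ ≤ _ := mul_le_mul_right h1 _

end

end KN.ST
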