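import Pool.Agent.H132.LG.Crit

/-!
# Estimates at the critical value
-/

set_option autoImplicit false

namespace KN.ST

open KN KN.KQ Finset
open scoped Classical ENNReal

noncomputable section

/-- the states -/
def St (D : Z3) : Prop := D.1 = 0 ∧ D ≠ 0

/-- the critical parameters -/
structure Cr (s q : ℝ≥0∞) : Prop where
  hs : s ≤ 1 / 10 ^ 12
  h0 : s ≠ 0
  h1 : 7 / 10 ≤ q
  h2 : q ≤ 1
  hc : Ms s q = 1

theorem Kr_St {s q : ℝ≥0∞} (D E : Z3) (h : Kr s q D E ≠ 0) : St E := by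
  by_contra hn
  apply h
  unfold Kr
  rw [ENNReal.tsum_eq_zero]
  intro b
  rw [if_neg]
  intro h'
  exact hn ⟨h'.1.h0, h'.1.ne.2⟩

variable {s q : ℝ≥0∞}

theorem Cr.q2 (h : Cr s q) : q ≤ 2 := h.h2.trans (by norm_num)

theorem Cr.super (h : Cr s q) {D : Z3} (hD : St D) :
    ∑' E : Z3, Kr s q D E * hh E + r2 D * (s ^ 4 / 20) ≤ hh D := by
  have := super_hh h.hs h.q2 h.h1 hD.1 hD.2
  rwa [h.hc, one_mul] at this

/-- the expected number of visits is finite -/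
theorem Cr.green (h : Cr s q) {D : Z3} (hD : St D) (E : Z3) :
    (∑' m : ℕ, pw (Kr s q) m D E) * (r2 E * (s ^ 4 / 20)) ≤ 3 := by
  rw [← ENNReal.tsum_mul_right]
  refine ENNReal.tsum_le_of_sum_range_le fun n => ?_
  have h1 := super_it (G := St) Kr_St (fun D hD => h.super hD) n hD
  refine le_trans ?_ (h1.trans (hh_le D))
  refine le_trans (sum_le_sum fun m _ => ?_) le_self_add
  unfold ap
  exact ENNReal.le_tsum (f := fun y => pw (Kr s q) m D y * (r2 y * (s ^ 4 / 20))) E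

theorem Cr.mass (h : Cr s q) (m : ℕ) {D : Z3} (hD : St D) : ap (Kr s q) m (fun _ => 1) D ≤ 2 := by
  have h1 := super_it (G := St) Kr_St (fun D hD => h.super hD) m hD
  have h2 : 2 * ap (Kr s q) m (fun _ => 1) D ≤ 3 := by
    rw [← ap_const]
    refine le_trans ?_ ((le_add_self).trans (h1.trans (hh_le D)))
    refine ap_mono (G := St) Kr_St hD fun E hE => ?_
    rw [mul_one]
    exact hh_ge hE.1 hE.2
  have h3 : 2 * ap (Kr s q) m (fun _ => 1) D ≤ 2 * 2 := h2.trans (by norm_num)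
  exact (ENNReal.mul_le_mul_iff_right (by norm_num) (by norm_num)).1 h3

theorem Cr.moment (h : Cr s q) (n : ℕ) {D : Z3} (hD : St D) :
    ap (Kr s q) n qq D ≤ qq D + n * 2 := by
  have h1 := mom_it (G := St) (K := Kr s q) Kr_St (φ := qq) (c := 1) (B := 2) (fun D hD => by
    have := mom_qq h.hs h.q2 hD.1 hD.2
    rwa [h.hc, one_mul] at this) (fun m D hD => h.mass m hD) n hD
  simpa using h1

theorem Cr.subs (h : Cr s q) (n : ℕ) {D : Z3} (hD : St D) : gg D ≤ ap (Kr s q) n gg D := by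
  refine sub_it (G := St) Kr_St (fun D hD => ?_) n hD
  have := sub_gg h.hs h.q2 h.h1 hD.1 hD.2
  rwa [h.hc, one_mul] at this

/-- balls -/
def BR (R : ℕ) : Finset Z3 := ({0} : Finset ℤ) ×ˢ (Icc (-(R : ℤ)) R ×ˢ Icc (-(R : ℤ)) R)

theorem card_BR (R : ℕ) : (BR R).card = (2 * R + 1) ^ 2 := by
  unfold BR
  rw [card_product, card_product, card_singleton, Int.card_Icc]
  have : ((R : ℤ) + 1 - -(R : ℤ)).toNat = 2 * R + 1 := by omega
  rw [this]
  ring

theorem rr_in {R : ℕ} {D : Z3} (h : D ∈ BR R) : rr D ≤ 2 * (R : ℝ) ^ 2 := by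
  unfold BR at h
  simp only [mem_product, mem_singleton, mem_Icc] at h
  obtain ⟨-, ⟨h1, h2⟩, h3, h4⟩ := h
  unfold rr
  have a1 : (D.2.1 : ℝ) ^ 2 ≤ (R : ℝ) ^ 2 := by
    refine sq_le_sq' ?_ ?_
    · exact_mod_cast h1
    · exact_mod_cast h2
  have a2 : (D.2.2 : ℝ) ^ 2 ≤ (R : ℝ) ^ 2 := by
    refine sq_le_sq' ?_ ?_
    · exact_mod_cast h3
    · exact_mod_cast h4
  linarith

theorem rr_out {R : ℕ} {D : Z3} (h0 : D.1 = 0) (h : D ∉ BR R) : (R : ℝ) ^ 2 ≤ rr D := by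
  unfold BR at h
  simp only [mem_product, mem_singleton, mem_Icc, h0, true_and, not_and_or, not_le] at h
  unfold rr
  have key : ∀ a : ℤ, a < -(R : ℤ) ∨ (R : ℤ) < a → (R : ℝ) ^ 2 ≤ (a : ℝ) ^ 2 := by
    intro a ha
    rcases ha with ha | ha
    · have : (a : ℝ) < -(R : ℝ) := by exact_mod_cast ha
      nlinarith [Nat.cast_nonneg (α := ℝ) R]
    · have : (R : ℝ) < (a : ℝ) := by exact_mod_cast ha
      nlinarith [Nat.cast_nonneg (α := ℝ) R]
  rcases h with h | h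
  · have := key _ h
    nlinarith [sq_nonneg (D.2.2 : ℝ)]
  · have := key _ h
    nlinarith [sq_nonneg (D.2.1 : ℝ)]

/-- the logarithm of the squared radius -/
def LR (R : ℕ) : ℝ := Real.log ((R : ℝ) ^ 2)

theorem gg_in {R : ℕ} (hR : 1 ≤ R) {D : Z3} (hD : St D) (h : D ∈ BR R) :
    gg D ≤ ENNReal.ofReal (LR R) := by
  unfold gg gr LR AA
  refine ENNReal.ofReal_le_ofReal ?_
  have h1 := rr_in h
  have h2 := inv_rr hD.1 hD.2
  have hR1 : (1 : ℝ) ≤ R := by exact_mod_cast hR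
  have h3 : Real.log (rr D) ≤ Real.log 2 + Real.log ((R : ℝ) ^ 2) := by
    rw [← Real.log_mul (by norm_num) (by positivity)]
    exact Real.log_le_log (rr_pos hD.1 hD.2) h1
  have h4 : Real.log 2 ≤ 1 := by
    have := Real.log_le_sub_one_of_pos (show (0 : ℝ) < 2 by norm_num)
    linarith
  linarith

theorem gg_out {R : ℕ} (hR : 2 ≤ R) {D : Z3} (hD : St D) (h : D ∉ BR R) :
    gg D ≤ ENNReal.ofReal (LR R / (R : ℝ) ^ 2) * qq D := by
  have h1 := rr_out hD.1 h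
  have hR1 : (2 : ℝ) ≤ R := by exact_mod_cast hR
  have hR2 : (4 : ℝ) ≤ (R : ℝ) ^ 2 := by nlinarith
  have he : Real.exp 1 ≤ 4 := by
    have := Real.exp_one_lt_d9
    linarith
  have h2 := Real.log_div_self_antitoneOn (show (R : ℝ) ^ 2 ∈ {x : ℝ | Real.exp 1 ≤ x} from
    he.trans hR2) (show rr D ∈ {x : ℝ | Real.exp 1 ≤ x} from (he.trans hR2).trans h1) h1
  simp only at h2
  have hp : 0 < rr D := by linarith
  have hL : 0 ≤ LR R := Real.log_nonneg (by linarith)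
  unfold gg gr qq AA
  rw [← ENNReal.ofReal_mul (by positivity)]
  refine ENNReal.ofReal_le_ofReal ?_
  have h3 := inv_rr hD.1 hD.2
  rw [div_le_iff₀ hp] at h2
  unfold LR
  linarith

/-- a lower bound of the mass in a ball -/
theorem Cr.ball (h : Cr s q) {D : Z3} (hD : St D) {m R : ℕ} (hR : 2 ≤ R) (hg : 1 ≤ gg D)
    (hm : ENNReal.ofReal (LR R / (R : ℝ) ^ 2) * (qq D + m * 2) ≤ 1 / 2) :
    1 ≤ 2 * ENNReal.ofReal (LR R) * ∑ E ∈ BR R, pw (Kr s q) m D E := by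
  have h1 := hg.trans (h.subs m hD)
  have h2 : ap (Kr s q) m gg D ≤ ENNReal.ofReal (LR R) * ∑ E ∈ BR R, pw (Kr s q) m D E +
      ENNReal.ofReal (LR R / (R : ℝ) ^ 2) * ap (Kr s q) m qq D := by
    have h3 : ∑ E ∈ BR R, pw (Kr s q) m D E =
        ∑' E : Z3, if E ∈ BR R then pw (Kr s q) m D E else 0 := by
      rw [tsum_eq_sum (s := BR R) (fun E hE => if_neg hE)]
      exact sum_congr rfl fun E hE => (if_pos hE).symm
    rw [h3]
    unfold ap
    rw [← ENNReal.tsum_mul_left, ← ENNReal.tsum_mul_left, ← ENNReal.tsum_add]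
    refine ENNReal.tsum_le_tsum fun E => ?_
    by_cases h0 : pw (Kr s q) m D E = 0
    · rw [h0, zero_mul]
      exact zero_le
    · have hE := pw_G (G := St) Kr_St hD h0
      by_cases hb : E ∈ BR R
      · rw [if_pos hb]
        refine le_trans ?_ le_self_add
        rw [mul_comm]
        exact mul_le_mul_left (gg_in (by omega) hE hb) _
      · rw [if_neg hb, mul_zero, zero_add]
        calc pw (Kr s q) m D E * gg E ≤ pw (Kr s q) m D E *
              (ENNReal.ofReal (LR R / (R : ℝ) ^ 2) * qq E) :=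
              mul_le_mul_right (gg_out hR hE hb) _
          _ = _ := by ring
  have h4 : ENNReal.ofReal (LR R / (R : ℝ) ^ 2) * ap (Kr s q) m qq D ≤ 1 / 2 :=
    (mul_le_mul_right (h.moment m hD) _).trans hm
  have h5 : 1 ≤ ENNReal.ofReal (LR R) * ∑ E ∈ BR R, pw (Kr s q) m D E + 1 / 2 :=
    h1.trans (h2.trans (add_le_add_right h4 _))
  have h6 : (1 / 2 : ℝ≥0∞) ≤ ENNReal.ofReal (LR R) * ∑ E ∈ BR R, pw (Kr s q) m D E := by
    have : (1 / 2 : ℝ≥0∞) + 1 / 2 ≤ ENNReal.ofReal (LR R) * ∑ E ∈ BR R, pw (Kr s q) m D E +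
        1 / 2 := by
      rw [ENNReal.add_halves]
      exact h5
    exact (ENNReal.add_le_add_iff_right (by simp)).1 this
  calc (1 : ℝ≥0∞) = 2 * (1 / 2) := by
        rw [one_div, ENNReal.mul_inv_cancel (by norm_num) (by simp)]
    _ ≤ 2 * (ENNReal.ofReal (LR R) * ∑ E ∈ BR R, pw (Kr s q) m D E) := mul_le_mul_right h6 _
    _ = _ := by ring

theorem Cr.pw_top (h : Cr s q) {D : Z3} (hD : St D) (m : ℕ) (E : Z3) :
    pw (Kr s q) m D E ≠ ⊤ := by
  refine ne_top_of_le_ne_top (b := 2) (by simp) (le_trans ?_ (h.mass m hD))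
  unfold ap
  refine le_trans ?_ (ENNReal.le_tsum E)
  rw [mul_one]

/-- a lower bound of the return weights -/
theorem Cr.ret (h : Cr s q) {D : Z3} (hD : St D) {m R : ℕ} (hR : 2 ≤ R) (hg : 1 ≤ gg D)
    (hm : ENNReal.ofReal (LR R / (R : ℝ) ^ 2) * (qq D + m * 2) ≤ 1 / 2) :
    1 ≤ 4 * ENNReal.ofReal (LR R) ^ 2 * ((2 * R + 1 : ℕ) : ℝ≥0∞) ^ 2 *
      pw (Kr s q) (m + m) D D := by
  have h1 := h.ball hD hR hg hm
  have h2 := pw_cs (Kr_symm s q) m D (BR R) (fun E _ => h.pw_top hD m E)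
  rw [card_BR] at h2
  calc (1 : ℝ≥0∞) = 1 ^ 2 := by norm_num
    _ ≤ (2 * ENNReal.ofReal (LR R) * ∑ E ∈ BR R, pw (Kr s q) m D E) ^ 2 :=
        pow_le_pow_left' h1 2
    _ = 4 * ENNReal.ofReal (LR R) ^ 2 * (∑ E ∈ BR R, pw (Kr s q) m D E) ^ 2 := by ring
    _ ≤ 4 * ENNReal.ofReal (LR R) ^ 2 * ((((2 * R + 1) ^ 2 : ℕ) : ℝ≥0∞) *
        pw (Kr s q) (m + m) D D) := mul_le_mul_right h2 _
    _ = _ := by push_cast; ring

/-! ### the far point -/

def D1 : Z3 := (0, 1000, 0)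

theorem st_D1 : St D1 := ⟨rfl, by decide⟩

theorem st_yp : St (vec .yp) := ⟨rfl, by decide⟩

theorem rr_D1 : rr D1 = 10 ^ 6 := by
  unfold rr D1
  norm_num

theorem gg_D1 : 1 ≤ gg D1 := by
  unfold gg gr AA
  rw [ENNReal.one_le_ofReal, rr_D1, Real.log_pow]
  have h : 2 ≤ Real.log 10 := by
    rw [Real.le_log_iff_exp_le (by norm_num)]
    have h1 : Real.exp 2 = Real.exp 1 ^ 2 := by rw [← Real.exp_nat_mul]; norm_num
    have h2 := Real.exp_one_lt_d9
    have h3 := Real.exp_pos 1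
    rw [h1]
    nlinarith
  have : (0 : ℝ) ≤ 1 / 10 ^ 6 := by positivity
  push_cast
  linarith

theorem Kr_step {D : Z3} (hD : St D) {v : Dir} (hv : Lat v) (h : D - vec v ≠ 0) :
    q ^ 3 * s ^ 4 ≤ Kr s q D (D - vec v) := by
  have h1 := td_E hD.1 hD.2 hv h
  unfold Kr
  refine le_trans ?_ (ENNReal.le_tsum (([], [v]) : Blk))
  rw [(nxt_E D v).1] at h1
  rw [if_pos h1.1, (om_E s q hv).1]

theorem pw_line (n : ℕ) : (q ^ 3 * s ^ 4) ^ n ≤ pw (Kr s q) n (0, (1 : ℤ), 0) (0, (n : ℤ) + 1, 0) := by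
  induction n with
  | zero => simp [pw]
  | succ n ih =>
    rw [pw_succ']
    refine le_trans ?_ (ENNReal.le_tsum ((0, (n : ℤ) + 1, 0) : Z3))
    rw [pow_succ]
    refine mul_le_mul' ih ?_
    have hne : ((0 : ℤ), (n : ℤ) + 1, (0 : ℤ)) ≠ 0 := by
      intro h
      simp only [Prod.mk_eq_zero, true_and, and_true] at h
      omega
    have e : ((0 : ℤ), (n : ℤ) + 1, (0 : ℤ)) - vec .ym = (0, ((n + 1 : ℕ) : ℤ) + 1, 0) := by
      refine Prod.ext (by simp [vec]) (Prod.ext ?_ (by simp [vec]))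
      simp only [vec, Prod.snd_sub, Prod.fst_sub]
      push_cast
      ring
    rw [← e]
    refine Kr_step ⟨rfl, hne⟩ (by simp [Lat]) ?_
    rw [e]
    intro h
    simp only [Prod.mk_eq_zero, true_and, and_true] at h
    omega

/-- returns of the unit vector -/
theorem pw_conn (n : ℕ) : (q ^ 3 * s ^ 4) ^ 1998 * pw (Kr s q) n D1 D1 ≤
    pw (Kr s q) (999 + n + 999) (vec .yp) (vec .yp) := by
  have h1 := pw_line (s := s) (q := q) 999
  have e : ((0 : ℤ), ((999 : ℕ) : ℤ) + 1, (0 : ℤ)) = D1 := by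
    unfold D1
    norm_num
  have e2 : ((0 : ℤ), (1 : ℤ), (0 : ℤ)) = vec .yp := rfl
  rw [e, e2] at h1
  have h2 : pw (Kr s q) 999 (vec .yp) D1 * pw (Kr s q) n D1 D1 ≤
      pw (Kr s q) (999 + n) (vec .yp) D1 := by
    rw [pw_add]
    exact ENNReal.le_tsum (f := fun z => pw (Kr s q) 999 (vec .yp) z * pw (Kr s q) n z D1) D1
  have h3 : pw (Kr s q) (999 + n) (vec .yp) D1 * pw (Kr s q) 999 D1 (vec .yp) ≤
      pw (Kr s q) (999 + n + 999) (vec .yp) (vec .yp) := by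
    rw [pw_add (Kr s q) (999 + n) 999]
    exact ENNReal.le_tsum (f := fun z => pw (Kr s q) (999 + n) (vec .yp) z *
      pw (Kr s q) 999 z (vec .yp)) D1
  rw [pw_symm (Kr_symm s q) 999 D1] at h3
  refine le_trans ?_ h3
  calc (q ^ 3 * s ^ 4) ^ 1998 * pw (Kr s q) n D1 D1 =
        (q ^ 3 * s ^ 4) ^ 999 * pw (Kr s q) n D1 D1 * (q ^ 3 * s ^ 4) ^ 999 := by
        rw [show 1998 = 999 + 999 by norm_num, pow_add]
        ring
    _ ≤ pw (Kr s q) 999 (vec .yp) D1 * pw (Kr s q) n D1 D1 * pw (Kr s q) 999 (vec .yp) D1 :=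
        mul_le_mul' (mul_le_mul_left h1 _) h1
    _ ≤ _ := mul_le_mul_left h2 _

end

end KN.ST
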