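import Pool.Agent.H132.LG.Sep

/-!
# The type of a block does not depend on the difference `D` if the two arcs are far apart
-/

set_option autoImplicit false

namespace KN.ST

open KN KN.KQ
open scoped Classical

noncomputable section

/-- free pairs of arcs in a slab -/
structure Fr (b : Blk) : Prop where
  n1 : (path b.1).Nodup
  n2 : (path b.2).Nodup
  r1 : ∀ p ∈ path b.1, 0 ≤ p.1 ∧ p.1 ≤ (pos b.1).1
  r2 : ∀ p ∈ path b.2, p.1 ≤ 0 ∧ -(pos b.1).1 ≤ p.1
  e : (pos b.2).1 = -(pos b.1).1

theorem Pc.fr {D D' : Z3} {b : Blk} (h : Pc D D' b) : Fr b := by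
  have h1 := h.nd
  unfold pv at h1
  rw [List.nodup_append'] at h1
  have e2 : pos b.1 + D' = D - pos b.2 := by
    rw [← h.rel]; abel
  have hD := h.h1
  have hD' := h.h0
  have e3 : (pos b.2).1 = - (pos b.1).1 := h.pos2
  refine ⟨h1.2.1, nodup_sh.1 h1.1, fun p hp => h.rg p (List.mem_append_right _ hp), ?_, e3⟩
  intro p hp
  have := h.rg (p + (pos b.1 + D')) (List.mem_append_left _ (mem_sh.2 (by simpa using hp)))
  simp only [Prod.fst_add] at this
  omega

theorem nl_add (p q : Z3) : nl (p + q) ≤ nl p + nl q := by
  unfold nl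
  simp only [Prod.snd_add, Prod.fst_add]
  omega

theorem nl_neg (p : Z3) : nl (-p) = nl p := by
  unfold nl
  simp only [Prod.snd_neg, Prod.fst_neg, Int.natAbs_neg]

theorem nl_vec (a : Dir) : nl (vec a) ≤ 1 := by cases a <;> simp [nl, vec]

theorem nl_path {w : List Dir} {p : Z3} (h : p ∈ path w) : nl p ≤ w.length := by
  obtain ⟨u, v, rfl, rfl⟩ := path_suffix h
  have := nl_xc v
  simp only [List.length_append]
  omega

theorem nl_path' {w : List Dir} {p : Z3} (h : p ∈ path w) : nl (p - pos w) ≤ w.length := by
  obtain ⟨u, v, rfl, rfl⟩ := path_suffix h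
  have h1 := nl_xc u
  have e : pos v - pos (u ++ v) = - pos u := by rw [pos_append]; abel
  rw [e, nl_neg]
  simp only [List.length_append]
  omega

theorem nxt_x {D : Z3} {b : Blk} (hb : Fr b) (h0 : D.1 = 0) : (nxt D b).1 = 0 := by
  unfold nxt
  simp only [Prod.fst_sub, h0, hb.e]
  ring

theorem pc_of_far {D : Z3} {b : Blk} (hb : Fr b) (h0 : D.1 = 0) (hD : bl b < nl D) :
    Pc D (nxt D b) b := by
  have hn := nxt_x hb h0
  have e2 : pos b.1 + nxt D b = D - pos b.2 := by unfold nxt; abel
  have hj : 0 ≤ (pos b.1).1 := (hb.r1 _ (pos_mem_path _)).1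
  refine ⟨?_, ?_, ?_, hn, h0⟩
  · unfold pv
    rw [List.nodup_append']
    refine ⟨nodup_sh.2 hb.n2, hb.n1, ?_⟩
    intro p hp hq
    have h1 := nl_path hq
    have h2 := mem_sh.1 hp
    rw [e2] at h2
    have h3 := nl_path' h2
    have e3 : p - (D - pos b.2) - pos b.2 = -(D - p) := by abel
    rw [e3, nl_neg] at h3
    have h4 := nl_add (D - p) p
    rw [sub_add_cancel] at h4
    unfold bl at hD
    omega
  · intro p hp
    unfold pv at hp
    rw [List.mem_append] at hp
    rcases hp with hp | hp
    · have := hb.r2 _ (mem_sh.1 hp)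
      rw [e2] at this
      simp only [Prod.fst_sub, h0, hb.e] at this
      omega
    · exact hb.r1 p hp
  · rw [e2]; abel

/-- the type of a block at `D` -/
def T (D : Z3) (b : Blk) : List V := tB D (nxt D b) b

/-! ### the region where the second coordinate of `D` is very negative -/

theorem yl_neg (n : ℕ) : yl (-(n : ℤ)) = List.replicate n Dir.ym := by
  unfold yl
  split_ifs with h
  · have : n = 0 := by omega
    subst this
    simp
  · congr 1
    omega

theorem abs_y {w : List Dir} {p : Z3} (h : p ∈ path w) : p.2.1.natAbs ≤ w.length := by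
  have := nl_path h
  unfold nl at this
  omega

theorem abs_y' {w : List Dir} {p : Z3} (h : p ∈ path w) :
    (p.2.1 - (pos w).2.1).natAbs ≤ w.length := by
  have := nl_path' h
  unfold nl at this
  simp only [Prod.snd_sub, Prod.fst_sub] at this
  omega

theorem path_rep_y {n : ℕ} {p : Z3} (h : p ∈ path (List.replicate n Dir.yp)) :
    0 ≤ p.2.1 ∧ p.2.1 ≤ n := by
  obtain ⟨u, v, h1, rfl⟩ := path_suffix h
  have h2 : v = List.replicate v.length Dir.yp := by
    refine List.eq_replicate_iff.2 ⟨rfl, fun a ha => ?_⟩
    have : a ∈ List.replicate n Dir.yp := by rw [h1]; exact List.mem_append_right _ ha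
    exact (List.mem_replicate.1 this).2
  have h3 : v.length ≤ n := by
    have := congrArg List.length h1
    simp only [List.length_replicate, List.length_append] at this
    omega
  rw [h2, pos_replicate]
  simp [vec]
  exact h3

theorem path_rep_ym {n : ℕ} {p : Z3} (h : p ∈ path (List.replicate n Dir.ym)) :
    p.2.1 ≤ 0 ∧ -(n : ℤ) ≤ p.2.1 := by
  obtain ⟨u, v, h1, rfl⟩ := path_suffix h
  have h2 : v = List.replicate v.length Dir.ym := by
    refine List.eq_replicate_iff.2 ⟨rfl, fun a ha => ?_⟩
    have : a ∈ List.replicate n Dir.ym := by rw [h1]; exact List.mem_append_right _ ha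
    exact (List.mem_replicate.1 this).2
  have h3 : v.length ≤ n := by
    have := congrArg List.length h1
    simp only [List.length_replicate, List.length_append] at this
    omega
  rw [h2, pos_replicate]
  simp [vec]
  exact h3

theorem zl_y (c : ℤ) {p : Z3} (h : p ∈ path (zl c)) : p.2.1 = 0 := by
  obtain ⟨u, v, h1, rfl⟩ := path_suffix h
  have h2 : ∀ a ∈ v, a = Dir.zp ∨ a = Dir.zm := by
    intro a ha
    have : a ∈ zl c := by rw [h1]; exact List.mem_append_right _ ha
    unfold zl at this
    split_ifs at this
    · exact Or.inl (List.mem_replicate.1 this).2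
    · exact Or.inr (List.mem_replicate.1 this).2
  clear h h1
  induction v with
  | nil => rfl
  | cons a v ih =>
    have h3 := ih (fun a ha => h2 a (List.mem_cons_of_mem _ ha))
    rw [pos]
    simp only [Prod.snd_add, Prod.fst_add, h3]
    rcases h2 a List.mem_cons_self with rfl | rfl <;> simp [vec]

/-- the left arc after the cut -/
def Lw (b : Blk) (h h' : ℕ) : List Dir :=
  List.replicate h' Dir.ym ++ Dir.xp :: (b.1 ++ Dir.xp :: List.replicate h Dir.yp)

/-- the right arc after the cut -/
def Rr (b : Blk) (m m' : ℕ) (c c' : ℤ) : List Dir :=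
  List.replicate m Dir.yp ++ (back (zl c) ++ Dir.xm :: (b.2 ++ Dir.xm ::
    (zl c' ++ List.replicate m' Dir.ym)))

theorem Lw_range {b : Blk} {h h' : ℕ} (hh : b.1.length ≤ h)
    (h1 : (h : ℤ) + (pos b.1).2.1 = h') : ∀ p ∈ path (Lw b h h'), 0 ≤ p.2.1 := by
  intro p hp
  unfold Lw at hp
  rw [mem_path_append] at hp
  have hx : (vec Dir.xp).2.1 = 0 := rfl
  have hpy : (pos (List.replicate h Dir.yp)).2.1 = h := by
    rw [pos_replicate]; simp [vec]
  have e1 : (pos (Dir.xp :: (b.1 ++ Dir.xp :: List.replicate h Dir.yp))).2.1 = h' := by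
    simp only [pos, pos_append, Prod.snd_add, Prod.fst_add, hx, hpy]
    omega
  rcases hp with hp | hp
  · have := (path_rep_ym hp).2
    simp only [Prod.snd_sub, Prod.fst_sub] at this
    omega
  · rcases List.mem_cons.1 hp with rfl | hp
    · have : (0 : ℤ) ≤ h' := Int.natCast_nonneg _
      rw [pos] at e1
      omega
    · rw [mem_path_append] at hp
      rcases hp with hp | hp
      · have := abs_y hp
        have e2 : (pos (Dir.xp :: List.replicate h Dir.yp)).2.1 = h := by
          simp only [pos, Prod.snd_add, Prod.fst_add, hx, hpy]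
          omega
        simp only [Prod.snd_sub, Prod.fst_sub] at this
        omega
      · rcases List.mem_cons.1 hp with rfl | hp
        · simp only [Prod.snd_add, Prod.fst_add, hx, hpy]
          omega
        · exact (path_rep_y hp).1

theorem Rr_range {b : Blk} {m m' : ℕ} {c c' : ℤ} (hm : b.2.length ≤ m')
    (h1 : (m : ℤ) + (pos b.2).2.1 = m') : (∀ p ∈ path (Rr b m m' c c'), p.2.1 ≤ 0) ∧
      (pos (Rr b m m' c c')).2.1 = 0 := by
  have hx : (vec Dir.xm).2.1 = 0 := rfl
  have hpz : ∀ c, (pos (zl c)).2.1 = 0 := fun c => by rw [pos_zl]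
  have hpzb : ∀ c, (pos (back (zl c))).2.1 = 0 := fun c => by rw [back_zl, pos_zl]
  have hpm : (pos (List.replicate m' Dir.ym)).2.1 = -m' := by
    rw [pos_replicate]; simp [vec]
  have hpy : (pos (List.replicate m Dir.yp)).2.1 = m := by
    rw [pos_replicate]; simp [vec]
  have e1 : (pos (zl c' ++ List.replicate m' Dir.ym)).2.1 = -m' := by
    simp only [pos_append, Prod.snd_add, Prod.fst_add, hpz, hpm]
    omega
  have e2 : (pos (b.2 ++ Dir.xm :: (zl c' ++ List.replicate m' Dir.ym))).2.1 = -m := by
    rw [pos_append, pos]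
    simp only [Prod.snd_add, Prod.fst_add, e1, hx]
    omega
  have e3 : (pos (back (zl c) ++ Dir.xm :: (b.2 ++ Dir.xm ::
      (zl c' ++ List.replicate m' Dir.ym)))).2.1 = -m := by
    rw [pos_append, pos]
    simp only [Prod.snd_add, Prod.fst_add, e2, hx, hpzb]
    omega
  constructor
  · intro p hp
    unfold Rr at hp
    rw [mem_path_append] at hp
    rcases hp with hp | hp
    · have := (path_rep_y hp).2
      simp only [Prod.snd_sub, Prod.fst_sub, e3] at this
      omega
    · rw [mem_path_append] at hp
      rcases hp with hp | hp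
      · have := zl_y (-c) (p := p - pos (Dir.xm :: (b.2 ++ Dir.xm ::
          (zl c' ++ List.replicate m' Dir.ym)))) (by rw [← back_zl]; exact hp)
        rw [pos] at this
        simp only [Prod.snd_sub, Prod.fst_sub, Prod.snd_add, Prod.fst_add, e2, hx] at this
        omega
      · rcases List.mem_cons.1 hp with rfl | hp
        · simp only [Prod.snd_add, Prod.fst_add, e2, hx]
          omega
        · rw [mem_path_append] at hp
          rcases hp with hp | hp
          · have := abs_y hp
            rw [pos] at this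
            simp only [Prod.snd_sub, Prod.fst_sub, Prod.snd_add, Prod.fst_add, e1, hx] at this
            omega
          · rcases List.mem_cons.1 hp with rfl | hp
            · simp only [Prod.snd_add, Prod.fst_add, e1, hx]
              omega
            · rw [mem_path_append] at hp
              rcases hp with hp | hp
              · have := zl_y _ hp
                simp only [Prod.snd_sub, Prod.fst_sub, hpm] at this
                omega
              · exact (path_rep_ym hp).1
  · unfold Rr
    rw [pos_append]
    simp only [Prod.snd_add, Prod.fst_add, e3, hpy]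
    omega

end

end KN.ST
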