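import Pool.Agent.H132.LG.Far

/-!
# The type of a block is constant in a region
-/

set_option autoImplicit false

namespace KN.ST

open KN KN.KQ
open scoped Classical

noncomputable section

def VG (b : Blk) (h h' : ℕ) (G : List Dir) : List Dir :=
  Dir.xp :: (List.replicate h Dir.yp ++ Dir.yp :: (G ++ Dir.ym ::
    (List.replicate h' Dir.ym ++ Dir.xp :: b.1)))

def WG (b : Blk) (h h' : ℕ) (G : List Dir) : List Dir :=
  Dir.ym :: (Lw b h h' ++ Dir.yp :: G)

theorem VG_rot (b : Blk) (h h' : ℕ) (G : List Dir) :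
    (VG b h h' G).rotate (Dir.xp :: (List.replicate h Dir.yp ++ Dir.yp :: G)).length =
      WG b h h' G := by
  have e1 : VG b h h' G = (Dir.xp :: (List.replicate h Dir.yp ++ Dir.yp :: G)) ++
      (Dir.ym :: (List.replicate h' Dir.ym ++ Dir.xp :: b.1)) := by
    simp [VG]
  rw [e1, List.rotate_append_length_eq]
  simp [WG, Lw]

theorem WG_rot (b : Blk) (h h' : ℕ) (G : List Dir) :
    (WG b h h' G).rotate (Dir.ym :: (List.replicate h' Dir.ym ++ Dir.xp :: b.1)).length =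
      VG b h h' G := by
  have e1 : WG b h h' G = (Dir.ym :: (List.replicate h' Dir.ym ++ Dir.xp :: b.1)) ++
      (Dir.xp :: (List.replicate h Dir.yp ++ Dir.yp :: G)) := by
    simp [WG, Lw]
  rw [e1, List.rotate_append_length_eq]
  simp [VG]

theorem VG_base (b : Blk) (h h' m m' : ℕ) (c c' : ℤ) : VG b h h' (Rr b m m' c c') =
    Poly (back (zl c ++ List.replicate (m + 1 + h) Dir.ym))
      (Rw1 b (zl c' ++ List.replicate (m' + 1 + h') Dir.ym)) := by
  have e1 : back (zl c ++ List.replicate (m + 1 + h) Dir.ym) =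
      List.replicate h Dir.yp ++ (Dir.yp :: (List.replicate m Dir.yp ++ back (zl c))) := by
    have hrep : ∀ (n : ℕ) (d : Dir), back (List.replicate n d) = List.replicate n (neg d) := by
      intro n d; simp [back]
    rw [back_append, hrep, show m + 1 + h = h + (m + 1) by ring, List.replicate_add,
      List.replicate_succ]
    simp [neg]
  have e2 : zl c' ++ List.replicate (m' + 1 + h') Dir.ym =
      zl c' ++ (List.replicate m' Dir.ym ++ Dir.ym :: List.replicate h' Dir.ym) := by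
    rw [show m' + 1 + h' = m' + (1 + h') by ring, List.replicate_add, add_comm 1 h',
      List.replicate_succ]
  rw [e1, e2]
  simp [VG, Rr, Poly, Rw1]

theorem Rr_succ (b : Blk) (m m' : ℕ) (c c' : ℤ) : Rr b (m + 1) (m' + 1) c c' =
    Dir.yp :: (Rr b m m' c c' ++ [Dir.ym]) := by
  unfold Rr
  rw [List.replicate_succ, List.replicate_succ' (n := m')]
  simp

theorem VG_shift (b : Blk) (h h' m m' : ℕ) (c c' : ℤ) :
    VG b h h' (Dir.zm :: Dir.yp :: Dir.yp :: (Rr b m m' c c' ++ [Dir.ym, Dir.zp, Dir.ym])) =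
    Poly (back (zl c ++ (List.replicate (m + 1 + 1) Dir.ym ++
        Dir.zp :: List.replicate (h + 1) Dir.ym)))
      (Rw1 b (zl c' ++ (List.replicate (m' + 1) Dir.ym ++
        Dir.zp :: List.replicate (h' + 1 + 1) Dir.ym))) := by
  have hrep : ∀ (n : ℕ) (d : Dir), back (List.replicate n d) = List.replicate n (neg d) := by
    intro n d; simp [back]
  have e1 : back (zl c ++ (List.replicate (m + 1 + 1) Dir.ym ++
        Dir.zp :: List.replicate (h + 1) Dir.ym)) =
      List.replicate h Dir.yp ++ (Dir.yp :: (Dir.zm :: Dir.yp :: Dir.yp ::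
        (List.replicate m Dir.yp ++ back (zl c)))) := by
    rw [back_append, back_append, back_cons, hrep, hrep, List.replicate_succ' (n := h)]
    simp only [List.replicate_succ (n := m + 1), List.replicate_succ (n := m)]
    simp [neg]
  have e2 : zl c' ++ (List.replicate (m' + 1) Dir.ym ++
        Dir.zp :: List.replicate (h' + 1 + 1) Dir.ym) =
      zl c' ++ (List.replicate m' Dir.ym ++ Dir.ym :: Dir.zp :: Dir.ym :: Dir.ym ::
        List.replicate h' Dir.ym) := by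
    rw [List.replicate_succ' (n := m'), List.replicate_succ (n := h' + 1),
      List.replicate_succ (n := h')]
    simp
  rw [e1, e2]
  simp [VG, Rr, Poly, Rw1]

/-- the data of a block at a very negative second coordinate -/
theorem region_data {b : Blk} (hb : Fr b) {a : ℕ} (ha : 2 * bl b + 1 ≤ a) (c : ℤ) :
    ∃ (h h' m m' : ℕ) (c' : ℤ), m + 1 + h = a ∧ b.1.length ≤ h ∧
      (h : ℤ) + (pos b.1).2.1 = h' ∧ b.2.length ≤ m' ∧ (m : ℤ) + (pos b.2).2.1 = m' ∧
      ∀ i j : ℤ, nxt (0, -(a : ℤ) - i, c + j) b = (0, -((m' + 1 + h' : ℕ) : ℤ) - i, c' + j) := by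
  have y1 := abs_y (pos_mem_path b.1)
  have y2 := abs_y (pos_mem_path b.2)
  unfold bl at ha
  refine ⟨b.1.length, (b.1.length + (pos b.1).2.1).toNat, a - b.1.length - 1,
    (((a - b.1.length - 1 : ℕ) : ℤ) + (pos b.2).2.1).toNat, c - (pos b.1).2.2 - (pos b.2).2.2,
    by omega, le_rfl, by omega, by omega, by omega, ?_⟩
  intro i j
  have hx := hb.e
  unfold nxt
  ext
  · simp only [Prod.fst_sub]; omega
  · simp only [Prod.fst_sub, Prod.snd_sub]
    push_cast
    omega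
  · simp only [Prod.snd_sub]
    omega

theorem cp_neg (a : ℕ) (c : ℤ) : cp (0, -(a : ℤ), c) = zl c ++ List.replicate a Dir.ym := by
  unfold cp
  simp only
  rw [yl_neg]

theorem nl_far (a : ℕ) (c : ℤ) : a ≤ nl (0, -(a : ℤ), c) := by
  unfold nl
  simp only
  omega

/-- comparison with an inserted layer -/
theorem region_ins {b : Blk} (hb : Fr b) {a : ℕ} {c : ℤ} {h h' m m' : ℕ} {c' : ℤ}
    (g1 : m + 1 + h = a) (g2 : b.1.length ≤ h) (g3 : (h : ℤ) + (pos b.1).2.1 = h')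
    (g4 : b.2.length ≤ m') (g5 : (m : ℤ) + (pos b.2).2.1 = m')
    (g6 : nxt (0, -(a : ℤ), c) b = (0, -((m' + 1 + h' : ℕ) : ℤ), c')) (hfar : bl b < a) :
    SAP (VG b h h' (Rr b m m' c c')) ∧
      Same (T (0, -(a : ℤ), c) b) (vl (VG b h h' (Rr b m m' c c'))) ∧
      ∀ bs : List Blk, ∀ G : List Dir, G.map rq = Rw bs ((Rr b m m' c c').map rq) →
        VC (RQ (pos (Rr b m m' c c'))) bs (RQ (pos (Rr b m m' c c'))) →
        nb (RQ (pos (Rr b m m' c c'))) bs = 0 →
        SAP (VG b h h' G) ∧ Same (vl (VG b h h' (Rr b m m' c c'))) (vl (VG b h h' G)) := by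
  have hpc := pc_of_far hb (D := (0, -(a : ℤ), c)) rfl (lt_of_lt_of_le hfar (nl_far a c))
  have hV : T (0, -(a : ℤ), c) b = vl (VG b h h' (Rr b m m' c c')) := by
    unfold T tB
    rw [g6, cp_neg, cp_neg, VG_base, g1]
  have hS : SAP (VG b h h' (Rr b m m' c c')) := by
    rw [VG_base, g1, ← cp_neg, ← cp_neg, ← g6]
    exact sap_poly (pa_cp hpc.h1 hpc.ne.1).la (hpc.ra (pa_cp hpc.h0 hpc.ne.2).ra)
  refine ⟨hS, by rw [hV]; exact Same.refl _, ?_⟩
  intro bs G hG hVC hnb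
  have r1 := (c_words _ hS).2.2 (Dir.xp :: (List.replicate h Dir.yp ++ Dir.yp ::
    (Rr b m m' c c'))).length
  rw [VG_rot] at r1
  obtain ⟨k1, k2⟩ := Rr_range (c := c) (c' := c') g4 g5
  obtain ⟨l1, l2, l3⟩ := sep r1.1 (Lw_range g2 g3) k1 k2
  obtain ⟨t1, t2⟩ := trivial_ins l1 l2 hVC hnb
  rw [← hG] at t1 t2
  have e : Poly ((Lw b h h').map rq) (G.map rq) = (WG b h h' G).map rq := by
    simp [WG, Poly, rq]
  rw [e] at t1 t2
  obtain ⟨u1, u2⟩ := rq_inv t2
  have r2 := (c_words _ u1).2.2 (Dir.ym :: (List.replicate h' Dir.ym ++ Dir.xp :: b.1)).length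
  rw [WG_rot] at r2
  refine ⟨r2.1, r1.2.trans (l3.trans (t1.trans (u2.symm.trans r2.2)))⟩

theorem RQ_lat {b : Blk} (hb : Fr b) {m m' : ℕ} {c c' : ℤ} (hm : b.2.length ≤ m')
    (h1 : (m : ℤ) + (pos b.2).2.1 = m') :
    (RQ (pos (Rr b m m' c c'))).1 = 0 ∧ (RQ (pos (Rr b m m' c c'))).2.1 ≤ -2 := by
  have h2 := (Rr_range (c := c) (c' := c') hm h1).2
  have hj : 0 ≤ (pos b.1).1 := (hb.r1 _ (pos_mem_path _)).1
  refine ⟨by simp only [RQ]; omega, ?_⟩
  simp only [RQ]
  unfold Rr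
  simp only [pos_append, pos, back_zl, pos_zl, pos_replicate, Prod.fst_add, hb.e, Prod.smul_fst]
  simp [vec]
  omega

theorem q1_pa (c : ℤ) (m h : ℕ) {E : Z3}
    (hE : pos (zl c ++ (List.replicate (m + 1) Dir.ym ++
      Dir.zp :: List.replicate (h + 1) Dir.ym)) = E) (h0 : E ≠ 0) :
    PA E (zl c ++ (List.replicate (m + 1) Dir.ym ++ Dir.zp :: List.replicate (h + 1) Dir.ym)) := by
  rcases le_or_gt 0 c with hc | hc
  · have := q1_pos hc m h hE h0 (m + 1) 0 rfl
    simpa using this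
  · obtain ⟨p, hp⟩ : ∃ p : ℕ, c = -((p : ℤ) + 1) := ⟨(-c).toNat - 1, by omega⟩
    have z1 : zl c = List.replicate (p + 1) Dir.zm := by
      unfold zl
      rw [if_neg (by omega)]
      congr 1
      omega
    rw [z1] at hE ⊢
    have := q1_neg p m h hE h0 m 0 rfl
    rw [List.replicate_succ (n := m)]
    simpa using this

/-- one step in the direction of the second axis -/
theorem region_y {b : Blk} (hb : Fr b) {a : ℕ} (ha : 2 * bl b + 1 ≤ a) (c : ℤ) :
    Same (T (0, -(a : ℤ), c) b) (T (0, -((a + 1 : ℕ) : ℤ), c) b) := by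
  obtain ⟨h, h', m, m', c', g1, g2, g3, g4, g5, g6⟩ := region_data hb ha c
  have g60 := g6 0 0
  simp only [sub_zero, add_zero] at g60
  obtain ⟨s1, s2, s3⟩ := region_ins hb g1 g2 g3 g4 g5 g60 (by omega)
  obtain ⟨q1, q2⟩ := RQ_lat hb (c := c) (c' := c') g4 g5
  have qne : RQ (pos (Rr b m m' c c')) ≠ 0 := by
    intro h0
    rw [h0] at q2
    simp at q2
  obtain ⟨w1, w2⟩ := s3 [([], [])] (Dir.yp :: (Rr b m m' c c' ++ [Dir.ym])) (by
      simp [Rw, Rw1, rq]) (by
      have e : ∀ D : Z3, nxt D ([], []) = D := fun D => by simp [nxt, pos]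
      simp only [VC, e]
      exact ⟨pc_S q1 qne, trivial⟩) (by
      rw [nb_S q1 qne]; rfl)
  have g61 := g6 1 0
  simp only [add_zero] at g61
  have e1 : -(a : ℤ) - 1 = -((a + 1 : ℕ) : ℤ) := by push_cast; ring
  have e2 : -((m' + 1 + h' : ℕ) : ℤ) - 1 = -((m' + 1 + 1 + h' : ℕ) : ℤ) := by push_cast; ring
  rw [e1, e2] at g61
  have e3 : T (0, -((a + 1 : ℕ) : ℤ), c) b =
      vl (VG b h h' (Dir.yp :: (Rr b m m' c c' ++ [Dir.ym]))) := by
    unfold T tB
    rw [g61, cp_neg, cp_neg, ← Rr_succ, VG_base, show m + 1 + 1 + h = a + 1 by omega]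
  rw [e3]
  exact s2.trans w2

/-- one step in the direction of the third axis -/
theorem region_z {b : Blk} (hb : Fr b) {a : ℕ} (ha : 2 * bl b + 1 ≤ a) (c : ℤ) :
    Same (T (0, -(a : ℤ), c) b) (T (0, -((a + 2 : ℕ) : ℤ), c + 1) b) := by
  obtain ⟨h, h', m, m', c', g1, g2, g3, g4, g5, g6⟩ := region_data hb ha c
  have g60 := g6 0 0
  simp only [sub_zero, add_zero] at g60
  obtain ⟨s1, s2, s3⟩ := region_ins hb g1 g2 g3 g4 g5 g60 (by omega)
  obtain ⟨q1, q2⟩ := RQ_lat hb (c := c) (c' := c') g4 g5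
  have qne : RQ (pos (Rr b m m' c c')) ≠ 0 := by
    intro h0
    rw [h0] at q2
    simp at q2
  have qne' : RQ (pos (Rr b m m' c c')) + vec Dir.zp ≠ 0 := by
    intro h0
    have := congrArg (fun p : Z3 => p.2.1) h0
    simp only [Prod.snd_add, Prod.fst_add, vec, Prod.snd_zero, Prod.fst_zero] at this
    omega
  obtain ⟨v1, v2⟩ := shift2 q1 qne (v := Dir.zp) (by simp [Lat]) qne'
  obtain ⟨w1, w2⟩ := s3 _ (Dir.zm :: Dir.yp :: Dir.yp :: (Rr b m m' c c' ++
      [Dir.ym, Dir.zp, Dir.ym])) (by simp [Rw, Rw1, rq, neg]) v1 v2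
  have g61 := g6 2 1
  have e1 : -(a : ℤ) - 2 = -((a + 2 : ℕ) : ℤ) := by push_cast; ring
  have e2 : -((m' + 1 + h' : ℕ) : ℤ) - 2 = -((m' + 1 + (h' + 1 + 1) : ℕ) : ℤ) := by
    push_cast; ring
  rw [e1, e2] at g61
  have hfar : bl b < a + 2 := by omega
  have hpc := pc_of_far hb (D := (0, -((a + 2 : ℕ) : ℤ), c + 1)) rfl
    (lt_of_lt_of_le hfar (nl_far (a + 2) (c + 1)))
  have hE1 : pos (zl c ++ (List.replicate (m + 1 + 1) Dir.ym ++
      Dir.zp :: List.replicate (h + 1) Dir.ym)) = (0, -((a + 2 : ℕ) : ℤ), c + 1) := by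
    simp only [pos_append, pos, pos_zl, pos_replicate, vec]
    ext <;> (simp; try omega)
  have hE2 : pos (zl c' ++ (List.replicate (m' + 1) Dir.ym ++
      Dir.zp :: List.replicate (h' + 1 + 1) Dir.ym)) =
      (0, -((m' + 1 + (h' + 1 + 1) : ℕ) : ℤ), c' + 1) := by
    simp only [pos_append, pos, pos_zl, pos_replicate, vec]
    ext <;> (simp; try omega)
  have hne := hpc.ne
  rw [g61] at hpc hne
  have a1 := eqp_q1 c (m + 1) h hE1 hne.1
  have a2 := eqp_q1 c' m' (h' + 1) hE2 hne.2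
  rw [show m + 1 + 1 + (h + 1) = a + 2 by omega, ← cp_neg] at a1
  rw [← cp_neg] at a2
  rw [VG_shift] at w1 w2
  have t1 : Same (vl (Poly (back (zl c ++ (List.replicate (m + 1 + 1) Dir.ym ++
        Dir.zp :: List.replicate (h + 1) Dir.ym)))
      (Rw1 b (zl c' ++ (List.replicate (m' + 1) Dir.ym ++
        Dir.zp :: List.replicate (h' + 1 + 1) Dir.ym)))))
      (T (0, -((a + 2 : ℕ) : ℤ), c + 1) b) := by
    unfold T
    rw [g61]
    exact tB_arcs hpc (q1_pa c' m' (h' + 1) hE2 hne.2) a1 a2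
  exact s2.trans (w2.trans t1)

end

end KN.ST
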