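import Pool.Agent.H132.LG.Far2

/-!
# The type of a block with far arcs
-/

set_option autoImplicit false

namespace KN.ST

open KN KN.KQ
open scoped Classical

noncomputable section

theorem region_const0 {b : Blk} (hb : Fr b) {A : ℕ} (hA : 2 * bl b + 1 ≤ A) :
    ∀ (k : ℕ) (c : ℤ), Same (T (0, -((A + k : ℕ) : ℤ), c) b) (T (0, -(A : ℤ), 0) b) := by
  have hy : ∀ (c : ℤ) (k : ℕ), Same (T (0, -((A + k : ℕ) : ℤ), c) b)
      (T (0, -(A : ℤ), c) b) := by
    intro c k
    induction k with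
    | zero => exact Same.refl _
    | succ k ih =>
      have := region_y hb (a := A + k) (by omega) c
      exact this.symm.trans ih
  have hz : ∀ c : ℤ, Same (T (0, -(A : ℤ), c) b) (T (0, -(A : ℤ), c + 1) b) := by
    intro c
    exact (region_z hb hA c).trans (hy (c + 1) 2)
  have hz0 : ∀ c : ℤ, Same (T (0, -(A : ℤ), c) b) (T (0, -(A : ℤ), 0) b) := by
    intro c
    induction c using Int.induction_on with
    | zero => exact Same.refl _
    | succ i ih => exact (hz i).symm.trans ih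
    | pred i ih =>
      have := hz (-(i : ℤ) - 1)
      rw [sub_add_cancel] at this
      exact this.trans ih
  intro k c
  exact (hy c k).trans (hz0 c)

theorem region_const {b : Blk} (hb : Fr b) {D E : Z3} (hD : D.1 = 0) (hE : E.1 = 0)
    (hD' : D.2.1 ≤ -(2 * bl b + 1 : ℤ)) (hE' : E.2.1 ≤ -(2 * bl b + 1 : ℤ)) :
    Same (T D b) (T E b) := by
  have key : ∀ D : Z3, D.1 = 0 → D.2.1 ≤ -(2 * bl b + 1 : ℤ) →
      Same (T D b) (T (0, -((2 * bl b + 1 : ℕ) : ℤ), 0) b) := by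
    intro D hD hD'
    have h1 := region_const0 hb (A := 2 * bl b + 1) le_rfl
      ((-D.2.1).toNat - (2 * bl b + 1)) D.2.2
    have e : D = (0, -((2 * bl b + 1 + ((-D.2.1).toNat - (2 * bl b + 1)) : ℕ) : ℤ), D.2.2) := by
      refine Prod.ext hD (Prod.ext ?_ rfl)
      simp only
      omega
    rw [← e] at h1
    exact h1
  exact (key D hD hD').trans (key E hE hE').symm

/-! ### rotations around the first axis -/

/-- the rotated block -/
def rb (b : Blk) : Blk := (b.1.map rx, b.2.map rx)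

theorem bl_rb (b : Blk) : bl (rb b) = bl b := by simp [bl, rb]

theorem RX_fst (p : Z3) : (WRD.RX p).1 = p.1 := rfl

theorem Fr.rx {b : Blk} (h : Fr b) : Fr (rb b) := by
  refine ⟨?_, ?_, ?_, ?_, ?_⟩
  · simp only [rb, path_rx]; exact h.n1.map WRD.RX_inj
  · simp only [rb, path_rx]; exact h.n2.map WRD.RX_inj
  · intro p hp
    simp only [rb, path_rx, List.mem_map, pos_rx] at hp ⊢
    obtain ⟨q, hq, rfl⟩ := hp
    exact h.r1 q hq
  · intro p hp
    simp only [rb, path_rx, List.mem_map, pos_rx] at hp ⊢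
    obtain ⟨q, hq, rfl⟩ := hp
    exact h.r2 q hq
  · simp only [rb, pos_rx]
    exact h.e

theorem RX_sub (p q : Z3) : WRD.RX (p - q) = WRD.RX p - WRD.RX q := by
  rw [sub_eq_add_neg, WRD.RX_add, RX_neg, sub_eq_add_neg]

theorem nxt_rx (D : Z3) (b : Blk) : nxt (WRD.RX D) (rb b) = WRD.RX (nxt D b) := by
  unfold nxt rb
  rw [pos_rx, pos_rx, RX_sub, RX_sub]

theorem cp_rx (D : Z3) : (cp D).map rx = yl (WRD.RX D).2.1 ++ zl (WRD.RX D).2.2 := by
  have h1 : ∀ a : ℤ, (zl a).map rx = yl (-a) := by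
    intro a
    unfold zl yl
    rcases lt_trichotomy a 0 with h | h | h
    · rw [if_neg (by omega), if_pos (by omega), List.map_replicate]; rfl
    · subst h; simp
    · rw [if_pos (by omega), if_neg (by omega), List.map_replicate, neg_neg]; rfl
  have h2 : ∀ a : ℤ, (yl a).map rx = zl a := by
    intro a
    unfold zl yl
    split_ifs <;> rw [List.map_replicate] <;> rfl
  unfold cp
  rw [List.map_append, h1, h2]
  rfl

theorem Pc.rx {D D' : Z3} {b : Blk} (h : Pc D D' b) : Pc (WRD.RX D) (WRD.RX D') (rb b) := by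
  have e : pv (rb b) (WRD.RX D') = (pv b D').map WRD.RX := by
    unfold pv rb sh
    simp only [path_rx, pos_rx, List.map_append, List.map_map]
    congr 1
    refine List.map_congr_left fun p _ => ?_
    simp only [Function.comp_apply, WRD.RX_add]
  refine ⟨?_, ?_, ?_, h.h0, h.h1⟩
  · rw [e]; exact h.nd.map WRD.RX_inj
  · intro p hp
    rw [e, List.mem_map] at hp
    obtain ⟨q, hq, rfl⟩ := hp
    simp only [rb, pos_rx]
    exact h.rg q hq
  · simp only [rb, pos_rx]
    rw [← WRD.RX_add, ← WRD.RX_add, h.rel]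

theorem T_rx {D : Z3} {b : Blk} (h : Pc D (nxt D b) b) :
    Same (T (WRD.RX D) (rb b)) (T D b) := by
  have hp := pa_cp h.h1 h.ne.1
  have hp' := pa_cp h.h0 h.ne.2
  have hS := sap_poly hp.la (h.ra hp'.ra)
  have h1 := (c_words _ hS).1.2
  have e : (Poly (back (cp D)) (Rw1 b (cp (nxt D b)))).map rx =
      Poly (back ((cp D).map rx)) (Rw1 (rb b) ((cp (nxt D b)).map rx)) := by
    rw [back_rx]
    simp [Poly, Rw1, rb, rx]
  rw [e] at h1
  have hr := h.rx
  have hE1 := eqp_comm (D := WRD.RX D) h.h1 (RX_ne h.ne.1)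
  have hE2 := eqp_comm (D := WRD.RX (nxt D b)) h.h0 (RX_ne h.ne.2)
  rw [← cp_rx] at hE1 hE2
  have h2 := tB_arcs hr hp'.rx hE1 hE2
  have h3 : T (WRD.RX D) (rb b) = tB (WRD.RX D) (WRD.RX (nxt D b)) (rb b) := by
    unfold T
    rw [nxt_rx]
  rw [h3]
  exact h2.symm.trans h1.symm

/-- the type of a block with far arcs does not depend on their difference -/
theorem far_type {b : Blk} (hb : Fr b) {D E : Z3} (hD : D.1 = 0) (hE : E.1 = 0)
    (hD' : 4 * bl b + 2 ≤ nl D) (hE' : 4 * bl b + 2 ≤ nl E) : Same (T D b) (T E b) := by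
  -- the four regions
  have r0 : ∀ b : Blk, Fr b → ∀ D E : Z3, D.1 = 0 → E.1 = 0 → D.2.1 ≤ -(2 * bl b + 1 : ℤ) →
      E.2.1 ≤ -(2 * bl b + 1 : ℤ) → Same (T D b) (T E b) :=
    fun b hb D E h1 h2 h3 h4 => region_const hb h1 h2 h3 h4
  have hpc : ∀ b : Blk, Fr b → ∀ D : Z3, D.1 = 0 → bl b < nl D →
      Same (T (WRD.RX D) (rb b)) (T D b) :=
    fun b hb D h1 h2 => T_rx (pc_of_far hb h1 h2)
  have r1 : ∀ b : Blk, Fr b → ∀ D E : Z3, D.1 = 0 → E.1 = 0 → (2 * bl b + 1 : ℤ) ≤ D.2.2 →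
      (2 * bl b + 1 : ℤ) ≤ E.2.2 → Same (T D b) (T E b) := by
    intro b hb D E h1 h2 h3 h4
    have n1 : bl b < nl D := by unfold nl; omega
    have n2 : bl b < nl E := by unfold nl; omega
    refine (hpc b hb D h1 n1).symm.trans (Same.trans ?_ (hpc b hb E h2 n2))
    refine r0 (rb b) hb.rx _ _ h1 h2 ?_ ?_
    · rw [bl_rb]; simp only [WRD.RX]; omega
    · rw [bl_rb]; simp only [WRD.RX]; omega
  have r2 : ∀ b : Blk, Fr b → ∀ D E : Z3, D.1 = 0 → E.1 = 0 → (2 * bl b + 1 : ℤ) ≤ D.2.1 →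
      (2 * bl b + 1 : ℤ) ≤ E.2.1 → Same (T D b) (T E b) := by
    intro b hb D E h1 h2 h3 h4
    have n1 : bl b < nl D := by unfold nl; omega
    have n2 : bl b < nl E := by unfold nl; omega
    refine (hpc b hb D h1 n1).symm.trans (Same.trans ?_ (hpc b hb E h2 n2))
    refine r1 (rb b) hb.rx _ _ h1 h2 ?_ ?_
    · rw [bl_rb]; simp only [WRD.RX]; omega
    · rw [bl_rb]; simp only [WRD.RX]; omega
  have r3 : ∀ b : Blk, Fr b → ∀ D E : Z3, D.1 = 0 → E.1 = 0 → D.2.2 ≤ -(2 * bl b + 1 : ℤ) →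
      E.2.2 ≤ -(2 * bl b + 1 : ℤ) → Same (T D b) (T E b) := by
    intro b hb D E h1 h2 h3 h4
    have n1 : bl b < nl D := by unfold nl; omega
    have n2 : bl b < nl E := by unfold nl; omega
    refine (hpc b hb D h1 n1).symm.trans (Same.trans ?_ (hpc b hb E h2 n2))
    refine r2 (rb b) hb.rx _ _ h1 h2 ?_ ?_
    · rw [bl_rb]; simp only [WRD.RX]; omega
    · rw [bl_rb]; simp only [WRD.RX]; omega
  -- the corners
  set B : ℤ := 2 * bl b + 1 with hB
  set P : Z3 := (0, -B, B) with hP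
  set P1 : Z3 := (0, B, B) with hP1
  set P2 : Z3 := (0, B, -B) with hP2
  have key : ∀ D : Z3, D.1 = 0 → 4 * bl b + 2 ≤ nl D → Same (T D b) (T P b) := by
    intro D h1 h2
    unfold nl at h2
    rcases le_or_gt D.2.1 (-B) with h3 | h3
    · exact r0 b hb D P h1 rfl h3 le_rfl
    rcases le_or_gt B D.2.2 with h4 | h4
    · exact r1 b hb D P h1 rfl h4 le_rfl
    rcases le_or_gt B D.2.1 with h5 | h5
    · exact (r2 b hb D P1 h1 rfl h5 le_rfl).trans (r1 b hb P1 P rfl rfl le_rfl le_rfl)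
    · have h6 : D.2.2 ≤ -B := by omega
      exact (r3 b hb D P2 h1 rfl h6 le_rfl).trans ((r2 b hb P2 P1 rfl rfl le_rfl le_rfl).trans
        (r1 b hb P1 P rfl rfl le_rfl le_rfl))
  exact (key D hD hD').trans (key E hE hE').symm

end

end KN.ST
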