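import Pool.Agent.H132.LG.Ker

/-!
# The squared distance
-/

set_option autoImplicit false

namespace KN.ST

open KN KN.KQ Finset
open scoped Classical ENNReal

noncomputable section

/-- the squared distance of the two arcs -/
def rr (D : Z3) : ℝ := (D.2.1 : ℝ) ^ 2 + (D.2.2 : ℝ) ^ 2

theorem rr_zero : rr 0 = 0 := by simp [rr]

theorem rr_nonneg (D : Z3) : 0 ≤ rr D := by unfold rr; positivity

theorem rr_one {D : Z3} (h0 : D.1 = 0) (hD : D ≠ 0) : 1 ≤ rr D := by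
  unfold rr
  have h : 1 ≤ D.2.1 ^ 2 + D.2.2 ^ 2 := by
    by_contra hn
    push Not at hn
    have h1 := sq_nonneg D.2.1
    have h2 := sq_nonneg D.2.2
    have h3 : D.2.1 = 0 := by
      by_contra h
      have : 0 < D.2.1 ^ 2 := by positivity
      omega
    have h4 : D.2.2 = 0 := by
      by_contra h
      have : 0 < D.2.2 ^ 2 := by positivity
      omega
    exact hD (Prod.ext h0 (Prod.ext h3 h4))
  exact_mod_cast h

theorem rr_pos {D : Z3} (h0 : D.1 = 0) (hD : D ≠ 0) : 0 < rr D :=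
  lt_of_lt_of_le one_pos (rr_one h0 hD)

theorem nl_abs (D : Z3) : ((nl D : ℕ) : ℝ) = |(D.2.1 : ℝ)| + |(D.2.2 : ℝ)| := by
  unfold nl
  push_cast
  rw [Nat.cast_natAbs, Nat.cast_natAbs]
  push_cast
  rfl

theorem rr_le_nl (D : Z3) : rr D ≤ ((nl D : ℕ) : ℝ) ^ 2 := by
  rw [nl_abs]
  unfold rr
  rw [← sq_abs (D.2.1 : ℝ), ← sq_abs (D.2.2 : ℝ)]
  nlinarith [abs_nonneg (D.2.1 : ℝ), abs_nonneg (D.2.2 : ℝ),
    mul_nonneg (abs_nonneg (D.2.1 : ℝ)) (abs_nonneg (D.2.2 : ℝ))]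

theorem nl_le_rr (D : Z3) : ((nl D : ℕ) : ℝ) ^ 2 ≤ 2 * rr D := by
  rw [nl_abs]
  unfold rr
  rw [← sq_abs (D.2.1 : ℝ), ← sq_abs (D.2.2 : ℝ)]
  nlinarith [sq_nonneg (|(D.2.1 : ℝ)| - |(D.2.2 : ℝ)|)]

theorem nl_ne {D : Z3} (h0 : D.1 = 0) (hD : D ≠ 0) : 1 ≤ nl D := by
  by_contra h
  unfold nl at h
  exact hD (Prod.ext h0 (Prod.ext (by simp only [Prod.snd_zero, Prod.fst_zero]; omega)
    (by simp only [Prod.snd_zero]; omega)))

theorem RX_x (v : Z3) : (WRD.RX v).1 = v.1 := rfl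

/-- the scalar product and the determinant -/
def ss (D v : Z3) : ℝ := (D.2.1 : ℝ) * v.2.1 + (D.2.2 : ℝ) * v.2.2
def tt (D v : Z3) : ℝ := (D.2.1 : ℝ) * v.2.2 - (D.2.2 : ℝ) * v.2.1

theorem ss_tt (D v : Z3) : ss D v ^ 2 + tt D v ^ 2 = rr D * rr v := by
  unfold ss tt rr
  ring

theorem rr0 (D v : Z3) : rr (D - v) = rr D + rr v - 2 * ss D v := by
  unfold rr ss
  simp only [Prod.snd_sub, Prod.fst_sub]
  push_cast
  ring

theorem rr1 (D v : Z3) : rr (D - WRD.RX v) = rr D + rr v + 2 * tt D v := by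
  unfold rr tt WRD.RX
  simp only [Prod.snd_sub, Prod.fst_sub]
  push_cast
  ring

theorem rr2 (D v : Z3) : rr (D - WRD.RX (WRD.RX v)) = rr D + rr v + 2 * ss D v := by
  unfold rr ss WRD.RX
  simp only [Prod.snd_sub, Prod.fst_sub]
  push_cast
  ring

theorem rr3 (D v : Z3) : rr (D - WRD.RX (WRD.RX (WRD.RX v))) = rr D + rr v - 2 * tt D v := by
  unfold rr tt WRD.RX
  simp only [Prod.snd_sub, Prod.fst_sub]
  push_cast
  ring

theorem rr_RX (v : Z3) : rr (WRD.RX v) = rr v := by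
  unfold rr WRD.RX
  push_cast
  ring

/-- points of an orbit are not zero -/
theorem ne_of_rr {D v : Z3} (h : rr v < rr D) : D - v ≠ 0 := by
  intro h0
  have : D = v := sub_eq_zero.1 h0
  rw [this] at h
  exact lt_irrefl _ h

/-- sums over the four steps -/
theorem sum_lat (φ : Z3 → ℝ≥0∞) (D : Z3) : ∑ v ∈ lat, φ (D - vec v) =
    φ (D - vec .yp) + φ (D - WRD.RX (vec .yp)) + φ (D - WRD.RX (WRD.RX (vec .yp))) +
      φ (D - WRD.RX (WRD.RX (WRD.RX (vec .yp)))) := by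
  have e1 : WRD.RX (vec .yp) = vec .zp := by decide
  have e2 : WRD.RX (vec .zp) = vec .ym := by decide
  have e3 : WRD.RX (vec .ym) = vec .zm := by decide
  rw [e1, e2, e3]
  unfold lat
  rw [sum_insert (by decide), sum_insert (by decide), sum_insert (by decide), sum_singleton]
  ring

theorem rr_yp : rr (vec .yp) = 1 := by simp [rr, vec]

/-- near blocks -/
theorem near0 {s q : ℝ≥0∞} (hs : s ≤ 1 / 10 ^ 12) (hq : q ≤ 2) (D : Z3) :
    ((nl D : ℕ) : ℝ≥0∞) ^ 6 * ∑' b : Blk, (if B2 b ∧ nl D < 4 * bl b + 10 then om s q b else 0) ≤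
      s ^ 4 / 40 := by
  rw [← ENNReal.tsum_mul_left]
  refine le_trans (ENNReal.tsum_le_tsum fun b => ?_) (big_sum hs hq)
  by_cases h : B2 b ∧ nl D < 4 * bl b + 10
  · rw [if_pos h, if_pos h.1, mul_comm]
    refine mul_le_mul_right (pow_le_pow_left' ?_ _) _
    exact_mod_cast h.2.le
  · rw [if_neg h, mul_zero]
    exact zero_le

/-- the inverse fourth power of the distance -/
def r2 (D : Z3) : ℝ≥0∞ := ENNReal.ofReal (1 / rr D ^ 2)

theorem r2_nl {D : Z3} (h0 : D.1 = 0) (hD : D ≠ 0) : 1 ≤ r2 D * ((nl D : ℕ) : ℝ≥0∞) ^ 4 := by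
  have h1 := rr_le_nl D
  have h2 := rr_pos h0 hD
  unfold r2
  rw [← ENNReal.ofReal_natCast, ← ENNReal.ofReal_pow (by positivity),
    ← ENNReal.ofReal_mul (by positivity), ENNReal.one_le_ofReal, one_div,
    le_inv_mul_iff₀ (by positivity), mul_one]
  calc rr D ^ 2 ≤ (((nl D : ℕ) : ℝ) ^ 2) ^ 2 := pow_le_pow_left₀ h2.le h1 2
    _ = _ := by ring

theorem near2 {s q : ℝ≥0∞} (hs : s ≤ 1 / 10 ^ 12) (hq : q ≤ 2) {D : Z3} (h0 : D.1 = 0)
    (hD : D ≠ 0) : ((nl D : ℕ) : ℝ≥0∞) ^ 2 * ∑' b : Blk, (if B2 b ∧ nl D < 4 * bl b + 10 then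
      om s q b else 0) ≤ r2 D * (s ^ 4 / 40) := by
  set N := ∑' b : Blk, (if B2 b ∧ nl D < 4 * bl b + 10 then om s q b else 0) with hN
  calc ((nl D : ℕ) : ℝ≥0∞) ^ 2 * N = 1 * (((nl D : ℕ) : ℝ≥0∞) ^ 2 * N) := (one_mul _).symm
    _ ≤ r2 D * ((nl D : ℕ) : ℝ≥0∞) ^ 4 * (((nl D : ℕ) : ℝ≥0∞) ^ 2 * N) :=
        mul_le_mul_left (r2_nl h0 hD) _
    _ = r2 D * (((nl D : ℕ) : ℝ≥0∞) ^ 6 * N) := by ring
    _ ≤ _ := mul_le_mul_right (near0 hs hq D) _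

theorem near1 {s q : ℝ≥0∞} (hs : s ≤ 1 / 10 ^ 12) (hq : q ≤ 2) {D : Z3} (h0 : D.1 = 0)
    (hD : D ≠ 0) : ∑' b : Blk, (if B2 b ∧ nl D < 4 * bl b + 10 then om s q b else 0) ≤
      r2 D * (s ^ 4 / 40) := by
  refine le_trans ?_ (near2 hs hq h0 hD)
  exact le_mul_of_one_le_left zero_le (one_le_pow₀ (by exact_mod_cast nl_ne h0 hD))

/-- far blocks have small displacement -/
theorem rr_dv {b : Blk} (hb : Fr b) (hI : Irr b) : rr (dv b) ≤ (bl b : ℝ) ^ 2 := by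
  have h1 := irr4' hb hI
  refine (rr_le_nl _).trans (pow_le_pow_left₀ (by positivity) ?_ 2)
  exact_mod_cast (by omega : nl (dv b) ≤ bl b)

theorem rr_far {b : Blk} {D : Z3} (h : 4 * bl b + 10 ≤ nl D) : 8 * (bl b : ℝ) ^ 2 + 50 ≤ rr D := by
  have h1 := nl_le_rr D
  have h2 : (4 * (bl b : ℝ) + 10) ≤ ((nl D : ℕ) : ℝ) := by exact_mod_cast h
  have h3 : (0 : ℝ) ≤ bl b := Nat.cast_nonneg _
  have h4 : (4 * (bl b : ℝ) + 10) ^ 2 ≤ ((nl D : ℕ) : ℝ) ^ 2 :=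
    pow_le_pow_left₀ (by positivity) h2 2
  nlinarith

end

end KN.ST
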