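import Pool.Agent.H132.LG.Wt
import Pool.Agent.H132.LG.Ana

/-!
# The kernel of the chains without knotted blocks
-/

set_option autoImplicit false

namespace KN.ST

open KN KN.KQ Finset
open scoped Classical ENNReal

noncomputable section

/-- irreducible blocks from `D` to `E` of trivial type -/
def TD (D E : Z3) (b : Blk) : Prop := Pc D E b ∧ Irr b ∧ Same (tB D E b) sq

/-- the kernel -/
def Kr (s q : ℝ≥0∞) (D E : Z3) : ℝ≥0∞ := ∑' b : Blk, if TD D E b then om s q b else 0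

theorem TD.nxt {D E : Z3} {b : Blk} (h : TD D E b) : KN.ST.nxt D b = E := h.1.nxt

theorem Kr_sum (s q : ℝ≥0∞) (D : Z3) (φ : Z3 → ℝ≥0∞) : ∑' E : Z3, Kr s q D E * φ E =
    ∑' b : Blk, if TD D (nxt D b) b then om s q b * φ (nxt D b) else 0 := by
  unfold Kr
  simp only [← ENNReal.tsum_mul_right]
  rw [ENNReal.tsum_comm]
  refine tsum_congr fun b => ?_
  rw [tsum_eq_single (nxt D b)]
  · split_ifs <;> simp
  · intro E hE
    rw [if_neg (fun h => hE h.nxt.symm), zero_mul]

theorem om_sb (s q : ℝ≥0∞) (b : Blk) : om s q (sb b) = om s q b := by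
  unfold om
  rw [bl_sb, wd_sb]

theorem TD.sb {D E : Z3} {b : Blk} (h : TD D E b) : TD E D (sb b) := by
  have hn := h.nxt
  obtain ⟨h1, h2, h3⟩ := h
  subst hn
  have h4 := T_sb h1 h3
  have h5 := nxt_sb h1.fr h1.h1
  refine ⟨h1.sb, irr_sb h1.fr h2, ?_⟩
  unfold T at h4
  rw [h5] at h4
  exact h4

/-- the involution of the blocks -/
def sbE : Blk ≃ Blk := ⟨sb, sb, sb_sb, sb_sb⟩

theorem Kr_symm (s q : ℝ≥0∞) (D E : Z3) : Kr s q D E = Kr s q E D := by
  unfold Kr
  rw [← sbE.tsum_eq]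
  refine tsum_congr fun b => ?_
  have e : sbE b = sb b := rfl
  rw [e, om_sb]
  have : TD D E (sb b) ↔ TD E D b :=
    ⟨fun h => by have := h.sb; rwa [sb_sb] at this, fun h => h.sb⟩
  simp only [this]

/-- the blocks of trivial type far away -/
def Sb (b : Blk) : Prop := Fr b ∧ Irr b ∧ Same (T (0, ((4 * bl b + 2 : ℕ) : ℤ), 0) b) sq

theorem nl_y (n : ℕ) : nl (0, (n : ℤ), 0) = n := by simp [nl]

theorem td_far {D : Z3} {b : Blk} (h0 : D.1 = 0) (h : 4 * bl b + 2 ≤ nl D) :
    TD D (nxt D b) b ↔ Sb b := by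
  constructor
  · rintro ⟨h1, h2, h3⟩
    exact ⟨h1.fr, h2, (far_type h1.fr rfl h0 (by rw [nl_y]) h).trans h3⟩
  · rintro ⟨h1, h2, h3⟩
    exact ⟨pc_of_far h1 h0 (by omega), h2, (far_type h1 h0 rfl h (by rw [nl_y])).trans h3⟩

/-! ### rotations -/

theorem rx4 (a : Dir) : rx (rx (rx (rx a))) = a := by cases a <;> rfl

theorem rb4 (b : Blk) : rb (rb (rb (rb b))) = b := by
  have h : ∀ w : List Dir, (((w.map rx).map rx).map rx).map rx = w := by
    intro w
    simp only [List.map_map]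
    rw [show (rx ∘ rx ∘ rx ∘ rx) = id from funext rx4, List.map_id]
  exact Prod.ext (h _) (h _)

def rbE : Blk ≃ Blk := ⟨rb, fun b => rb (rb (rb b)), rb4, rb4⟩

theorem nl_RX (D : Z3) : nl (WRD.RX D) = nl D := by
  unfold nl WRD.RX
  simp only [Int.natAbs_neg]
  omega

theorem Sb.rx {b : Blk} (h : Sb b) : Sb (rb b) := by
  obtain ⟨h1, h2, h3⟩ := h
  refine ⟨h1.rx, irr_rx h2, ?_⟩
  have h4 := T_rx (pc_of_far (D := (0, ((4 * bl b + 2 : ℕ) : ℤ), 0)) h1 rfl (by rw [nl_y]; omega))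
  rw [bl_rb]
  refine (far_type h1.rx rfl rfl ?_ ?_).trans (h4.trans h3)
  · rw [nl_y, bl_rb]
  · rw [nl_RX, nl_y, bl_rb]

theorem Sb_rb {b : Blk} : Sb (rb b) ↔ Sb b :=
  ⟨fun h => by have := h.rx.rx.rx; rwa [rb4] at this, fun h => h.rx⟩

theorem om_rb (s q : ℝ≥0∞) (b : Blk) : om s q (rb b) = om s q b := by
  unfold om
  rw [bl_rb, wd_rb]

theorem dv_rb (b : Blk) : dv (rb b) = WRD.RX (dv b) := by
  unfold dv rb
  simp only [pos_rx, WRD.RX_add]

theorem B2_rb {b : Blk} : B2 (rb b) ↔ B2 b := by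
  unfold B2
  rw [bl_rb, wd_rb]

/-- sums over orbits -/
theorem orbit (s q : ℝ≥0∞) {P : Blk → Prop} [DecidablePred P] (hP : ∀ b, P (rb b) ↔ P b)
    (F : Z3 → ℝ≥0∞) :
    4 * ∑' b : Blk, (if P b then om s q b * F (dv b) else 0) =
    ∑' b : Blk, (if P b then om s q b * (F (dv b) + F (WRD.RX (dv b)) +
      F (WRD.RX (WRD.RX (dv b))) + F (WRD.RX (WRD.RX (WRD.RX (dv b))))) else 0) := by
  have key : ∀ G : Z3 → ℝ≥0∞, ∑' b : Blk, (if P b then om s q b * G (WRD.RX (dv b)) else 0) =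
      ∑' b : Blk, (if P b then om s q b * G (dv b) else 0) := by
    intro G
    rw [← rbE.tsum_eq (fun b => if P b then om s q b * G (dv b) else 0)]
    refine tsum_congr fun b => ?_
    have e : rbE b = rb b := rfl
    simp only [e, om_rb, dv_rb, hP]
  have e1 := key F
  have e2 := (key (fun v => F (WRD.RX v))).trans e1
  have e3 := (key (fun v => F (WRD.RX (WRD.RX v)))).trans e2
  have e4 : ∑' b : Blk, (if P b then om s q b * (F (dv b) + F (WRD.RX (dv b)) +
      F (WRD.RX (WRD.RX (dv b))) + F (WRD.RX (WRD.RX (WRD.RX (dv b))))) else 0) =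
      ∑' b : Blk, (if P b then om s q b * F (dv b) else 0) +
      ∑' b : Blk, (if P b then om s q b * F (WRD.RX (dv b)) else 0) +
      ∑' b : Blk, (if P b then om s q b * F (WRD.RX (WRD.RX (dv b))) else 0) +
      ∑' b : Blk, (if P b then om s q b * F (WRD.RX (WRD.RX (WRD.RX (dv b)))) else 0) := by
    rw [← ENNReal.tsum_add, ← ENNReal.tsum_add, ← ENNReal.tsum_add]
    refine tsum_congr fun b => ?_
    split_ifs
    · ring
    · simp
  rw [e4]
  rw [e1, e2, e3]
  ring

/-! ### simple blocks -/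

def lat : Finset Dir := {Dir.yp, Dir.ym, Dir.zp, Dir.zm}

theorem mem_lat {v : Dir} : v ∈ lat ↔ Lat v := by
  unfold lat Lat
  cases v <;> simp

def U1 : Finset Blk := insert S0 (lat.image (fun v => (([], [v]) : Blk)) ∪
  lat.image (fun v => (([v], []) : Blk)))

theorem bl_U1 {b : Blk} (h : b ∈ U1) : bl b ≤ 1 := by
  unfold U1 at h
  simp only [mem_insert, mem_union, mem_image] at h
  rcases h with rfl | ⟨v, -, rfl⟩ | ⟨v, -, rfl⟩
  · simp [S0, bl]
  · simp [bl]
  · simp [bl]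

theorem blk_cases {b : Blk} (hb : Fr b) (hI : Irr b) (h : ¬ B2 b) : b ∈ U1 := by
  have h4 := irr4' hb hI
  have h1 : bl b ≤ 1 := by
    by_contra hn
    exact h ⟨by omega, by omega⟩
  obtain ⟨u, v⟩ := b
  have h1' : u.length + v.length ≤ 1 := h1
  have e := hb.e
  simp only at e
  unfold U1
  simp only [mem_insert, mem_union, mem_image]
  match u, v, h1', e with
  | [], [], _, _ => left; rfl
  | [], [a], _, e =>
    right; left
    refine ⟨a, mem_lat.2 ?_, rfl⟩
    simp only [pos, Prod.fst_add, Prod.fst_zero, zero_add, neg_zero] at e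
    constructor
    · rintro rfl; simp [vec] at e
    · rintro rfl; simp [vec] at e
  | [a], [], _, e =>
    right; right
    refine ⟨a, mem_lat.2 ?_, rfl⟩
    simp only [pos, Prod.fst_add, Prod.fst_zero, zero_add] at e
    constructor
    · rintro rfl; simp [vec] at e
    · rintro rfl; simp [vec] at e
  | _ :: _ :: _, _, h1', _ => simp at h1'; omega
  | [], _ :: _ :: _, h1', _ => simp at h1'
  | [_], _ :: _, h1', _ => simp at h1'

theorem split_sum (F : Blk → ℝ≥0∞) (hF : ∀ b, F b ≠ 0 → Fr b ∧ Irr b) :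
    ∑' b : Blk, F b = F S0 + ∑ v ∈ lat, (F ([], [v]) + F ([v], [])) +
      ∑' b : Blk, (if B2 b then F b else 0) := by
  have h1 : ∑' b : Blk, F b = ∑' b : Blk, (if ¬ B2 b then F b else 0) +
      ∑' b : Blk, (if B2 b then F b else 0) := by
    rw [← ENNReal.tsum_add]
    refine tsum_congr fun b => ?_
    by_cases h : B2 b
    · rw [if_neg (not_not.2 h), if_pos h, zero_add]
    · rw [if_pos h, if_neg h, add_zero]
  rw [h1]
  congr 1
  rw [tsum_eq_sum (s := U1)]
  · have h2 : ∑ b ∈ U1, (if ¬ B2 b then F b else 0) = ∑ b ∈ U1, F b := by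
      refine sum_congr rfl fun b hb => ?_
      rw [if_pos]
      intro h
      have := bl_U1 hb
      have := h.1
      omega
    rw [h2]
    unfold U1
    rw [sum_insert, sum_union, sum_image, sum_image, sum_add_distrib]
    · intro v _ w _ h
      simpa using h
    · intro v _ w _ h
      simpa using h
    · rw [disjoint_left]
      intro b hb hb'
      simp only [mem_image] at hb hb'
      obtain ⟨v, -, rfl⟩ := hb
      obtain ⟨w, -, h⟩ := hb'
      simp at h
    · simp only [mem_union, mem_image, S0]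
      rintro (⟨v, -, h⟩ | ⟨v, -, h⟩) <;> simp at h
  · intro b hb
    by_cases h : B2 b
    · rw [if_neg (not_not.2 h)]
    · rw [if_pos h]
      by_contra hne
      obtain ⟨h3, h4⟩ := hF b hne
      exact hb (blk_cases h3 h4 h)

theorem nxt_E (D : Z3) (v : Dir) : nxt D ([], [v]) = D - vec v ∧ nxt D ([v], []) = D - vec v := by
  simp [nxt, pos]

theorem irr_E (v : Dir) (hv : Lat v) : Irr ([], [v]) ∧ Irr ([v], []) := by
  have := hv.x
  constructor
  · intro c h0 h1
    simp [pos] at h1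
    omega
  · intro c h0 h1
    simp only [pos, Prod.fst_add, Prod.fst_zero, zero_add, this] at h1
    omega

theorem td_S0 {D : Z3} (h0 : D.1 = 0) (hD : D ≠ 0) : TD D (nxt D S0) S0 := by
  rw [nxt_S0]
  exact ⟨pc_S h0 hD, irr_S0, tB_S h0 hD⟩

theorem td_E {D : Z3} (h0 : D.1 = 0) (hD : D ≠ 0) {v : Dir} (hv : Lat v) (h : D - vec v ≠ 0) :
    TD D (nxt D ([], [v])) ([], [v]) ∧ TD D (nxt D ([v], [])) ([v], []) := by
  have h0' : (D - vec v).1 = 0 := by rw [Prod.fst_sub, h0, hv.x]; rfl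
  have e : D - vec v + vec v = D := sub_add_cancel _ _
  have hD' : D - vec v + vec v ≠ 0 := by rw [e]; exact hD
  have h1 := pc_E h0' h hv hD'
  have h2 := tB_E h0' h hv hD'
  have h3 := tB_E' h0' h hv hD'
  rw [e] at h1 h2 h3
  rw [(nxt_E D v).1, (nxt_E D v).2]
  exact ⟨⟨h1, (irr_E v hv).1, h2⟩, ⟨h3.1, (irr_E v hv).2, h3.2⟩⟩

theorem not_td {D : Z3} {b : Blk} (h : nxt D b = 0) : ¬ TD D (nxt D b) b := fun h' =>
  h'.1.ne.2 h

theorem Lat.wd0 {v : Dir} (hv : Lat v) : wd ([v], []) = 0 := by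
  unfold wd
  simp only [pos, Prod.fst_add, Prod.fst_zero, zero_add, hv.x, Int.toNat_zero]

theorem om_S0 (s q : ℝ≥0∞) : om s q S0 = q ^ 2 := by simp [om, S0, bl]

theorem om_E (s q : ℝ≥0∞) {v : Dir} (hv : Lat v) : om s q ([], [v]) = q ^ 3 * s ^ 4 ∧
    om s q ([v], []) = q ^ 3 * s ^ 4 := by
  constructor
  · simp [om, bl, wd, pos]
  · unfold om
    rw [hv.wd0]
    simp [bl]

/-- the sum over the kernel -/
theorem Kr_split (s q : ℝ≥0∞) {D : Z3} (h0 : D.1 = 0) (hD : D ≠ 0) (φ : Z3 → ℝ≥0∞)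
    (hφ : φ 0 = 0) : ∑' E : Z3, Kr s q D E * φ E =
      q ^ 2 * φ D + 2 * q ^ 3 * s ^ 4 * ∑ v ∈ lat, φ (D - vec v) +
      ∑' b : Blk, (if B2 b ∧ TD D (nxt D b) b then om s q b * φ (nxt D b) else 0) := by
  rw [Kr_sum, split_sum]
  · congr 1
    · congr 1
      · rw [if_pos (td_S0 h0 hD), nxt_S0, om_S0]
      · rw [mul_sum]
        refine sum_congr rfl fun v hv => ?_
        have hv' := mem_lat.1 hv
        by_cases h : D - vec v = 0
        · rw [h, hφ, mul_zero, if_neg (not_td (by rw [(nxt_E D v).1, h])),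
            if_neg (not_td (by rw [(nxt_E D v).2, h])), add_zero]
        · have h2 := td_E h0 hD hv' h
          rw [if_pos h2.1, if_pos h2.2, (nxt_E D v).1, (nxt_E D v).2, (om_E s q hv').1,
            (om_E s q hv').2]
          ring
    · refine tsum_congr fun b => ?_
      by_cases h : B2 b
      · rw [if_pos h]
        simp only [h, true_and]
      · rw [if_neg h, if_neg (fun hh => h hh.1)]
  · intro b hb
    by_cases h : TD D (nxt D b) b
    · exact ⟨h.1.fr, h.2.1⟩
    · rw [if_neg h] at hb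
      exact absurd rfl hb

theorem Sb_S0 : Sb S0 := by
  rw [← td_far (D := (0, 2, 0)) rfl (by simp [S0, bl, nl])]
  exact td_S0 rfl (by decide)

theorem Sb_E {v : Dir} (hv : Lat v) : Sb ([], [v]) ∧ Sb ([v], []) := by
  have h : ((0, 6, 0) : Z3) - vec v ≠ 0 := by cases v <;> decide
  have h2 := td_E (D := (0, 6, 0)) rfl (by decide) hv h
  exact ⟨(td_far rfl (by simp [bl, nl])).1 h2.1, (td_far rfl (by simp [bl, nl])).1 h2.2⟩

/-- sums over the free blocks -/
theorem Sb_split (s q : ℝ≥0∞) (F : Z3 → ℝ≥0∞) :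
    ∑' b : Blk, (if Sb b then om s q b * F (dv b) else 0) =
      q ^ 2 * F 0 + 2 * q ^ 3 * s ^ 4 * ∑ v ∈ lat, F (vec v) +
      ∑' b : Blk, (if B2 b ∧ Sb b then om s q b * F (dv b) else 0) := by
  rw [split_sum]
  · congr 1
    · congr 1
      · rw [if_pos Sb_S0, om_S0]
        rfl
      · rw [mul_sum]
        refine sum_congr rfl fun v hv => ?_
        have hv' := mem_lat.1 hv
        have e1 : dv ([], [v]) = vec v := by simp [dv, pos]
        have e2 : dv ([v], []) = vec v := by simp [dv, pos]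
        rw [if_pos (Sb_E hv').1, if_pos (Sb_E hv').2, (om_E s q hv').1, (om_E s q hv').2, e1, e2]
        ring
    · refine tsum_congr fun b => ?_
      by_cases h : B2 b
      · rw [if_pos h]
        simp only [h, true_and]
      · rw [if_neg h, if_neg (fun hh => h hh.1)]
  · intro b hb
    by_cases h : Sb b
    · exact ⟨h.1, h.2.1⟩
    · rw [if_neg h] at hb
      exact absurd rfl hb

/-- the total mass of the free blocks -/
def Ms (s q : ℝ≥0∞) : ℝ≥0∞ := ∑' b : Blk, if Sb b then om s q b else 0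

/-- the mass of the free blocks that are not simple -/
def Mr (s q : ℝ≥0∞) : ℝ≥0∞ := ∑' b : Blk, if B2 b ∧ Sb b then om s q b else 0

theorem card_lat : lat.card = 4 := rfl

theorem Ms_eq (s q : ℝ≥0∞) : Ms s q = q ^ 2 + 8 * q ^ 3 * s ^ 4 + Mr s q := by
  have h := Sb_split s q (fun _ => 1)
  simp only [mul_one, sum_const, card_lat, nsmul_eq_mul] at h
  unfold Ms Mr
  rw [h]
  push_cast
  ring

end

end KN.ST
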