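import Pool.Agent.H132.LG.Est

/-!
# The logarithmic supersolution
-/

set_option autoImplicit false

namespace KN.ST

open KN KN.KQ Finset
open scoped Classical ENNReal

noncomputable section

/-- the upper bound of the logarithms over an orbit -/
theorem log4u {ρ ν s t : ℝ} (hρ : 0 < ρ) (hν : 0 ≤ ν) (hn : ν < ρ) (h : s ^ 2 + t ^ 2 = ρ * ν) :
    Real.log (ρ + ν - 2 * s) + Real.log (ρ + ν + 2 * t) + Real.log (ρ + ν + 2 * s) +
        Real.log (ρ + ν - 2 * t) ≤ 4 * Real.log ρ + 2 * (ν ^ 2 / ρ ^ 2) := by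
  have hm : 0 < ρ - ν := by linarith
  have hs : 4 * s ^ 2 < (ρ + ν) ^ 2 := by nlinarith [sq_nonneg t, mul_pos hm hm]
  have ht : 4 * t ^ 2 < (ρ + ν) ^ 2 := by nlinarith [sq_nonneg s, mul_pos hm hm]
  have hp : 0 < ρ + ν := by linarith
  have p1 : 0 < ρ + ν - 2 * s := by
    by_contra hc
    push Not at hc
    nlinarith
  have p2 : 0 < ρ + ν + 2 * s := by
    by_contra hc
    push Not at hc
    nlinarith
  have p3 : 0 < ρ + ν - 2 * t := by
    by_contra hc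
    push Not at hc
    nlinarith
  have p4 : 0 < ρ + ν + 2 * t := by
    by_contra hc
    push Not at hc
    nlinarith
  rw [← Real.log_mul p1.ne' p4.ne', ← Real.log_mul (by positivity) p2.ne',
    ← Real.log_mul (by positivity) p3.ne']
  have e2 : (ρ + ν - 2 * s) * (ρ + ν + 2 * t) * (ρ + ν + 2 * s) * (ρ + ν - 2 * t) =
      (ρ ^ 2 - ν ^ 2) ^ 2 + 16 * (s ^ 2 * t ^ 2) := by
    have h2 : t ^ 2 = ρ * ν - s ^ 2 := by linarith
    have : (ρ + ν - 2 * s) * (ρ + ν + 2 * t) * (ρ + ν + 2 * s) * (ρ + ν - 2 * t) =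
      ((ρ + ν) ^ 2 - 4 * s ^ 2) * ((ρ + ν) ^ 2 - 4 * t ^ 2) := by ring
    rw [this, h2]
    ring
  have e3 : (ρ ^ 2 - ν ^ 2) ^ 2 + 16 * (s ^ 2 * t ^ 2) ≤ (ρ ^ 2 + ν ^ 2) ^ 2 := by
    have h4 : 4 * (s ^ 2 * t ^ 2) ≤ (ρ * ν) ^ 2 := by
      rw [← h]
      nlinarith [sq_nonneg (s ^ 2 - t ^ 2)]
    nlinarith
  rw [e2]
  have e4 : 4 * Real.log ρ + 2 * (ν ^ 2 / ρ ^ 2) = Real.log (ρ ^ 4) + 2 * (ν ^ 2 / ρ ^ 2) := by
    rw [Real.log_pow]
    push_cast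
    ring
  rw [e4]
  have hpos : 0 < (ρ ^ 2 - ν ^ 2) ^ 2 + 16 * (s ^ 2 * t ^ 2) := by
    have : 0 < ρ ^ 2 - ν ^ 2 := by nlinarith
    positivity
  have h5 : Real.log ((ρ ^ 2 + ν ^ 2) ^ 2) = Real.log (ρ ^ 4) + 2 * Real.log (1 + ν ^ 2 / ρ ^ 2) := by
    have e : (ρ ^ 2 + ν ^ 2) ^ 2 = ρ ^ 4 * (1 + ν ^ 2 / ρ ^ 2) ^ 2 := by
      field_simp
    rw [e, Real.log_mul (by positivity) (by positivity), Real.log_pow (1 + ν ^ 2 / ρ ^ 2)]
    push_cast
    ring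
  have h6 : Real.log (1 + ν ^ 2 / ρ ^ 2) ≤ ν ^ 2 / ρ ^ 2 := by
    have := Real.log_le_sub_one_of_pos (show 0 < 1 + ν ^ 2 / ρ ^ 2 by positivity)
    linarith
  calc Real.log ((ρ ^ 2 - ν ^ 2) ^ 2 + 16 * (s ^ 2 * t ^ 2)) ≤ Real.log ((ρ ^ 2 + ν ^ 2) ^ 2) :=
        Real.log_le_log hpos e3
    _ = Real.log (ρ ^ 4) + 2 * Real.log (1 + ν ^ 2 / ρ ^ 2) := h5
    _ ≤ _ := by linarith

def lr (D : Z3) : ℝ := Real.log (rr D) - 2 / rr D + 10

def lg (D : Z3) : ℝ≥0∞ := if D = 0 then 0 else ENNReal.ofReal (lr D)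

theorem lg_zero : lg 0 = 0 := if_pos rfl

theorem lg_ne {D : Z3} (hD : D ≠ 0) : lg D = ENNReal.ofReal (lr D) := if_neg hD

theorem lr_ge {D : Z3} (h0 : D.1 = 0) (hD : D ≠ 0) : Real.log (rr D) + 8 ≤ lr D := by
  unfold lr
  have h1 := inv_rr h0 hD
  have e : 2 / rr D = 2 * (1 / rr D) := by ring
  rw [e]
  linarith

theorem lr_nonneg {D : Z3} (h0 : D.1 = 0) (hD : D ≠ 0) : 0 ≤ lr D := by
  have h1 := lr_ge h0 hD
  have h2 := Real.log_nonneg (rr_one h0 hD)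
  linarith

theorem lr_orbit {D v : Z3} (hD : 0 < rr D) (h : rr v < rr D) :
    lr (D - v) + lr (D - WRD.RX v) + lr (D - WRD.RX (WRD.RX v)) +
      lr (D - WRD.RX (WRD.RX (WRD.RX v))) + 2 * (4 * rr v * (rr D - rr v) /
        (rr D * (rr D ^ 2 + rr v ^ 2))) ≤ 4 * lr D + 2 * (rr v ^ 2 / rr D ^ 2) := by
  have hn := rr_nonneg v
  have k1 := inv4 hD hn h (ss_tt D v)
  have k2 := log4u hD hn h (ss_tt D v)
  unfold lr
  rw [rr0, rr1, rr2, rr3]
  have e : ∀ x : ℝ, 2 / x = 2 * (1 / x) := fun x => by ring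
  simp only [e]
  have e4 : 4 / rr D = 4 * (1 / rr D) := by ring
  rw [e4] at k1
  linarith

theorem lg_orbit {D v : Z3} (h0 : D.1 = 0) (hv : v.1 = 0) (hD : D ≠ 0) (h : rr v < rr D) :
    lg (D - v) + lg (D - WRD.RX v) + lg (D - WRD.RX (WRD.RX v)) +
      lg (D - WRD.RX (WRD.RX (WRD.RX v))) ≤
      4 * lg D + 2 * (ENNReal.ofReal (rr v ^ 2) * r2 D) := by
  have n0 : D - v ≠ 0 := ne_of_rr h
  have n1 : D - WRD.RX v ≠ 0 := ne_of_rr (by rwa [rr_RX])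
  have n2 : D - WRD.RX (WRD.RX v) ≠ 0 := ne_of_rr (by rwa [rr_RX, rr_RX])
  have n3 : D - WRD.RX (WRD.RX (WRD.RX v)) ≠ 0 := ne_of_rr (by rwa [rr_RX, rr_RX, rr_RX])
  have i0 := lr_nonneg (sub_x h0 hv) n0
  have i1 := lr_nonneg (sub_x (v := WRD.RX v) h0 hv) n1
  have i2 := lr_nonneg (sub_x (v := WRD.RX (WRD.RX v)) h0 hv) n2
  have i3 := lr_nonneg (sub_x (v := WRD.RX (WRD.RX (WRD.RX v))) h0 hv) n3
  have hp := rr_pos h0 hD
  have hn := rr_nonneg v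
  have key := lr_orbit hp h
  have h3 : 0 ≤ 4 * rr v * (rr D - rr v) / (rr D * (rr D ^ 2 + rr v ^ 2)) := by
    have : 0 < rr D - rr v := by linarith
    positivity
  unfold r2
  rw [lg_ne n0, lg_ne n1, lg_ne n2, lg_ne n3, lg_ne hD, ofReal4 i0 i1 i2 i3,
    ← ENNReal.ofReal_mul (by positivity), show (4 : ℝ≥0∞) = ENNReal.ofReal 4 by simp,
    show (2 : ℝ≥0∞) = ENNReal.ofReal 2 by simp, ← ENNReal.ofReal_mul (by norm_num),
    ← ENNReal.ofReal_mul (by norm_num), ← ENNReal.ofReal_add (by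
      have := lr_nonneg h0 hD
      positivity) (by positivity)]
  refine ENNReal.ofReal_le_ofReal ?_
  have e : rr v ^ 2 * (1 / rr D ^ 2) = rr v ^ 2 / rr D ^ 2 := by ring
  rw [e]
  linarith

theorem lg_val {a b : ℤ} (h : ¬ (a = 0 ∧ b = 0)) : lg (0, a, b) =
    ENNReal.ofReal (Real.log ((a : ℝ) ^ 2 + (b : ℝ) ^ 2) - 2 / ((a : ℝ) ^ 2 + (b : ℝ) ^ 2) + 10) := by
  rw [lg_ne]
  · rfl
  · intro h'
    simp only [Prod.mk_eq_zero, true_and] at h'
    exact h h'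

theorem lg_one {D : Z3} (h0 : D.1 = 0) (h : rr D = 1) :
    ∑ v ∈ lat, lg (D - vec v) + r2 D ≤ 4 * lg D := by
  have h1 : D.2.1 ^ 2 + D.2.2 ^ 2 = 1 := by
    unfold rr at h
    exact_mod_cast h
  have e4 : (4 : ℝ≥0∞) = ENNReal.ofReal 4 := by simp
  have hr2 : r2 D = ENNReal.ofReal 1 := by
    unfold r2
    rw [h]
    norm_num
  rw [hr2]
  obtain ⟨x, a, b⟩ := D
  simp only at h0 h1
  subst h0
  have ha : a ^ 2 ≤ 1 := by nlinarith [sq_nonneg b]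
  have hb : b ^ 2 ≤ 1 := by nlinarith [sq_nonneg a]
  have ha1 : -1 ≤ a ∧ a ≤ 1 := abs_le.1 (by nlinarith [abs_nonneg a, sq_abs a])
  have hb1 : -1 ≤ b ∧ b ≤ 1 := abs_le.1 (by nlinarith [abs_nonneg b, sq_abs b])
  have hl2 := Real.log_two_lt_d9
  have hl4 : Real.log 4 = 2 * Real.log 2 := by
    rw [show (4 : ℝ) = 2 ^ 2 by norm_num, Real.log_pow]
    push_cast
    ring
  have hl20 : 0 ≤ Real.log 2 := Real.log_nonneg (by norm_num)
  have key : ENNReal.ofReal (Real.log 4 - 2 / 4 + 10) + (ENNReal.ofReal (Real.log 2 - 2 / 2 + 10) +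
      ENNReal.ofReal (Real.log 2 - 2 / 2 + 10)) + ENNReal.ofReal 1 ≤
      4 * ENNReal.ofReal (Real.log 1 - 2 / 1 + 10) := by
    rw [e4, ← ENNReal.ofReal_mul (by norm_num), ← ENNReal.ofReal_add (by linarith) (by linarith),
      ← ENNReal.ofReal_add (by rw [hl4]; linarith) (by linarith),
      ← ENNReal.ofReal_add (by rw [hl4]; linarith) (by norm_num)]
    refine ENNReal.ofReal_le_ofReal ?_
    rw [hl4, Real.log_one]
    linarith
  have hcase : (a = 1 ∧ b = 0) ∨ (a = -1 ∧ b = 0) ∨ (a = 0 ∧ b = 1) ∨ (a = 0 ∧ b = -1) := by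
    have c1 : a = -1 ∨ a = 0 ∨ a = 1 := by omega
    have c2 : b = -1 ∨ b = 0 ∨ b = 1 := by omega
    clear key hr2 h
    rcases c1 with rfl | rfl | rfl <;>
      rcases c2 with rfl | rfl | rfl <;> simp at h1 ⊢
  unfold lat
  rw [sum_insert (by decide), sum_insert (by decide), sum_insert (by decide), sum_singleton]
  rcases hcase with ⟨rfl, rfl⟩ | ⟨rfl, rfl⟩ | ⟨rfl, rfl⟩ | ⟨rfl, rfl⟩
  · rw [show ((0 : ℤ), (1 : ℤ), (0 : ℤ)) - vec .yp = 0 by decide,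
      show ((0 : ℤ), (1 : ℤ), (0 : ℤ)) - vec .ym = (0, 2, 0) by decide,
      show ((0 : ℤ), (1 : ℤ), (0 : ℤ)) - vec .zp = (0, 1, -1) by decide,
      show ((0 : ℤ), (1 : ℤ), (0 : ℤ)) - vec .zm = (0, 1, 1) by decide,
      lg_zero, lg_val (by norm_num), lg_val (by norm_num), lg_val (by norm_num),
      lg_val (by norm_num)]
    refine le_trans (le_of_eq ?_) (key.trans (le_of_eq ?_))
    · norm_num
    · norm_num
  · rw [show ((0 : ℤ), (-1 : ℤ), (0 : ℤ)) - vec .yp = (0, -2, 0) by decide,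
      show ((0 : ℤ), (-1 : ℤ), (0 : ℤ)) - vec .ym = 0 by decide,
      show ((0 : ℤ), (-1 : ℤ), (0 : ℤ)) - vec .zp = (0, -1, -1) by decide,
      show ((0 : ℤ), (-1 : ℤ), (0 : ℤ)) - vec .zm = (0, -1, 1) by decide,
      lg_zero, lg_val (by norm_num), lg_val (by norm_num), lg_val (by norm_num),
      lg_val (by norm_num)]
    refine le_trans (le_of_eq ?_) (key.trans (le_of_eq ?_))
    · norm_num
    · norm_num
  · rw [show ((0 : ℤ), (0 : ℤ), (1 : ℤ)) - vec .yp = (0, -1, 1) by decide,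
      show ((0 : ℤ), (0 : ℤ), (1 : ℤ)) - vec .ym = (0, 1, 1) by decide,
      show ((0 : ℤ), (0 : ℤ), (1 : ℤ)) - vec .zp = 0 by decide,
      show ((0 : ℤ), (0 : ℤ), (1 : ℤ)) - vec .zm = (0, 0, 2) by decide,
      lg_zero, lg_val (by norm_num), lg_val (by norm_num), lg_val (by norm_num),
      lg_val (by norm_num)]
    refine le_trans (le_of_eq ?_) (key.trans (le_of_eq ?_))
    · norm_num
      ring
    · norm_num
  · rw [show ((0 : ℤ), (0 : ℤ), (-1 : ℤ)) - vec .yp = (0, -1, -1) by decide,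
      show ((0 : ℤ), (0 : ℤ), (-1 : ℤ)) - vec .ym = (0, 1, -1) by decide,
      show ((0 : ℤ), (0 : ℤ), (-1 : ℤ)) - vec .zp = (0, 0, -2) by decide,
      show ((0 : ℤ), (0 : ℤ), (-1 : ℤ)) - vec .zm = 0 by decide,
      lg_zero, lg_val (by norm_num), lg_val (by norm_num), lg_val (by norm_num),
      lg_val (by norm_num)]
    refine le_trans (le_of_eq ?_) (key.trans (le_of_eq ?_))
    · norm_num
      ring
    · norm_num

theorem lg_unit {D : Z3} (h0 : D.1 = 0) (hD : D ≠ 0) :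
    ∑ v ∈ lat, lg (D - vec v) + r2 D ≤ 4 * lg D := by
  rcases (rr_one h0 hD).lt_or_eq with h | h
  · have h2 := rr_two h
    have hv : rr (vec .yp) < rr D := by rw [rr_yp]; exact h
    have n0 : D - vec .yp ≠ 0 := ne_of_rr hv
    have n1 : D - WRD.RX (vec .yp) ≠ 0 := ne_of_rr (by rwa [rr_RX])
    have n2 : D - WRD.RX (WRD.RX (vec .yp)) ≠ 0 := ne_of_rr (by rwa [rr_RX, rr_RX])
    have n3 : D - WRD.RX (WRD.RX (WRD.RX (vec .yp))) ≠ 0 :=
      ne_of_rr (by rwa [rr_RX, rr_RX, rr_RX])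
    have i0 := lr_nonneg (sub_x (v := vec .yp) h0 rfl) n0
    have i1 := lr_nonneg (sub_x (v := WRD.RX (vec .yp)) h0 rfl) n1
    have i2 := lr_nonneg (sub_x (v := WRD.RX (WRD.RX (vec .yp))) h0 rfl) n2
    have i3 := lr_nonneg (sub_x (v := WRD.RX (WRD.RX (WRD.RX (vec .yp)))) h0 rfl) n3
    have hp := rr_pos h0 hD
    have key := lr_orbit hp hv
    rw [sum_lat]
    unfold r2
    rw [lg_ne n0, lg_ne n1, lg_ne n2, lg_ne n3, lg_ne hD, ofReal4 i0 i1 i2 i3,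
      ← ENNReal.ofReal_add (by linarith) (by positivity),
      show (4 : ℝ≥0∞) = ENNReal.ofReal 4 by simp, ← ENNReal.ofReal_mul (by norm_num)]
    refine ENNReal.ofReal_le_ofReal ?_
    rw [rr_yp] at key
    set ρ := rr D with hρ
    have h4 : 3 * (1 / ρ ^ 2) ≤ 2 * (4 * 1 * (ρ - 1) / (ρ * (ρ ^ 2 + 1 ^ 2))) := by
      rw [mul_one_div, ← mul_div_assoc, div_le_div_iff₀ (by positivity) (by positivity)]
      nlinarith [mul_pos hp hp, mul_pos (mul_pos hp hp) hp,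
        mul_nonneg (mul_nonneg hp.le hp.le) (by linarith : (0 : ℝ) ≤ ρ - 2),
        mul_nonneg hp.le (by linarith : (0 : ℝ) ≤ ρ - 2),
        mul_nonneg (mul_nonneg hp.le (by linarith : (0 : ℝ) ≤ ρ - 2))
          (by linarith : (0 : ℝ) ≤ ρ - 2)]
    have e : (1 : ℝ) ^ 2 / ρ ^ 2 = 1 / ρ ^ 2 := by norm_num
    rw [e] at key
    linarith
  · exact lg_one h0 h.symm

theorem lg_nl {D : Z3} (h0 : D.1 = 0) : lg D ≤ ((nl D : ℕ) : ℝ≥0∞) ^ 2 + 10 := by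
  by_cases hD : D = 0
  · rw [hD, lg_zero]
    exact zero_le
  · rw [lg_ne hD, ← ENNReal.ofReal_natCast, ← ENNReal.ofReal_pow (by positivity),
      show (10 : ℝ≥0∞) = ENNReal.ofReal 10 by simp, ← ENNReal.ofReal_add (by positivity)
        (by norm_num)]
    refine ENNReal.ofReal_le_ofReal ?_
    unfold lr
    have h1 := rr_le_nl D
    have h2 := Real.log_le_sub_one_of_pos (rr_pos h0 hD)
    have h3 : 0 ≤ 2 / rr D := by
      have := rr_nonneg D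
      positivity
    linarith

/-- the logarithm is a supersolution -/
theorem super_lg {s q : ℝ≥0∞} (hs : s ≤ 1 / 10 ^ 12) (hq : q ≤ 2) (hq' : 7 / 10 ≤ q) {D : Z3}
    (h0 : D.1 = 0) (hD : D ≠ 0) :
    ∑' E : Z3, Kr s q D E * lg E ≤ Ms s q * lg D := by
  rw [Kr_split s q h0 hD lg lg_zero, Ms_eq]
  have h1 := B2_part (s := s) (q := q) h0 lg
  set P3 := ∑' b : Blk, (if B2 b ∧ TD D (nxt D b) b then om s q b * lg (nxt D b) else 0) with hP3
  have hb := big_sum hs hq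
  have h2 : ∑' b : Blk, (if B2 b ∧ Sb b ∧ 4 * bl b + 10 ≤ nl D then
      om s q b * lg (D - dv b) else 0) ≤ Mr s q * lg D + r2 D * (s ^ 4 / 40) := by
    refine four_le ?_
    refine (le_of_eq (orbit s q (P := fun b => B2 b ∧ Sb b ∧ 4 * bl b + 10 ≤ nl D) (far_rb D)
      (fun v => lg (D - v)))).trans ?_
    refine le_trans ?_ (mul_le_mul_right (add_le_add_right (mul_le_mul_right hb (r2 D)) _) 4)
    unfold Mr
    rw [← ENNReal.tsum_mul_right, ← ENNReal.tsum_mul_left, ← ENNReal.tsum_add,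
      ← ENNReal.tsum_mul_left]
    refine ENNReal.tsum_le_tsum fun b => ?_
    by_cases h : B2 b ∧ Sb b ∧ 4 * bl b + 10 ≤ nl D
    · rw [if_pos h, if_pos ⟨h.1, h.2.1⟩, if_pos h.1]
      have h3 : rr (dv b) < rr D := by
        have g1 := rr_dv h.2.1.1 h.2.1.2.1
        have g2 := rr_far h.2.2
        nlinarith [sq_nonneg (bl b : ℝ)]
      have h4 := lg_orbit h0 (dv_x h.2.1.1) hD h3
      have h5 := rr_bl h.2.1.1 h.2.1.2.1
      calc om s q b * (lg (D - dv b) + lg (D - WRD.RX (dv b)) + lg (D - WRD.RX (WRD.RX (dv b))) +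
            lg (D - WRD.RX (WRD.RX (WRD.RX (dv b))))) ≤ om s q b * (4 * lg D +
            2 * (((4 * bl b + 10 : ℕ) : ℝ≥0∞) ^ 6 * r2 D)) := by
              refine mul_le_mul_right (h4.trans ?_) _
              gcongr
        _ ≤ om s q b * (4 * lg D + 4 * (((4 * bl b + 10 : ℕ) : ℝ≥0∞) ^ 6 * r2 D)) := by
              gcongr
              norm_num
        _ = _ := by ring
    · rw [if_neg h]
      exact zero_le
  have h3 : ∑' b : Blk, (if (B2 b ∧ nl D < 4 * bl b + 10) ∧ TD D (nxt D b) b then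
        om s q b * lg (nxt D b) else 0) ≤ 2 * (r2 D * (s ^ 4 / 40)) := by
    refine le_trans ?_ (mul_le_mul_right (mul_le_mul_right hb (r2 D)) 2)
    rw [← ENNReal.tsum_mul_left, ← ENNReal.tsum_mul_left]
    refine ENNReal.tsum_le_tsum fun b => ?_
    by_cases h : (B2 b ∧ nl D < 4 * bl b + 10) ∧ TD D (nxt D b) b
    · rw [if_pos h, if_pos h.1.1]
      have g1 := irr4' h.2.1.fr h.2.2.1
      have g2 := nl_sub D (dv b)
      have g3 := lg_nl (D := nxt D b) h.2.1.h0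
      have g4 : ((nl (nxt D b) : ℕ) : ℝ≥0∞) ^ 2 + 10 ≤
          2 * ((4 * bl b + 10 : ℕ) : ℝ≥0∞) ^ 2 := by
        have g5 : nl (nxt D b) ≤ 5 * bl b + 10 := by
          rw [nxt_dv]
          have := h.1.2
          omega
        have g6 : (5 * bl b + 10) ^ 2 + 10 ≤ 2 * (4 * bl b + 10) ^ 2 := by nlinarith
        have g7 : nl (nxt D b) ^ 2 + 10 ≤ 2 * (4 * bl b + 10) ^ 2 :=
          le_trans (Nat.add_le_add_right (Nat.pow_le_pow_left g5 2) 10) g6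
        exact_mod_cast g7
      have g8 : 1 ≤ r2 D * ((4 * bl b + 10 : ℕ) : ℝ≥0∞) ^ 4 := by
        refine (r2_nl h0 hD).trans (mul_le_mul_right (pow_le_pow_left' ?_ 4) _)
        exact_mod_cast h.1.2.le
      calc om s q b * lg (nxt D b) ≤ om s q b * (2 * ((4 * bl b + 10 : ℕ) : ℝ≥0∞) ^ 2) :=
            mul_le_mul_right (g3.trans g4) _
        _ = om s q b * (2 * ((4 * bl b + 10 : ℕ) : ℝ≥0∞) ^ 2) * 1 := (mul_one _).symm
        _ ≤ om s q b * (2 * ((4 * bl b + 10 : ℕ) : ℝ≥0∞) ^ 2) *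
            (r2 D * ((4 * bl b + 10 : ℕ) : ℝ≥0∞) ^ 4) := mul_le_mul_right g8 _
        _ = _ := by ring
    · rw [if_neg h]
      exact zero_le
  have h4 := h1.trans (add_le_add h2 h3)
  have h5 : r2 D * (s ^ 4 / 40) + 2 * (r2 D * (s ^ 4 / 40)) ≤ 2 * q ^ 3 * s ^ 4 * r2 D := by
    have e : 3 * (40 : ℝ≥0∞)⁻¹ ≤ 2 * q ^ 3 := by
      have h40 : 3 * (40 : ℝ≥0∞)⁻¹ ≤ 2 * (1 / 4) := by
        rw [← div_eq_mul_inv, ENNReal.div_le_iff_le_mul (Or.inl (by norm_num))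
          (Or.inl (by simp))]
        have : (2 * (1 / 4) * 40 : ℝ≥0∞) = 20 := by
          rw [one_div, mul_assoc, mul_comm (4 : ℝ≥0∞)⁻¹, show (40 : ℝ≥0∞) = 10 * 4 by norm_num,
            mul_assoc, ENNReal.mul_inv_cancel (by norm_num) (by simp)]
          norm_num
        rw [this]
        norm_num
      exact h40.trans (mul_le_mul_right (q3 hq') _)
    calc r2 D * (s ^ 4 / 40) + 2 * (r2 D * (s ^ 4 / 40)) = 3 * 40⁻¹ * (s ^ 4 * r2 D) := by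
          simp only [div_eq_mul_inv]; ring
      _ ≤ 2 * q ^ 3 * (s ^ 4 * r2 D) := mul_le_mul_left e _
      _ = _ := by ring
  calc q ^ 2 * lg D + 2 * q ^ 3 * s ^ 4 * ∑ v ∈ lat, lg (D - vec v) + P3
      ≤ q ^ 2 * lg D + 2 * q ^ 3 * s ^ 4 * ∑ v ∈ lat, lg (D - vec v) +
        (Mr s q * lg D + r2 D * (s ^ 4 / 40) + 2 * (r2 D * (s ^ 4 / 40))) := by gcongr
    _ = q ^ 2 * lg D + Mr s q * lg D + (2 * q ^ 3 * s ^ 4 * ∑ v ∈ lat, lg (D - vec v) +
        (r2 D * (s ^ 4 / 40) + 2 * (r2 D * (s ^ 4 / 40)))) := by ring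
    _ ≤ q ^ 2 * lg D + Mr s q * lg D + (2 * q ^ 3 * s ^ 4 * ∑ v ∈ lat, lg (D - vec v) +
        2 * q ^ 3 * s ^ 4 * r2 D) := by gcongr
    _ = q ^ 2 * lg D + Mr s q * lg D + 2 * q ^ 3 * s ^ 4 * (∑ v ∈ lat, lg (D - vec v) +
        r2 D) := by ring
    _ ≤ q ^ 2 * lg D + Mr s q * lg D + 2 * q ^ 3 * s ^ 4 * (4 * lg D) :=
        add_le_add_right (mul_le_mul_right (lg_unit h0 hD) _) _
    _ = _ := by ring

end

end KN.ST
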