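import Pool.Agent.H132.LG.NoPL

/-!
# Polygons and chains without knotted blocks
-/

set_option autoImplicit false

namespace KN.ST

open KN KN.KQ Finset Filter Topology
open scoped Classical ENNReal

noncomputable section

/-- if there is a knot with a finite number of factors, then the unknotted chains are those without
knotted blocks -/
theorem pk_pq {k : List V} {N : ℕ} (hk : MaxN k N) (t : ℝ≥0∞) (n : ℕ) :
    Zc t (PK sq) n = Zc t (PQ 0) n := by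
  refine le_antisymm (Zc_mono t (fun c hc h => ?_) n) (Zc_mono t (fun c hc h => pq0 c hc h) n)
  have h1 := sumN_congr h (sumN_word hc.l0 hc.l1 hc.vc)
  have h2 := hk.noinv h1
  exact le_of_eq h2

/-- the unknot and the chains without knotted blocks -/
theorem Adm.unknot0 {M K : ℕ} {t : ℝ≥0∞} (h : Adm M K t) {k : List V} {N : ℕ} (hk : MaxN k N) :
    ∃ C n₀ : ℕ, ∀ n : ℕ, n₀ ≤ n → Even n →
      (n : ℝ≥0∞) * Zc t (PQ 0) n ≤ C * Zp t (KT sq) n ∧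
      Zp t (KT sq) n ≤ C * (n * Zc t (PQ 0) n) := by
  obtain ⟨T, hT⟩ := h.nat
  refine ⟨16 * T ^ 12 + 2, (M + 1) * 6 ^ 4 + 4, fun n hn hne => ⟨?_, ?_⟩⟩
  · obtain ⟨m, rfl, hm, hme⟩ := split4 (q := (M + 1) * 6 ^ 4) (n := n) hn hne
    have h2 := h.shift hT cls_PK hm hme
    have h3 := h.low1 sq m
    rw [← pk_pq hk]
    calc ((m + 4 : ℕ) : ℝ≥0∞) * Zc t (PK sq) (m + 4) ≤ ((m + 4 : ℕ) : ℝ≥0∞) *
          (((16 * T ^ 12 : ℕ) : ℝ≥0∞) * Zc t (PK sq) m) := mul_le_mul_right h2 _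
      _ = ((16 * T ^ 12 : ℕ) : ℝ≥0∞) * (((m + 4 : ℕ) : ℝ≥0∞) * Zc t (PK sq) m) := by ring
      _ ≤ ((16 * T ^ 12 + 2 : ℕ) : ℝ≥0∞) * (((m + 4 : ℕ) : ℝ≥0∞) * Zc t (PK sq) m) := by
        gcongr
        omega
      _ ≤ _ := mul_le_mul_right h3 _
  · have h1 := h.up1 sq n
    rw [pk_pq hk] at h1
    calc Zp t (KT sq) n ≤ ((2 * n : ℕ) : ℝ≥0∞) * Zc t (PQ 0) n := h1
      _ = ((2 : ℕ) : ℝ≥0∞) * (n * Zc t (PQ 0) n) := by push_cast; ring
      _ ≤ _ := by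
        gcongr
        omega

/-- real values -/
theorem Adm.unk_real {M K : ℕ} {t : ℝ≥0∞} (h : Adm M K t) {y : ℝ} (hy : 0 < y)
    (ht : t ^ 6 = ENNReal.ofReal y) {k : List V} {N : ℕ} (hk : MaxN k N) :
    ∃ C : ℝ, 0 < C ∧ ∀ᶠ j : ℕ in atTop,
      (2 * j : ℝ) * (Zc t (PQ 0) (2 * j)).toReal ≤ C * Sr y sq (2 * j) ∧
      Sr y sq (2 * j) ≤ C * ((2 * j : ℝ) * (Zc t (PQ 0) (2 * j)).toReal) := by
  obtain ⟨C, n₀, hC⟩ := h.unknot0 hk
  refine ⟨C + 1, by positivity, ?_⟩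
  filter_upwards [eventually_ge_atTop n₀] with j hj
  obtain ⟨h1, h2⟩ := hC (2 * j) (by omega) (even_two_mul j)
  have hZ : Zc t (PQ 0) (2 * j) = ENNReal.ofReal (Zc t (PQ 0) (2 * j)).toReal :=
    (ENNReal.ofReal_toReal (Zc_ne_top h.one h.htt _ _)).symm
  rw [Zp_real hy ht, hZ] at h1 h2
  rw [show ENNReal.ofReal (Sr y sq (2 * j)) = ((1 : ℕ) : ℝ≥0∞) *
    ENNReal.ofReal (Sr y sq (2 * j)) by simp, ← mul_assoc, ← Nat.cast_mul] at h2
  have h3 := le_real ENNReal.toReal_nonneg (Sr_nonneg hy.le _ _) h1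
  have h4 := le_real (Sr_nonneg hy.le _ _) ENNReal.toReal_nonneg h2
  push_cast at h3 h4
  have h5 := Sr_nonneg hy.le sq (2 * j)
  have h7 : 0 ≤ (2 * j : ℝ) * (Zc t (PQ 0) (2 * j)).toReal :=
    mul_nonneg (by positivity) ENNReal.toReal_nonneg
  exact ⟨by linarith, by linarith⟩

/-- the values of the force -/
theorem force_exists : ∃ y₀ : ℝ, 0 < y₀ ∧ ∀ y : ℝ, y₀ ≤ y → ∃ (M K : ℕ) (t s q : ℝ≥0∞),
    Adm M K t ∧ t ^ 6 = ENNReal.ofReal y ∧ Cr s q ∧ t ^ 6 * s ^ 8 = 1 := by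
  obtain ⟨y₀, hy₀, hadm⟩ := adm_exists
  refine ⟨max y₀ (10 ^ 96), by positivity, fun y hy => ?_⟩
  obtain ⟨M, K, t, h, ht⟩ := hadm y (le_trans (le_max_left _ _) hy)
  have hy2 : (10 : ℝ) ^ 96 ≤ y := le_trans (le_max_right _ _) hy
  have hy0 : 0 < y := lt_of_lt_of_le (by positivity) hy2
  set x : ℝ := y ^ (-(1 / 8) : ℝ) with hx
  have hx0 : 0 < x := Real.rpow_pos_of_pos hy0 _
  have hx8 : y * x ^ 8 = 1 := by
    rw [hx, ← Real.rpow_natCast, ← Real.rpow_mul hy0.le]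
    nth_rewrite 1 [← Real.rpow_one y]
    rw [← Real.rpow_add hy0]
    norm_num
  have hxs : x ≤ 1 / 10 ^ 12 := by
    by_contra hn
    push Not at hn
    have h1 : (1 / 10 ^ 12 : ℝ) ^ 8 < x ^ 8 := pow_lt_pow_left₀ hn (by positivity) (by norm_num)
    have h2 : (10 : ℝ) ^ 96 * (1 / 10 ^ 12 : ℝ) ^ 8 < y * x ^ 8 := by
      calc (10 : ℝ) ^ 96 * (1 / 10 ^ 12 : ℝ) ^ 8 < 10 ^ 96 * x ^ 8 :=
            mul_lt_mul_of_pos_left h1 (by positivity)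
        _ ≤ y * x ^ 8 := mul_le_mul_of_nonneg_right hy2 (by positivity)
    rw [hx8] at h2
    norm_num at h2
  have hs : ENNReal.ofReal x ≤ 1 / 10 ^ 12 := by
    have e : (1 / 10 ^ 12 : ℝ≥0∞) = ENNReal.ofReal (1 / 10 ^ 12) := by
      rw [ENNReal.ofReal_div_of_pos (by norm_num)]; simp
    rw [e]
    exact ENNReal.ofReal_le_ofReal hxs
  obtain ⟨q, h1, h2, h3⟩ := crit hs
  refine ⟨M, K, t, ENNReal.ofReal x, q, h, ht, ⟨hs, ?_, h1, h2, h3⟩, ?_⟩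
  · simpa using hx0
  · rw [ht, ← ENNReal.ofReal_pow hx0.le, ← ENNReal.ofReal_mul hy0.le, hx8, ENNReal.ofReal_one]

/-- the weighted numbers of chains -/
def uu (t s q : ℝ≥0∞) (n : ℕ) : ℝ := (Zc t (PQ 0) n * (q * s ^ 4) ^ n).toReal

theorem Cr.no_pl {s q t : ℝ≥0∞} (h : Cr s q) (ht : t ^ 6 * s ^ 8 = 1) {β r c C : ℝ} (hr : 0 < r)
    (hc : 0 < c) (hC : 0 < C)
    (hb : ∀ᶠ j : ℕ in atTop, c * ((2 * j : ℝ) ^ β * r ^ (2 * j)) ≤ uu t s q (2 * j) ∧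
      uu t s q (2 * j) ≤ C * ((2 * j : ℝ) ^ β * r ^ (2 * j))) : False := by
  have htop := h.sum_top ht
  have hfin : ∀ n, Zc t (PQ 0) n * (q * s ^ 4) ^ n ≠ ⊤ := fun n =>
    ne_top_of_le_ne_top htop (ENNReal.le_tsum n)
  refine no_power (u := uu t s q) (fun n => ENNReal.toReal_nonneg)
    (ENNReal.summable_toReal htop) ?_ ?_ hr hc hC hb
  · intro n hn
    unfold uu
    rw [Zc_odd t (PQ 0) hn, zero_mul]
    rfl
  · intro p hp
    set κ := ((q ^ 3 * s ^ 4) ^ 1998).toReal with hκ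
    have hq0 : q ≠ 0 := by
      intro h0
      have := h.h1
      rw [h0] at this
      simp at this
    have hqt : q ≠ ⊤ := ne_top_of_le_ne_top (by simp) h.h2
    have hst : s ≠ ⊤ := ne_top_of_le_ne_top (by simp) (s_le1 h.hs)
    have hκt : (q ^ 3 * s ^ 4) ^ 1998 ≠ ⊤ := ENNReal.pow_ne_top
      (ENNReal.mul_ne_top (ENNReal.pow_ne_top hqt) (ENNReal.pow_ne_top hst))
    have hκ0 : 0 < κ := ENNReal.toReal_pos
      (pow_ne_zero _ (mul_ne_zero (pow_ne_zero _ hq0) (pow_ne_zero _ h.h0))) hκt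
    have hp0 : (0 : ℝ) < 36 * (2 * p + 2) ^ 2 := by positivity
    refine ⟨κ / (36 * (2 * p + 2) ^ 2), by positivity, ?_⟩
    filter_upwards [eventually_ge_atTop (10 ^ 7), eventually_ge_atTop (40 * (p + 1))] with a ha ha'
    have h1 := h.tail_low hp ha ha'
    have h2 := h1.trans (mul_le_mul_right (Cr.sum_tail ht (a ^ (2 * p))) _)
    have h3 : ∑' n : ℕ, Zc t (PQ 0) (2 * a ^ (2 * p) + n) *
        (q * s ^ 4) ^ (2 * a ^ (2 * p) + n) ≠ ⊤ := by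
      refine ne_top_of_le_ne_top htop ?_
      exact ENNReal.tsum_comp_le_tsum_of_injective (fun x y hxy => by
        omega) (fun n => Zc t (PQ 0) n * (q * s ^ 4) ^ n)
    have h4 := ENNReal.toReal_mono (ENNReal.mul_ne_top (ENNReal.natCast_ne_top _) h3) h2
    rw [ENNReal.toReal_mul, ENNReal.toReal_natCast, ENNReal.tsum_toReal_eq (fun n => hfin _)] at h4
    have ha0 : (0 : ℝ) < a := by
      have : 0 < a := lt_of_lt_of_le (by norm_num) ha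
      exact_mod_cast this
    rw [div_div, div_le_iff₀ (by positivity), mul_comm]
    refine h4.trans (le_of_eq ?_)
    push_cast
    rfl

end

end KN.ST
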