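import Pool.Agent.H132.LG.Tilt

/-!
# The local bound for the chains of a given length
-/

set_option autoImplicit false

namespace KN.ST

open KN KN.KQ Finset
open scoped Classical ENNReal

noncomputable section

theorem geo_fin {ρ : ℝ} (h0 : 0 ≤ ρ) (h1 : ρ < 1) (n : ℕ) : ∑ x ∈ range n, ρ ^ x ≤ (1 - ρ)⁻¹ := by
  have h2 := (summable_geometric_of_lt_one h0 h1).sum_le_tsum (range n)
    (fun i _ => pow_nonneg h0 i)
  rwa [tsum_geometric_of_lt_one h0 h1] at h2

theorem geo_abs {l : ℝ} {n : ℕ} (hl : 2 ≤ l) (hn : 4 ≤ n) :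
    ∑ m ∈ range (n + 1), Real.exp (-(|l * m - n| / √n)) ≤ 2 * √n := by
  have hnR : (4 : ℝ) ≤ n := by exact_mod_cast hn
  have hs2 : 2 ≤ √(n : ℝ) := by
    rw [show (2 : ℝ) = √4 by
      rw [show (4 : ℝ) = 2 ^ 2 by norm_num, Real.sqrt_sq (by norm_num)]]
    exact Real.sqrt_le_sqrt hnR
  set r := √(n : ℝ) with hr
  have hr0 : 0 < r := by linarith
  set ρ := Real.exp (-(2 / r)) with hρ
  have hρ0 : 0 ≤ ρ := (Real.exp_pos _).le
  have hx : 2 / r ≤ 1 := by
    rw [div_le_one hr0]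
    exact hs2
  have hρ1 : 1 / r ≤ 1 - ρ := by
    have h1 : 0 < 2 / r := by positivity
    have h2 : ρ ≤ 1 - 2 / r / 2 := by
      rw [hρ, Real.exp_neg]
      have h3 := Real.add_one_le_exp (2 / r)
      refine (inv_anti₀ (by linarith) h3).trans ?_
      rw [inv_le_iff_one_le_mul₀ (by linarith)]
      nlinarith
    have h3 : 2 / r / 2 = 1 / r := by ring
    rw [h3] at h2
    linarith
  have hlt : ρ < 1 := by
    have : 0 < 1 / r := by positivity
    linarith
  have hinv : (1 - ρ)⁻¹ ≤ r := by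
    rw [inv_le_comm₀ (by linarith) hr0]
    rwa [one_div] at hρ1
  have hpow : ∀ (x : ℕ) (u : ℝ), 2 * (x : ℝ) ≤ u → Real.exp (-(u / r)) ≤ ρ ^ x := by
    intro x u hu
    rw [hρ, ← Real.exp_nat_mul]
    refine Real.exp_le_exp.2 ?_
    have : (x : ℝ) * -(2 / r) = -((2 * x) / r) := by ring
    rw [this]
    have := div_le_div_of_nonneg_right hu hr0.le
    linarith
  obtain ⟨m₀, hm₀⟩ : ∃ m₀ : ℕ, m₀ = ⌊(n : ℝ) / l⌋₊ := ⟨_, rfl⟩
  have g1 : l * m₀ ≤ n := by
    have := Nat.floor_le (show 0 ≤ (n : ℝ) / l by positivity)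
    rw [← hm₀, le_div_iff₀ (by linarith)] at this
    linarith
  have g2 : (n : ℝ) ≤ l * (m₀ + 1) := by
    have := (Nat.lt_floor_add_one ((n : ℝ) / l)).le
    rw [← hm₀, div_le_iff₀ (by linarith)] at this
    linarith
  have h1 : ∑ m ∈ range (n + 1), Real.exp (-(|l * m - n| / r)) ≤
      ∑ m ∈ range ((m₀ + 1) + (n + 1)), Real.exp (-(|l * m - n| / r)) := by
    refine sum_le_sum_of_subset_of_nonneg ?_ (fun i _ _ => (Real.exp_pos _).le)
    intro i hi
    simp only [mem_range] at hi ⊢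
    omega
  refine h1.trans ?_
  rw [sum_range_add]
  have h2 : ∑ m ∈ range (m₀ + 1), Real.exp (-(|l * m - n| / r)) ≤ r := by
    refine le_trans ?_ ((geo_fin hρ0 hlt (m₀ + 1)).trans hinv)
    rw [← sum_range_reflect]
    refine sum_le_sum fun m hm => ?_
    have hm' := mem_range.1 hm
    have e : ((m₀ + 1 - 1 - m : ℕ) : ℝ) = m₀ - m := by
      rw [Nat.cast_sub (by omega)]
      push_cast
      ring
    rw [e]
    refine hpow m _ ?_
    have hm0 : (0 : ℝ) ≤ m := Nat.cast_nonneg m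
    refine le_trans ?_ (neg_le_abs _)
    nlinarith
  have h3 : ∑ x ∈ range (n + 1), Real.exp (-(|l * ((m₀ + 1 + x : ℕ) : ℝ) - n| / r)) ≤ r := by
    refine le_trans ?_ ((geo_fin hρ0 hlt (n + 1)).trans hinv)
    refine sum_le_sum fun m hm => ?_
    refine hpow m _ ?_
    have hm0 : (0 : ℝ) ≤ m := Nat.cast_nonneg m
    refine le_trans ?_ (le_abs_self _)
    push_cast
    nlinarith
  linarith

/-- chains of length `n` with `m` blocks -/
def Vm (s q : ℝ≥0∞) (m n : ℕ) (D E : Z3) : ℝ≥0∞ :=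
  ∑' bs : List Blk, if CP D E bs ∧ bs.length = m ∧ ln bs = n then wt s q bs else 0

theorem Vm_pw (s q x : ℝ≥0∞) (m : ℕ) (D E : Z3) (P : Finset ℕ) :
    ∑ n ∈ P, x ^ n * Vm s q m n D E ≤ pw (Kr s (q * x)) m D E := by
  rw [← chain_pw]
  unfold Vm
  simp only [← ENNReal.tsum_mul_left]
  rw [← Summable.tsum_finsetSum (fun _ _ => ENNReal.summable)]
  refine ENNReal.tsum_le_tsum fun bs => ?_
  by_cases h : CP D E bs ∧ bs.length = m
  · rw [if_pos h, wt_mul]
    by_cases hn : ln bs ∈ P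
    · rw [sum_eq_single (ln bs)]
      · rw [if_pos ⟨h.1, h.2, rfl⟩]
      · intro n _ hne
        rw [if_neg (fun h' => hne h'.2.2.symm), mul_zero]
      · intro h'
        exact absurd hn h'
    · rw [sum_eq_zero]
      · exact zero_le
      · intro n hnP
        rw [if_neg, mul_zero]
        rintro ⟨-, -, h'⟩
        exact hn (h' ▸ hnP)
  · rw [if_neg h, sum_eq_zero]
    intro n _
    rw [if_neg (fun h' => h ⟨h'.1, h'.2.1⟩), mul_zero]

theorem Un_Vm (s q : ℝ≥0∞) {n N : ℕ} (hN : n ≤ 2 * N) (D E : Z3) :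
    Un s q n D E = ∑ m ∈ range (N + 1), Vm s q m n D E := by
  unfold Vm
  rw [← Summable.tsum_finsetSum (fun _ _ => ENNReal.summable)]
  refine tsum_congr fun bs => ?_
  by_cases h : CP D E bs ∧ ln bs = n
  · have h2 := two_len bs
    rw [if_pos h, sum_eq_single bs.length]
    · rw [if_pos ⟨h.1, rfl, h.2⟩]
    · intro m _ hm
      rw [if_neg (fun h' => hm h'.2.1.symm)]
    · intro h'
      exfalso
      apply h'
      rw [mem_range]
      omega
  · rw [if_neg h, sum_eq_zero]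
    intro m _
    rw [if_neg (fun h' => h ⟨h'.1, h'.2.2⟩)]

theorem Rs_Vm (s q : ℝ≥0∞) (n : ℕ) (D E : Z3) :
    Rs s q n D E ≤ ∑ m ∈ range (n + 1), if 8 * m ≤ 3 * n then Vm s q m n D E else 0 := by
  have h1 : ∀ m, (if 8 * m ≤ 3 * n then Vm s q m n D E else 0) = ∑' bs : List Blk,
      (if 8 * m ≤ 3 * n ∧ (CP D E bs ∧ bs.length = m ∧ ln bs = n) then wt s q bs else 0) := by
    intro m
    by_cases h : 8 * m ≤ 3 * n
    · simp [h, Vm]
    · simp [h]
  simp only [h1]
  rw [← Summable.tsum_finsetSum (fun _ _ => ENNReal.summable)]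
  refine ENNReal.tsum_le_tsum fun bs => ?_
  by_cases h : CP D E bs ∧ ln bs = n ∧ 8 * cnt S0 bs < n
  · have h2 := two_len bs
    have h3 := (cnt_ln bs).2
    have h4 := h.2.1
    have h5 := h.2.2
    rw [if_pos h]
    refine le_trans (le_of_eq ?_) (single_le_sum (fun _ _ => zero_le)
      (show bs.length ∈ range (n + 1) by
        rw [mem_range]
        omega))
    rw [if_pos]
    exact ⟨by omega, h.1, rfl, h4⟩
  · rw [if_neg h]
    exact zero_le

variable {s q : ℝ≥0∞}

theorem Cr.Vm_le (h : Cr s q) {D E : Z3} {f : ℕ → ℝ≥0∞}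
    (hf : ∀ q' : ℝ≥0∞, 7 / 10 ≤ q' → q' ≤ 2 → ∀ m, pw (Kn s q') m D E ≤ f m) {n m : ℕ}
    (hn : 25 ≤ n) (hm : m ≤ n) (P : Finset ℕ) (hP : ∀ n' ∈ P, |(n' : ℝ) - n| ≤ √n / 2) :
    ∑ n' ∈ P, Vm s q m n' D E ≤
      ENNReal.ofReal (Real.exp (47 - |lam s q * m - n| / √n)) * f m := by
  have hnR : (25 : ℝ) ≤ n := by exact_mod_cast hn
  have hs2 : 5 ≤ √(n : ℝ) := by
    rw [show (5 : ℝ) = √25 by
      rw [show (25 : ℝ) = 5 ^ 2 by norm_num, Real.sqrt_sq (by norm_num)]]
    exact Real.sqrt_le_sqrt hnR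
  set r := √(n : ℝ) with hr
  have hr0 : 0 < r := by linarith
  have hrr : r * r = n := Real.mul_self_sqrt (by linarith)
  obtain ⟨δ, hδ, hδ2⟩ : ∃ δ : ℝ, |δ| = 1 / r ∧
      δ * (lam s q * m - n) = -(|lam s q * m - n| / r) := by
    rcases le_total (lam s q * m - n) 0 with hl | hl
    · refine ⟨1 / r, abs_of_pos (by positivity), ?_⟩
      rw [abs_of_nonpos hl]
      ring
    · refine ⟨-(1 / r), by rw [abs_neg, abs_of_pos (by positivity)], ?_⟩
      rw [abs_of_nonneg hl]
      ring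
  have hδ5 : |δ| ≤ 1 / 5 := by
    rw [hδ]
    exact one_div_le_one_div_of_le (by norm_num) hs2
  obtain ⟨hδa, hδb⟩ := abs_le.1 hδ5
  have hδq : δ ^ 2 = 1 / n := by
    rw [← sq_abs, hδ, ← hrr]
    ring
  set x := ENNReal.ofReal (Real.exp δ) with hx
  have hq2 := q_exp h.h2 hδb
  have hq7 := h.q_lo hδa
  have hM := h.tilt hδ5
  have hM0 : Ms s (q * x) ≠ 0 := by
    intro h0
    have := Ms_ge (s := s) hq7
    rw [h0] at this
    simp at this
  have hMt := Ms_ne_top h.hs hq2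
  have h1 : pw (Kr s (q * x)) m D E ≤
      ENNReal.ofReal (Real.exp (m * (lam s q * δ + 46 * δ ^ 2))) * f m := by
    have h2 : pw (Kr s (q * x)) m D E = Ms s (q * x) ^ m * pw (Kn s (q * x)) m D E := by
      rw [pw_Kn, ← mul_assoc, ← mul_pow, ENNReal.mul_inv_cancel hM0 hMt, one_pow, one_mul]
    rw [h2]
    refine mul_le_mul' ?_ (hf _ hq7 hq2 m)
    refine (pow_le_pow_left' hM m).trans (le_of_eq ?_)
    rw [← ENNReal.ofReal_pow (Real.exp_pos _).le, ← Real.exp_nat_mul]
  have h2 : ENNReal.ofReal (Real.exp (δ * n - 1 / 2)) * ∑ n' ∈ P, Vm s q m n' D E ≤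
      ∑ n' ∈ P, x ^ n' * Vm s q m n' D E := by
    rw [mul_sum]
    refine sum_le_sum fun n' hn' => mul_le_mul_left ?_ _
    rw [hx, ← ENNReal.ofReal_pow (Real.exp_pos _).le, ← Real.exp_nat_mul]
    refine ENNReal.ofReal_le_ofReal (Real.exp_le_exp.2 ?_)
    have h3 := hP n' hn'
    have h4 : |δ * ((n' : ℝ) - n)| ≤ 1 / 2 := by
      rw [abs_mul, hδ]
      calc 1 / r * |(n' : ℝ) - n| ≤ 1 / r * (r / 2) :=
            mul_le_mul_of_nonneg_left h3 (by positivity)
        _ = 1 / 2 := by field_simp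
    have h5 := (abs_le.1 h4).1
    linarith
  have h3 := h2.trans ((Vm_pw s q x m D E P).trans h1)
  have h4 : ∑ n' ∈ P, Vm s q m n' D E ≤ ENNReal.ofReal (Real.exp (-(δ * n - 1 / 2))) *
      (ENNReal.ofReal (Real.exp (m * (lam s q * δ + 46 * δ ^ 2))) * f m) := by
    calc ∑ n' ∈ P, Vm s q m n' D E = ENNReal.ofReal (Real.exp (-(δ * n - 1 / 2))) *
          (ENNReal.ofReal (Real.exp (δ * n - 1 / 2)) * ∑ n' ∈ P, Vm s q m n' D E) := by
          rw [← mul_assoc, ← ENNReal.ofReal_mul (Real.exp_pos _).le, ← Real.exp_add]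
          simp
      _ ≤ _ := mul_le_mul_right h3 _
  refine h4.trans ?_
  rw [← mul_assoc, ← ENNReal.ofReal_mul (Real.exp_pos _).le, ← Real.exp_add]
  refine mul_le_mul_left (ENNReal.ofReal_le_ofReal (Real.exp_le_exp.2 ?_)) _
  have hmn : (m : ℝ) * (1 / n) ≤ 1 := by
    rw [mul_one_div, div_le_one (by linarith)]
    exact_mod_cast hm
  rw [hδq]
  have e : -(δ * n - 1 / 2) + m * (lam s q * δ + 46 * (1 / n)) =
      δ * (lam s q * m - n) + 1 / 2 + 46 * (m * (1 / n)) := by ring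
  rw [e, hδ2]
  linarith

/-- the local bound -/
theorem Cr.loc (h : Cr s q) {D E : Z3} (hD : St D) (hE : St E) {f : ℕ → ℝ≥0∞}
    (hf : ∀ q' : ℝ≥0∞, 7 / 10 ≤ q' → q' ≤ 2 → ∀ m, pw (Kn s q') m D E ≤ f m)
    (ha : ∀ a b : ℕ, a ≤ b → f b ≤ f a) {n : ℕ} (hn : 25 ≤ n) :
    Un s q n D E ≤ ENNReal.ofReal (34 * Real.exp 47) *
      (f (n / 8) + ENNReal.ofReal (n * Real.exp (-(√n / 5))) * f 0) := by
  have hnR : (25 : ℝ) ≤ n := by exact_mod_cast hn
  have hs2 : 5 ≤ √(n : ℝ) := by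
    rw [show (5 : ℝ) = √25 by
      rw [show (25 : ℝ) = 5 ^ 2 by norm_num, Real.sqrt_sq (by norm_num)]]
    exact Real.sqrt_le_sqrt hnR
  set r := √(n : ℝ) with hr
  have hr0 : 0 < r := by linarith
  have hrr : r * r = n := Real.mul_self_sqrt (by linarith)
  obtain ⟨I, hI⟩ : ∃ I, I = Nat.sqrt (n / 16) := ⟨_, rfl⟩
  have hI1 : 16 * I ^ 2 ≤ n := by
    have : I ^ 2 ≤ n / 16 := by rw [hI]; exact Nat.sqrt_le' _
    omega
  have hI2 : n < 16 * (I + 1) ^ 2 := by
    have : n / 16 < (I + 1) ^ 2 := by rw [hI]; exact Nat.lt_succ_sqrt' _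
    omega
  have hI0 : 1 ≤ I := by
    by_contra hc
    have : I = 0 := by omega
    rw [this] at hI2
    omega
  have hI1R : 4 * (I : ℝ) ≤ r := by
    rw [hr]
    refine Real.le_sqrt_of_sq_le ?_
    have : (16 : ℝ) * (I : ℝ) ^ 2 ≤ n := by exact_mod_cast hI1
    nlinarith
  have hI2R : r ≤ 8 * (I : ℝ) := by
    rw [hr]
    refine (Real.sqrt_le_left (by positivity)).2 ?_
    have h1 : (n : ℝ) ≤ 16 * ((I : ℝ) + 1) ^ 2 := by exact_mod_cast hI2.le
    have h2 : (1 : ℝ) ≤ I := by exact_mod_cast hI0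
    nlinarith
  have hl1 := h.lam_ge
  have hl2 := h.lam_le
  -- small numbers of blocks
  have hsm : ∀ m : ℕ, 8 * m ≤ 3 * n → Real.exp (47 - |lam s q * m - n| / r) ≤
      Real.exp 47 * Real.exp (-(r / 5)) := by
    intro m hm
    rw [← Real.exp_add]
    refine Real.exp_le_exp.2 ?_
    have hmR : 8 * (m : ℝ) ≤ 3 * n := by exact_mod_cast hm
    have h1 : (n : ℝ) / 5 ≤ |lam s q * m - n| := by
      refine le_trans ?_ (neg_le_abs _)
      have hm0 : (0 : ℝ) ≤ m := Nat.cast_nonneg m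
      nlinarith
    have h2 : r / 5 ≤ |lam s q * m - n| / r := by
      rw [le_div_iff₀ hr0]
      calc r / 5 * r = n / 5 := by rw [← hrr]; ring
        _ ≤ _ := h1
    linarith
  -- the chains with few straight blocks
  have hR : Rs s q n D E ≤ ENNReal.ofReal (Real.exp 47) *
      (2 * (ENNReal.ofReal (n * Real.exp (-(r / 5))) * f 0)) := by
    refine (Rs_Vm s q n D E).trans ?_
    calc ∑ m ∈ range (n + 1), (if 8 * m ≤ 3 * n then Vm s q m n D E else 0) ≤
          ∑ m ∈ range (n + 1), ENNReal.ofReal (Real.exp 47 * Real.exp (-(r / 5))) * f 0 := by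
          refine sum_le_sum fun m hm => ?_
          by_cases h8 : 8 * m ≤ 3 * n
          · rw [if_pos h8]
            have h1 := h.Vm_le hf hn (m := m) (by omega) {n} (fun n' hn' => by
              rw [mem_singleton] at hn'
              rw [hn']
              simp only [sub_self, abs_zero]
              positivity)
            rw [sum_singleton] at h1
            refine h1.trans (mul_le_mul' (ENNReal.ofReal_le_ofReal (hsm m h8)) (ha _ _ (by omega)))
          · rw [if_neg h8]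
            exact zero_le
      _ = ((n + 1 : ℕ) : ℝ≥0∞) * (ENNReal.ofReal (Real.exp 47 * Real.exp (-(r / 5))) * f 0) := by
          rw [sum_const, card_range, nsmul_eq_mul]
      _ ≤ ((2 * n : ℕ) : ℝ≥0∞) * (ENNReal.ofReal (Real.exp 47 * Real.exp (-(r / 5))) * f 0) := by
          gcongr
          omega
      _ = _ := by
          rw [ENNReal.ofReal_mul (Real.exp_pos _).le, ENNReal.ofReal_mul (by positivity),
            ENNReal.ofReal_natCast]
          push_cast
          ring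
  -- the window
  obtain ⟨P, hP⟩ : ∃ P : Finset ℕ, P = (range (2 * I + 1)).image (fun l => n - 2 * I + 2 * l) :=
    ⟨_, rfl⟩
  have hIn : 2 * I ≤ n := by nlinarith
  have hPw : ∀ n' ∈ P, |(n' : ℝ) - n| ≤ r / 2 := by
    intro n' hn'
    rw [hP, mem_image] at hn'
    obtain ⟨l, hl, rfl⟩ := hn'
    have hl' := mem_range.1 hl
    have hl3 : (l : ℝ) ≤ 2 * I := by exact_mod_cast (by omega : l ≤ 2 * I)
    have hl0 : (0 : ℝ) ≤ l := Nat.cast_nonneg l
    rw [Nat.cast_add, Nat.cast_sub hIn, abs_le]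
    push_cast
    constructor <;> linarith
  have hPn : ∀ n' ∈ P, n' ≤ 2 * n := by
    intro n' hn'
    rw [hP, mem_image] at hn'
    obtain ⟨l, hl, rfl⟩ := hn'
    have hl' := mem_range.1 hl
    omega
  have hS : ∑ l ∈ range (2 * I + 1), Un s q (n - 2 * I + 2 * l) D E =
      ∑ m ∈ range (n + 1), ∑ n' ∈ P, Vm s q m n' D E := by
    rw [sum_comm, hP, sum_image (fun a _ b _ hab => by
      have h9 : n - 2 * I + 2 * a = n - 2 * I + 2 * b := hab
      omega)]
    refine sum_congr rfl fun l hl => ?_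
    refine Un_Vm s q ?_ D E
    exact hPn _ (by rw [hP]; exact mem_image_of_mem _ hl)
  have hB : ∑ l ∈ range (2 * I + 1), Un s q (n - 2 * I + 2 * l) D E ≤ ENNReal.ofReal r *
      (ENNReal.ofReal (Real.exp 47) *
        (2 * f (n / 8) + 2 * (ENNReal.ofReal (n * Real.exp (-(r / 5))) * f 0))) := by
    rw [hS]
    have h1 : ∀ m ∈ range (n + 1), ∑ n' ∈ P, Vm s q m n' D E ≤
        ENNReal.ofReal (Real.exp 47) *
          (ENNReal.ofReal (Real.exp (-(|lam s q * m - n| / r))) * f (n / 8) +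
            ENNReal.ofReal (Real.exp (-(r / 5))) * f 0) := by
      intro m hm
      have hm' := mem_range.1 hm
      have h2 := h.Vm_le hf hn (m := m) (by omega) P hPw
      refine h2.trans ?_
      rw [mul_add, ← mul_assoc, ← mul_assoc, ← ENNReal.ofReal_mul (Real.exp_pos _).le,
        ← ENNReal.ofReal_mul (Real.exp_pos _).le]
      by_cases h8 : n / 8 ≤ m
      · refine le_trans ?_ le_self_add
        refine mul_le_mul' (le_of_eq ?_) (ha _ _ h8)
        rw [← Real.exp_add, ← hr]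
        congr 1
      · refine le_trans ?_ le_add_self
        exact mul_le_mul' (ENNReal.ofReal_le_ofReal (hsm m (by omega))) (ha _ _ (by omega))
    refine (sum_le_sum h1).trans ?_
    rw [← mul_sum, sum_add_distrib, ← sum_mul, sum_const, card_range, nsmul_eq_mul,
      ← ENNReal.ofReal_sum_of_nonneg (fun _ _ => (Real.exp_pos _).le)]
    have h3 := geo_abs hl1 (n := n) (by omega)
    rw [← hr] at h3
    have h4 : ENNReal.ofReal (∑ m ∈ range (n + 1), Real.exp (-(|lam s q * m - n| / r))) ≤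
        ENNReal.ofReal r * 2 := by
      refine (ENNReal.ofReal_le_ofReal h3).trans (le_of_eq ?_)
      rw [ENNReal.ofReal_mul (by norm_num), mul_comm]
      simp
    have h5 : ((n + 1 : ℕ) : ℝ≥0∞) * ENNReal.ofReal (Real.exp (-(r / 5))) ≤
        ENNReal.ofReal r * (2 * ENNReal.ofReal (n * Real.exp (-(r / 5)))) := by
      rw [← ENNReal.ofReal_natCast, ← ENNReal.ofReal_mul (by positivity),
        show (2 : ℝ≥0∞) = ENNReal.ofReal 2 by simp, ← ENNReal.ofReal_mul (by norm_num),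
        ← ENNReal.ofReal_mul hr0.le]
      refine ENNReal.ofReal_le_ofReal ?_
      push_cast
      have := (Real.exp_pos (-(r / 5)))
      calc ((n : ℝ) + 1) * Real.exp (-(r / 5)) ≤ (r * (2 * n)) * Real.exp (-(r / 5)) := by
            refine mul_le_mul_of_nonneg_right ?_ this.le
            nlinarith
        _ = _ := by ring
    calc ENNReal.ofReal (Real.exp 47) *
          (ENNReal.ofReal (∑ m ∈ range (n + 1), Real.exp (-(|lam s q * m - n| / r))) * f (n / 8) +
            ((n + 1 : ℕ) : ℝ≥0∞) * (ENNReal.ofReal (Real.exp (-(r / 5))) * f 0)) ≤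
          ENNReal.ofReal (Real.exp 47) * (ENNReal.ofReal r * 2 * f (n / 8) +
            ENNReal.ofReal r * (2 * ENNReal.ofReal (n * Real.exp (-(r / 5)))) * f 0) := by
          refine mul_le_mul_right (add_le_add (mul_le_mul_left h4 _) ?_) _
          rw [← mul_assoc]
          exact mul_le_mul_left h5 _
      _ = _ := by ring
  have hmain := Un_smooth hD (h.fin hD hE) hI1
  have hI0' : (I : ℝ≥0∞) ≠ 0 := by
    rw [Nat.cast_ne_zero]
    omega
  set X := f (n / 8) + ENNReal.ofReal (n * Real.exp (-(r / 5))) * f 0 with hX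
  have hfin : (I : ℝ≥0∞) * Un s q n D E ≤
      I * (ENNReal.ofReal (34 * Real.exp 47) * X) := by
    have h8 : ENNReal.ofReal r ≤ 8 * (I : ℝ≥0∞) := by
      rw [show (8 : ℝ≥0∞) = ENNReal.ofReal 8 by simp, ← ENNReal.ofReal_natCast,
        ← ENNReal.ofReal_mul (by norm_num)]
      exact ENNReal.ofReal_le_ofReal hI2R
    calc (I : ℝ≥0∞) * Un s q n D E ≤ I * Rs s q n D E +
          2 * ∑ l ∈ range (2 * I + 1), Un s q (n - 2 * I + 2 * l) D E := hmain
      _ ≤ I * (ENNReal.ofReal (Real.exp 47) * (2 * X)) +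
          2 * (8 * (I : ℝ≥0∞) * (ENNReal.ofReal (Real.exp 47) * (2 * X))) := by
          refine add_le_add (mul_le_mul_right (hR.trans (mul_le_mul_right (mul_le_mul_right ?_ _)
            _)) _) (mul_le_mul_right (hB.trans (mul_le_mul' h8 (mul_le_mul_right ?_ _))) _)
          · rw [hX]
            exact le_add_self
          · rw [hX, mul_add]
      _ = _ := by
          rw [ENNReal.ofReal_mul (by norm_num)]
          have : ENNReal.ofReal 34 = 34 := by simp
          rw [this]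
          ring
  exact (ENNReal.mul_le_mul_iff_right hI0' (ENNReal.natCast_ne_top I)).1 hfin

end

end KN.ST
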