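import Pool.Agent.H132.LG.Act

/-!
# Lower bounds for the chains of a given length
-/

set_option autoImplicit false

namespace KN.ST

open KN KN.KQ Finset
open scoped Classical ENNReal

noncomputable section

variable {s q : ℝ≥0∞}

theorem Un_one (s q : ℝ≥0∞) {F : Z3} {b : Blk} (h : TD F (nxt F b) b) :
    om s q b ≤ Un s q (bl b + 2) F (nxt F b) := by
  unfold Un
  refine le_trans (le_of_eq ?_) (ENNReal.le_tsum [b])
  rw [if_pos]
  · simp [wt]
  · exact ⟨cp_cons.2 ⟨h, cp_nil.2 rfl⟩, by rw [ln_cons]; simp [ln]⟩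

theorem Un_two {F : Z3} (hF : St F) : q ^ 2 ≤ Un s q 2 F F := by
  have h1 := Un_one s q (td_S0 hF.1 hF.2)
  rw [om_S0, nxt_S0] at h1
  exact h1

theorem Un_three {F : Z3} (hF : St F) {v : Dir} (hv : Lat v) (hne : F - vec v ≠ 0) :
    q ^ 3 * s ^ 4 ≤ Un s q 3 F (F - vec v) := by
  have h1 := Un_one s q (td_E hF.1 hF.2 hv hne).1
  rw [(om_E s q hv).1, (nxt_E F v).1] at h1
  exact h1

theorem half_sum (n : ℕ) : ∑ k ∈ range n, (2⁻¹ : ℝ≥0∞) ^ (n - k) ≤ 1 := by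
  induction n with
  | zero => simp
  | succ n ih =>
    rw [sum_range_succ]
    have h1 : ∑ k ∈ range n, (2⁻¹ : ℝ≥0∞) ^ (n + 1 - k) =
        2⁻¹ * ∑ k ∈ range n, (2⁻¹ : ℝ≥0∞) ^ (n - k) := by
      rw [mul_sum]
      refine sum_congr rfl fun k hk => ?_
      have := mem_range.1 hk
      rw [← pow_succ']
      congr 1
      omega
    rw [h1, show n + 1 - n = 1 by omega, pow_one]
    calc 2⁻¹ * ∑ k ∈ range n, (2⁻¹ : ℝ≥0∞) ^ (n - k) + 2⁻¹ ≤ 2⁻¹ * 1 + 2⁻¹ := by gcongr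
      _ = 1 := by rw [mul_one, ENNReal.inv_two_add_inv_two]

/-- recent times with a large logarithmic mass -/
theorem Cr.phi_ex (h : Cr s q) {D : Z3} (hD : St D) (hg : 1 ≤ gg D) {j : ℕ}
    (hj : 5 * (2⁻¹ ^ j * lg D) ≤ 4⁻¹) (n : ℕ) : ∃ k, k ≤ n ∧ n + 1 ≤ k + j ∧
      10⁻¹ ≤ UA s q k lg D := by
  by_contra hn
  push Not at hn
  have h1 := hg.trans (h.phi_sum n hD)
  have h2 : ∑ k ∈ range (n + 1), 5 * 2⁻¹ ^ (n + 1 - k) * UA s q k lg D ≤
      ∑ k ∈ range (n + 1), (5 * 10⁻¹ * 2⁻¹ ^ (n + 1 - k) +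
        (if k < n + 1 - j then 5 * (2⁻¹ ^ j * lg D) * 2⁻¹ ^ (n + 1 - j - k) else 0)) := by
    refine sum_le_sum fun k hk => ?_
    have hk' := mem_range.1 hk
    by_cases hkj : k < n + 1 - j
    · rw [if_pos hkj]
      refine le_trans ?_ le_add_self
      have h3 : UA s q k lg D ≤ lg D := UA_super (s := s) (q := q) (Ψ := lg) (fun D hD => by
        have := super_lg h.hs h.q2 h.h1 hD.1 hD.2
        rwa [h.hc, one_mul] at this) k hD
      have e : n + 1 - k = j + (n + 1 - j - k) := by omega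
      calc 5 * 2⁻¹ ^ (n + 1 - k) * UA s q k lg D ≤ 5 * 2⁻¹ ^ (n + 1 - k) * lg D :=
            mul_le_mul_right h3 _
        _ = _ := by
          rw [e, pow_add]
          ring
    · rw [if_neg hkj, add_zero]
      have h3 := (hn k (by omega) (by omega)).le
      calc 5 * 2⁻¹ ^ (n + 1 - k) * UA s q k lg D ≤ 5 * 2⁻¹ ^ (n + 1 - k) * 10⁻¹ :=
            mul_le_mul_right h3 _
        _ = _ := by ring
  have h3 : ∑ k ∈ range (n + 1), (5 * 10⁻¹ * 2⁻¹ ^ (n + 1 - k) +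
      (if k < n + 1 - j then 5 * (2⁻¹ ^ j * lg D) * 2⁻¹ ^ (n + 1 - j - k) else 0)) ≤
      5 * 10⁻¹ * 1 + 4⁻¹ * 1 := by
    rw [sum_add_distrib, ← mul_sum]
    refine add_le_add (mul_le_mul_right (half_sum _) _) ?_
    rw [← sum_filter]
    have e : (range (n + 1)).filter (fun k => k < n + 1 - j) = range (n + 1 - j) := by
      ext k
      simp only [mem_filter, mem_range]
      omega
    rw [e, ← mul_sum]
    exact mul_le_mul' hj (half_sum _)
  have h4 : (1 : ℝ≥0∞) ≤ 5 * 10⁻¹ * 1 + 4⁻¹ * 1 := h1.trans (h2.trans h3)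
  have h5 : (5 * 10⁻¹ * 1 + 4⁻¹ * 1 : ℝ≥0∞) < 1 := by
    have e1 : (10⁻¹ : ℝ≥0∞) = ENNReal.ofReal (1 / 10) := by
      rw [ENNReal.ofReal_div_of_pos (by norm_num)]; simp
    have e2 : (4⁻¹ : ℝ≥0∞) = ENNReal.ofReal (1 / 4) := by
      rw [ENNReal.ofReal_div_of_pos (by norm_num)]; simp
    have e3 : (5 : ℝ≥0∞) = ENNReal.ofReal 5 := by simp
    rw [mul_one, mul_one, e1, e2, e3, ← ENNReal.ofReal_mul (by norm_num),
      ← ENNReal.ofReal_add (by norm_num) (by norm_num), ← ENNReal.ofReal_one,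
      ENNReal.ofReal_lt_ofReal_iff (by norm_num)]
    norm_num
  exact absurd (lt_of_le_of_lt h4 h5) (lt_irrefl _)

theorem lr_mono {D E : Z3} (hD : D.1 = 0) (hD' : D ≠ 0) (h : rr D ≤ rr E) : lr D ≤ lr E := by
  have h1 := rr_pos hD hD'
  unfold lr
  have h2 := Real.log_le_log h1 h
  have h3 : 2 / rr E ≤ 2 / rr D := div_le_div_of_nonneg_left (by norm_num) h1 h
  linarith

/-- a step outwards -/
theorem step_out {F : Z3} (hF : St F) : ∃ v, Lat v ∧ F - vec v ≠ 0 ∧ lg F ≤ lg (F - vec v) := by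
  obtain ⟨hF0, hF1⟩ := hF
  have key : ∀ v : Dir, rr F + 1 ≤ rr (F - vec v) → Lat v →
      ∃ v, Lat v ∧ F - vec v ≠ 0 ∧ lg F ≤ lg (F - vec v) := by
    intro v hv hl
    have h1 := rr_pos hF0 hF1
    have hne : F - vec v ≠ 0 := by
      intro h0
      rw [h0, rr_zero] at hv
      linarith
    refine ⟨v, hl, hne, ?_⟩
    rw [lg_ne hF1, lg_ne hne]
    exact ENNReal.ofReal_le_ofReal (lr_mono hF0 hF1 (by linarith))
  rcases le_total 0 F.2.1 with h | h
  · refine key .ym ?_ (by simp [Lat])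
    have hR : (0 : ℝ) ≤ F.2.1 := by exact_mod_cast h
    unfold rr
    simp only [vec, Prod.snd_sub, Prod.fst_sub, sub_zero]
    push_cast
    nlinarith
  · refine key .yp ?_ (by simp [Lat])
    have hR : (F.2.1 : ℝ) ≤ 0 := by exact_mod_cast h
    unfold rr
    simp only [vec, Prod.snd_sub, Prod.fst_sub, sub_zero]
    push_cast
    nlinarith

theorem phi_two (k : ℕ) {D : Z3} (hD : St D) : q ^ 2 * UA s q k lg D ≤ UA s q (k + 2) lg D := by
  refine le_trans ?_ (UA_add k 2 lg D)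
  rw [← UA_const]
  refine UA_mono hD fun F hF => ?_
  unfold UA
  refine le_trans (mul_le_mul_left (Un_two (s := s) (q := q) hF) _) ?_
  exact ENNReal.le_tsum (f := fun E => Un s q 2 F E * lg E) F

theorem phi_three (k : ℕ) {D : Z3} (hD : St D) :
    q ^ 3 * s ^ 4 * UA s q k lg D ≤ UA s q (k + 3) lg D := by
  refine le_trans ?_ (UA_add k 3 lg D)
  rw [← UA_const]
  refine UA_mono hD fun F hF => ?_
  obtain ⟨v, hv, hne, hl⟩ := step_out hF
  unfold UA
  refine le_trans (mul_le_mul' (Un_three (s := s) (q := q) hF hv hne) hl) ?_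
  exact ENNReal.le_tsum (f := fun E => Un s q 3 F E * lg E) (F - vec v)

theorem Cr.c_le (h : Cr s q) : q ^ 3 * s ^ 4 ≤ q ^ 2 ∧ q ^ 3 * s ^ 4 ≤ 1 := by
  have h1 : q ^ 3 * s ^ 4 ≤ q ^ 2 * 1 := by
    calc q ^ 3 * s ^ 4 ≤ q ^ 3 * 1 := mul_le_mul_right (pow_le_one₀ zero_le (s_le1 h.hs)) _
      _ = q ^ 2 * q := by ring
      _ ≤ q ^ 2 * 1 := mul_le_mul_right h.h2 _
  rw [mul_one] at h1
  exact ⟨h1, h1.trans (pow_le_one₀ zero_le h.h2)⟩

theorem Cr.phi_d (h : Cr s q) (k : ℕ) {D : Z3} (hD : St D) (d : ℕ) :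
    (q ^ 3 * s ^ 4) ^ (d + 2) * UA s q k lg D ≤ UA s q (k + (d + 2)) lg D := by
  obtain ⟨c1, c2⟩ := h.c_le
  induction d using Nat.strong_induction_on with
  | _ d ih =>
    match d, ih with
    | 0, _ =>
      refine le_trans (mul_le_mul_left ?_ _) (phi_two k hD)
      calc (q ^ 3 * s ^ 4) ^ 2 = (q ^ 3 * s ^ 4) * (q ^ 3 * s ^ 4) := by ring
        _ ≤ q ^ 2 * 1 := mul_le_mul' c1 c2
        _ = q ^ 2 := mul_one _
    | 1, _ =>
      refine le_trans (mul_le_mul_left ?_ _) (phi_three k hD)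
      calc (q ^ 3 * s ^ 4) ^ 3 = (q ^ 3 * s ^ 4) ^ 2 * (q ^ 3 * s ^ 4) := by ring
        _ ≤ 1 * (q ^ 3 * s ^ 4) := mul_le_mul_left (pow_le_one₀ zero_le c2) _
        _ = _ := one_mul _
    | d + 2, ih =>
      have h1 := ih d (by omega)
      have h2 := phi_two (s := s) (q := q) (k + (d + 2)) hD
      calc (q ^ 3 * s ^ 4) ^ (d + 2 + 2) * UA s q k lg D =
            (q ^ 3 * s ^ 4) * (q ^ 3 * s ^ 4) * ((q ^ 3 * s ^ 4) ^ (d + 2) * UA s q k lg D) := by
            ring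
        _ ≤ q ^ 2 * 1 * UA s q (k + (d + 2)) lg D := mul_le_mul' (mul_le_mul' c1 c2) h1
        _ = q ^ 2 * UA s q (k + (d + 2)) lg D := by rw [mul_one]
        _ ≤ _ := h2

theorem Cr.q_pos (h : Cr s q) : q ≠ 0 := by
  intro h0
  have := h.h1
  rw [h0] at this
  simp at this

/-- a lower bound of the logarithmic mass -/
theorem Cr.phi_low (h : Cr s q) {D : Z3} (hD : St D) (hg : 1 ≤ gg D) :
    ∃ c : ℝ≥0∞, c ≠ 0 ∧ c ≤ 1 ∧ ∀ n, 3 ≤ n → c ≤ UA s q n lg D := by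
  obtain ⟨c1, c2⟩ := h.c_le
  have hlt : lg D ≠ ⊤ := by
    unfold lg
    split_ifs <;> simp
  obtain ⟨j, hj⟩ : ∃ j : ℕ, 5 * (2⁻¹ ^ j * lg D) ≤ 4⁻¹ := by
    obtain ⟨j, hj⟩ := ENNReal.exists_nat_gt (show 20 * lg D ≠ ⊤ from
      ENNReal.mul_ne_top (by simp) hlt)
    refine ⟨j, ?_⟩
    have h1 : (20 * lg D : ℝ≥0∞) ≤ 2 ^ j := by
      refine hj.le.trans ?_
      have : j ≤ 2 ^ j := Nat.lt_two_pow_self.le
      exact_mod_cast this
    have h2 : 20 * (2⁻¹ ^ j * lg D) ≤ 1 := by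
      calc 20 * (2⁻¹ ^ j * lg D) = 2⁻¹ ^ j * (20 * lg D) := by ring
        _ ≤ 2⁻¹ ^ j * 2 ^ j := mul_le_mul_right h1 _
        _ = 1 := by rw [← mul_pow, ENNReal.inv_mul_cancel (by norm_num) (by simp), one_pow]
    calc 5 * (2⁻¹ ^ j * lg D) = 4⁻¹ * 4 * (5 * (2⁻¹ ^ j * lg D)) := by
          rw [ENNReal.inv_mul_cancel (by norm_num) (by simp), one_mul]
      _ = 4⁻¹ * (20 * (2⁻¹ ^ j * lg D)) := by ring
      _ ≤ 4⁻¹ * 1 := mul_le_mul_right h2 _
      _ = 4⁻¹ := mul_one _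
  refine ⟨(q ^ 3 * s ^ 4) ^ (j + 2) * 10⁻¹, ?_, ?_, fun n hn => ?_⟩
  · exact mul_ne_zero (pow_ne_zero _ (mul_ne_zero (pow_ne_zero _ h.q_pos) (pow_ne_zero _ h.h0)))
      (by simp)
  · exact mul_le_one' (pow_le_one₀ zero_le c2) (ENNReal.inv_le_one.2 (by norm_num))
  · obtain ⟨k, hk1, hk2, hk3⟩ := h.phi_ex hD hg hj (n - 3)
    have h1 := h.phi_d k hD (n - k - 2)
    have e : k + (n - k - 2 + 2) = n := by omega
    rw [e] at h1
    refine le_trans ?_ h1
    exact mul_le_mul' (pow_le_pow_right_of_le_one' c2 (by omega)) hk3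

/-! ### survival -/

theorem Cr.uout (h : Cr s q) {D : Z3} (hD : St D) (n : ℕ) {R : ℕ} (hR : 1 ≤ R) :
    ENNReal.ofReal (LR R) * ∑' E, (if E ∈ BR R then 0 else Un s q n D E) ≤ lg D := by
  set L := ENNReal.ofReal (LR R) with hL
  have h1 := UA_super (s := s) (q := q) (Ψ := fun E => min (lg E) (L * hh E))
    (fun D hD => by
      refine le_min ?_ ?_
      · refine (ENNReal.tsum_le_tsum fun E => mul_le_mul_right (min_le_left _ _) _).trans ?_
        have := super_lg h.hs h.q2 h.h1 hD.1 hD.2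
        rwa [h.hc, one_mul] at this
      · calc ∑' E, Kr s q D E * min (lg E) (L * hh E) ≤ ∑' E, Kr s q D E * (L * hh E) :=
              ENNReal.tsum_le_tsum fun E => mul_le_mul_right (min_le_right _ _) _
          _ = L * ∑' E, Kr s q D E * hh E := by
              rw [← ENNReal.tsum_mul_left]
              refine tsum_congr fun E => ?_
              ring
          _ ≤ _ := mul_le_mul_right (le_self_add.trans (h.super hD)) _) n hD
  refine le_trans ?_ (h1.trans (min_le_left _ _))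
  unfold UA
  rw [← ENNReal.tsum_mul_left]
  refine ENNReal.tsum_le_tsum fun E => ?_
  by_cases hE : E ∈ BR R
  · rw [if_pos hE, mul_zero]
    exact zero_le
  · rw [if_neg hE, mul_comm]
    by_cases h0 : Un s q n D E = 0
    · rw [h0, zero_mul, zero_mul]
    · refine mul_le_mul_right ?_ _
      have hS := Un_G hD h0
      refine le_min ?_ ?_
      · rw [lg_ne hS.2, hL]
        refine ENNReal.ofReal_le_ofReal ?_
        have g1 := lr_ge hS.1 hS.2
        have g2 := rr_out hS.1 hE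
        have hR1 : (1 : ℝ) ≤ R := by exact_mod_cast hR
        have g3 : LR R ≤ Real.log (rr E) := by
          unfold LR
          exact Real.log_le_log (by positivity) g2
        linarith
      · exact le_mul_of_one_le_right zero_le (le_trans (by norm_num) (hh_ge hS.1 hS.2))

/-- survival of the chains of a given length -/
theorem Cr.usurv (h : Cr s q) {D : Z3} (hD : St D) : ∃ C : ℝ≥0∞, C ≠ ⊤ ∧
    ∀ n, UA s q n (fun _ => 1) D * lo n ≤ C := by
  obtain ⟨C₁, hC₁, h1⟩ := h.upp1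
  have hlt : lg D ≠ ⊤ := by
    unfold lg
    split_ifs <;> simp
  refine ⟨6 + 4 * lg D + 4 * (9 * C₁), ?_, fun n => ?_⟩
  · refine ENNReal.add_ne_top.2 ⟨ENNReal.add_ne_top.2 ⟨by simp, ENNReal.mul_ne_top (by simp)
      hlt⟩, ENNReal.mul_ne_top (by simp) (ENNReal.mul_ne_top (by simp) hC₁)⟩
  · refine comb (h.umass n hD) fun R hR => ?_
    refine ⟨∑' E, (if E ∈ BR R then 0 else Un s q n D E),
      ∑' E, (if E ∈ BR R then Un s q n D E else 0), ?_, h.uout hD n (by omega), ?_⟩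
    · unfold UA
      rw [← ENNReal.tsum_add]
      refine ENNReal.tsum_le_tsum fun E => ?_
      rw [mul_one]
      split_ifs <;> simp
    · rw [tsum_eq_sum (s := BR R) (fun E hE => if_neg hE), mul_sum]
      calc ∑ E ∈ BR R, (n : ℝ≥0∞) * (if E ∈ BR R then Un s q n D E else 0) ≤
            ∑ E ∈ BR R, C₁ := by
            refine sum_le_sum fun E hE => ?_
            rw [if_pos hE]
            by_cases h0 : Un s q n D E = 0
            · rw [h0, mul_zero]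
              exact zero_le
            · refine le_trans (mul_le_mul_left ?_ _) (h1 D E hD (Un_G hD h0) n)
              exact_mod_cast (by omega : n ≤ n + 1)
        _ = (((2 * R + 1) ^ 2 : ℕ) : ℝ≥0∞) * C₁ := by
            rw [sum_const, card_BR, nsmul_eq_mul]
        _ ≤ ((9 * R ^ 2 : ℕ) : ℝ≥0∞) * C₁ := by
            refine mul_le_mul_left ?_ _
            have : (2 * R + 1) ^ 2 ≤ 9 * R ^ 2 := by nlinarith
            exact_mod_cast this
        _ = _ := by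
            push_cast
            ring

theorem lo_le (n : ℕ) : lo n ≤ ((n + 1 : ℕ) : ℝ≥0∞) := by
  unfold lo
  rw [← ENNReal.ofReal_natCast]
  refine ENNReal.ofReal_le_ofReal ?_
  have := Real.log_le_sub_one_of_pos (show (0 : ℝ) < (n : ℝ) + 1 by positivity)
  push_cast
  linarith

theorem sqrt_lo (n : ℕ) : ((Nat.sqrt n : ℕ) : ℝ≥0∞) * lo n ≤ 2 * ((n + 1 : ℕ) : ℝ≥0∞) := by
  unfold lo
  rw [← ENNReal.ofReal_natCast, ← ENNReal.ofReal_natCast, ← ENNReal.ofReal_mul (by positivity),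
    show (2 : ℝ≥0∞) = ENNReal.ofReal 2 by simp, ← ENNReal.ofReal_mul (by norm_num)]
  refine ENNReal.ofReal_le_ofReal ?_
  have h1 := log_sq (x := (n : ℝ) + 1) (by
    have := Nat.cast_nonneg (α := ℝ) n
    linarith)
  have h2 : ((Nat.sqrt n : ℕ) : ℝ) ^ 2 ≤ n := by exact_mod_cast Nat.sqrt_le' n
  have h3 : 0 ≤ Real.log ((n : ℝ) + 1) := Real.log_nonneg (by
    have := Nat.cast_nonneg (α := ℝ) n
    linarith)
  have h4 : (0 : ℝ) ≤ ((Nat.sqrt n : ℕ) : ℝ) := Nat.cast_nonneg _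
  push_cast
  refine abs_le_of_sq_le_sq' ?_ (by positivity) |>.2
  calc (((Nat.sqrt n : ℕ) : ℝ) * Real.log ((n : ℝ) + 1)) ^ 2 =
        ((Nat.sqrt n : ℕ) : ℝ) ^ 2 * Real.log ((n : ℝ) + 1) ^ 2 := by ring
    _ ≤ (n : ℝ) * (4 * ((n : ℝ) + 1)) := mul_le_mul h2 h1 (by positivity) (by positivity)
    _ ≤ (2 * ((n : ℝ) + 1)) ^ 2 := by nlinarith [Nat.cast_nonneg (α := ℝ) n]

/-- the sum of the masses -/
theorem Cr.mass_sum (h : Cr s q) {D : Z3} (hD : St D) {C : ℝ≥0∞}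
    (hC : ∀ n, UA s q n (fun _ => 1) D * lo n ≤ C) (n : ℕ) :
    (∑ k ∈ range (n + 1), UA s q k (fun _ => 1) D) * lo n ≤
      ((n + 1 : ℕ) : ℝ≥0∞) * (4 + 2 * C) := by
  rw [sum_mul]
  have h1 : ∀ k ∈ range (n + 1), UA s q k (fun _ => 1) D * lo n ≤
      (if k < Nat.sqrt n then 2 * lo n else 0) + 2 * C := by
    intro k _
    by_cases hk : k < Nat.sqrt n
    · rw [if_pos hk]
      exact le_trans (mul_le_mul_left (h.umass k hD) _) le_self_add
    · rw [if_neg hk, zero_add]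
      have h2 : lo n ≤ 2 * lo k := by
        unfold lo
        rw [show (2 : ℝ≥0∞) = ENNReal.ofReal 2 by simp, ← ENNReal.ofReal_mul (by norm_num)]
        refine ENNReal.ofReal_le_ofReal ?_
        have h3 : n + 1 ≤ (k + 1) ^ 2 := by
          have := Nat.lt_succ_sqrt' n
          have h4 : (Nat.sqrt n).succ ^ 2 ≤ (k + 1) ^ 2 := Nat.pow_le_pow_left (by omega) 2
          omega
        have h3R : (n : ℝ) + 1 ≤ ((k : ℝ) + 1) ^ 2 := by exact_mod_cast h3
        have h5 := Real.log_le_log (by positivity) h3R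
        rw [Real.log_pow] at h5
        push_cast at h5
        exact h5
      calc UA s q k (fun _ => 1) D * lo n ≤ UA s q k (fun _ => 1) D * (2 * lo k) :=
            mul_le_mul_right h2 _
        _ = 2 * (UA s q k (fun _ => 1) D * lo k) := by ring
        _ ≤ _ := mul_le_mul_right (hC k) _
  refine (sum_le_sum h1).trans ?_
  rw [sum_add_distrib, ← sum_filter]
  have e : (range (n + 1)).filter (fun k => k < Nat.sqrt n) = range (Nat.sqrt n) := by
    ext k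
    simp only [mem_filter, mem_range]
    have := Nat.sqrt_le_self n
    omega
  rw [e, sum_const, sum_const, card_range, card_range, nsmul_eq_mul, nsmul_eq_mul]
  have h2 := sqrt_lo n
  calc ((Nat.sqrt n : ℕ) : ℝ≥0∞) * (2 * lo n) + ((n + 1 : ℕ) : ℝ≥0∞) * (2 * C) =
        2 * (((Nat.sqrt n : ℕ) : ℝ≥0∞) * lo n) + ((n + 1 : ℕ) : ℝ≥0∞) * (2 * C) := by ring
    _ ≤ 2 * (2 * ((n + 1 : ℕ) : ℝ≥0∞)) + ((n + 1 : ℕ) : ℝ≥0∞) * (2 * C) := by gcongr
    _ = _ := by ring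

end

end KN.ST
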