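import Pool.Agent.H132.LG.Low

/-!
# Lower bounds for the returns of a given length
-/

set_option autoImplicit false

namespace KN.ST

open KN KN.KQ Finset
open scoped Classical ENNReal

noncomputable section

variable {s q : ℝ≥0∞}

theorem lg_in {R : ℕ} (hR : 1 ≤ R) {D : Z3} (hD : St D) (h : D ∈ BR R) :
    lg D ≤ ENNReal.ofReal (LR R + 11) := by
  rw [lg_ne hD.2]
  unfold lr LR
  refine ENNReal.ofReal_le_ofReal ?_
  have h1 := rr_in h
  have h2 : 0 < 2 / rr D := div_pos (by norm_num) (rr_pos hD.1 hD.2)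
  have hR1 : (1 : ℝ) ≤ R := by exact_mod_cast hR
  have h3 : Real.log (rr D) ≤ Real.log 2 + Real.log ((R : ℝ) ^ 2) := by
    rw [← Real.log_mul (by norm_num) (by positivity)]
    exact Real.log_le_log (rr_pos hD.1 hD.2) h1
  have h4 : Real.log 2 ≤ 1 := by
    have := Real.log_le_sub_one_of_pos (show (0 : ℝ) < 2 by norm_num)
    linarith
  linarith

theorem lg_out {R : ℕ} (hR : 2 ≤ R) {D : Z3} (hD : St D) (h : D ∉ BR R) :
    lg D ≤ ENNReal.ofReal ((LR R + 11) / (R : ℝ) ^ 2) * qq D := by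
  have h1 := rr_out hD.1 h
  have hR1 : (2 : ℝ) ≤ R := by exact_mod_cast hR
  have hR2 : (4 : ℝ) ≤ (R : ℝ) ^ 2 := by nlinarith
  have he : Real.exp 1 ≤ 4 := by
    have := Real.exp_one_lt_d9
    linarith
  have h2 := Real.log_div_self_antitoneOn (show (R : ℝ) ^ 2 ∈ {x : ℝ | Real.exp 1 ≤ x} from
    he.trans hR2) (show rr D ∈ {x : ℝ | Real.exp 1 ≤ x} from (he.trans hR2).trans h1) h1
  simp only at h2
  have hp : 0 < rr D := by linarith
  have hL : 0 ≤ LR R := Real.log_nonneg (by linarith)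
  rw [lg_ne hD.2]
  unfold qq lr
  rw [← ENNReal.ofReal_mul (by positivity)]
  refine ENNReal.ofReal_le_ofReal ?_
  have h3 : 0 < 2 / rr D := div_pos (by norm_num) hp
  rw [div_le_iff₀ hp] at h2
  have h4 : 11 ≤ 11 / (R : ℝ) ^ 2 * rr D := by
    rw [div_mul_eq_mul_div, le_div_iff₀ (by positivity)]
    linarith
  have e : (LR R + 11) / (R : ℝ) ^ 2 * rr D =
      Real.log ((R : ℝ) ^ 2) / (R : ℝ) ^ 2 * rr D + 11 / (R : ℝ) ^ 2 * rr D := by
    unfold LR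
    ring
  rw [e]
  linarith

/-- the mass in a ball and the moment -/
theorem phi_ball {D : Z3} (hD : St D) (n : ℕ) {R : ℕ} (hR : 2 ≤ R) :
    UA s q n lg D ≤ ENNReal.ofReal (LR R + 11) * ∑ E ∈ BR R, Un s q n D E +
      ENNReal.ofReal ((LR R + 11) / (R : ℝ) ^ 2) * UA s q n qq D := by
  have h3 : ∑ E ∈ BR R, Un s q n D E = ∑' E : Z3, if E ∈ BR R then Un s q n D E else 0 := by
    rw [tsum_eq_sum (s := BR R) (fun E hE => if_neg hE)]
    exact sum_congr rfl fun E hE => (if_pos hE).symm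
  rw [h3]
  unfold UA
  rw [← ENNReal.tsum_mul_left, ← ENNReal.tsum_mul_left, ← ENNReal.tsum_add]
  refine ENNReal.tsum_le_tsum fun E => ?_
  by_cases h0 : Un s q n D E = 0
  · rw [h0, zero_mul]
    exact zero_le
  · have hE := Un_G hD h0
    by_cases hb : E ∈ BR R
    · rw [if_pos hb]
      refine le_trans ?_ le_self_add
      rw [mul_comm]
      exact mul_le_mul_left (lg_in (by omega) hE hb) _
    · rw [if_neg hb, mul_zero, zero_add]
      calc Un s q n D E * lg E ≤ Un s q n D E *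
            (ENNReal.ofReal ((LR R + 11) / (R : ℝ) ^ 2) * qq E) :=
            mul_le_mul_right (lg_out hR hE hb) _
        _ = _ := by ring

/-- the mass in a large ball -/
theorem Cr.ball_n (h : Cr s q) {D : Z3} (hD : St D) (hg : 1 ≤ gg D) :
    ∃ (c : ℝ≥0∞) (a N : ℕ), c ≠ 0 ∧ 1 ≤ a ∧ ∀ n, N ≤ n →
      c ≤ 4 * lo n * ∑ E ∈ BR (a * (Nat.sqrt n + 1)), Un s q n D E := by
  obtain ⟨c, hc0, hc1, hc⟩ := h.phi_low hD hg
  obtain ⟨C, hC, hs⟩ := h.usurv hD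
  have hct : c ≠ ⊤ := ne_top_of_le_ne_top (by simp) hc1
  set X := qq D + (4 + 2 * C) with hX
  have hXt : X ≠ ⊤ := ENNReal.add_ne_top.2 ⟨by unfold qq; simp,
    ENNReal.add_ne_top.2 ⟨by simp, ENNReal.mul_ne_top (by simp) hC⟩⟩
  obtain ⟨a₀, ha₀⟩ := ENNReal.exists_nat_gt (show c⁻¹ * (4 * X) ≠ ⊤ from
    ENNReal.mul_ne_top (ENNReal.inv_ne_top.2 hc0) (ENNReal.mul_ne_top (by simp) hXt))
  obtain ⟨a, ha⟩ : ∃ a, a = a₀ + 2 := ⟨_, rfl⟩
  have haX : 4 * X ≤ c * (a : ℝ≥0∞) ^ 2 := by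
    have h1 : c⁻¹ * (4 * X) ≤ (a : ℝ≥0∞) ^ 2 := by
      refine ha₀.le.trans ?_
      have : a₀ ≤ a ^ 2 := by
        rw [ha]
        nlinarith
      exact_mod_cast this
    calc 4 * X = c * (c⁻¹ * (4 * X)) := by
          rw [← mul_assoc, ENNReal.mul_inv_cancel hc0 hct, one_mul]
      _ ≤ _ := mul_le_mul_right h1 _
  obtain ⟨N₀, hN₀⟩ := exists_nat_gt (2 * (a : ℝ) ^ 2 * Real.exp 11)
  refine ⟨c, a, N₀ + 3, hc0, by omega, fun n hn => ?_⟩
  obtain ⟨R, hR⟩ : ∃ R, R = a * (Nat.sqrt n + 1) := ⟨_, rfl⟩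
  rw [← hR]
  have hR2 : 2 ≤ R := by
    rw [hR]
    nlinarith
  have hnR : (3 : ℝ) ≤ n := by exact_mod_cast (by omega : 3 ≤ n)
  have haR : (2 : ℝ) ≤ a := by exact_mod_cast (by omega : 2 ≤ a)
  have hRlow : (a : ℝ) ^ 2 * ((n : ℝ) + 1) ≤ (R : ℝ) ^ 2 := by
    have h1 : n + 1 ≤ (Nat.sqrt n + 1) ^ 2 := Nat.lt_succ_sqrt' n
    have h2 : a ^ 2 * (n + 1) ≤ R ^ 2 := by
      rw [hR, mul_pow]
      exact Nat.mul_le_mul_left _ h1
    exact_mod_cast h2
  have hRup : (R : ℝ) ^ 2 ≤ 2 * (a : ℝ) ^ 2 * ((n : ℝ) + 1) := by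
    have h1 : (Nat.sqrt n + 1) ^ 2 ≤ 2 * (n + 1) := by
      have := Nat.sqrt_le' n
      nlinarith [sq_nonneg ((Nat.sqrt n : ℤ) - 1), this]
    have h2 : R ^ 2 ≤ 2 * a ^ 2 * (n + 1) := by
      rw [hR, mul_pow]
      calc a ^ 2 * (Nat.sqrt n + 1) ^ 2 ≤ a ^ 2 * (2 * (n + 1)) := Nat.mul_le_mul_left _ h1
        _ = _ := by ring
    exact_mod_cast h2
  have hR1 : (1 : ℝ) ≤ R := by exact_mod_cast (by omega : 1 ≤ R)
  have hL0 : 0 ≤ LR R := Real.log_nonneg (by nlinarith)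
  have hLl : LR R + 11 ≤ 2 * Real.log ((n : ℝ) + 1) := by
    have h1 : LR R ≤ Real.log (2 * (a : ℝ) ^ 2) + Real.log ((n : ℝ) + 1) := by
      rw [← Real.log_mul (by positivity) (by positivity)]
      exact Real.log_le_log (by positivity) hRup
    have h2 : Real.log (2 * (a : ℝ) ^ 2) + 11 ≤ Real.log ((n : ℝ) + 1) := by
      rw [← Real.log_exp 11, ← Real.log_mul (by positivity) (Real.exp_pos _).ne']
      refine Real.log_le_log (by positivity) ?_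
      have h3 : (N₀ : ℝ) ≤ n := by exact_mod_cast (by omega : N₀ ≤ n)
      linarith
    linarith
  have hlo : ENNReal.ofReal (LR R + 11) ≤ 2 * lo n := by
    unfold lo
    rw [show (2 : ℝ≥0∞) = ENNReal.ofReal 2 by simp, ← ENNReal.ofReal_mul (by norm_num)]
    exact ENNReal.ofReal_le_ofReal hLl
  have hlo2 : (a : ℝ≥0∞) ^ 2 * (ENNReal.ofReal ((LR R + 11) / (R : ℝ) ^ 2) *
      ((n + 1 : ℕ) : ℝ≥0∞)) ≤ 2 * lo n := by
    refine le_trans ?_ hlo
    rw [← ENNReal.ofReal_natCast (n + 1), ← ENNReal.ofReal_natCast a,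
      ← ENNReal.ofReal_pow (by positivity), ← ENNReal.ofReal_mul (by positivity),
      ← ENNReal.ofReal_mul (by positivity)]
    refine ENNReal.ofReal_le_ofReal ?_
    have h1 : (a : ℝ) ^ 2 * ((LR R + 11) / (R : ℝ) ^ 2 * ((n + 1 : ℕ) : ℝ)) =
        (LR R + 11) * ((a : ℝ) ^ 2 * ((n : ℝ) + 1) / (R : ℝ) ^ 2) := by
      push_cast
      ring
    rw [h1]
    refine mul_le_of_le_one_right (by linarith) ?_
    rw [div_le_one (by positivity)]
    exact hRlow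
  have h1 := (hc n (by omega)).trans (phi_ball hD n hR2)
  have h2 := h.umom n hD
  have h3 := h.mass_sum hD hs n
  set S := ∑ E ∈ BR R, Un s q n D E with hS
  set Y := ENNReal.ofReal ((LR R + 11) / (R : ℝ) ^ 2) with hY
  have h4 : UA s q n qq D * lo n ≤ ((n + 1 : ℕ) : ℝ≥0∞) * X := by
    calc UA s q n qq D * lo n ≤
          (qq D + ∑ k ∈ range (n + 1), UA s q k (fun _ => 1) D) * lo n := mul_le_mul_left h2 _
      _ = qq D * lo n + (∑ k ∈ range (n + 1), UA s q k (fun _ => 1) D) * lo n := by ring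
      _ ≤ qq D * ((n + 1 : ℕ) : ℝ≥0∞) + ((n + 1 : ℕ) : ℝ≥0∞) * (4 + 2 * C) :=
          add_le_add (mul_le_mul_right (lo_le n) _) h3
      _ = _ := by rw [hX]; ring
  have ha0 : ((a : ℝ≥0∞) ^ 2) ≠ 0 := pow_ne_zero _ (by rw [Nat.cast_ne_zero]; omega)
  have hat : ((a : ℝ≥0∞) ^ 2) ≠ ⊤ := ENNReal.pow_ne_top (ENNReal.natCast_ne_top _)
  have h5 : Y * (UA s q n qq D * lo n) ≤ c / 2 * lo n := by
    have h6 : (a : ℝ≥0∞) ^ 2 * (Y * (UA s q n qq D * lo n)) ≤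
        (a : ℝ≥0∞) ^ 2 * (c / 2 * lo n) := by
      calc (a : ℝ≥0∞) ^ 2 * (Y * (UA s q n qq D * lo n)) ≤
            (a : ℝ≥0∞) ^ 2 * (Y * (((n + 1 : ℕ) : ℝ≥0∞) * X)) :=
            mul_le_mul_right (mul_le_mul_right h4 _) _
        _ = ((a : ℝ≥0∞) ^ 2 * (Y * ((n + 1 : ℕ) : ℝ≥0∞))) * X := by ring
        _ ≤ 2 * lo n * X := mul_le_mul_left hlo2 _
        _ = 2⁻¹ * lo n * (4 * X) := by
            calc 2 * lo n * X = (2⁻¹ * 2) * (2 * lo n * X) := by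
                  rw [ENNReal.inv_mul_cancel (by norm_num) (by simp), one_mul]
              _ = _ := by ring
        _ ≤ 2⁻¹ * lo n * (c * (a : ℝ≥0∞) ^ 2) := mul_le_mul_right haX _
        _ = _ := by
            rw [div_eq_mul_inv]
            ring
    exact (ENNReal.mul_le_mul_iff_right ha0 hat).1 h6
  have h6 : c * lo n ≤ 2 * lo n * S * lo n + c / 2 * lo n := by
    calc c * lo n ≤ (ENNReal.ofReal (LR R + 11) * S + Y * UA s q n qq D) * lo n :=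
          mul_le_mul_left h1 _
      _ = ENNReal.ofReal (LR R + 11) * S * lo n + Y * (UA s q n qq D * lo n) := by ring
      _ ≤ _ := add_le_add (mul_le_mul_left (mul_le_mul_left hlo _) _) h5
  have hc2 : c / 2 * lo n ≠ ⊤ := ENNReal.mul_ne_top (ENNReal.div_ne_top hct (by norm_num))
    (lo_top n)
  have h7 : c / 2 * lo n ≤ 2 * lo n * S * lo n := by
    have e : c * lo n = c / 2 * lo n + c / 2 * lo n := by
      rw [← add_mul, ENNReal.add_halves]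
    rw [e] at h6
    exact (ENNReal.add_le_add_iff_right hc2).1 h6
  have h8 : c / 2 ≤ 2 * lo n * S :=
    (ENNReal.mul_le_mul_iff_left (lo_pos (by omega)) (lo_top n)).1 h7
  calc c = 2 * (c / 2) := (ENNReal.mul_div_cancel (by norm_num) (by simp)).symm
    _ ≤ 2 * (2 * lo n * S) := mul_le_mul_right h8 _
    _ = _ := by ring

/-- the returns of a given length -/
theorem Cr.ret_n (h : Cr s q) {D : Z3} (hD : St D) (hg : 1 ≤ gg D) :
    ∃ (B : ℝ≥0∞) (N : ℕ), B ≠ ⊤ ∧ ∀ n, N ≤ n →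
      1 ≤ B * (((n + 1 : ℕ) : ℝ≥0∞) * lo n ^ 2 * Un s q (n + n) D D) := by
  obtain ⟨c, a, N, hc0, ha, hc⟩ := h.ball_n hD hg
  refine ⟨(c ^ 2)⁻¹ * ((288 * a ^ 2 : ℕ) : ℝ≥0∞), N, ?_, fun n hn => ?_⟩
  · exact ENNReal.mul_ne_top (ENNReal.inv_ne_top.2 (pow_ne_zero _ hc0))
      (ENNReal.natCast_ne_top _)
  · have h1 := hc n hn
    obtain ⟨R, hR⟩ : ∃ R, R = a * (Nat.sqrt n + 1) := ⟨_, rfl⟩
    rw [← hR] at h1
    have h2 := cs_sum (BR R) (fun E => Un s q n D E) (fun E hE => by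
      exact ne_top_of_le_ne_top (by simp) (h.un_two n hD E))
    rw [card_BR] at h2
    have h3 : ∑ E ∈ BR R, Un s q n D E ^ 2 ≤ Un s q (n + n) D D := by
      refine le_trans ?_ (Un_add n n D D)
      refine le_trans ?_ (ENNReal.sum_le_tsum (BR R))
      refine sum_le_sum fun E _ => ?_
      rw [Un_symm n E D, pow_two]
    have h4 : (((2 * R + 1) ^ 2 : ℕ) : ℝ≥0∞) ≤ ((18 * a ^ 2 * (n + 1) : ℕ) : ℝ≥0∞) := by
      have g1 : 1 ≤ R := by
        rw [hR]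
        nlinarith
      have g2 : (Nat.sqrt n + 1) ^ 2 ≤ 2 * (n + 1) := by
        have := Nat.sqrt_le' n
        nlinarith [sq_nonneg ((Nat.sqrt n : ℤ) - 1), this]
      have g3 : (2 * R + 1) ^ 2 ≤ 18 * a ^ 2 * (n + 1) := by
        calc (2 * R + 1) ^ 2 ≤ (3 * R) ^ 2 := Nat.pow_le_pow_left (by omega) 2
          _ = 9 * a ^ 2 * (Nat.sqrt n + 1) ^ 2 := by rw [hR]; ring
          _ ≤ 9 * a ^ 2 * (2 * (n + 1)) := Nat.mul_le_mul_left _ g2
          _ = _ := by ring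
      exact_mod_cast g3
    have h5 : c ^ 2 ≤ ((288 * a ^ 2 : ℕ) : ℝ≥0∞) *
        (((n + 1 : ℕ) : ℝ≥0∞) * lo n ^ 2 * Un s q (n + n) D D) := by
      calc c ^ 2 ≤ (4 * lo n * ∑ E ∈ BR R, Un s q n D E) ^ 2 := pow_le_pow_left' h1 2
        _ = 16 * lo n ^ 2 * (∑ E ∈ BR R, Un s q n D E) ^ 2 := by ring
        _ ≤ 16 * lo n ^ 2 * (((18 * a ^ 2 * (n + 1) : ℕ) : ℝ≥0∞) * Un s q (n + n) D D) :=
            mul_le_mul_right (h2.trans (mul_le_mul' h4 h3)) _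
        _ = _ := by
            push_cast
            ring
    have hct : c ≠ ⊤ := by
      refine ne_top_of_le_ne_top ?_ h1
      refine ENNReal.mul_ne_top (ENNReal.mul_ne_top (by simp) (lo_top n)) ?_
      exact ENNReal.sum_ne_top.2 fun E _ => ne_top_of_le_ne_top (by simp) (h.un_two n hD E)
    calc (1 : ℝ≥0∞) = (c ^ 2)⁻¹ * c ^ 2 :=
          (ENNReal.inv_mul_cancel (pow_ne_zero _ hc0) (ENNReal.pow_ne_top hct)).symm
      _ ≤ _ := by
        rw [mul_assoc]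
        exact mul_le_mul_right h5 _

theorem Un_line (n : ℕ) :
    (q ^ 3 * s ^ 4) ^ n ≤ Un s q (3 * n) (0, (1 : ℤ), 0) (0, (n : ℤ) + 1, 0) := by
  induction n with
  | zero => simp [Un_zero]
  | succ n ih =>
    rw [show 3 * (n + 1) = 3 * n + 3 by ring]
    refine le_trans ?_ (Un_add (3 * n) 3 _ _)
    refine le_trans ?_ (ENNReal.le_tsum ((0, (n : ℤ) + 1, 0) : Z3))
    rw [pow_succ]
    refine mul_le_mul' ih ?_
    have hne : ((0 : ℤ), (n : ℤ) + 1, (0 : ℤ)) ≠ 0 := by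
      intro h
      simp only [Prod.mk_eq_zero, true_and, and_true] at h
      omega
    have e : ((0 : ℤ), (n : ℤ) + 1, (0 : ℤ)) - vec .ym = (0, ((n + 1 : ℕ) : ℤ) + 1, 0) := by
      refine Prod.ext (by simp [vec]) (Prod.ext ?_ (by simp [vec]))
      simp only [vec, Prod.snd_sub, Prod.fst_sub]
      push_cast
      ring
    rw [← e]
    refine Un_three ⟨rfl, hne⟩ (by simp [Lat]) ?_
    rw [e]
    intro h
    simp only [Prod.mk_eq_zero, true_and, and_true] at h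
    omega

/-- returns of the unit vector -/
theorem Un_conn (n : ℕ) : (q ^ 3 * s ^ 4) ^ 1998 * Un s q n D1 D1 ≤
    Un s q (n + 5994) (vec .yp) (vec .yp) := by
  have h1 := Un_line (s := s) (q := q) 999
  have e : ((0 : ℤ), ((999 : ℕ) : ℤ) + 1, (0 : ℤ)) = D1 := by
    unfold D1
    norm_num
  have e2 : ((0 : ℤ), (1 : ℤ), (0 : ℤ)) = vec .yp := rfl
  rw [e, e2] at h1
  have h2 : Un s q (3 * 999) (vec .yp) D1 * Un s q n D1 D1 ≤
      Un s q (3 * 999 + n) (vec .yp) D1 := by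
    refine le_trans ?_ (Un_add _ _ _ _)
    exact ENNReal.le_tsum (f := fun z => Un s q (3 * 999) (vec .yp) z * Un s q n z D1) D1
  have h3 : Un s q (3 * 999 + n) (vec .yp) D1 * Un s q (3 * 999) D1 (vec .yp) ≤
      Un s q (3 * 999 + n + 3 * 999) (vec .yp) (vec .yp) := by
    refine le_trans ?_ (Un_add _ _ _ _)
    exact ENNReal.le_tsum (f := fun z => Un s q (3 * 999 + n) (vec .yp) z *
      Un s q (3 * 999) z (vec .yp)) D1
  rw [Un_symm (3 * 999) D1] at h3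
  have e3 : 3 * 999 + n + 3 * 999 = n + 5994 := by ring
  rw [e3] at h3
  refine le_trans ?_ h3
  calc (q ^ 3 * s ^ 4) ^ 1998 * Un s q n D1 D1 =
        (q ^ 3 * s ^ 4) ^ 999 * Un s q n D1 D1 * (q ^ 3 * s ^ 4) ^ 999 := by
        rw [show 1998 = 999 + 999 by norm_num, pow_add]
        ring
    _ ≤ Un s q (3 * 999) (vec .yp) D1 * Un s q n D1 D1 * Un s q (3 * 999) (vec .yp) D1 :=
        mul_le_mul' (mul_le_mul_left h1 _) h1
    _ ≤ _ := mul_le_mul_left h2 _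

/-- a lower bound for all even lengths -/
theorem Cr.low (h : Cr s q) : ∃ (B : ℝ≥0∞) (N : ℕ), B ≠ ⊤ ∧ ∀ j, N ≤ j →
    1 ≤ B * (((2 * j + 1 : ℕ) : ℝ≥0∞) * lo (2 * j + 1) ^ 2 *
      Un s q (2 * j) (vec .yp) (vec .yp)) := by
  obtain ⟨B, N, hB, hN⟩ := h.ret_n st_D1 gg_D1
  set κ := (q ^ 3 * s ^ 4) ^ 1998 with hκ
  have hκ0 : κ ≠ 0 := pow_ne_zero _ (mul_ne_zero (pow_ne_zero _ h.q_pos) (pow_ne_zero _ h.h0))
  have hqt : q ≠ ⊤ := ne_top_of_le_ne_top (by simp) h.h2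
  have hst : s ≠ ⊤ := ne_top_of_le_ne_top (by simp) (s_le1 h.hs)
  have hκt : κ ≠ ⊤ := ENNReal.pow_ne_top
    (ENNReal.mul_ne_top (ENNReal.pow_ne_top hqt) (ENNReal.pow_ne_top hst))
  refine ⟨B * κ⁻¹, N + 2997, ENNReal.mul_ne_top hB (ENNReal.inv_ne_top.2 hκ0), fun j hj => ?_⟩
  obtain ⟨n, rfl⟩ : ∃ n, j = n + 2997 := ⟨j - 2997, by omega⟩
  have h1 := hN n (by omega)
  have h2 := Un_conn (s := s) (q := q) (n + n)
  have e : n + n + 5994 = 2 * (n + 2997) := by ring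
  rw [e, ← hκ] at h2
  have h3 : Un s q (n + n) D1 D1 ≤ κ⁻¹ * Un s q (2 * (n + 2997)) (vec .yp) (vec .yp) := by
    calc Un s q (n + n) D1 D1 = κ⁻¹ * (κ * Un s q (n + n) D1 D1) := by
          rw [← mul_assoc, ENNReal.inv_mul_cancel hκ0 hκt, one_mul]
      _ ≤ _ := mul_le_mul_right h2 _
  calc (1 : ℝ≥0∞) ≤ B * (((n + 1 : ℕ) : ℝ≥0∞) * lo n ^ 2 * Un s q (n + n) D1 D1) := h1
    _ ≤ B * (((2 * (n + 2997) + 1 : ℕ) : ℝ≥0∞) * lo (2 * (n + 2997) + 1) ^ 2 *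
        (κ⁻¹ * Un s q (2 * (n + 2997)) (vec .yp) (vec .yp))) := by
        refine mul_le_mul_right (mul_le_mul' (mul_le_mul' ?_ (pow_le_pow_left'
          (lo_mono (by omega)) 2)) h3) _
        exact_mod_cast (by omega : n + 1 ≤ 2 * (n + 2997) + 1)
    _ = _ := by ring

end

end KN.ST
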