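import Pool.Agent.H132.LG.Far3

/-!
# Mirror images, reversed blocks
-/

set_option autoImplicit false

namespace KN.ST

open KN KN.KQ
open scoped Classical

noncomputable section

/-- reflection in the first coordinate -/
def mv (p : V) : V := (-p.1, p.2.1, p.2.2)

theorem mv_inj : Function.Injective mv := by
  intro p q h
  unfold mv at h
  simp only [Prod.mk.injEq, neg_inj] at h
  exact Prod.ext h.1 (Prod.ext h.2.1 h.2.2)

theorem mv_lerp (p q : V) (u : ℝ) : lerp (mv p) (mv q) u = mv (lerp p q u) := by
  unfold lerp mv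
  ext <;> simp <;> ring

theorem mv_cont : Continuous mv := by
  unfold mv
  fun_prop

theorem mv_simple {l : List V} (h : Simple l) : Simple (l.map mv) :=
  simple_map mv mv_inj l h (fun _ _ u _ _ => mv_lerp _ _ u)

theorem mv_move {l l' : List V} (h : Move l l') : Move (l.map mv) (l'.map mv) := by
  cases h with
  | iso k γ hc hs =>
    rw [List.map_ofFn, List.map_ofFn]
    refine Move.iso k (fun t i => mv (γ t i)) (fun i => mv_cont.comp (hc i)) ?_
    intro t h0 h1
    have := mv_simple (hs t h0 h1)
    rw [List.map_ofFn] at this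
    exact this
  | rot p l hs =>
    have := mv_simple hs
    simp only [List.map_cons, List.map_append, List.map_nil] at this ⊢
    exact Move.rot _ _ this
  | sub p l q s hs h0 h1 =>
    have := mv_simple hs
    simp only [List.map_cons, List.map_append, List.map_nil, ← mv_lerp, List.cons_append] at this ⊢
    have h2 := Move.sub (mv p) (l.map mv) (mv q) s this h0 h1
    simpa using h2

theorem mv_same {l l' : List V} (h : Same l l') : Same (l.map mv) (l'.map mv) := by
  induction h with
  | rel x y h => exact Relation.EqvGen.rel _ _ (mv_move h)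
  | refl x => exact Same.refl _
  | symm x y _ ih => exact ih.symm
  | trans x y z _ _ ih1 ih2 => exact ih1.trans ih2

/-- reflection of letters -/
def mx : Dir → Dir
  | Dir.xp => Dir.xm
  | Dir.xm => Dir.xp
  | Dir.yp => Dir.yp
  | Dir.ym => Dir.ym
  | Dir.zp => Dir.zp
  | Dir.zm => Dir.zm

def MX (p : Z3) : Z3 := (-p.1, p.2.1, p.2.2)

theorem vec_mx (d : Dir) : vec (mx d) = MX (vec d) := by cases d <;> decide

theorem MX_add (p q : Z3) : MX (p + q) = MX p + MX q := by
  unfold MX
  simp only [Prod.fst_add, Prod.snd_add, neg_add, Prod.mk_add_mk]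

theorem MX_MX (p : Z3) : MX (MX p) = p := by
  unfold MX
  ext
  · exact neg_neg _
  · rfl
  · rfl

theorem MX_neg (p : Z3) : MX (-p) = -MX p := by
  unfold MX
  ext
  · rfl
  · rfl
  · rfl

theorem MX_inj : Function.Injective MX := by
  intro p q h
  unfold MX at h
  simp only [Prod.mk.injEq, neg_inj] at h
  exact Prod.ext h.1 (Prod.ext h.2.1 h.2.2)

theorem pos_mx (w : List Dir) : pos (w.map mx) = MX (pos w) :=
  (WRD.path_map mx MX vec_mx rfl MX_add w).1

theorem path_mx (w : List Dir) : path (w.map mx) = (path w).map MX :=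
  (WRD.path_map mx MX vec_mx rfl MX_add w).2

theorem vl_mx (w : List Dir) : vl (w.map mx) = (vl w).map mv := by
  rw [WRD.vl_map mx MX vec_mx rfl MX_add]
  unfold vl
  rw [List.map_map]
  refine List.map_congr_left fun p _ => ?_
  simp [emb, MX, mv]

theorem triv_mx {w : List Dir} (h : Same (vl w) sq) : Same (vl (w.map mx)) sq := by
  have h1 := mv_same h
  rw [← vl_mx] at h1
  have e : sq.map mv = vl (sqw.map rz) := by
    have : sqw.map rz = sqw.map mx := rfl
    rw [this, vl_mx]
    rfl
  rw [e] at h1
  exact h1.trans ((c_words _ c_sq.2.1).2.1.2).symm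

/-- reversed and reflected words -/
def rm (w : List Dir) : List Dir := (back w).map mx

theorem mx_neg (a : Dir) : mx (neg a) = neg (mx a) := by cases a <;> rfl

theorem mx_mx (a : Dir) : mx (mx a) = a := by cases a <;> rfl

theorem rm_rm (w : List Dir) : rm (rm w) = w := by
  unfold rm
  have h1 : ∀ w : List Dir, back (w.map mx) = (back w).map mx := by
    intro w
    unfold back
    rw [List.map_reverse, List.map_map, List.map_map]
    congr 2
    funext a
    exact (mx_neg a).symm
  rw [h1, back_back', List.map_map]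
  have : mx ∘ mx = id := by funext a; exact mx_mx a
  rw [this, List.map_id]

/-- the reversed block -/
def sb (b : Blk) : Blk := (rm b.1, rm b.2)

theorem sb_sb (b : Blk) : sb (sb b) = b := by
  unfold sb
  rw [rm_rm, rm_rm]

theorem length_rm (w : List Dir) : (rm w).length = w.length := by simp [rm, back]

theorem bl_sb (b : Blk) : bl (sb b) = bl b := by simp only [bl, sb, length_rm]

theorem pos_rm (w : List Dir) : pos (rm w) = MX (-pos w) := by
  unfold rm
  rw [pos_mx, LAYU.pos_back]

theorem wd_sb (b : Blk) : wd (sb b) = wd b := by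
  unfold wd sb
  simp only [pos_rm, MX, Prod.fst_neg, neg_neg]

theorem mem_rm {w : List Dir} {p : Z3} : p ∈ path (rm w) ↔ MX p + pos w ∈ path w := by
  unfold rm
  rw [path_mx, LAYU.path_back, List.mem_map]
  constructor
  · rintro ⟨q, hq, rfl⟩
    simp only [List.mem_reverse, List.mem_map] at hq
    obtain ⟨r, hr, rfl⟩ := hq
    rw [MX_MX, sub_add_cancel]
    exact hr
  · intro h
    refine ⟨MX p, ?_, MX_MX p⟩
    simp only [List.mem_reverse, List.mem_map]
    exact ⟨_, h, by abel⟩

theorem nodup_rm {w : List Dir} (h : (path w).Nodup) : (path (rm w)).Nodup := by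
  unfold rm
  rw [path_mx, LAYU.path_back]
  refine List.Nodup.map MX_inj ?_
  refine (List.nodup_reverse.2 h).map ?_
  intro a b hab
  simpa using hab

theorem nxt_sb {D : Z3} {b : Blk} (hb : Fr b) (h0 : D.1 = 0) : nxt (nxt D b) (sb b) = D := by
  have h1 := hb.e
  unfold nxt sb
  simp only [pos_rm, MX]
  ext
  · simp only [Prod.fst_sub, Prod.fst_neg]
    omega
  · simp
    ring
  · simp
    ring

theorem Pc.sb {D D' : Z3} {b : Blk} (h : Pc D D' b) : Pc D' D (sb b) := by
  have hrel := h.rel
  have hnd := h.nd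
  have h0 := h.h0
  have h1 := h.h1
  unfold pv at hnd
  rw [List.nodup_append'] at hnd
  have hM : ∀ p : Z3, MX (MX p) = p := MX_MX
  have hMD : MX D = D := by unfold MX; ext <;> simp [h1]
  have hMD' : MX D' = D' := by unfold MX; ext <;> simp [h0]
  have hMn : ∀ p : Z3, MX (-p) = - MX p := MX_neg
  -- membership
  have m1 : ∀ p, p ∈ path (rm b.1) → MX p + pos b.1 ∈ path b.1 := fun p hp => mem_rm.1 hp
  have m2 : ∀ p, p ∈ sh (pos (rm b.1) + D) (path (rm b.2)) →
      MX p + pos b.1 ∈ sh (pos b.1 + D') (path b.2) := by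
    intro p hp
    have h2 := mem_rm.1 (mem_sh.1 hp)
    rw [mem_sh]
    have e : MX (p - (pos (rm b.1) + D)) + pos b.2 = MX p + pos b.1 - (pos b.1 + D') := by
      rw [sub_eq_add_neg, MX_add, hMn, MX_add, pos_rm, hMD, hM, ← hrel]
      abel
    rw [e] at h2
    exact h2
  refine ⟨?_, ?_, ?_, h1, h0⟩
  · unfold pv KN.ST.sb
    rw [List.nodup_append']
    refine ⟨nodup_sh.2 (nodup_rm (nodup_sh.1 hnd.1)), nodup_rm hnd.2.1, ?_⟩
    intro p hp hq
    exact hnd.2.2 (m2 p hp) (m1 p hq)
  · intro p hp
    have key : MX p + pos b.1 ∈ pv b D' := by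
      unfold pv KN.ST.sb at hp
      rw [List.mem_append] at hp
      unfold pv
      rw [List.mem_append]
      rcases hp with hp | hp
      · exact Or.inl (m2 p hp)
      · exact Or.inr (m1 p hp)
    have h3 := h.rg _ key
    have h4 : (pos (KN.ST.sb b).1).1 = (pos b.1).1 := by
      unfold KN.ST.sb
      simp only [pos_rm, MX, Prod.fst_neg, neg_neg]
    rw [h4]
    simp only [Prod.fst_add, MX] at h3
    omega
  · unfold KN.ST.sb
    simp only [pos_rm]
    rw [hMn, hMn, ← hrel]
    have e1 : pos b.2 + (pos b.1 + D') = D := hrel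
    have e2 : MX (pos b.2) + MX (pos b.1) + MX D' = MX D := by
      rw [← MX_add, ← MX_add, ← e1]
      congr 1
      abel
    rw [e1]
    rw [hMD, hMD'] at e2
    rw [← e2]
    abel

theorem T_sb {D : Z3} {b : Blk} (h : Pc D (nxt D b) b) (ht : Same (T D b) sq) :
    Same (T (nxt D b) (sb b)) sq := by
  have hp := pa_cp h.h1 h.ne.1
  have hp' := pa_cp h.h0 h.ne.2
  have hS := sap_poly hp.la (h.ra hp'.ra)
  have h1 := triv_mx (triv_rev hS ht)
  have hfr := h.fr
  have hn := nxt_sb hfr h.h1
  have hpc := h.sb
  have hS' := sap_poly hp'.la (hpc.ra hp.ra)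
  have e1 : (Poly (cp D) (Rw1 (back b.2, back b.1) (back (cp (nxt D b))))).map mx =
      (Dir.xm :: (cp D ++ Dir.xp :: (rm b.1))) ++
        (Dir.xp :: (back (cp (nxt D b)) ++ Dir.xm :: rm b.2)) := by
    have hc : ∀ w : List Dir, Pla w → w.map mx = w := by
      intro w hw
      induction w with
      | nil => rfl
      | cons a w ih =>
        rw [List.map_cons, ih (fun b hb => hw b (List.mem_cons_of_mem _ hb))]
        have ha := hw a List.mem_cons_self
        congr 1
        cases a <;> simp [Lat, mx] at ha ⊢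
    have c1 := hc _ hp.pla
    have c2 := hc _ hp'.pla.back
    simp only [Poly, Rw1, List.map_cons, List.map_append, c1, c2, rm]
    simp [mx]
  have e2 : ((Poly (cp D) (Rw1 (back b.2, back b.1) (back (cp (nxt D b))))).map mx).rotate
      (Dir.xm :: (cp D ++ Dir.xp :: (rm b.1))).length =
      Poly (back (cp (nxt D b))) (Rw1 (sb b) (cp D)) := by
    rw [e1, List.rotate_append_length_eq]
    simp [Poly, Rw1, sb]
  -- the rotated word is `SAP`, hence the word
  have e3 : (Poly (back (cp (nxt D b))) (Rw1 (sb b) (cp D))).rotate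
      (Dir.xp :: (back (cp (nxt D b)) ++ Dir.xm :: rm b.2)).length =
      (Poly (cp D) (Rw1 (back b.2, back b.1) (back (cp (nxt D b))))).map mx := by
    have e4 : Poly (back (cp (nxt D b))) (Rw1 (sb b) (cp D)) =
        (Dir.xp :: (back (cp (nxt D b)) ++ Dir.xm :: rm b.2)) ++
          (Dir.xm :: (cp D ++ Dir.xp :: (rm b.1))) := by
      simp [Poly, Rw1, sb]
    rw [e4, List.rotate_append_length_eq, e1]
  have h2 := ((c_words _ hS').2.2
    (Dir.xp :: (back (cp (nxt D b)) ++ Dir.xm :: rm b.2)).length).2
  rw [e3] at h2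
  unfold T tB
  rw [hn]
  exact h2.trans h1

/-! ### crossings -/

theorem X_mx (w : List Dir) (c : ℤ) : X (w.map mx) c = X w (-c - 1) := by
  induction w with
  | nil => rfl
  | cons a w ih =>
    simp only [List.map_cons, X, ih, pos_mx]
    congr 1
    unfold cx
    simp only [MX]
    congr 1
    apply propext
    cases a <;> simp [mx] <;> omega

theorem X_back (w : List Dir) (c : ℤ) : X (back w) c = X w (c + (pos w).1) := by
  induction w generalizing c with
  | nil => rfl
  | cons a w ih =>
    rw [back_cons, X_append, ih]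
    simp only [X, pos, Prod.fst_add]
    have e1 : c - (0 + (vec (neg a)).1) + (pos w).1 = c + ((pos w).1 + (vec a).1) := by
      rw [vec_neg]
      simp only [Prod.fst_neg]
      ring
    have e2 : (0 + vec (neg a)).1 = (vec (neg a)).1 := by simp
    simp only [Prod.fst_zero]
    rw [e1, zero_add]
    congr 1
    unfold cx
    congr 1
    apply propext
    cases a <;> simp [neg, vec] <;> omega

theorem irr_sb {b : Blk} (hb : Fr b) (h : Irr b) : Irr (sb b) := by
  intro c h0 h1
  have e := hb.e
  have h4 : (pos (sb b).1).1 = (pos b.1).1 := by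
    unfold sb
    simp only [pos_rm, MX, Prod.fst_neg, neg_neg]
  rw [h4] at h1 ⊢
  unfold sb rm
  simp only [X_mx, X_back]
  have h2 := h ((pos b.1).1 - c - 1) (by omega) (by omega)
  have e1 : -c - 1 + (pos b.1).1 = (pos b.1).1 - c - 1 := by ring
  have e2 : -(c - (pos b.1).1) - 1 + (pos b.2).1 = (pos b.1).1 - c - 1 - (pos b.1).1 := by
    rw [e]; ring
  rw [e1, e2]
  exact h2

theorem X_rx (w : List Dir) (c : ℤ) : X (w.map rx) c = X w c := by
  induction w with
  | nil => rfl
  | cons a w ih =>
    simp only [List.map_cons, X, ih, pos_rx]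
    congr 1
    unfold cx
    rw [RX_fst]
    congr 1
    apply propext
    cases a <;> simp [rx]

theorem irr_rx {b : Blk} (h : Irr b) : Irr (rb b) := by
  intro c h0 h1
  unfold rb at h1 ⊢
  simp only [pos_rx, RX_fst, X_rx] at h1 ⊢
  exact h c h0 h1

theorem wd_rb (b : Blk) : wd (rb b) = wd b := by
  unfold wd rb
  simp only [pos_rx, RX_fst]

end

end KN.ST
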