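import Pool.Agent.H132.LG.Lnk

/-!
# Stretched polygons of a knot type do not follow a pure power law
-/

set_option autoImplicit false

namespace KN.ST

open KN KN.KQ Finset Filter Topology
open scoped Classical ENNReal

noncomputable section

theorem no_power_law : ∃ y₁ : ℝ, 0 < y₁ ∧ ∀ y : ℝ, y₁ ≤ y → ∀ (k : List V) (N : ℕ), MaxN k N →
    ∀ A α g : ℝ, 0 < A → 0 < g →
      ¬ Tendsto (fun j : ℕ => (Sr y k (2 * j) / (2 * ((2 * j : ℕ) : ℝ))) /
        ((2 * j : ℝ) ^ (α - 3) * g ^ (2 * j))) atTop (𝓝 A) := by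
  obtain ⟨y₀, hy₀, hmain⟩ := main
  obtain ⟨y₁, hy₁, hforce⟩ := force_exists
  refine ⟨max y₀ y₁, by positivity, fun y hy k N hk A α g hA hg hlim => ?_⟩
  have hy0 : 0 < y := lt_of_lt_of_le hy₀ ((le_max_left _ _).trans hy)
  obtain ⟨μ, hμ, hpos, -, hK⟩ := hmain y ((le_max_left _ _).trans hy)
  obtain ⟨-, C₁, hC₁, h1⟩ := hK k N hk
  obtain ⟨M, K, t, s, q, had, ht, hcr, hts⟩ := hforce y ((le_max_right _ _).trans hy)
  obtain ⟨C₂, hC₂, h2⟩ := had.unk_real hy0 ht hk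
  have h3 := hlim.eventually_lt_const (show A < 2 * A by linarith)
  have h4 := hlim.eventually_const_lt (show A / 2 < A by linarith)
  set ζ := (q * s ^ 4).toReal with hζ
  have hq0 : q ≠ 0 := by
    intro h0
    have := hcr.h1
    rw [h0] at this
    simp at this
  have hqt : q ≠ ⊤ := ne_top_of_le_ne_top (by simp) hcr.h2
  have hst : s ≠ ⊤ := ne_top_of_le_ne_top (by simp) (s_le1 hcr.hs)
  have hζ0 : 0 < ζ := ENNReal.toReal_pos (mul_ne_zero hq0 (pow_ne_zero _ hcr.h0))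
    (ENNReal.mul_ne_top hqt (ENNReal.pow_ne_top hst))
  refine hcr.no_pl hts (β := α - 3 - N) (r := g * ζ) (c := A / (C₁ * C₂)) (C := 4 * A * C₁ * C₂)
    (by positivity) (by positivity) (by positivity) ?_
  filter_upwards [h1, h2, h3, h4, hpos, eventually_ge_atTop 1] with j g1 g2 g3 g4 g5 g6
  have hj1 : (1 : ℝ) ≤ j := by exact_mod_cast g6
  have hj : (0 : ℝ) < 2 * j := by linarith
  set x : ℝ := 2 * j with hx
  have hxc : ((2 * j : ℕ) : ℝ) = x := by push_cast; rfl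
  rw [hxc] at g3 g4
  have hw : 0 < x ^ (α - 3) * g ^ (2 * j) := by positivity
  have hxN : 0 < x ^ N := by positivity
  set S := Sr y sq (2 * j) with hS
  set T := Sr y k (2 * j) with hT
  set Z := (Zc t (PQ 0) (2 * j)).toReal with hZ
  set w := x ^ (α - 3) * g ^ (2 * j) with hwd
  rw [div_div, div_lt_iff₀ (by positivity)] at g3
  rw [div_div, lt_div_iff₀ (by positivity)] at g4
  have e1 : uu t s q (2 * j) = Z * ζ ^ (2 * j) := by
    unfold uu
    rw [ENNReal.toReal_mul, ENNReal.toReal_pow]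
  have e2 : x ^ (α - 3 - (N : ℝ)) * (g * ζ) ^ (2 * j) = w / x ^ N * ζ ^ (2 * j) := by
    rw [Real.rpow_sub hj, Real.rpow_natCast, hwd, mul_pow]
    ring
  rw [e1, e2]
  have hζ2 : 0 < ζ ^ (2 * j) := by positivity
  constructor
  · have k1 : A / (C₁ * C₂) * (w / x ^ N) ≤ Z := by
      rw [div_mul_div_comm, div_le_iff₀ (by positivity)]
      have k2 : T ≤ C₁ * (x ^ N * (C₂ * (x * Z))) :=
        g1.2.trans (mul_le_mul_of_nonneg_left (mul_le_mul_of_nonneg_left g2.2 hxN.le) hC₁.le)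
      have k3 : x * (A * w) ≤ x * (Z * (C₁ * C₂ * x ^ N)) := by
        calc x * (A * w) = A / 2 * (2 * x * w) := by ring
          _ ≤ T := g4.le
          _ ≤ _ := k2
          _ = _ := by ring
      exact le_of_mul_le_mul_left k3 hj
    calc A / (C₁ * C₂) * (w / x ^ N * ζ ^ (2 * j)) = A / (C₁ * C₂) * (w / x ^ N) * ζ ^ (2 * j) := by
          ring
      _ ≤ _ := mul_le_mul_of_nonneg_right k1 hζ2.le
  · have k1 : Z ≤ 4 * A * C₁ * C₂ * (w / x ^ N) := by
      rw [← mul_div_assoc, le_div_iff₀ hxN]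
      have k2 : x ^ N * (x * Z) ≤ C₂ * (C₁ * T) := by
        calc x ^ N * (x * Z) ≤ x ^ N * (C₂ * S) := mul_le_mul_of_nonneg_left g2.1 hxN.le
          _ = C₂ * (x ^ N * S) := by ring
          _ ≤ _ := mul_le_mul_of_nonneg_left g1.1 hC₂.le
      have k3 : x * (Z * x ^ N) ≤ x * (4 * A * C₁ * C₂ * w) := by
        calc x * (Z * x ^ N) = x ^ N * (x * Z) := by ring
          _ ≤ C₂ * (C₁ * T) := k2
          _ ≤ C₂ * (C₁ * (2 * A * (2 * x * w))) :=
            mul_le_mul_of_nonneg_left (mul_le_mul_of_nonneg_left g3.le hC₁.le) hC₂.le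
          _ = _ := by ring
      exact le_of_mul_le_mul_left k3 hj
    calc Z * ζ ^ (2 * j) ≤ 4 * A * C₁ * C₂ * (w / x ^ N) * ζ ^ (2 * j) :=
          mul_le_mul_of_nonneg_right k1 hζ2.le
      _ = _ := by ring

end

end KN.ST
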