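import Pool.Agent.H132.LG.Tail

/-!
# No pure power law
-/

set_option autoImplicit false

namespace KN.ST

open KN KN.KQ Finset Filter Topology
open scoped Classical ENNReal

noncomputable section

variable {s q t : ℝ≥0∞}

theorem r2_vec {v : Dir} (hv : Lat v) : r2 (vec v) = 1 := by
  have h : rr (vec v) = 1 := by
    unfold Lat at hv
    cases v <;> simp_all [rr, vec]
  unfold r2
  rw [h]
  simp

theorem st_vec {v : Dir} (hv : Lat v) : St (vec v) := ⟨hv.x, vec_ne v⟩

theorem Cr.green_top (h : Cr s q) {v w : Dir} (hv : Lat v) (hw : Lat w) :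
    ∑' m : ℕ, pw (Kr s q) m (vec v) (vec w) ≠ ⊤ := by
  intro ht
  have h1 := h.green (st_vec hv) (vec w)
  rw [ht, r2_vec hw, one_mul, ENNReal.top_mul] at h1
  · exact absurd h1 (by simp)
  · have := h.h0
    simp [this]

/-- the weighted numbers of chains are summable -/
theorem Cr.sum_top (h : Cr s q) (ht : t ^ 6 * s ^ 8 = 1) :
    ∑' n : ℕ, Zc t (PQ 0) n * (q * s ^ 4) ^ n ≠ ⊤ := by
  simp only [Zc_Un q ht]
  rw [ENNReal.tsum_comm, tsum_fintype]
  refine ENNReal.sum_ne_top.2 fun e _ => ?_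
  by_cases he : Lat e.1 ∧ Lat e.2
  · simp only [he, and_self, if_true]
    rw [Un_sum]
    exact h.green_top he.1 he.2
  · simp [he]

theorem Cr.sum_tail (ht : t ^ 6 * s ^ 8 = 1) (M : ℕ) :
    ∑' m : ℕ, pw (Kr s q) (M + m) (vec .yp) (vec .yp) ≤
      ∑' n : ℕ, Zc t (PQ 0) (2 * M + n) * (q * s ^ 4) ^ (2 * M + n) := by
  simp only [Zc_Un q ht]
  refine (Un_tail s q _ _ M).trans (ENNReal.tsum_le_tsum fun n => ?_)
  refine le_trans (le_of_eq ?_) (ENNReal.le_tsum ((Dir.yp, Dir.yp) : Dir × Dir))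
  rw [if_pos ⟨by simp [Lat], by simp [Lat]⟩]

/-! ### a sequence that is not of the order of a power -/

theorem no_power {u : ℕ → ℝ} (hu0 : ∀ n, 0 ≤ u n) (hus : Summable u)
    (hodd : ∀ n, ¬ Even n → u n = 0)
    (hlow : ∀ p : ℕ, 1 ≤ p → ∃ c : ℝ, 0 < c ∧ ∀ᶠ a : ℕ in atTop,
      c / (a : ℝ) ^ 4 ≤ ∑' n : ℕ, u (2 * a ^ (2 * p) + n))
    {β r c C : ℝ} (hr : 0 < r) (hc : 0 < c) (hC : 0 < C)
    (h : ∀ᶠ j : ℕ in atTop, c * ((2 * j : ℝ) ^ β * r ^ (2 * j)) ≤ u (2 * j) ∧
      u (2 * j) ≤ C * ((2 * j : ℝ) ^ β * r ^ (2 * j))) : False := by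
  -- a better summability
  have h1 : ∃ ε : ℝ, 0 < ε ∧ Summable (fun j : ℕ => u (2 * j) * (2 * j : ℝ) ^ ε) := by
    have hinj : Function.Injective (fun j : ℕ => 2 * j) := fun a b hab => by
      simp only at hab
      omega
    have hv : Summable (fun j : ℕ => u (2 * j)) := hus.comp_injective hinj
    have hw : Summable (fun j : ℕ => (2 * j : ℝ) ^ β * r ^ (2 * j)) := by
      refine summable_of_isBigO_nat hv (Asymptotics.IsBigO.of_bound (1 / c) ?_)
      filter_upwards [h] with j hj
      rw [Real.norm_of_nonneg (by positivity), Real.norm_of_nonneg (hu0 _), one_div,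
        ← div_eq_inv_mul, le_div_iff₀ hc, mul_comm]
      exact hj.1
    have key : ∀ (ε : ℝ) (f : ℕ → ℝ), Summable f → (∀ᶠ j : ℕ in atTop,
        C * ((2 * j : ℝ) ^ β * r ^ (2 * j)) * (2 * j : ℝ) ^ ε ≤ C * f j) →
        Summable (fun j : ℕ => u (2 * j) * (2 * j : ℝ) ^ ε) := by
      intro ε f hf hb
      refine summable_of_isBigO_nat (hf.mul_left C) (Asymptotics.IsBigO.of_bound 1 ?_)
      filter_upwards [h, hb] with j hj hj2
      rw [Real.norm_of_nonneg (mul_nonneg (hu0 _) (by positivity)), one_mul]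
      exact ((mul_le_mul_of_nonneg_right hj.2 (by positivity)).trans hj2).trans (le_abs_self _)
    rcases lt_trichotomy r 1 with hr1 | hr1 | hr1
    · -- exponential decay
      obtain ⟨k, hk⟩ := exists_nat_ge (β + 1)
      have hs := (summable_pow_mul_geometric_of_norm_lt_one k (r := r)
        (by rw [Real.norm_of_nonneg hr.le]; exact hr1)).comp_injective hinj
      refine ⟨1, one_pos, key 1 _ hs ?_⟩
      filter_upwards [eventually_ge_atTop 1] with j hj
      have hj1 : (1 : ℝ) ≤ 2 * j := by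
        have : (1 : ℝ) ≤ j := by exact_mod_cast hj
        linarith
      simp only [Function.comp_apply]
      have e : C * ((2 * j : ℝ) ^ β * r ^ (2 * j)) * (2 * j : ℝ) ^ (1 : ℝ) =
          C * ((2 * j : ℝ) ^ (β + 1) * r ^ (2 * j)) := by
        rw [Real.rpow_add (by linarith)]
        ring
      rw [e]
      refine mul_le_mul_of_nonneg_left (mul_le_mul_of_nonneg_right ?_ (by positivity)) hC.le
      push_cast
      rw [← Real.rpow_natCast]
      exact Real.rpow_le_rpow_of_exponent_le hj1 hk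
    · -- power decay
      subst hr1
      have hb : β < -1 := by
        rw [← Real.summable_nat_rpow]
        refine (hw.mul_left ((2 : ℝ) ^ (-β))).congr fun j => ?_
        rw [one_pow, mul_one, Real.mul_rpow (by norm_num) (by positivity), ← mul_assoc,
          ← Real.rpow_add (by norm_num)]
        simp
      refine ⟨(-1 - β) / 2, by linarith, ?_⟩
      have hs : Summable (fun j : ℕ => (2 * j : ℝ) ^ (β + (-1 - β) / 2)) := by
        have h0 : Summable (fun j : ℕ => (j : ℝ) ^ (β + (-1 - β) / 2)) :=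
          Real.summable_nat_rpow.2 (by linarith)
        refine (h0.mul_left ((2 : ℝ) ^ (β + (-1 - β) / 2))).congr fun j => ?_
        rw [Real.mul_rpow (by norm_num) (by positivity)]
      refine key _ _ hs ?_
      filter_upwards [eventually_ge_atTop 1] with j hj
      have hj1 : (0 : ℝ) < 2 * j := by
        have : (1 : ℝ) ≤ j := by exact_mod_cast hj
        linarith
      rw [one_pow, mul_one, mul_assoc, ← Real.rpow_add hj1]
    · -- growth
      exfalso
      obtain ⟨k, hk⟩ := exists_nat_ge (-β)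
      have h0 := hw.tendsto_atTop_zero
      have h1 := (tendsto_pow_const_div_const_pow_of_one_lt k hr1).comp
        (tendsto_id.const_mul_atTop' (two_pos : (0 : ℕ) < 2))
      have h2 := h0.eventually_lt_const (show (0 : ℝ) < 1 by norm_num)
      have h3 := h1.eventually_lt_const (show (0 : ℝ) < 1 by norm_num)
      obtain ⟨j, hj1, hj2, hj3⟩ := (h2.and (h3.and (eventually_ge_atTop 1))).exists
      simp only [Function.comp_apply, id_eq] at hj2
      rw [div_lt_one (by positivity)] at hj2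
      have hj4 : (1 : ℝ) ≤ 2 * j := by
        have : (1 : ℝ) ≤ j := by exact_mod_cast hj3
        linarith
      push_cast at hj2
      have h5 : (1 : ℝ) ≤ (2 * j : ℝ) ^ β * (2 * j : ℝ) ^ k := by
        rw [← Real.rpow_natCast (2 * j : ℝ) k, ← Real.rpow_add (by linarith)]
        exact Real.one_le_rpow hj4 (by linarith)
      have h6 : (2 * j : ℝ) ^ β * (2 * j : ℝ) ^ k ≤ (2 * j : ℝ) ^ β * r ^ (2 * j) :=
        mul_le_mul_of_nonneg_left hj2.le (by positivity)
      linarith
  obtain ⟨ε, hε, h2⟩ := h1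
  have h3 : Summable (fun n : ℕ => u n * (n : ℝ) ^ ε) := by
    have hinj : Function.Injective (fun j : ℕ => 2 * j) := fun a b hab => by
      simp only at hab
      omega
    rw [← hinj.summable_iff]
    · refine h2.congr fun j => ?_
      simp only [Function.comp_apply]
      push_cast
      rfl
    · intro n hn
      have : ¬ Even n := by
        rintro ⟨m, hm⟩
        exact hn ⟨m, by simp only; omega⟩
      rw [hodd n this, zero_mul]
  set S := ∑' n : ℕ, u n * (n : ℝ) ^ ε with hS
  have hS0 : 0 ≤ S := tsum_nonneg fun n => mul_nonneg (hu0 n) (by positivity)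
  have h4 : ∀ M : ℕ, 1 ≤ M → (M : ℝ) ^ ε * ∑' n : ℕ, u (2 * M + n) ≤ S := by
    intro M hM
    have hinj : Function.Injective (fun n : ℕ => 2 * M + n) := fun a b hab => by
      simp only at hab
      omega
    have g1 : Summable (fun n : ℕ => u (2 * M + n)) := hus.comp_injective hinj
    have g2 := h3.comp_injective hinj
    have g3 := tsum_comp_le_tsum_of_inj h3 (fun n => mul_nonneg (hu0 n) (by positivity)) hinj
    refine le_trans ?_ g3
    rw [← tsum_mul_left]
    refine Summable.tsum_le_tsum (fun n => ?_) (g1.mul_left _) g2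
    simp only [Function.comp_apply]
    rw [mul_comm]
    refine mul_le_mul_of_nonneg_left ?_ (hu0 _)
    refine Real.rpow_le_rpow (by positivity) ?_ hε.le
    push_cast
    have : (0 : ℝ) ≤ n := by positivity
    have : (0 : ℝ) ≤ M := by positivity
    linarith
  obtain ⟨p, hp1, hp⟩ : ∃ p : ℕ, 1 ≤ p ∧ 5 ≤ 2 * p * ε := by
    obtain ⟨p, hp⟩ := exists_nat_gt (5 / ε)
    refine ⟨p + 1, by omega, ?_⟩
    rw [div_lt_iff₀ hε] at hp
    push_cast
    nlinarith
  obtain ⟨c', hc', h5⟩ := hlow p hp1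
  obtain ⟨a, ha, ha1, ha2⟩ := (h5.and ((eventually_ge_atTop 1).and
    (eventually_gt_atTop ⌈S / c'⌉₊))).exists
  have haR : (1 : ℝ) ≤ a := by exact_mod_cast ha1
  have h6 := h4 (a ^ (2 * p)) (Nat.one_le_pow _ _ ha1)
  have h7 : (a : ℝ) ^ 5 ≤ ((a ^ (2 * p) : ℕ) : ℝ) ^ ε := by
    rw [Nat.cast_pow, ← Real.rpow_natCast (a : ℝ) (2 * p), ← Real.rpow_mul (by linarith),
      ← Real.rpow_natCast (a : ℝ) 5]
    refine Real.rpow_le_rpow_of_exponent_le haR ?_
    push_cast
    exact hp
  have h8 : (a : ℝ) ^ 5 * (c' / (a : ℝ) ^ 4) ≤ S := by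
    refine le_trans (mul_le_mul h7 ha (by positivity) (by positivity)) h6
  have h9 : (a : ℝ) ^ 5 * (c' / (a : ℝ) ^ 4) = a * c' := by
    field_simp
  rw [h9] at h8
  have h10 : S / c' < a := lt_of_le_of_lt (Nat.le_ceil _) (by exact_mod_cast ha2)
  rw [div_lt_iff₀ hc'] at h10
  linarith

end

end KN.ST
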