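import Pool.Agent.H132.LG.Low2
import Pool.Agent.H132.LG.NoLaw

/-!
# The exact order
-/

set_option autoImplicit false

namespace KN.ST

open KN KN.KQ Finset Filter Topology
open scoped Classical ENNReal

noncomputable section

variable {s q t : ℝ≥0∞}

/-- the sum over the ends -/
theorem ZU (ht : t ^ 6 * s ^ 8 = 1) (n : ℕ) : Zc t (PQ 0) n * (q * s ^ 4) ^ n =
    ∑ e : Dir × Dir, if Lat e.1 ∧ Lat e.2 then Un s q n (vec e.1) (vec e.2) else 0 := by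
  rw [Zc_Un q ht, tsum_fintype]

theorem Cr.zu_up (h : Cr s q) (ht : t ^ 6 * s ^ 8 = 1) : ∃ C : ℝ≥0∞, C ≠ ⊤ ∧ ∀ n : ℕ,
    ((n + 1 : ℕ) : ℝ≥0∞) * lo (n + 1) ^ 2 * (Zc t (PQ 0) n * (q * s ^ 4) ^ n) ≤ C := by
  have h1 : ∀ e : Dir × Dir, ∃ C : ℝ≥0∞, C ≠ ⊤ ∧ ∀ n : ℕ,
      ((n + 1 : ℕ) : ℝ≥0∞) * lo (n + 1) ^ 2 *
        (if Lat e.1 ∧ Lat e.2 then Un s q n (vec e.1) (vec e.2) else 0) ≤ C := by
    intro e
    by_cases he : Lat e.1 ∧ Lat e.2
    · simp only [if_pos he]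
      exact h.upp2 (st_vec he.1) (st_vec he.2)
    · simp only [if_neg he, mul_zero]
      exact ⟨0, by simp, fun n => le_refl 0⟩
  choose C hC1 hC2 using h1
  refine ⟨∑ e, C e, ENNReal.sum_ne_top.2 fun e _ => hC1 e, fun n => ?_⟩
  rw [ZU ht, mul_sum]
  exact sum_le_sum fun e _ => hC2 e n

theorem Cr.zu_low (h : Cr s q) (ht : t ^ 6 * s ^ 8 = 1) : ∃ (B : ℝ≥0∞) (N : ℕ), B ≠ ⊤ ∧
    ∀ j, N ≤ j → 1 ≤ B * (((2 * j + 1 : ℕ) : ℝ≥0∞) * lo (2 * j + 1) ^ 2 *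
      (Zc t (PQ 0) (2 * j) * (q * s ^ 4) ^ (2 * j))) := by
  obtain ⟨B, N, hB, hN⟩ := h.low
  refine ⟨B, N, hB, fun j hj => (hN j hj).trans (mul_le_mul_right (mul_le_mul_right ?_ _) _)⟩
  rw [ZU ht]
  refine le_trans (le_of_eq ?_) (single_le_sum (f := fun e : Dir × Dir =>
    if Lat e.1 ∧ Lat e.2 then Un s q (2 * j) (vec e.1) (vec e.2) else 0) (fun _ _ => zero_le)
    (mem_univ ((Dir.yp, Dir.yp) : Dir × Dir)))
  rw [if_pos ⟨by simp [Lat], by simp [Lat]⟩]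

theorem log_dbl {j : ℕ} (hj : 2 ≤ j) : Real.log (2 * j) ^ 2 ≤ Real.log ((2 * j + 1 : ℕ) + 1) ^ 2 ∧
    Real.log ((2 * j + 1 : ℕ) + 1) ^ 2 ≤ 4 * Real.log (2 * j) ^ 2 := by
  have h2 : (2 : ℝ) ≤ j := by exact_mod_cast hj
  have h0 : 0 ≤ Real.log (2 * j) := Real.log_nonneg (by linarith)
  have h1 : Real.log (2 * j) ≤ Real.log ((2 * j + 1 : ℕ) + 1) := by
    refine Real.log_le_log (by linarith) ?_
    push_cast
    linarith
  have h3 : Real.log ((2 * j + 1 : ℕ) + 1) ≤ 2 * Real.log (2 * j) := by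
    have h4 : (((2 * j + 1 : ℕ) : ℝ) + 1) ≤ (2 * j : ℝ) ^ 2 := by
      push_cast
      nlinarith
    have h5 := Real.log_le_log (by positivity) h4
    rw [Real.log_pow] at h5
    push_cast at h5 ⊢
    exact h5
  constructor
  · exact pow_le_pow_left₀ h0 h1 2
  · calc Real.log ((2 * j + 1 : ℕ) + 1) ^ 2 ≤ (2 * Real.log (2 * j)) ^ 2 :=
          pow_le_pow_left₀ (h0.trans h1) h3 2
      _ = _ := by ring

/-- the exact order of the numbers of chains -/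
theorem Cr.uu_ord (h : Cr s q) (ht : t ^ 6 * s ^ 8 = 1) : ∃ c C : ℝ, 0 < c ∧ 0 < C ∧
    ∀ᶠ j : ℕ in atTop, c ≤ (2 * j : ℝ) * Real.log (2 * j) ^ 2 * uu t s q (2 * j) ∧
      (2 * j : ℝ) * Real.log (2 * j) ^ 2 * uu t s q (2 * j) ≤ C := by
  obtain ⟨C, hC, h1⟩ := h.zu_up ht
  obtain ⟨B, N, hB, h2⟩ := h.zu_low ht
  have htop := h.sum_top ht
  have hfin : ∀ n, Zc t (PQ 0) n * (q * s ^ 4) ^ n ≠ ⊤ := fun n =>
    ne_top_of_le_ne_top htop (ENNReal.le_tsum n)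
  have hl : ∀ n : ℕ, 0 ≤ Real.log (((n + 1 : ℕ) : ℝ) + 1) := fun n => Real.log_nonneg (by
    push_cast
    have := Nat.cast_nonneg (α := ℝ) n
    linarith)
  have key : ∀ n : ℕ, (((n + 1 : ℕ) : ℝ≥0∞) * lo (n + 1) ^ 2 *
      (Zc t (PQ 0) n * (q * s ^ 4) ^ n)).toReal =
      ((n + 1 : ℕ) : ℝ) * Real.log (((n + 1 : ℕ) : ℝ) + 1) ^ 2 * uu t s q n := by
    intro n
    unfold uu lo
    rw [ENNReal.toReal_mul, ENNReal.toReal_mul, ENNReal.toReal_natCast, ENNReal.toReal_pow,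
      ENNReal.toReal_ofReal (hl n)]
  have kfin : ∀ n : ℕ, (((n + 1 : ℕ) : ℝ≥0∞) * lo (n + 1) ^ 2 *
      (Zc t (PQ 0) n * (q * s ^ 4) ^ n)) ≠ ⊤ := fun n =>
    ENNReal.mul_ne_top (ENNReal.mul_ne_top (ENNReal.natCast_ne_top _)
      (ENNReal.pow_ne_top (lo_top _))) (hfin n)
  have hu : ∀ n, 0 ≤ uu t s q n := fun n => ENNReal.toReal_nonneg
  refine ⟨1 / (8 * (B.toReal + 1)), C.toReal + 1, by positivity, by positivity, ?_⟩
  filter_upwards [eventually_ge_atTop N, eventually_ge_atTop 2] with j hjN hj2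
  obtain ⟨g1, g2⟩ := log_dbl hj2
  have hjR : (2 : ℝ) ≤ j := by exact_mod_cast hj2
  constructor
  · have h3 := ENNReal.toReal_mono (ENNReal.mul_ne_top hB (kfin (2 * j))) (h2 j hjN)
    rw [ENNReal.toReal_mul, key, ENNReal.toReal_one] at h3
    rw [div_le_iff₀ (by positivity)]
    have h4 : ((2 * j + 1 : ℕ) : ℝ) * Real.log (((2 * j + 1 : ℕ) : ℝ) + 1) ^ 2 ≤
        8 * ((2 * j : ℝ) * Real.log (2 * j) ^ 2) := by
      calc ((2 * j + 1 : ℕ) : ℝ) * Real.log (((2 * j + 1 : ℕ) : ℝ) + 1) ^ 2 ≤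
            (2 * (2 * j : ℝ)) * (4 * Real.log (2 * j) ^ 2) := by
            refine mul_le_mul ?_ g2 (by positivity) (by positivity)
            push_cast
            linarith
        _ = _ := by ring
    have hB0 : 0 ≤ B.toReal := ENNReal.toReal_nonneg
    calc (1 : ℝ) ≤ B.toReal * (((2 * j + 1 : ℕ) : ℝ) *
          Real.log (((2 * j + 1 : ℕ) : ℝ) + 1) ^ 2 * uu t s q (2 * j)) := h3
      _ ≤ (B.toReal + 1) * (8 * ((2 * j : ℝ) * Real.log (2 * j) ^ 2) * uu t s q (2 * j)) := by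
          refine mul_le_mul (by linarith) (mul_le_mul_of_nonneg_right h4 (hu _)) ?_ (by linarith)
          exact mul_nonneg (by positivity) (hu _)
      _ = _ := by ring
  · have h3 := ENNReal.toReal_mono hC (h1 (2 * j))
    rw [key] at h3
    refine le_trans ?_ (h3.trans (by linarith))
    refine mul_le_mul_of_nonneg_right (mul_le_mul ?_ g1 (by positivity) (by positivity)) (hu _)
    push_cast
    linarith

/-- the exact order of the sums over the polygons of a knot type -/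
theorem exact_order : ∃ y₁ : ℝ, 0 < y₁ ∧ ∀ y : ℝ, y₁ ≤ y → ∃ μ : ℝ, 0 < μ ∧
    ∀ (k : List V) (N : ℕ), MaxN k N → ∃ c C : ℝ, 0 < c ∧ 0 < C ∧ ∀ᶠ j : ℕ in atTop,
      c * ((2 * j : ℝ) ^ N * μ ^ (2 * j) / Real.log (2 * j) ^ 2) ≤ Sr y k (2 * j) ∧
      Sr y k (2 * j) ≤ C * ((2 * j : ℝ) ^ N * μ ^ (2 * j) / Real.log (2 * j) ^ 2) := by
  obtain ⟨y₀, hy₀, hmain⟩ := main
  obtain ⟨y₁, hy₁, hforce⟩ := force_exists
  refine ⟨max y₀ y₁, by positivity, fun y hy => ?_⟩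
  have hy0 : 0 < y := lt_of_lt_of_le hy₀ ((le_max_left _ _).trans hy)
  obtain ⟨μ₀, -, -, -, hK⟩ := hmain y ((le_max_left _ _).trans hy)
  obtain ⟨M, K, t, s, q, had, ht, hcr, hts⟩ := hforce y ((le_max_right _ _).trans hy)
  set ζ := (q * s ^ 4).toReal with hζ
  have hqt : q ≠ ⊤ := ne_top_of_le_ne_top (by simp) hcr.h2
  have hst : s ≠ ⊤ := ne_top_of_le_ne_top (by simp) (s_le1 hcr.hs)
  have hζ0 : 0 < ζ := ENNReal.toReal_pos (mul_ne_zero hcr.q_pos (pow_ne_zero _ hcr.h0))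
    (ENNReal.mul_ne_top hqt (ENNReal.pow_ne_top hst))
  refine ⟨1 / ζ, by positivity, fun k N hk => ?_⟩
  obtain ⟨-, C₁, hC₁, h1⟩ := hK k N hk
  obtain ⟨C₂, hC₂, h2⟩ := had.unk_real hy0 ht hk
  obtain ⟨c, C, hc, hC, h3⟩ := hcr.uu_ord hts
  refine ⟨c / (C₁ * C₂), C₁ * C₂ * C, by positivity, by positivity, ?_⟩
  filter_upwards [h1, h2, h3, eventually_ge_atTop 2] with j g1 g2 g3 g4
  have hjR : (2 : ℝ) ≤ j := by exact_mod_cast g4
  set x : ℝ := 2 * j with hx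
  have hx0 : 0 < x := by linarith
  have hL0 : 0 < Real.log x ^ 2 := by
    have : 0 < Real.log x := Real.log_pos (by linarith)
    positivity
  set L := Real.log x ^ 2 with hL
  set Z := (Zc t (PQ 0) (2 * j)).toReal with hZ
  have e1 : uu t s q (2 * j) = Z * ζ ^ (2 * j) := by
    unfold uu
    rw [ENNReal.toReal_mul, ENNReal.toReal_pow]
  rw [e1] at g3
  have hζj : 0 < ζ ^ (2 * j) := by positivity
  have e2 : (1 / ζ) ^ (2 * j) = 1 / ζ ^ (2 * j) := by rw [one_div_pow]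
  rw [e2]
  set w := ζ ^ (2 * j) with hw
  have hxN : 0 < x ^ N := by positivity
  have hZ0 : 0 ≤ Z := ENNReal.toReal_nonneg
  set S := Sr y sq (2 * j) with hS
  set T := Sr y k (2 * j) with hT
  have k1 : c / (L * w) ≤ x * Z := by
    rw [div_le_iff₀ (by positivity)]
    calc c ≤ x * L * (Z * w) := g3.1
      _ = _ := by ring
  have k2 : x * Z ≤ C / (L * w) := by
    rw [le_div_iff₀ (by positivity)]
    calc x * Z * (L * w) = x * L * (Z * w) := by ring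
      _ ≤ C := g3.2
  constructor
  · have k3 : x ^ N * (c / (L * w)) ≤ C₁ * C₂ * T := by
      calc x ^ N * (c / (L * w)) ≤ x ^ N * (C₂ * S) :=
            mul_le_mul_of_nonneg_left (k1.trans g2.1) hxN.le
        _ = C₂ * (x ^ N * S) := by ring
        _ ≤ C₂ * (C₁ * T) := mul_le_mul_of_nonneg_left g1.1 hC₂.le
        _ = _ := by ring
    have e3 : c / (C₁ * C₂) * (x ^ N * (1 / w) / L) = x ^ N * (c / (L * w)) / (C₁ * C₂) := by
      field_simp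
    rw [e3, div_le_iff₀ (by positivity)]
    linarith
  · have k3 : T ≤ C₁ * C₂ * (x ^ N * (C / (L * w))) := by
      calc T ≤ C₁ * (x ^ N * S) := g1.2
        _ ≤ C₁ * (x ^ N * (C₂ * (C / (L * w)))) := by
            refine mul_le_mul_of_nonneg_left (mul_le_mul_of_nonneg_left ?_ hxN.le) hC₁.le
            exact g2.2.trans (mul_le_mul_of_nonneg_left k2 hC₂.le)
        _ = _ := by ring
    refine k3.trans (le_of_eq ?_)
    field_simp

end

end KN.ST
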