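import Pool.Agent.H132.LG.Mir

/-!
# Lengths of irreducible blocks
-/

set_option autoImplicit false

namespace KN.ST

open KN KN.KQ
open scoped Classical

noncomputable section

/-- the parity of the number of crossings -/
theorem X_par (w : List Dir) (c : ℤ) : X w c % 2 =
    if (0 ≤ c ∧ c < (pos w).1) ∨ ((pos w).1 ≤ c ∧ c < 0) then 1 else 0 := by
  induction w with
  | nil =>
    rw [if_neg]
    · rfl
    · simp only [pos, Prod.fst_zero]
      omega
  | cons a w ih =>
    have h1 : (pos (a :: w)).1 = (pos w).1 + (vec a).1 := by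
      simp only [pos, Prod.fst_add]
    simp only [X]
    rw [Nat.add_mod, ih, h1]
    clear ih h1
    generalize (pos w).1 = x
    have key : ∀ (v : ℤ) (k : ℕ), (v = 1 ∧ k = (if x = c then 1 else 0)) ∨
        (v = -1 ∧ k = (if x = c + 1 then 1 else 0)) ∨ (v = 0 ∧ k = 0) →
        ((if (0 ≤ c ∧ c < x) ∨ (x ≤ c ∧ c < 0) then 1 else 0) + k % 2) % 2 =
        if (0 ≤ c ∧ c < x + v) ∨ (x + v ≤ c ∧ c < 0) then 1 else 0 := by
      intro v k hk
      by_cases c1 : (0 ≤ c ∧ c < x) ∨ (x ≤ c ∧ c < 0)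
      · rw [if_pos c1]
        by_cases c2 : (0 ≤ c ∧ c < x + v) ∨ (x + v ≤ c ∧ c < 0)
        · rw [if_pos c2]
          rcases hk with ⟨rfl, rfl⟩ | ⟨rfl, rfl⟩ | ⟨rfl, rfl⟩
          · rw [if_neg (by omega)]
          · rw [if_neg (by omega)]
          · rfl
        · rw [if_neg c2]
          rcases hk with ⟨rfl, rfl⟩ | ⟨rfl, rfl⟩ | ⟨rfl, rfl⟩
          · rw [if_pos (by omega)]
          · rw [if_pos (by omega)]
          · omega
      · rw [if_neg c1]
        by_cases c2 : (0 ≤ c ∧ c < x + v) ∨ (x + v ≤ c ∧ c < 0)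
        · rw [if_pos c2]
          rcases hk with ⟨rfl, rfl⟩ | ⟨rfl, rfl⟩ | ⟨rfl, rfl⟩
          · rw [if_pos (by omega)]
          · rw [if_pos (by omega)]
          · omega
        · rw [if_neg c2]
          rcases hk with ⟨rfl, rfl⟩ | ⟨rfl, rfl⟩ | ⟨rfl, rfl⟩
          · rw [if_neg (by omega)]
          · rw [if_neg (by omega)]
          · rfl
    have h2 := key (vec a).1 (cx a x c) (by cases a <;> simp [vec, cx])
    rw [← h2]

theorem irr4 {D D' : Z3} {b : Blk} (h : Pc D D' b) (hI : Irr b) :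
    4 * wd b + nl (D - D') ≤ bl b := by
  have hj := h.pos1
  have h1 : 4 * wd b ≤ xc b.1 + xc b.2 := by
    have h2 : ∑ _c ∈ Finset.Ico 0 (pos b.1).1, 4 ≤ ∑ c ∈ Finset.Ico 0 (pos b.1).1,
        (X b.1 c + X b.2 (c - (pos b.1).1)) := by
      refine Finset.sum_le_sum fun c hc => ?_
      rw [Finset.mem_Ico] at hc
      have h3 := h.cross hc.1 hc.2
      have h4 := hI c hc.1 hc.2
      have h5 := X_par b.1 c
      have h6 := X_par b.2 (c - (pos b.1).1)
      rw [if_pos (Or.inl hc)] at h5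
      rw [h.pos2, if_pos (Or.inr (by omega))] at h6
      omega
    rw [Finset.sum_add_distrib, Finset.sum_const, smul_eq_mul, Int.card_Ico] at h2
    have h5 := sum_X_le b.1 0 (Finset.Ico 0 (pos b.1).1)
    have h6 := sum_X_le b.2 (pos b.1).1 (Finset.Ico 0 (pos b.1).1)
    simp only [sub_zero] at h5 h2
    unfold wd
    omega
  have h2 := nl_xc b.1
  have h3 := nl_xc b.2
  have h4 : nl (D - D') ≤ nl (pos b.1) + nl (pos b.2) := by
    have : D - D' = pos b.2 + pos b.1 := by rw [← h.rel]; abel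
    rw [this]
    unfold nl
    simp only [Prod.snd_add, Prod.fst_add]
    omega
  unfold bl
  omega

/-- the displacement of a block -/
def dv (b : Blk) : Z3 := pos b.2 + pos b.1

theorem nxt_dv (D : Z3) (b : Blk) : nxt D b = D - dv b := by
  unfold nxt dv
  abel

theorem dv_x {b : Blk} (hb : Fr b) : (dv b).1 = 0 := by
  unfold dv
  rw [Prod.fst_add, hb.e]
  ring

theorem irr4' {b : Blk} (hb : Fr b) (hI : Irr b) : 4 * wd b + nl (dv b) ≤ bl b := by
  have h1 := pc_of_far (D := (0, ((bl b + 1 : ℕ) : ℤ), 0)) hb rfl (by unfold nl; simp; omega)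
  have h2 := irr4 h1 hI
  rw [nxt_dv] at h2
  have e : ∀ p q : Z3, p - (p - q) = q := fun p q => by abel
  rw [e] at h2
  exact h2

end

end KN.ST
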