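import Pool.Agent.H132.LG.Arcs

/-!
# Cutting a polygon along a plane orthogonal to the second axis
-/

set_option autoImplicit false

namespace KN.ST

open KN KN.KQ
open scoped Classical

noncomputable section

/-- rotation of the letters by 90 degrees around the third axis -/
def rq : Dir → Dir
  | Dir.xp => Dir.yp
  | Dir.xm => Dir.ym
  | Dir.yp => Dir.xm
  | Dir.ym => Dir.xp
  | Dir.zp => Dir.zp
  | Dir.zm => Dir.zm

def RQ (p : Z3) : Z3 := (-p.2.1, p.1, p.2.2)

theorem vec_rq (d : Dir) : vec (rq d) = RQ (vec d) := by cases d <;> decide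

theorem RQ_add (p q : Z3) : RQ (p + q) = RQ p + RQ q := by
  unfold RQ
  simp only [Prod.fst_add, Prod.snd_add, neg_add, Prod.mk_add_mk]

theorem RQ_inj : Function.Injective RQ := by
  intro p q h
  unfold RQ at h
  simp only [Prod.mk.injEq, neg_inj] at h
  exact Prod.ext h.2.1 (Prod.ext h.1 h.2.2)

theorem pos_rq (w : List Dir) : pos (w.map rq) = RQ (pos w) :=
  (WRD.path_map rq RQ vec_rq rfl RQ_add w).1

theorem path_rq (w : List Dir) : path (w.map rq) = (path w).map RQ :=
  (WRD.path_map rq RQ vec_rq rfl RQ_add w).2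

theorem rq_same {w : List Dir} (hw : SAP w) : SAP (w.map rq) ∧ Same (vl w) (vl (w.map rq)) := by
  refine ⟨WRD.SAP_map rq RQ vec_rq rfl RQ_add RQ_inj hw, ?_⟩
  have hs := S_simple_proof w hw
  have h4 := (S_motion_proof _ hs).2.2.1.1
  rw [WRD.vl_map rq RQ vec_rq rfl RQ_add]
  have e1 : (vl w).map (fun p => (-p.2.1, p.1, p.2.2)) =
      (path w.tail).map (fun p => emb (RQ p)) := by
    unfold vl
    rw [List.map_map]
    refine List.map_congr_left fun p _ => ?_
    simp [emb, RQ]
  rw [e1] at h4
  exact h4

/-- a polygon composed of two arcs on the two sides of a plane orthogonal to the second axis -/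
theorem sep {L R : List Dir} (hW : SAP (Dir.ym :: (L ++ Dir.yp :: R)))
    (hL : ∀ p ∈ path L, 0 ≤ p.2.1) (hR : ∀ p ∈ path R, p.2.1 ≤ 0) (h0 : (pos R).2.1 = 0) :
    LA (RQ (pos R)) (L.map rq) ∧ RA (RQ (pos R)) (R.map rq) ∧
    Same (vl (Dir.ym :: (L ++ Dir.yp :: R))) (vl (Poly (L.map rq) (R.map rq))) := by
  have hnd := hW.2.2
  have hpp := hW.2.1
  simp only [path, List.tail_cons] at hnd
  rw [path_mid, List.nodup_append'] at hnd
  have hLR : pos L = - pos R := by
    simp only [pos, pos_append] at hpp
    have e : vec Dir.yp + vec Dir.ym = 0 := by decide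
    have e2 : pos L + pos R = 0 := by
      calc pos L + pos R = pos L + (pos R + vec Dir.yp) + vec Dir.ym -
          (vec Dir.yp + vec Dir.ym) := by abel
        _ = 0 := by rw [hpp, e, sub_zero]
    exact eq_neg_of_add_eq_zero_left e2
  have hne : pos R ≠ 0 := by
    intro h
    have a1 : vec Dir.yp ∈ sh (pos R + vec Dir.yp) (path L) := by
      rw [mem_sh, h, zero_add, sub_self]
      exact zero_mem_path _
    have hcl : path L ≠ [] := by cases L <;> simp [path]
    -- the arc `R` begins and ends at the same point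
    have hR0 : R = [] := by
      cases R with
      | nil => rfl
      | cons d R =>
        exfalso
        have h1 := hnd.2.1
        simp only [path, List.nodup_cons] at h1
        rw [pos] at h
        rw [h] at h1
        exact h1.1 (zero_mem_path _)
    have hL0 : L = [] := by
      cases L with
      | nil => rfl
      | cons d L =>
        exfalso
        have h1 := hnd.1
        rw [nodup_sh] at h1
        simp only [path, List.nodup_cons] at h1
        rw [h, neg_zero, pos] at hLR
        rw [hLR] at h1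
        exact h1.1 (zero_mem_path _)
    have := hW.1
    rw [hR0, hL0] at this
    simp at this
  have hRQ0 : RQ (pos R) ≠ 0 := by
    intro h
    exact hne (RQ_inj (h.trans (by rfl)))
  have hRQn : ∀ p, RQ (-p) = - RQ p := by
    intro p
    simp [RQ]
  refine ⟨⟨?_, ?_, ?_, ?_, hRQ0⟩, ⟨?_, ?_, ?_, ?_, hRQ0⟩, ?_⟩
  · rw [path_rq]
    exact (nodup_sh.1 hnd.1).map RQ_inj
  · intro p hp
    rw [path_rq, List.mem_map] at hp
    obtain ⟨q, hq, rfl⟩ := hp
    have := hL q hq
    simp only [RQ]
    omega
  · rw [pos_rq, hLR, hRQn]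
  · simp only [RQ]
    omega
  · rw [path_rq]
    exact hnd.2.1.map RQ_inj
  · intro p hp
    rw [path_rq, List.mem_map] at hp
    obtain ⟨q, hq, rfl⟩ := hp
    have := hR q hq
    simp only [RQ]
    omega
  · rw [pos_rq]
  · simp only [RQ]
    omega
  · have := (rq_same hW).2
    have e : (Dir.ym :: (L ++ Dir.yp :: R)).map rq = Poly (L.map rq) (R.map rq) := by
      simp [Poly, rq]
    rw [e] at this
    exact this

theorem rq4 (w : List Dir) : (((w.map rq).map rq).map rq).map rq = w := by
  induction w with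
  | nil => rfl
  | cons a w ih =>
    simp only [List.map_cons, ih]
    cases a <;> rfl

theorem rq_inv {w : List Dir} (hw : SAP (w.map rq)) : SAP w ∧ Same (vl w) (vl (w.map rq)) := by
  have h1 := rq_same hw
  have h2 := rq_same h1.1
  have h3 := rq_same h2.1
  have e := rq4 w
  rw [e] at h3
  exact ⟨h3.1, (h1.2.trans (h2.2.trans h3.2)).symm⟩

/-- insertion of trivial blocks -/
theorem trivial_ins {D : Z3} {l r : List Dir} {bs : List Blk} (hl : LA D l) (hr : RA D r)
    (hb : VC D bs D) (h0 : nb D bs = 0) :
    Same (vl (Poly l r)) (vl (Poly l (Rw bs r))) ∧ SAP (Poly l (Rw bs r)) := by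
  have hp := pa_cp hl.h0 hl.ne
  have hra := hb.ra hr
  refine ⟨?_, sap_poly hl hra⟩
  have s1 := cut hl hr hp
  have s2 := cut hl hra hp
  have hl' := hb.la hp.la
  have s3 := cut hl' hr hp
  have t1 := sumN_ext hp.la hb (M := 0) (ribbon_sq hp)
  rw [h0] at t1
  have s4 := left_unit s3 t1
  have s5 := extL_same hp.la hb hr
  have s6 : Same (vl (Poly (back (cp D)) (Rw bs r))) (vl (Poly (back (cp D)) r)) := s5.trans s4
  exact isSum_unique s1 (isSum_congr s2 (Same.refl _) s6 (Same.refl _))

/-- change of the planar arcs which close a block -/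
theorem tB_arcs {D D' : Z3} {b : Blk} (hb : Pc D D' b) {q q' : List Dir}
    (hq' : PA D' q') (h : Eqp D q (cp D)) (h' : Eqp D' q' (cp D')) :
    Same (vl (Poly (back q) (Rw1 b q'))) (tB D D' b) := by
  have hp := pa_cp hb.h1 hb.ne.1
  have hp' := pa_cp hb.h0 hb.ne.2
  have h1 := h.2 _ (hb.ra hq'.ra)
  have h2 := ext_same hp.la hb hq'.ra
  have h3 := h'.1 _ (hb.la hp.la)
  have h4 := ext_same hp.la hb hp'.ra
  exact h1.trans (h2.trans (h3.trans h4.symm))

/-! ### commutation of the two parts of a canonical arc -/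

theorem comm_rep {v z : Dir} (hvz : perp v z) (hv : Lat v) (hz : Lat z) (s t : ℤ)
    (fv : 0 < fn s t (vec v)) (fz : 0 < fn s t (vec z)) (n : ℕ) {D : Z3} (hD0 : D ≠ 0) (k : ℕ) :
    ∀ j : ℕ, pos (List.replicate k v ++ (List.replicate n z ++ List.replicate j v)) = D →
      Eqp D (List.replicate k v ++ (List.replicate n z ++ List.replicate j v))
        (List.replicate n z ++ List.replicate (k + j) v) := by
  induction k with
  | zero =>
    intro j hD
    have e : List.replicate 0 v ++ (List.replicate n z ++ List.replicate j v) =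
        List.replicate n z ++ List.replicate (0 + j) v := by simp
    rw [e]
    exact Eqp.refl _ _
  | succ k ih =>
    intro j hD
    have e1 : List.replicate (k + 1) v ++ (List.replicate n z ++ List.replicate j v) =
        List.replicate k v ++ v :: (List.replicate n z ++ List.replicate j v) := by
      rw [List.replicate_succ']; simp
    have e2 : List.replicate n z ++ v :: List.replicate j v =
        List.replicate n z ++ List.replicate (j + 1) v := by
      rw [List.replicate_succ]
    have h1 := eqp_move (E := D) hvz (List.replicate k v) n (List.replicate j v) (by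
      intro i i' hi
      refine mono_pa s t _ ?_ ?_ hD0
      · intro a ha
        simp only [List.mem_append, List.mem_cons, List.mem_replicate] at ha
        rcases ha with ⟨-, rfl⟩ | ⟨-, rfl⟩ | rfl | ⟨-, rfl⟩ | ⟨-, rfl⟩
        · exact ⟨hv, fv⟩
        · exact ⟨hz, fz⟩
        · exact ⟨hv, fv⟩
        · exact ⟨hz, fz⟩
        · exact ⟨hv, fv⟩
      · rw [← hD, ← hi]
        simp only [pos_append, pos, pos_replicate]
        push_cast
        simp only [add_smul, one_smul]
        abel)
    have h2 := ih (j + 1) (by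
      rw [← hD]
      simp only [pos_append, pos_replicate]
      push_cast
      simp only [add_smul, one_smul]
      abel)
    rw [e1]
    rw [e2] at h1
    have e3 : k + (j + 1) = k + 1 + j := by ring
    rw [e3] at h2
    exact Eqp.trans h1 h2

theorem eqp_comm {D : Z3} (h : D.1 = 0) (hD : D ≠ 0) :
    Eqp D (yl D.2.1 ++ zl D.2.2) (cp D) := by
  have hp : pos (yl D.2.1 ++ zl D.2.2) = D := by
    rw [pos_append, pos_yl, pos_zl]
    ext <;> simp [h]
  have key : ∀ (v z : Dir) (k n : ℕ) (s t : ℤ), perp v z → Lat v → Lat z →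
      0 < fn s t (vec v) → 0 < fn s t (vec z) → yl D.2.1 = List.replicate k v →
      zl D.2.2 = List.replicate n z → Eqp D (yl D.2.1 ++ zl D.2.2) (cp D) := by
    intro v z k n s t h1 h2 h3 h4 h5 h6 h7
    have h8 := comm_rep h1 h2 h3 s t h4 h5 n (D := D) hD k 0 (by
      rw [h6, h7] at hp
      simpa using hp)
    unfold cp
    rw [h6, h7]
    simpa using h8
  by_cases hy : 0 ≤ D.2.1
  · by_cases hz : 0 ≤ D.2.2
    · exact key Dir.yp Dir.zp _ _ 1 1 (by decide) (by simp [Lat]) (by simp [Lat])
        (by simp [fn, vec]) (by simp [fn, vec]) (if_pos hy) (if_pos hz)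
    · exact key Dir.yp Dir.zm _ _ 1 (-1) (by decide) (by simp [Lat]) (by simp [Lat])
        (by simp [fn, vec]) (by simp [fn, vec]) (if_pos hy) (if_neg hz)
  · by_cases hz : 0 ≤ D.2.2
    · exact key Dir.ym Dir.zp _ _ (-1) 1 (by decide) (by simp [Lat]) (by simp [Lat])
        (by simp [fn, vec]) (by simp [fn, vec]) (if_neg hy) (if_pos hz)
    · exact key Dir.ym Dir.zm _ _ (-1) (-1) (by decide) (by simp [Lat]) (by simp [Lat])
        (by simp [fn, vec]) (by simp [fn, vec]) (if_neg hy) (if_neg hz)

theorem back_yl (a : ℤ) : back (yl a) = yl (-a) := by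
  have hrep : ∀ (n : ℕ) (d : Dir), back (List.replicate n d) = List.replicate n (neg d) := by
    intro n d; simp [back]
  unfold yl
  rcases lt_trichotomy a 0 with h | h | h
  · rw [if_neg (by omega), if_pos (by omega), hrep]; rfl
  · subst h; simp [back]
  · rw [if_pos (by omega), if_neg (by omega), hrep, neg_neg]; rfl

theorem back_zl (a : ℤ) : back (zl a) = zl (-a) := by
  have hrep : ∀ (n : ℕ) (d : Dir), back (List.replicate n d) = List.replicate n (neg d) := by
    intro n d; simp [back]
  unfold zl
  rcases lt_trichotomy a 0 with h | h | h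
  · rw [if_neg (by omega), if_pos (by omega), hrep]; rfl
  · subst h; simp [back]
  · rw [if_pos (by omega), if_neg (by omega), hrep, neg_neg]; rfl

theorem back_cp (D : Z3) : back (cp D) = yl (-D).2.1 ++ zl (-D).2.2 := by
  unfold cp
  rw [back_append, back_yl, back_zl]
  rfl

/-- the canonical arc backwards -/
theorem eqp_back {D : Z3} (h : D.1 = 0) (hD : D ≠ 0) : Eqp (-D) (back (cp D)) (cp (-D)) := by
  rw [back_cp]
  exact eqp_comm (by simp [h]) (neg_ne_zero.2 hD)

/-- reversed trivial polygons -/
theorem triv_back {w : List Dir} (hw : SAP w) (h : Same (vl w) sq) : Same (vl (back w)) sq := by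
  obtain ⟨-, h4⟩ := back_word S_rot_proof c_rev S_simple_proof hw
  have h5 := (c_rev _ _).2 h
  exact h4.trans (h5.trans c_sq.2.2.symm)

theorem PA.bk {D : Z3} {q : List Dir} (h : PA D q) : PA (-D) (back q) := by
  refine ⟨h.pla.back, h.la.nd, ?_, neg_ne_zero.2 h.ne⟩
  rw [h.la.en]

theorem rev_word (q q' : List Dir) (b : Blk) : back (Poly (back q) (Rw1 b q')) =
    (Poly q (Rw1 (back b.2, back b.1) (back q'))).rotate (q.length + 2) := by
  have e1 : Poly q (Rw1 (back b.2, back b.1) (back q')) =
      (Dir.xp :: (q ++ [Dir.xm])) ++ (back b.1 ++ Dir.xm :: (back q' ++ Dir.xp :: back b.2)) := by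
    simp [Poly, Rw1]
  have e2 : q.length + 2 = (Dir.xp :: (q ++ [Dir.xm])).length := by simp
  rw [e1, e2, List.rotate_append_length_eq]
  simp [Poly, Rw1, back_append, back_cons, back_back', neg]

/-- reversal of a trivial polygon composed of a block and two planar arcs -/
theorem triv_rev {q q' : List Dir} {b : Blk} (hW : SAP (Poly (back q) (Rw1 b q')))
    (h : Same (vl (Poly (back q) (Rw1 b q'))) sq) :
    Same (vl (Poly q (Rw1 (back b.2, back b.1) (back q')))) sq := by
  have h1 := triv_back hW h
  obtain ⟨hS, -⟩ := back_word S_rot_proof c_rev S_simple_proof hW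
  rw [rev_word] at h1 hS
  set W' := Poly q (Rw1 (back b.2, back b.1) (back q')) with hW'
  -- rotate back
  have h2 := (c_words _ hS).2.2 (W'.length - (q.length + 2))
  rw [List.rotate_rotate] at h2
  have hlen : q.length + 2 ≤ W'.length := by
    rw [hW']
    simp only [Poly, List.length_cons, List.length_append]
    omega
  have e : q.length + 2 + (W'.length - (q.length + 2)) = W'.length := by omega
  rw [e, List.rotate_length] at h2
  exact h2.2.symm.trans h1

/-- the step of the first strand -/
theorem tB_E' {D : Z3} (h0 : D.1 = 0) (hD : D ≠ 0) {v : Dir} (hv : Lat v)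
    (hD' : D + vec v ≠ 0) : Pc (D + vec v) D ([v], []) ∧ Same (tB (D + vec v) D ([v], [])) sq := by
  have h0' : (D + vec v).1 = 0 := by rw [Prod.fst_add, h0, hv.x]; rfl
  have p2 : Pc (D + vec v) D ([v], []) := by
    have hvx := hv.x
    have hv0 := vec_ne v
    have e : pv ([v], []) D = [vec v + D, vec v, 0] := by
      simp [pv, sh, path, pos]
    refine ⟨?_, ?_, ?_, h0, h0'⟩
    · rw [e]
      have hD2 : vec v + D ≠ 0 := by rw [add_comm]; exact hD'
      simp [hv0, hD, hD2]
    · intro p hp
      rw [e] at hp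
      simp only [List.mem_cons, List.not_mem_nil, or_false] at hp
      simp only [pos, Prod.fst_add, Prod.fst_zero, hvx]
      rcases hp with rfl | rfl | rfl
      · simp only [Prod.fst_add, hvx, h0]; omega
      · omega
      · simp
    · simp [pos]; abel
  refine ⟨p2, ?_⟩
  have hp := pa_cp h0 hD
  have hp' := pa_cp h0' hD'
  have hn0 : (-D).1 = 0 := by simp [h0]
  have hnD : -D ≠ 0 := neg_ne_zero.2 hD
  have hnD' : -D + vec (neg v) ≠ 0 := by
    rw [vec_neg]
    have : -D + -vec v = -(D + vec v) := by abel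
    rw [this]
    exact neg_ne_zero.2 hD'
  have e0 : -D + vec (neg v) = -(D + vec v) := by rw [vec_neg]; abel
  have pE := pc_E hn0 hnD hv.neg hnD'
  have tE := tB_E hn0 hnD hv.neg hnD'
  rw [e0] at pE tE
  have hq1 := eqp_back h0' hD'
  have hq2 := eqp_back h0 hD
  have t1 := tB_arcs pE hp.bk hq1 hq2
  have hS' : SAP (Poly (back (back (cp (D + vec v)))) (Rw1 ([], [neg v]) (back (cp D)))) :=
    sap_poly hp'.bk.la (pE.ra hp.bk.ra)
  have h3 := triv_rev hS' (t1.trans tE)
  have e2 : Rw1 (back [neg v], back []) (back (back (cp D))) = Rw1 ([v], []) (cp D) := by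
    rw [back_back']
    simp [back]
  simp only at h3
  rw [e2] at h3
  exact h3

/-- two blocks which move both strands by one step -/
theorem shift2 {D : Z3} (h0 : D.1 = 0) (hD : D ≠ 0) {v : Dir} (hv : Lat v)
    (hD' : D + vec v ≠ 0) : VC D [([], [neg v]), ([v], [])] D ∧
      nb D [([], [neg v]), ([v], [])] = 0 := by
  have h0' : (D + vec v).1 = 0 := by rw [Prod.fst_add, h0, hv.x]; rfl
  have e1 : D + vec v + vec (neg v) = D := by rw [vec_neg]; abel
  have p1 := pc_E h0' hD' hv.neg (by rw [e1]; exact hD)
  have t1 := tB_E h0' hD' hv.neg (by rw [e1]; exact hD)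
  rw [e1] at p1 t1
  have n1 : nxt D ([], [neg v]) = D + vec v := p1.nxt
  obtain ⟨p2, t2⟩ := tB_E' h0 hD hv hD'
  have n2 : nxt (D + vec v) ([v], []) = D := p2.nxt
  refine ⟨?_, ?_⟩
  · simp only [VC, n1, n2]
    exact ⟨p1, p2, trivial⟩
  · simp only [nb, n1, n2]
    rw [if_pos t1, if_pos t2]

end

end KN.ST
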