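import Pool.Agent.H132.LG.Chn

/-!
# Smoothing in the length by straight blocks
-/

set_option autoImplicit false

namespace KN.ST

open KN KN.KQ Finset
open scoped Classical ENNReal

noncomputable section

theorem cnt_append {α : Type} (s : α) (p q : List α) : cnt s (p ++ q) = cnt s p + cnt s q := by
  induction p with
  | nil =>
    simp [cnt]
  | cons a p ih =>
    rw [List.cons_append, cnt_cons, cnt_cons, ih]
    ring

theorem cnt_ln (bs : List Blk) : cnt S0 bs ≤ bs.length ∧
    3 * bs.length ≤ ln bs + cnt S0 bs := by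
  induction bs with
  | nil => simp [cnt]
  | cons b bs ih =>
    rw [cnt_cons, ln_cons, List.length_cons]
    by_cases hb : b = S0
    · have h0 : bl b = 0 := by
        rw [hb]
        rfl
      rw [if_pos hb, h0]
      omega
    · rw [if_neg hb]
      have : 1 ≤ bl b := by
        by_contra hn
        apply hb
        unfold bl at hn
        have h1 : b.1 = [] := List.length_eq_zero_iff.1 (by omega)
        have h2 : b.2 = [] := List.length_eq_zero_iff.1 (by omega)
        exact Prod.ext h1 h2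
      omega

theorem cp_ins {D E : Z3} (hD : St D) {p q : List Blk} :
    CP D E (p ++ S0 :: q) ↔ CP D E (p ++ q) := by
  have hI : (∀ b ∈ p ++ S0 :: q, Irr b) ↔ ∀ b ∈ p ++ q, Irr b := by
    constructor
    · intro h b hb
      refine h b ?_
      simp only [List.mem_append, List.mem_cons] at hb ⊢
      tauto
    · intro h b hb
      simp only [List.mem_append, List.mem_cons] at hb
      rcases hb with hb | rfl | hb
      · exact h b (List.mem_append_left _ hb)
      · exact irr_S0
      · exact h b (List.mem_append_right _ hb)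
  unfold CP
  rw [hI]
  constructor
  · rintro ⟨h1, h2, h3⟩
    obtain ⟨F, g1, g2⟩ := vc_append.1 h1
    simp only [VC, nxt_S0] at g2
    rw [nb_ins g1 g2.2 hD.1 hD.2] at h3
    exact ⟨vc_append.2 ⟨F, g1, g2.2⟩, h2, h3⟩
  · rintro ⟨h1, h2, h3⟩
    obtain ⟨F, g1, g2⟩ := vc_append.1 h1
    have g3 := vc_ne g1 hD.1 hD.2
    refine ⟨vc_append.2 ⟨F, g1, ?_⟩, h2, ?_⟩
    · simp only [VC, nxt_S0]
      exact ⟨pc_S g3.1 g3.2, g2⟩
    · rw [nb_ins g1 g2 hD.1 hD.2]
      exact h3

theorem wt_append (s q : ℝ≥0∞) (a b : List Blk) : wt s q (a ++ b) = wt s q a * wt s q b := by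
  simp [wt]

theorem wt_ins (s q : ℝ≥0∞) (p l : List Blk) : wt s q (p ++ S0 :: l) = q ^ 2 * wt s q (p ++ l) := by
  rw [wt_append, wt_cons, om_S0, wt_append]
  ring

/-- the data of the blocks that are not straight -/
def iv (l : List Blk) : ℕ × ℕ := (l.length - cnt S0 l, ln l - 2 * cnt S0 l)

theorem iv_ins (p q : List Blk) : iv (p ++ S0 :: q) = iv (p ++ q) := by
  have h1 : cnt S0 (p ++ S0 :: q) = cnt S0 (p ++ q) + 1 := by
    rw [cnt_append, cnt_append, cnt_cons, if_pos rfl]
    ring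
  have h2 : (p ++ S0 :: q).length = (p ++ q).length + 1 := by
    simp only [List.length_append, List.length_cons]
    ring
  unfold iv
  rw [h1, h2, ln_S]
  congr 1
  · omega
  · omega

/-- the sums with given data -/
def Wr (s q : ℝ≥0∞) (D E : Z3) (i : ℕ × ℕ) (j : ℕ) : ℝ≥0∞ :=
  ∑' bs : List Blk, if CP D E bs ∧ iv bs = i ∧ cnt S0 bs = j then wt s q bs else 0

theorem Wr_rec (s q : ℝ≥0∞) {D E : Z3} (hD : St D) (i : ℕ × ℕ) (j : ℕ) :
    ((j + 1 : ℕ) : ℝ≥0∞) * Wr s q D E i (j + 1) =
      q ^ 2 * ((j + i.1 + 1 : ℕ) : ℝ≥0∞) * Wr s q D E i j := by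
  have h1 := tsum_cnt S0 (fun bs : List Blk =>
    if CP D E bs ∧ iv bs = i ∧ cnt S0 bs = j + 1 then wt s q bs else 0)
  have h2 := tsum_append (fun bs : List Blk =>
    if CP D E bs ∧ iv bs = i ∧ cnt S0 bs = j then wt s q bs else 0)
  have e1 : ((j + 1 : ℕ) : ℝ≥0∞) * Wr s q D E i (j + 1) = ∑' l : List Blk, (cnt S0 l : ℝ≥0∞) *
      (if CP D E l ∧ iv l = i ∧ cnt S0 l = j + 1 then wt s q l else 0) := by
    unfold Wr
    rw [← ENNReal.tsum_mul_left]
    refine tsum_congr fun l => ?_
    by_cases h : CP D E l ∧ iv l = i ∧ cnt S0 l = j + 1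
    · rw [if_pos h, h.2.2]
    · rw [if_neg h, mul_zero, mul_zero]
  have e2 : ((j + i.1 + 1 : ℕ) : ℝ≥0∞) * Wr s q D E i j = ∑' l : List Blk,
      ((l.length + 1 : ℕ) : ℝ≥0∞) *
      (if CP D E l ∧ iv l = i ∧ cnt S0 l = j then wt s q l else 0) := by
    unfold Wr
    rw [← ENNReal.tsum_mul_left]
    refine tsum_congr fun l => ?_
    by_cases h : CP D E l ∧ iv l = i ∧ cnt S0 l = j
    · rw [if_pos h]
      have h3 := (cnt_ln l).1
      have h4 : l.length = j + i.1 := by
        rw [← h.2.1]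
        unfold iv
        simp only
        have := h.2.2
        omega
      rw [h4]
    · rw [if_neg h, mul_zero, mul_zero]
  rw [e1, ← h1, mul_assoc, e2, ← h2, ← ENNReal.tsum_mul_left]
  refine tsum_congr fun p => ?_
  have h3 : cnt S0 (p.1 ++ S0 :: p.2) = cnt S0 (p.1 ++ p.2) + 1 := by
    rw [cnt_append, cnt_append, cnt_cons, if_pos rfl]
    ring
  by_cases h : CP D E (p.1 ++ p.2) ∧ iv (p.1 ++ p.2) = i ∧ cnt S0 (p.1 ++ p.2) = j
  · rw [if_pos h, if_pos ⟨(cp_ins hD).2 h.1, by rw [iv_ins]; exact h.2.1, by rw [h3, h.2.2]⟩,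
      wt_ins]
  · rw [if_neg h, mul_zero, if_neg]
    rintro ⟨g1, g2, g3⟩
    exact h ⟨(cp_ins hD).1 g1, by rwa [iv_ins] at g2, by omega⟩

/-! ### sequences -/

theorem seq_up {v : ℕ → ℝ} {x r : ℝ} (hv : ∀ j, 0 ≤ v j) (hx : 0 ≤ x)
    (hrec : ∀ j : ℕ, ((j : ℝ) + 1) * v (j + 1) = x * (j + r + 1) * v j) {j : ℕ}
    (h : (j : ℝ) + 1 ≤ x * (j + r + 1)) (i : ℕ) :
    (2 * ((j : ℝ) + 1) - i * (i - 1)) * v j ≤ 2 * (j + 1) * v (j + i) := by
  induction i with
  | zero => simp
  | succ i ih =>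
    have hj : (0 : ℝ) ≤ j := Nat.cast_nonneg j
    have hi : (0 : ℝ) ≤ i := Nat.cast_nonneg i
    have h1 := hrec (j + i)
    push_cast at h1 ⊢
    have h2 : ((j : ℝ) + 1) * v (j + i) ≤ (j + i + 1) * v (j + i + 1) := by
      rw [h1]
      refine mul_le_mul_of_nonneg_right ?_ (hv _)
      nlinarith [mul_nonneg hx hi]
    have hpos : (0 : ℝ) < j + i + 1 := by linarith
    have h3 : (2 * ((j : ℝ) + 1) - (i + 1) * (i + 1 - 1)) * v j * (j + i + 1) ≤
        2 * (j + 1) * v (j + i + 1) * (j + i + 1) := by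
      calc (2 * ((j : ℝ) + 1) - (i + 1) * (i + 1 - 1)) * v j * (j + i + 1) ≤
            ((j : ℝ) + 1) * ((2 * ((j : ℝ) + 1) - i * (i - 1)) * v j) := by
            have e : ((j : ℝ) + 1) * ((2 * ((j : ℝ) + 1) - i * (i - 1)) * v j) -
                (2 * ((j : ℝ) + 1) - (i + 1) * (i + 1 - 1)) * v j * (j + i + 1) =
                (i ^ 3 + i ^ 2) * v j := by ring
            have : 0 ≤ ((i : ℝ) ^ 3 + i ^ 2) * v j := mul_nonneg (by positivity) (hv j)
            linarith
        _ ≤ ((j : ℝ) + 1) * (2 * (j + 1) * v (j + i)) :=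
            mul_le_mul_of_nonneg_left ih (by linarith)
        _ = 2 * (j + 1) * (((j : ℝ) + 1) * v (j + i)) := by ring
        _ ≤ 2 * (j + 1) * ((j + i + 1) * v (j + i + 1)) :=
            mul_le_mul_of_nonneg_left h2 (by linarith)
        _ = _ := by ring
    exact le_of_mul_le_mul_right h3 hpos

theorem seq_down {v : ℕ → ℝ} {x r : ℝ} (hv : ∀ j, 0 ≤ v j) (hx : 0 ≤ x)
    (hrec : ∀ j : ℕ, ((j : ℝ) + 1) * v (j + 1) = x * (j + r + 1) * v j) {j : ℕ}
    (h : x * (j + r + 1) ≤ (j : ℝ) + 1) (i : ℕ) (hij : i ≤ j) :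
    (2 * ((j : ℝ) + 1) - i * (i + 1)) * v j ≤ 2 * (j + 1) * v (j - i) := by
  induction i with
  | zero => simp
  | succ i ih =>
    have hj : (0 : ℝ) ≤ j := Nat.cast_nonneg j
    have hi : (0 : ℝ) ≤ i := Nat.cast_nonneg i
    have hij' : (i : ℝ) + 1 ≤ j := by exact_mod_cast hij
    have h1 := hrec (j - (i + 1))
    have e1 : j - (i + 1) + 1 = j - i := by omega
    have e2 : ((j - (i + 1) : ℕ) : ℝ) = j - (i + 1) := by
      rw [Nat.cast_sub hij]
      push_cast
      ring
    rw [e1, e2] at h1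
    have h2 : ((j : ℝ) - i) * v (j - i) ≤ (j + 1) * v (j - (i + 1)) := by
      have e3 : ((j : ℝ) - (i + 1) + 1) = j - i := by ring
      rw [e3] at h1
      rw [h1]
      refine mul_le_mul_of_nonneg_right ?_ (hv _)
      nlinarith [mul_nonneg hx hi]
    have h3 := ih (by omega)
    have hpos : (0 : ℝ) < j + 1 := by linarith
    push_cast
    have h4 : (2 * ((j : ℝ) + 1) - (i + 1) * (i + 1 + 1)) * v j * (j + 1) ≤
        2 * (j + 1) * v (j - (i + 1)) * (j + 1) := by
      calc (2 * ((j : ℝ) + 1) - (i + 1) * (i + 1 + 1)) * v j * (j + 1) ≤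
            ((j : ℝ) - i) * ((2 * ((j : ℝ) + 1) - i * (i + 1)) * v j) := by
            have e : ((j : ℝ) - i) * ((2 * ((j : ℝ) + 1) - i * (i + 1)) * v j) -
                (2 * ((j : ℝ) + 1) - (i + 1) * (i + 1 + 1)) * v j * (j + 1) =
                (i * (i + 1) ^ 2) * v j := by ring
            have : 0 ≤ ((i : ℝ) * (i + 1) ^ 2) * v j := mul_nonneg (by positivity) (hv j)
            linarith
        _ ≤ ((j : ℝ) - i) * (2 * (j + 1) * v (j - i)) :=
            mul_le_mul_of_nonneg_left h3 (by linarith)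
        _ = 2 * (j + 1) * (((j : ℝ) - i) * v (j - i)) := by ring
        _ ≤ 2 * (j + 1) * ((j + 1) * v (j - (i + 1))) :=
            mul_le_mul_of_nonneg_left h2 (by linarith)
        _ = _ := by ring
    exact le_of_mul_le_mul_right h4 hpos

theorem seq_smooth {v : ℕ → ℝ} {x r : ℝ} (hv : ∀ j, 0 ≤ v j) (hx : 0 ≤ x)
    (hrec : ∀ j : ℕ, ((j : ℝ) + 1) * v (j + 1) = x * (j + r + 1) * v j) {j I : ℕ}
    (hI : I * (I + 1) ≤ j + 1) (hIj : I ≤ j) :
    (I : ℝ) * v j ≤ 2 * ∑ i ∈ range (2 * I + 1), v (j - I + i) := by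
  have hIR : (I : ℝ) * (I + 1) ≤ j + 1 := by exact_mod_cast hI
  have hj : (0 : ℝ) ≤ j := Nat.cast_nonneg j
  rcases le_total ((j : ℝ) + 1) (x * (j + r + 1)) with h | h
  · have h1 : ∀ i ∈ range (I + 1), v j ≤ 2 * v (j + i) := by
      intro i hi
      have hi' : (i : ℝ) ≤ I := by
        have := mem_range.1 hi
        exact_mod_cast (by omega : i ≤ I)
      have hi0 : (0 : ℝ) ≤ i := Nat.cast_nonneg i
      have h2 := seq_up hv hx hrec h i
      have h3 : ((j : ℝ) + 1) * v j ≤ (j + 1) * (2 * v (j + i)) := by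
        refine le_trans ?_ (h2.trans (le_of_eq (by ring)))
        refine mul_le_mul_of_nonneg_right ?_ (hv j)
        nlinarith
      exact le_of_mul_le_mul_left h3 (by linarith)
    have h2 : ∑ i ∈ range (I + 1), v (j + i) ≤ ∑ i ∈ range (2 * I + 1), v (j - I + i) := by
      have e : ∑ i ∈ range (I + 1), v (j + i) =
          ∑ i ∈ (range (I + 1)).image (fun i => I + i), v (j - I + i) := by
        rw [sum_image (fun a _ b _ hab => by simpa using hab)]
        refine sum_congr rfl fun i _ => ?_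
        congr 1
        omega
      rw [e]
      refine sum_le_sum_of_subset_of_nonneg ?_ (fun i _ _ => hv _)
      intro i hi
      simp only [mem_image, mem_range] at hi ⊢
      omega
    calc (I : ℝ) * v j ≤ ((I + 1 : ℕ) : ℝ) * v j := by
          refine mul_le_mul_of_nonneg_right ?_ (hv j)
          push_cast
          linarith
      _ = ∑ i ∈ range (I + 1), v j := by simp
      _ ≤ ∑ i ∈ range (I + 1), 2 * v (j + i) := sum_le_sum h1
      _ = 2 * ∑ i ∈ range (I + 1), v (j + i) := by rw [mul_sum]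
      _ ≤ _ := mul_le_mul_of_nonneg_left h2 (by norm_num)
  · have h1 : ∀ i ∈ range (I + 1), v j ≤ 2 * v (j - i) := by
      intro i hi
      have hi1 : i ≤ I := by
        have := mem_range.1 hi
        omega
      have hi' : (i : ℝ) ≤ I := by exact_mod_cast hi1
      have hi0 : (0 : ℝ) ≤ i := Nat.cast_nonneg i
      have h2 := seq_down hv hx hrec h i (hi1.trans hIj)
      have h3 : ((j : ℝ) + 1) * v j ≤ (j + 1) * (2 * v (j - i)) := by
        refine le_trans ?_ (h2.trans (le_of_eq (by ring)))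
        refine mul_le_mul_of_nonneg_right ?_ (hv j)
        nlinarith
      exact le_of_mul_le_mul_left h3 (by linarith)
    have h2 : ∑ i ∈ range (I + 1), v (j - i) ≤ ∑ i ∈ range (2 * I + 1), v (j - I + i) := by
      have e : ∑ i ∈ range (I + 1), v (j - i) =
          ∑ i ∈ (range (I + 1)).image (fun i => I - i), v (j - I + i) := by
        rw [sum_image (fun a ha b hb hab => by
          have h7 : a < I + 1 := by simpa using ha
          have h8 : b < I + 1 := by simpa using hb
          have h9 : I - a = I - b := hab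
          omega)]
        refine sum_congr rfl fun i hi => ?_
        have := mem_range.1 hi
        congr 1
        omega
      rw [e]
      refine sum_le_sum_of_subset_of_nonneg ?_ (fun i _ _ => hv _)
      intro i hi
      simp only [mem_image, mem_range] at hi ⊢
      omega
    calc (I : ℝ) * v j ≤ ((I + 1 : ℕ) : ℝ) * v j := by
          refine mul_le_mul_of_nonneg_right ?_ (hv j)
          push_cast
          linarith
      _ = ∑ i ∈ range (I + 1), v j := by simp
      _ ≤ ∑ i ∈ range (I + 1), 2 * v (j - i) := sum_le_sum h1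
      _ = 2 * ∑ i ∈ range (I + 1), v (j - i) := by rw [mul_sum]
      _ ≤ _ := mul_le_mul_of_nonneg_left h2 (by norm_num)

end

end KN.ST
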