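import Pool.Agent.H132.LG.Smooth

/-!
# Smoothing of the numbers of chains
-/

set_option autoImplicit false

namespace KN.ST

open KN KN.KQ Finset
open scoped Classical ENNReal

noncomputable section

theorem seq_smooth' {v : ℕ → ℝ≥0∞} {x : ℝ≥0∞} {r : ℕ} (hv : ∀ j, v j ≠ ⊤)
    (hrec : ∀ j : ℕ, ((j + 1 : ℕ) : ℝ≥0∞) * v (j + 1) = x * ((j + r + 1 : ℕ) : ℝ≥0∞) * v j)
    {j I : ℕ} (hI : I * (I + 1) ≤ j + 1) (hIj : I ≤ j) :
    (I : ℝ≥0∞) * v j ≤ 2 * ∑ i ∈ range (2 * I + 1), v (j - I + i) := by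
  have h1 := seq_smooth (v := fun j => (v j).toReal) (x := x.toReal) (r := r)
    (fun j => ENNReal.toReal_nonneg) ENNReal.toReal_nonneg (fun j => by
      have := congrArg ENNReal.toReal (hrec j)
      rw [ENNReal.toReal_mul, ENNReal.toReal_mul, ENNReal.toReal_mul, ENNReal.toReal_natCast,
        ENNReal.toReal_natCast] at this
      push_cast at this
      exact this) hI hIj
  have hs : ∑ i ∈ range (2 * I + 1), v (j - I + i) ≠ ⊤ := ENNReal.sum_ne_top.2 fun i _ => hv _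
  have h2 : ((I : ℝ≥0∞) * v j).toReal ≤ (2 * ∑ i ∈ range (2 * I + 1), v (j - I + i)).toReal := by
    rw [ENNReal.toReal_mul, ENNReal.toReal_mul, ENNReal.toReal_natCast,
      ENNReal.toReal_sum (fun i _ => hv _)]
    exact h1
  exact (ENNReal.toReal_le_toReal (ENNReal.mul_ne_top (ENNReal.natCast_ne_top _) (hv j))
    (ENNReal.mul_ne_top (by simp) hs)).1 h2

/-- chains of length `n` with few straight blocks -/
def Rs (s q : ℝ≥0∞) (n : ℕ) (D E : Z3) : ℝ≥0∞ :=
  ∑' bs : List Blk, if CP D E bs ∧ ln bs = n ∧ 8 * cnt S0 bs < n then wt s q bs else 0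

theorem ln_iv (bs : List Blk) : ln bs = (iv bs).2 + 2 * cnt S0 bs := by
  have h1 := (cnt_ln bs).1
  have h2 := two_len bs
  unfold iv
  simp only
  omega

/-- the sum over the data -/
theorem sum_iv (f : List Blk → ℝ≥0∞) (n : ℕ) (P : ℕ → Prop) [DecidablePred P] :
    ∑' bs : List Blk, (if ln bs = n ∧ P (cnt S0 bs) then f bs else 0) =
      ∑' i : ℕ × ℕ, ∑' j : ℕ, if i.2 + 2 * j = n ∧ P j then
        ∑' bs : List Blk, (if iv bs = i ∧ cnt S0 bs = j then f bs else 0) else 0 := by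
  have h1 : ∀ i : ℕ × ℕ, ∀ j : ℕ, (if i.2 + 2 * j = n ∧ P j then
        ∑' bs : List Blk, (if iv bs = i ∧ cnt S0 bs = j then f bs else 0) else 0) =
      ∑' bs : List Blk, (if iv bs = i ∧ cnt S0 bs = j ∧ (i.2 + 2 * j = n ∧ P j)
        then f bs else 0) := by
    intro i j
    by_cases h : i.2 + 2 * j = n ∧ P j
    · simp [h]
    · simp [h]
  simp only [h1]
  have h2 : ∀ i : ℕ × ℕ, ∑' j : ℕ, ∑' bs : List Blk,
      (if iv bs = i ∧ cnt S0 bs = j ∧ (i.2 + 2 * j = n ∧ P j) then f bs else 0) =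
      ∑' bs : List Blk, (if iv bs = i ∧ (i.2 + 2 * cnt S0 bs = n ∧ P (cnt S0 bs))
        then f bs else 0) := by
    intro i
    rw [ENNReal.tsum_comm]
    refine tsum_congr fun bs => ?_
    rw [tsum_eq_single (cnt S0 bs)]
    · simp
    · intro j hj
      rw [if_neg]
      rintro ⟨-, h, -⟩
      exact hj h.symm
  simp only [h2]
  rw [ENNReal.tsum_comm]
  refine tsum_congr fun bs => ?_
  rw [tsum_eq_single (iv bs)]
  · rw [← ln_iv]
    simp
  · intro j hj
    rw [if_neg]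
    rintro ⟨h, -⟩
    exact hj h.symm

theorem Un_iv (s q : ℝ≥0∞) (n : ℕ) (D E : Z3) : Un s q n D E =
    ∑' i : ℕ × ℕ, ∑' j : ℕ, if i.2 + 2 * j = n then Wr s q D E i j else 0 := by
  have h := sum_iv (fun bs => if CP D E bs then wt s q bs else 0) n (fun _ => True)
  have e1 : Un s q n D E = ∑' bs : List Blk, (if ln bs = n ∧ True then
      (if CP D E bs then wt s q bs else 0) else 0) := by
    unfold Un
    refine tsum_congr fun bs => ?_
    by_cases h1 : CP D E bs
    · simp [h1]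
    · simp [h1]
  rw [e1, h]
  refine tsum_congr fun i => tsum_congr fun j => ?_
  simp only [and_true]
  by_cases h1 : i.2 + 2 * j = n
  · rw [if_pos h1, if_pos h1]
    unfold Wr
    refine tsum_congr fun bs => ?_
    by_cases h2 : CP D E bs
    · simp [h2]
    · simp [h2]
  · rw [if_neg h1, if_neg h1]

theorem Un_split (s q : ℝ≥0∞) (n : ℕ) (D E : Z3) : Un s q n D E = Rs s q n D E +
    ∑' i : ℕ × ℕ, ∑' j : ℕ, if i.2 + 2 * j = n ∧ n ≤ 8 * j then Wr s q D E i j else 0 := by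
  have h := sum_iv (fun bs => if CP D E bs then wt s q bs else 0) n (fun j => n ≤ 8 * j)
  have e1 : ∑' i : ℕ × ℕ, ∑' j : ℕ, (if i.2 + 2 * j = n ∧ n ≤ 8 * j then Wr s q D E i j else 0) =
      ∑' bs : List Blk, (if CP D E bs ∧ ln bs = n ∧ n ≤ 8 * cnt S0 bs then wt s q bs else 0) := by
    have e2 : ∑' bs : List Blk, (if CP D E bs ∧ ln bs = n ∧ n ≤ 8 * cnt S0 bs then wt s q bs
        else 0) = ∑' bs : List Blk, (if ln bs = n ∧ n ≤ 8 * cnt S0 bs then
      (if CP D E bs then wt s q bs else 0) else 0) := by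
      refine tsum_congr fun bs => ?_
      by_cases h1 : CP D E bs
      · simp [h1]
      · simp [h1]
    rw [e2, h]
    refine tsum_congr fun i => tsum_congr fun j => ?_
    by_cases h1 : i.2 + 2 * j = n ∧ n ≤ 8 * j
    · rw [if_pos h1, if_pos h1]
      unfold Wr
      refine tsum_congr fun bs => ?_
      by_cases h2 : CP D E bs
      · simp [h2]
      · simp [h2]
    · rw [if_neg h1, if_neg h1]
  rw [e1]
  unfold Un Rs
  rw [← ENNReal.tsum_add]
  refine tsum_congr fun bs => ?_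
  by_cases h1 : CP D E bs ∧ ln bs = n
  · rw [if_pos h1]
    by_cases h2 : 8 * cnt S0 bs < n
    · rw [if_pos ⟨h1.1, h1.2, h2⟩, if_neg (fun h => by omega), add_zero]
    · rw [if_neg (fun h => h2 h.2.2), if_pos ⟨h1.1, h1.2, by omega⟩, zero_add]
  · rw [if_neg h1, if_neg (fun h => h1 ⟨h.1, h.2.1⟩), if_neg (fun h => h1 ⟨h.1, h.2.1⟩), add_zero]

/-- the finiteness of the sum over all chains -/
def Fin' (s q : ℝ≥0∞) (D E : Z3) : Prop := ∑' bs : List Blk, (if CP D E bs then wt s q bs else 0) ≠ ⊤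

theorem Wr_top {s q : ℝ≥0∞} {D E : Z3} (h : Fin' s q D E) (i : ℕ × ℕ) (j : ℕ) :
    Wr s q D E i j ≠ ⊤ := by
  refine ne_top_of_le_ne_top h (ENNReal.tsum_le_tsum fun bs => ?_)
  by_cases h1 : CP D E bs
  · rw [if_pos h1]
    split_ifs <;> simp
  · simp [h1]

theorem Un_top {s q : ℝ≥0∞} {D E : Z3} (h : Fin' s q D E) (n : ℕ) : Un s q n D E ≠ ⊤ := by
  refine ne_top_of_le_ne_top h (ENNReal.tsum_le_tsum fun bs => ?_)
  by_cases h1 : CP D E bs
  · rw [if_pos h1]
    split_ifs <;> simp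
  · simp [h1]

theorem Cr.fin {s q : ℝ≥0∞} (h : Cr s q) {D E : Z3} (hD : St D) (hE : St E) : Fin' s q D E := by
  unfold Fin'
  have h1 : ∑' bs : List Blk, (if CP D E bs then wt s q bs else 0) =
      ∑' m : ℕ, pw (Kr s q) m D E := by
    simp only [← chain_pw]
    rw [ENNReal.tsum_comm]
    refine tsum_congr fun bs => ?_
    by_cases h1 : CP D E bs
    · simp only [h1, true_and, if_true]
      rw [tsum_eq_single bs.length]
      · simp
      · intro n hn
        rw [if_neg (fun h => hn h.symm)]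
    · simp [h1]
  rw [h1]
  intro ht
  have h2 := h.green hD E
  rw [ht, ENNReal.top_mul] at h2
  · exact absurd h2 (by simp)
  · refine mul_ne_zero ?_ ?_
    · unfold r2
      have := rr_pos hE.1 hE.2
      simp only [ne_eq, ENNReal.ofReal_eq_zero, not_le]
      positivity
    · rw [div_eq_mul_inv]
      exact mul_ne_zero (pow_ne_zero _ h.h0) (by simp)

/-- smoothing -/
theorem Un_smooth {s q : ℝ≥0∞} {D E : Z3} (hD : St D) (hf : Fin' s q D E) {n I : ℕ}
    (hI : 16 * I ^ 2 ≤ n) : (I : ℝ≥0∞) * Un s q n D E ≤ I * Rs s q n D E +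
      2 * ∑ l ∈ range (2 * I + 1), Un s q (n - 2 * I + 2 * l) D E := by
  rw [Un_split, mul_add]
  refine add_le_add_right ?_ _
  rw [← ENNReal.tsum_mul_left]
  have h1 : ∀ i : ℕ × ℕ, (I : ℝ≥0∞) * ∑' j : ℕ, (if i.2 + 2 * j = n ∧ n ≤ 8 * j then
      Wr s q D E i j else 0) ≤ 2 * ∑ l ∈ range (2 * I + 1),
        ∑' j : ℕ, (if i.2 + 2 * j = n - 2 * I + 2 * l then Wr s q D E i j else 0) := by
    intro i
    by_cases hex : ∃ j : ℕ, i.2 + 2 * j = n ∧ n ≤ 8 * j
    · obtain ⟨j, hj⟩ := hex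
      have e1 : ∑' j : ℕ, (if i.2 + 2 * j = n ∧ n ≤ 8 * j then
          Wr s q D E i j else 0) = Wr s q D E i j := by
        rw [tsum_eq_single j, if_pos hj]
        intro j' hj'
        rw [if_neg]
        rintro ⟨h, -⟩
        omega
      rw [e1]
      have hI2 : I ≤ I ^ 2 := by nlinarith
      have hIj : I ≤ j := by omega
      have hII : I * (I + 1) ≤ j + 1 := by nlinarith
      refine (seq_smooth' (v := Wr s q D E i) (Wr_top hf i)
        (Wr_rec s q hD i) hII hIj).trans ?_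
      refine mul_le_mul_right (sum_le_sum fun l hl => ?_) _
      refine le_trans (le_of_eq ?_) (ENNReal.le_tsum (j - I + l))
      rw [if_pos]
      omega
    · refine le_trans (le_of_eq ?_) zero_le
      have : ∀ j : ℕ, (if i.2 + 2 * j = n ∧ n ≤ 8 * j then Wr s q D E i j else 0) = 0 :=
        fun j => if_neg (fun h => hex ⟨j, h⟩)
      simp [this]
  refine (ENNReal.tsum_le_tsum h1).trans (le_of_eq ?_)
  rw [ENNReal.tsum_mul_left]
  congr 1
  rw [Summable.tsum_finsetSum (fun _ _ => ENNReal.summable)]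
  refine sum_congr rfl fun l _ => ?_
  rw [Un_iv]

end

end KN.ST
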