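import Pool.Agent.H132.LG.Sup

/-!
# The logarithmic subsolution and the second moment
-/

set_option autoImplicit false

namespace KN.ST

open KN KN.KQ Finset
open scoped Classical ENNReal

noncomputable section

/-- the constant -/
def AA : ℝ := 10

def gr (D : Z3) : ℝ := Real.log (rr D) + 1 / rr D - AA

def gg (D : Z3) : ℝ≥0∞ := ENNReal.ofReal (gr D)

theorem gg_zero : gg 0 = 0 := by
  unfold gg gr AA
  rw [rr_zero]
  simp

theorem rr_big {D : Z3} (h0 : D.1 = 0) (hD : D ≠ 0) (h : 0 < gr D) : 100 < rr D := by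
  by_contra hn
  push Not at hn
  have h1 := rr_pos h0 hD
  have h2 := inv_rr h0 hD
  unfold gr AA at h
  have h3 : Real.log (rr D) ≤ Real.log 100 := Real.log_le_log h1 hn
  have h4 : Real.log 100 ≤ 9 := by
    have e : (100 : ℝ) = 10 ^ 2 := by norm_num
    rw [e, Real.log_pow]
    have h5 : Real.log 10 ≤ 4 := by
      rw [Real.log_le_iff_le_exp (by norm_num)]
      have h6 : (4 : ℝ) ^ 4 / 24 ≤ Real.exp 4 := by
        have := Real.pow_div_factorial_le_exp (x := 4) (by norm_num) 4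
        simpa [Nat.factorial] using this
      linarith
    push_cast
    linarith
  linarith

/-- the orbit inequality for the logarithm -/
theorem gr_orbit {D v : Z3} (hD : 0 < rr D) (h : rr v ≤ rr D / 2) :
    4 * gr D ≤ gr (D - v) + gr (D - WRD.RX v) + gr (D - WRD.RX (WRD.RX v)) +
      gr (D - WRD.RX (WRD.RX (WRD.RX v))) + 4 * (rr v ^ 2 / rr D ^ 2) := by
  have hn := rr_nonneg v
  have h1 : rr v < rr D := by linarith
  have k1 := inv4 hD hn h1 (ss_tt D v)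
  have k2 := log4 hD hn h1 (ss_tt D v)
  have h2 : rr v ^ 2 / rr D ^ 2 ≤ 1 / 2 := by
    rw [div_le_iff₀ (by positivity)]
    nlinarith
  have k3 := log_lb (by positivity) h2
  have h3 : 0 ≤ 4 * rr v * (rr D - rr v) / (rr D * (rr D ^ 2 + rr v ^ 2)) := by
    have : 0 < rr D - rr v := by linarith
    positivity
  unfold gr
  rw [rr0, rr1, rr2, rr3]
  have e : 4 * (Real.log (rr D) + 1 / rr D - AA) = 4 * Real.log (rr D) + 4 / rr D - 4 * AA := by
    ring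
  rw [e]
  linarith

/-- the orbit inequality for unit steps -/
theorem gr_unit {D : Z3} (hD : 100 < rr D) :
    4 * gr D + 1 / rr D ^ 2 ≤ gr (D - vec .yp) + gr (D - WRD.RX (vec .yp)) +
      gr (D - WRD.RX (WRD.RX (vec .yp))) + gr (D - WRD.RX (WRD.RX (WRD.RX (vec .yp)))) := by
  have hp : 0 < rr D := by linarith
  have hv := rr_yp
  have h1 : rr (vec .yp) < rr D := by rw [hv]; linarith
  have k1 := inv4 hp (rr_nonneg _) h1 (ss_tt D (vec .yp))
  have k2 := log4 hp (rr_nonneg _) h1 (ss_tt D (vec .yp))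
  rw [hv] at k1 k2
  have h2 : (1 : ℝ) ^ 2 / rr D ^ 2 ≤ 1 / 2 := by
    rw [div_le_iff₀ (by positivity)]
    nlinarith
  have h3 : -(1.1 / rr D ^ 2) ≤ Real.log (1 - 1 ^ 2 / rr D ^ 2) := by
    have hx : 0 < 1 - (1 : ℝ) ^ 2 / rr D ^ 2 := by linarith
    refine le_trans ?_ (Real.one_sub_inv_le_log_of_pos hx)
    set ρ := rr D with hρ
    have e : (1 - (1 : ℝ) ^ 2 / ρ ^ 2) = (ρ ^ 2 - 1) / ρ ^ 2 := by field_simp
    have hq : 0 < ρ ^ 2 - 1 := by nlinarith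
    rw [e, inv_div]
    have e2 : 1 - ρ ^ 2 / (ρ ^ 2 - 1) = -(1 / (ρ ^ 2 - 1)) := by
      field_simp
      ring
    rw [e2, neg_le_neg_iff, div_le_div_iff₀ hq (by positivity)]
    nlinarith
  have h4 : 3.9 / rr D ^ 2 ≤ 4 * 1 * (rr D - 1) / (rr D * (rr D ^ 2 + 1 ^ 2)) := by
    set ρ := rr D with hρ
    rw [div_le_div_iff₀ (by positivity) (by positivity)]
    nlinarith [mul_pos hp hp, mul_pos (mul_pos hp hp) hp]
  have h5 : 1 / rr D ^ 2 + 2.2 / rr D ^ 2 ≤ 3.9 / rr D ^ 2 := by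
    rw [← add_div]
    exact div_le_div_of_nonneg_right (by norm_num) (by positivity)
  unfold gr
  rw [rr0, rr1, rr2, rr3, hv]
  have e : 4 * (Real.log (rr D) + 1 / rr D - AA) = 4 * Real.log (rr D) + 4 / rr D - 4 * AA := by
    ring
  rw [e]
  have e2 : 2 * (-(1.1 / rr D ^ 2)) = -(2.2 / rr D ^ 2) := by ring
  have h6 := mul_le_mul_of_nonneg_left h3 (by norm_num : (0 : ℝ) ≤ 2)
  rw [e2] at h6
  linarith

theorem ofReal_sum4 (a b c d : ℝ) : ENNReal.ofReal (a + b + c + d) ≤ ENNReal.ofReal a +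
    ENNReal.ofReal b + ENNReal.ofReal c + ENNReal.ofReal d :=
  (ENNReal.ofReal_add_le).trans (add_le_add_left ((ENNReal.ofReal_add_le).trans
    (add_le_add_left ENNReal.ofReal_add_le _)) _)

theorem gg_orbit {D v : Z3} (hD : 0 < rr D) (h : rr v ≤ rr D / 2) :
    4 * gg D ≤ gg (D - v) + gg (D - WRD.RX v) + gg (D - WRD.RX (WRD.RX v)) +
      gg (D - WRD.RX (WRD.RX (WRD.RX v))) + 4 * (ENNReal.ofReal (rr v ^ 2) * r2 D) := by
  have h1 := gr_orbit hD h
  unfold gg r2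
  rw [← ENNReal.ofReal_mul (by positivity), show (4 : ℝ≥0∞) = ENNReal.ofReal 4 by simp,
    ← ENNReal.ofReal_mul (by norm_num), ← ENNReal.ofReal_mul (by norm_num)]
  refine (ENNReal.ofReal_le_ofReal h1).trans (ENNReal.ofReal_add_le.trans ?_)
  refine add_le_add (ofReal_sum4 _ _ _ _) (ENNReal.ofReal_le_ofReal (le_of_eq ?_))
  ring

theorem gg_unit {D : Z3} (hD : 100 < rr D) (hg : 0 < gr D) :
    4 * gg D + r2 D ≤ ∑ v ∈ lat, gg (D - vec v) := by
  rw [sum_lat]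
  have h1 := gr_unit hD
  unfold gg r2
  rw [show (4 : ℝ≥0∞) = ENNReal.ofReal 4 by simp, ← ENNReal.ofReal_mul (by norm_num),
    ← ENNReal.ofReal_add (by positivity) (by positivity)]
  exact (ENNReal.ofReal_le_ofReal h1).trans (ofReal_sum4 _ _ _ _)

theorem rr_bl {b : Blk} (hb : Fr b) (hI : Irr b) : ENNReal.ofReal (rr (dv b) ^ 2) ≤
    ((4 * bl b + 10 : ℕ) : ℝ≥0∞) ^ 6 := by
  have h1 := rr_dv hb hI
  rw [← ENNReal.ofReal_natCast, ← ENNReal.ofReal_pow (by positivity)]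
  refine ENNReal.ofReal_le_ofReal ?_
  have h2 : (bl b : ℝ) ≤ ((4 * bl b + 10 : ℕ) : ℝ) := by exact_mod_cast (by omega)
  have h3 : (1 : ℝ) ≤ ((4 * bl b + 10 : ℕ) : ℝ) := by exact_mod_cast (by omega)
  calc rr (dv b) ^ 2 ≤ ((bl b : ℝ) ^ 2) ^ 2 := pow_le_pow_left₀ (rr_nonneg _) h1 2
    _ = (bl b : ℝ) ^ 4 := by ring
    _ ≤ ((4 * bl b + 10 : ℕ) : ℝ) ^ 4 := pow_le_pow_left₀ (by positivity) h2 4
    _ ≤ _ := pow_le_pow_right₀ h3 (by norm_num)

theorem gg_le {D : Z3} (hD : 100 < rr D) : gg D ≤ ((nl D : ℕ) : ℝ≥0∞) ^ 2 := by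
  unfold gg gr AA
  rw [← ENNReal.ofReal_natCast, ← ENNReal.ofReal_pow (by positivity)]
  refine ENNReal.ofReal_le_ofReal ?_
  have h1 := rr_le_nl D
  have h2 := Real.log_le_sub_one_of_pos (by linarith : 0 < rr D)
  have h3 : 1 / rr D ≤ 1 := by
    rw [div_le_one (by linarith)]
    linarith
  linarith

/-- the truncated logarithm is a subsolution -/
theorem sub_gg {s q : ℝ≥0∞} (hs : s ≤ 1 / 10 ^ 12) (hq : q ≤ 2) (hq' : 7 / 10 ≤ q) {D : Z3}
    (h0 : D.1 = 0) (hD : D ≠ 0) : Ms s q * gg D ≤ ∑' E : Z3, Kr s q D E * gg E := by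
  by_cases hg : 0 < gr D
  swap
  · have : gg D = 0 := ENNReal.ofReal_eq_zero.2 (not_lt.1 hg)
    rw [this, mul_zero]
    exact zero_le
  have hr := rr_big h0 hD hg
  rw [Kr_split s q h0 hD gg gg_zero, Ms_eq]
  set F := ∑' b : Blk, (if B2 b ∧ Sb b ∧ 4 * bl b + 10 ≤ nl D then
      om s q b * gg (D - dv b) else 0) with hF
  have h1 : F ≤ ∑' b : Blk, (if B2 b ∧ TD D (nxt D b) b then
      om s q b * gg (nxt D b) else 0) := by
    refine ENNReal.tsum_le_tsum fun b => ?_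
    by_cases h : B2 b ∧ Sb b ∧ 4 * bl b + 10 ≤ nl D
    · rw [if_pos h, if_pos ⟨h.1, (td_far h0 (by omega)).2 h.2.1⟩, nxt_dv]
    · rw [if_neg h]
      exact zero_le
  -- the far blocks
  have h2 : ∑' b : Blk, (if B2 b ∧ Sb b ∧ 4 * bl b + 10 ≤ nl D then om s q b * gg D else 0) ≤
      F + r2 D * (s ^ 4 / 40) := by
    refine four_le ?_
    rw [mul_add]
    have ho := orbit s q (P := fun b => B2 b ∧ Sb b ∧ 4 * bl b + 10 ≤ nl D) (far_rb D)
      (fun v => gg (D - v))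
    have hb := big_sum hs hq
    have hb2 : ∑' b : Blk, (if B2 b ∧ Sb b ∧ 4 * bl b + 10 ≤ nl D then
        om s q b * (4 * (ENNReal.ofReal (rr (dv b) ^ 2) * r2 D)) else 0) ≤
        4 * (r2 D * (s ^ 4 / 40)) := by
      calc _ ≤ ∑' b : Blk, 4 * (r2 D * (if B2 b then
            om s q b * ((4 * bl b + 10 : ℕ) : ℝ≥0∞) ^ 6 else 0)) := by
            refine ENNReal.tsum_le_tsum fun b => ?_
            by_cases h : B2 b ∧ Sb b ∧ 4 * bl b + 10 ≤ nl D
            · rw [if_pos h, if_pos h.1]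
              calc _ ≤ om s q b * (4 * (((4 * bl b + 10 : ℕ) : ℝ≥0∞) ^ 6 * r2 D)) := by
                    gcongr
                    exact rr_bl h.2.1.1 h.2.1.2.1
                _ = _ := by ring
            · rw [if_neg h]
              exact zero_le
        _ = 4 * (r2 D * ∑' b : Blk, (if B2 b then
            om s q b * ((4 * bl b + 10 : ℕ) : ℝ≥0∞) ^ 6 else 0)) := by
            rw [ENNReal.tsum_mul_left, ENNReal.tsum_mul_left]
        _ ≤ _ := by gcongr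
    refine le_trans ?_ (add_le_add (le_of_eq ho.symm) hb2)
    rw [← ENNReal.tsum_mul_left, ← ENNReal.tsum_add]
    refine ENNReal.tsum_le_tsum fun b => ?_
    by_cases h : B2 b ∧ Sb b ∧ 4 * bl b + 10 ≤ nl D
    · rw [if_pos h, if_pos h, if_pos h, ← mul_add]
      have h3 : rr (dv b) ≤ rr D / 2 := by
        have g1 := rr_dv h.2.1.1 h.2.1.2.1
        have g2 := rr_far h.2.2
        nlinarith [sq_nonneg (bl b : ℝ)]
      calc 4 * (om s q b * gg D) = om s q b * (4 * gg D) := by ring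
        _ ≤ _ := mul_le_mul_right (gg_orbit (by linarith) h3) _
    · rw [if_neg h, mul_zero]
      exact zero_le
  -- the near blocks
  have h3 : Mr s q * gg D ≤ F + r2 D * (s ^ 4 / 40) + r2 D * (s ^ 4 / 40) := by
    have h4 : Mr s q * gg D ≤ ∑' b : Blk, (if B2 b ∧ Sb b ∧ 4 * bl b + 10 ≤ nl D then
        om s q b * gg D else 0) + ((nl D : ℕ) : ℝ≥0∞) ^ 2 *
        ∑' b : Blk, (if B2 b ∧ nl D < 4 * bl b + 10 then om s q b else 0) := by
      unfold Mr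
      rw [← ENNReal.tsum_mul_right, ← ENNReal.tsum_mul_left, ← ENNReal.tsum_add]
      refine ENNReal.tsum_le_tsum fun b => ?_
      by_cases h : B2 b ∧ Sb b
      · rw [if_pos h]
        by_cases hf : 4 * bl b + 10 ≤ nl D
        · rw [if_pos ⟨h.1, h.2, hf⟩]
          exact le_self_add
        · rw [if_pos (c := B2 b ∧ nl D < 4 * bl b + 10) ⟨h.1, by omega⟩, mul_comm]
          exact (mul_le_mul_left (gg_le hr) _).trans le_add_self
      · rw [if_neg h, zero_mul]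
        exact zero_le
    exact h4.trans (add_le_add h2 (near2 hs hq h0 hD))
  have h5 : r2 D * (s ^ 4 / 40) + r2 D * (s ^ 4 / 40) ≤ 2 * q ^ 3 * s ^ 4 * r2 D := by
    have e : (40 : ℝ≥0∞)⁻¹ + 40⁻¹ ≤ 2 * q ^ 3 := by
      have h40 : (40 : ℝ≥0∞)⁻¹ ≤ 1 / 4 := by
        rw [one_div]
        exact ENNReal.inv_le_inv.2 (by norm_num)
      calc (40 : ℝ≥0∞)⁻¹ + 40⁻¹ ≤ 1 / 4 + 1 / 4 := add_le_add h40 h40
        _ = 2 * (1 / 4) := by ring
        _ ≤ _ := mul_le_mul_right (q3 hq') _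
    calc r2 D * (s ^ 4 / 40) + r2 D * (s ^ 4 / 40) = (40⁻¹ + 40⁻¹) * (s ^ 4 * r2 D) := by
          simp only [div_eq_mul_inv]; ring
      _ ≤ 2 * q ^ 3 * (s ^ 4 * r2 D) := mul_le_mul_left e _
      _ = _ := by ring
  calc (q ^ 2 + 8 * q ^ 3 * s ^ 4 + Mr s q) * gg D = q ^ 2 * gg D + 8 * q ^ 3 * s ^ 4 * gg D +
        Mr s q * gg D := by ring
    _ ≤ q ^ 2 * gg D + 8 * q ^ 3 * s ^ 4 * gg D + (F + r2 D * (s ^ 4 / 40) +
        r2 D * (s ^ 4 / 40)) := by gcongr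
    _ = q ^ 2 * gg D + 8 * q ^ 3 * s ^ 4 * gg D + F + (r2 D * (s ^ 4 / 40) +
        r2 D * (s ^ 4 / 40)) := by ring
    _ ≤ q ^ 2 * gg D + 8 * q ^ 3 * s ^ 4 * gg D + F + 2 * q ^ 3 * s ^ 4 * r2 D := by gcongr
    _ = q ^ 2 * gg D + 2 * q ^ 3 * s ^ 4 * (4 * gg D + r2 D) + F := by ring
    _ ≤ _ := by
      gcongr
      exact gg_unit hr hg

/-! ### the second moment -/

def qq (D : Z3) : ℝ≥0∞ := ENNReal.ofReal (rr D)

theorem qq_zero : qq 0 = 0 := by unfold qq; rw [rr_zero]; simp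

theorem qq_orbit (D v : Z3) : qq (D - v) + qq (D - WRD.RX v) + qq (D - WRD.RX (WRD.RX v)) +
    qq (D - WRD.RX (WRD.RX (WRD.RX v))) = 4 * (qq D + qq v) := by
  unfold qq
  rw [ofReal4 (rr_nonneg _) (rr_nonneg _) (rr_nonneg _) (rr_nonneg _),
    ← ENNReal.ofReal_add (rr_nonneg _) (rr_nonneg _), show (4 : ℝ≥0∞) = ENNReal.ofReal 4 by simp,
    ← ENNReal.ofReal_mul (by norm_num), rr0, rr1, rr2, rr3]
  congr 1
  ring

theorem qq_unit (D : Z3) : ∑ v ∈ lat, qq (D - vec v) = 4 * (qq D + 1) := by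
  rw [sum_lat, qq_orbit]
  congr 2
  unfold qq
  rw [rr_yp, ENNReal.ofReal_one]

theorem qq_nl (D : Z3) : qq D ≤ ((nl D : ℕ) : ℝ≥0∞) ^ 2 := by
  unfold qq
  rw [← ENNReal.ofReal_natCast, ← ENNReal.ofReal_pow (by positivity)]
  exact ENNReal.ofReal_le_ofReal (rr_le_nl D)

theorem nl_sub (p q : Z3) : nl (p - q) ≤ nl p + nl q := by
  rw [sub_eq_add_neg, ← nl_neg q]
  exact nl_add p (-q)

/-- the growth of the second moment -/
theorem mom_qq {s q : ℝ≥0∞} (hs : s ≤ 1 / 10 ^ 12) (hq : q ≤ 2) {D : Z3} (h0 : D.1 = 0)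
    (hD : D ≠ 0) : ∑' E : Z3, Kr s q D E * qq E ≤ Ms s q * qq D + 1 := by
  rw [Kr_split s q h0 hD qq qq_zero, Ms_eq, qq_unit]
  have h1 := B2_part (s := s) (q := q) h0 qq
  have hb := big_sum hs hq
  have h2 : ∑' b : Blk, (if B2 b ∧ Sb b ∧ 4 * bl b + 10 ≤ nl D then
      om s q b * qq (D - dv b) else 0) ≤ Mr s q * qq D + s ^ 4 / 40 := by
    refine four_le ?_
    refine (le_of_eq (orbit s q (P := fun b => B2 b ∧ Sb b ∧ 4 * bl b + 10 ≤ nl D) (far_rb D)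
      (fun v => qq (D - v)))).trans ?_
    refine le_trans ?_ (mul_le_mul_right (add_le_add_right hb _) 4)
    unfold Mr
    rw [← ENNReal.tsum_mul_right, ← ENNReal.tsum_add, ← ENNReal.tsum_mul_left]
    refine ENNReal.tsum_le_tsum fun b => ?_
    by_cases h : B2 b ∧ Sb b ∧ 4 * bl b + 10 ≤ nl D
    · rw [if_pos h, if_pos ⟨h.1, h.2.1⟩, if_pos h.1, qq_orbit]
      have h3 : qq (dv b) ≤ ((4 * bl b + 10 : ℕ) : ℝ≥0∞) ^ 6 := by
        have g1 := irr4' h.2.1.1 h.2.1.2.1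
        calc qq (dv b) ≤ ((nl (dv b) : ℕ) : ℝ≥0∞) ^ 2 := qq_nl _
          _ ≤ ((4 * bl b + 10 : ℕ) : ℝ≥0∞) ^ 2 := by
            refine pow_le_pow_left' ?_ 2
            exact_mod_cast (by omega)
          _ ≤ _ := pow_le_pow_right₀ (by exact_mod_cast (by omega)) (by norm_num)
      calc om s q b * (4 * (qq D + qq (dv b))) ≤ om s q b * (4 * (qq D +
            ((4 * bl b + 10 : ℕ) : ℝ≥0∞) ^ 6)) := by gcongr
        _ = _ := by ring
    · rw [if_neg h]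
      exact zero_le
  have h3 : ∑' b : Blk, (if (B2 b ∧ nl D < 4 * bl b + 10) ∧ TD D (nxt D b) b then
        om s q b * qq (nxt D b) else 0) ≤ s ^ 4 / 40 := by
    refine le_trans (ENNReal.tsum_le_tsum fun b => ?_) hb
    by_cases h : (B2 b ∧ nl D < 4 * bl b + 10) ∧ TD D (nxt D b) b
    · rw [if_pos h, if_pos h.1.1]
      refine mul_le_mul_right ?_ _
      have g1 := irr4' h.2.1.fr h.2.2.1
      have g2 := nl_sub D (dv b)
      rw [nxt_dv]
      calc qq (D - dv b) ≤ ((nl (D - dv b) : ℕ) : ℝ≥0∞) ^ 2 := qq_nl _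
        _ ≤ (((4 * bl b + 10) ^ 3 : ℕ) : ℝ≥0∞) ^ 2 := by
          refine pow_le_pow_left' ?_ 2
          have h5 : 4 * bl b + 10 + bl b ≤ (4 * bl b + 10) ^ 3 := by
            nlinarith [sq_nonneg (4 * bl b + 10), Nat.zero_le (bl b)]
          have h6 := h.1.2
          exact_mod_cast (by omega)
        _ = _ := by push_cast; ring
    · rw [if_neg h]
      exact zero_le
  have h4 := h1.trans (add_le_add h2 h3)
  have hs4 : s ^ 4 ≤ 1 / 10 ^ 12 := by
    have hs1 : s ≤ 1 := hs.trans (by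
      rw [one_div]
      exact ENNReal.inv_le_one.2 (one_le_pow₀ (by norm_num)))
    calc s ^ 4 ≤ s ^ 1 := pow_le_pow_right_of_le_one' hs1 (by norm_num)
      _ = s := pow_one _
      _ ≤ _ := hs
  have h5 : 8 * q ^ 3 * s ^ 4 + s ^ 4 / 40 + s ^ 4 / 40 ≤ 1 := by
    have hd : s ^ 4 / 40 ≤ s ^ 4 := by
      rw [div_eq_mul_inv]
      exact mul_le_of_le_one_right zero_le (ENNReal.inv_le_one.2 (by norm_num))
    calc 8 * q ^ 3 * s ^ 4 + s ^ 4 / 40 + s ^ 4 / 40 ≤ 8 * 2 ^ 3 * s ^ 4 + s ^ 4 + s ^ 4 := by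
          gcongr
      _ = 66 * s ^ 4 := by ring
      _ ≤ 66 * (1 / 10 ^ 12) := by gcongr
      _ ≤ 1 := by
        rw [← mul_div_assoc, mul_one, ENNReal.div_le_iff_le_mul (Or.inl (by norm_num))
          (Or.inl (by simp))]
        norm_num
  calc q ^ 2 * qq D + 2 * q ^ 3 * s ^ 4 * (4 * (qq D + 1)) +
        ∑' b : Blk, (if B2 b ∧ TD D (nxt D b) b then om s q b * qq (nxt D b) else 0) ≤
        q ^ 2 * qq D + 2 * q ^ 3 * s ^ 4 * (4 * (qq D + 1)) +
        (Mr s q * qq D + s ^ 4 / 40 + s ^ 4 / 40) := by gcongr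
    _ = (q ^ 2 + 8 * q ^ 3 * s ^ 4 + Mr s q) * qq D +
        (8 * q ^ 3 * s ^ 4 + s ^ 4 / 40 + s ^ 4 / 40) := by ring
    _ ≤ _ := by gcongr

end

end KN.ST
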