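import Pool.Agent.H132.LG.Geo

/-!
# The supersolution `3 - 1 / |D| ^ 2`
-/

set_option autoImplicit false

namespace KN.ST

open KN KN.KQ Finset
open scoped Classical ENNReal

noncomputable section

def hh (D : Z3) : ℝ≥0∞ := if D = 0 then 0 else ENNReal.ofReal (3 - 1 / rr D)

theorem hh_zero : hh 0 = 0 := if_pos rfl

theorem hh_ne {D : Z3} (hD : D ≠ 0) : hh D = ENNReal.ofReal (3 - 1 / rr D) := if_neg hD

theorem hh_le (D : Z3) : hh D ≤ 3 := by
  unfold hh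
  split_ifs
  · exact zero_le
  · rw [show (3 : ℝ≥0∞) = ENNReal.ofReal 3 by simp]
    refine ENNReal.ofReal_le_ofReal ?_
    have := rr_nonneg D
    have : 0 ≤ 1 / rr D := by positivity
    linarith

theorem inv_rr {D : Z3} (h0 : D.1 = 0) (hD : D ≠ 0) : 1 / rr D ≤ 1 := by
  rw [div_le_one (rr_pos h0 hD)]
  exact rr_one h0 hD

theorem hh_ge {D : Z3} (h0 : D.1 = 0) (hD : D ≠ 0) : 2 ≤ hh D := by
  rw [hh_ne hD, show (2 : ℝ≥0∞) = ENNReal.ofReal 2 by simp]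
  refine ENNReal.ofReal_le_ofReal ?_
  have := inv_rr h0 hD
  linarith

theorem sub_x {D v : Z3} (h0 : D.1 = 0) (hv : v.1 = 0) : (D - v).1 = 0 := by
  rw [Prod.fst_sub, h0, hv, sub_zero]

theorem ofReal4 {a b c d : ℝ} (ha : 0 ≤ a) (hb : 0 ≤ b) (hc : 0 ≤ c) (hd : 0 ≤ d) :
    ENNReal.ofReal a + ENNReal.ofReal b + ENNReal.ofReal c + ENNReal.ofReal d =
      ENNReal.ofReal (a + b + c + d) := by
  rw [← ENNReal.ofReal_add ha hb, ← ENNReal.ofReal_add (by positivity) hc,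
    ← ENNReal.ofReal_add (by positivity) hd]

theorem hh_orbit {D v : Z3} (h0 : D.1 = 0) (hv : v.1 = 0) (hD : D ≠ 0) (h : rr v < rr D) :
    hh (D - v) + hh (D - WRD.RX v) + hh (D - WRD.RX (WRD.RX v)) +
      hh (D - WRD.RX (WRD.RX (WRD.RX v))) +
      ENNReal.ofReal (4 * rr v * (rr D - rr v) / (rr D * (rr D ^ 2 + rr v ^ 2))) ≤ 4 * hh D := by
  have n0 : D - v ≠ 0 := ne_of_rr h
  have n1 : D - WRD.RX v ≠ 0 := ne_of_rr (by rwa [rr_RX])
  have n2 : D - WRD.RX (WRD.RX v) ≠ 0 := ne_of_rr (by rwa [rr_RX, rr_RX])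
  have n3 : D - WRD.RX (WRD.RX (WRD.RX v)) ≠ 0 := ne_of_rr (by rwa [rr_RX, rr_RX, rr_RX])
  have i0 := inv_rr (sub_x h0 hv) n0
  have i1 := inv_rr (sub_x (v := WRD.RX v) h0 hv) n1
  have i2 := inv_rr (sub_x (v := WRD.RX (WRD.RX v)) h0 hv) n2
  have i3 := inv_rr (sub_x (v := WRD.RX (WRD.RX (WRD.RX v))) h0 hv) n3
  have hp := rr_pos h0 hD
  have hn := rr_nonneg v
  have key := inv4 hp hn h (ss_tt D v)
  rw [hh_ne n0, hh_ne n1, hh_ne n2, hh_ne n3, hh_ne hD,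
    ofReal4 (by linarith) (by linarith) (by linarith) (by linarith),
    ← ENNReal.ofReal_add (by linarith) (by
      have : 0 < rr D - rr v := by linarith
      positivity),
    show (4 : ℝ≥0∞) = ENNReal.ofReal 4 by simp, ← ENNReal.ofReal_mul (by norm_num)]
  refine ENNReal.ofReal_le_ofReal ?_
  rw [rr0, rr1, rr2, rr3]
  have e : 4 * (3 - 1 / rr D) = 12 - 4 / rr D := by ring
  rw [e]
  linarith

theorem rr_two {D : Z3} (h : 1 < rr D) : 2 ≤ rr D := by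
  unfold rr at h ⊢
  have h1 : 1 < D.2.1 ^ 2 + D.2.2 ^ 2 := by exact_mod_cast h
  exact_mod_cast h1

theorem hh_val {a b : ℤ} (h : ¬ (a = 0 ∧ b = 0)) : hh (0, a, b) =
    ENNReal.ofReal (3 - 1 / ((a : ℝ) ^ 2 + (b : ℝ) ^ 2)) := by
  rw [hh_ne]
  · rfl
  · intro h'
    simp only [Prod.mk_eq_zero, true_and] at h'
    exact h h'

theorem hh_one {D : Z3} (h0 : D.1 = 0) (h : rr D = 1) :
    ∑ v ∈ lat, hh (D - vec v) + r2 D / 4 ≤ 4 * hh D := by
  have h1 : D.2.1 ^ 2 + D.2.2 ^ 2 = 1 := by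
    unfold rr at h
    exact_mod_cast h
  have e4 : (4 : ℝ≥0∞) = ENNReal.ofReal 4 := by simp
  have hr2 : r2 D / 4 = ENNReal.ofReal (1 / 4) := by
    unfold r2
    rw [h, e4, ← ENNReal.ofReal_div_of_pos (by norm_num)]
    norm_num
  rw [hr2]
  obtain ⟨x, a, b⟩ := D
  simp only at h0 h1
  subst h0
  have ha : a ^ 2 ≤ 1 := by nlinarith [sq_nonneg b]
  have hb : b ^ 2 ≤ 1 := by nlinarith [sq_nonneg a]
  have ha1 : -1 ≤ a ∧ a ≤ 1 := abs_le.1 (by nlinarith [abs_nonneg a, sq_abs a])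
  have hb1 : -1 ≤ b ∧ b ≤ 1 := abs_le.1 (by nlinarith [abs_nonneg b, sq_abs b])
  have key : ENNReal.ofReal (3 - 1 / 4) + (ENNReal.ofReal (3 - 1 / 2) +
      ENNReal.ofReal (3 - 1 / 2)) + ENNReal.ofReal (1 / 4) ≤ 4 * ENNReal.ofReal (3 - 1 / 1) := by
    rw [e4, ← ENNReal.ofReal_mul (by norm_num), ← ENNReal.ofReal_add (by norm_num) (by norm_num),
      ← ENNReal.ofReal_add (by norm_num) (by norm_num),
      ← ENNReal.ofReal_add (by norm_num) (by norm_num)]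
    exact ENNReal.ofReal_le_ofReal (by norm_num)
  have hcase : (a = 1 ∧ b = 0) ∨ (a = -1 ∧ b = 0) ∨ (a = 0 ∧ b = 1) ∨ (a = 0 ∧ b = -1) := by
    have c1 : a = -1 ∨ a = 0 ∨ a = 1 := by omega
    have c2 : b = -1 ∨ b = 0 ∨ b = 1 := by omega
    clear key hr2 h
    rcases c1 with rfl | rfl | rfl <;>
      rcases c2 with rfl | rfl | rfl <;> simp at h1 ⊢
  unfold lat
  rw [sum_insert (by decide), sum_insert (by decide), sum_insert (by decide), sum_singleton]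
  rcases hcase with ⟨rfl, rfl⟩ | ⟨rfl, rfl⟩ | ⟨rfl, rfl⟩ | ⟨rfl, rfl⟩
  · rw [show ((0 : ℤ), (1 : ℤ), (0 : ℤ)) - vec .yp = 0 by decide,
      show ((0 : ℤ), (1 : ℤ), (0 : ℤ)) - vec .ym = (0, 2, 0) by decide,
      show ((0 : ℤ), (1 : ℤ), (0 : ℤ)) - vec .zp = (0, 1, -1) by decide,
      show ((0 : ℤ), (1 : ℤ), (0 : ℤ)) - vec .zm = (0, 1, 1) by decide,
      hh_zero, hh_val (by norm_num), hh_val (by norm_num), hh_val (by norm_num),
      hh_val (by norm_num)]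
    refine le_trans (le_of_eq ?_) (key.trans (le_of_eq ?_))
    · norm_num
    · norm_num
  · rw [show ((0 : ℤ), (-1 : ℤ), (0 : ℤ)) - vec .yp = (0, -2, 0) by decide,
      show ((0 : ℤ), (-1 : ℤ), (0 : ℤ)) - vec .ym = 0 by decide,
      show ((0 : ℤ), (-1 : ℤ), (0 : ℤ)) - vec .zp = (0, -1, -1) by decide,
      show ((0 : ℤ), (-1 : ℤ), (0 : ℤ)) - vec .zm = (0, -1, 1) by decide,
      hh_zero, hh_val (by norm_num), hh_val (by norm_num), hh_val (by norm_num),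
      hh_val (by norm_num)]
    refine le_trans (le_of_eq ?_) (key.trans (le_of_eq ?_))
    · norm_num
    · norm_num
  · rw [show ((0 : ℤ), (0 : ℤ), (1 : ℤ)) - vec .yp = (0, -1, 1) by decide,
      show ((0 : ℤ), (0 : ℤ), (1 : ℤ)) - vec .ym = (0, 1, 1) by decide,
      show ((0 : ℤ), (0 : ℤ), (1 : ℤ)) - vec .zp = 0 by decide,
      show ((0 : ℤ), (0 : ℤ), (1 : ℤ)) - vec .zm = (0, 0, 2) by decide,
      hh_zero, hh_val (by norm_num), hh_val (by norm_num), hh_val (by norm_num),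
      hh_val (by norm_num)]
    refine le_trans (le_of_eq ?_) (key.trans (le_of_eq ?_))
    · norm_num
      ring
    · norm_num
  · rw [show ((0 : ℤ), (0 : ℤ), (-1 : ℤ)) - vec .yp = (0, -1, -1) by decide,
      show ((0 : ℤ), (0 : ℤ), (-1 : ℤ)) - vec .ym = (0, 1, -1) by decide,
      show ((0 : ℤ), (0 : ℤ), (-1 : ℤ)) - vec .zp = (0, 0, -2) by decide,
      show ((0 : ℤ), (0 : ℤ), (-1 : ℤ)) - vec .zm = 0 by decide,
      hh_zero, hh_val (by norm_num), hh_val (by norm_num), hh_val (by norm_num),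
      hh_val (by norm_num)]
    refine le_trans (le_of_eq ?_) (key.trans (le_of_eq ?_))
    · norm_num
      ring
    · norm_num

theorem hh_unit {D : Z3} (h0 : D.1 = 0) (hD : D ≠ 0) :
    ∑ v ∈ lat, hh (D - vec v) + r2 D / 4 ≤ 4 * hh D := by
  rcases (rr_one h0 hD).lt_or_eq with h | h
  · have h2 := rr_two h
    have h3 := hh_orbit (v := vec .yp) h0 rfl hD (by rw [rr_yp]; exact h)
    rw [sum_lat]
    refine le_trans (add_le_add_right ?_ _) h3
    rw [rr_yp]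
    unfold r2
    rw [show (4 : ℝ≥0∞) = ENNReal.ofReal 4 by simp, ← ENNReal.ofReal_div_of_pos (by norm_num)]
    refine ENNReal.ofReal_le_ofReal ?_
    set ρ := rr D with hρ
    have hp : 0 < ρ := by linarith
    rw [div_div, div_le_div_iff₀ (by positivity) (by positivity)]
    nlinarith [mul_pos hp hp, mul_pos (mul_pos hp hp) hp,
      mul_nonneg (mul_nonneg hp.le hp.le) (by linarith : (0 : ℝ) ≤ ρ - 2),
      mul_nonneg hp.le (by linarith : (0 : ℝ) ≤ ρ - 2)]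
  · exact hh_one h0 h.symm

/-- the contribution of the blocks that are not simple -/
theorem B2_part {s q : ℝ≥0∞} {D : Z3} (h0 : D.1 = 0) (φ : Z3 → ℝ≥0∞) :
    ∑' b : Blk, (if B2 b ∧ TD D (nxt D b) b then om s q b * φ (nxt D b) else 0) ≤
      ∑' b : Blk, (if B2 b ∧ Sb b ∧ 4 * bl b + 10 ≤ nl D then om s q b * φ (D - dv b) else 0) +
      ∑' b : Blk, (if (B2 b ∧ nl D < 4 * bl b + 10) ∧ TD D (nxt D b) b then
        om s q b * φ (nxt D b) else 0) := by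
  rw [← ENNReal.tsum_add]
  refine ENNReal.tsum_le_tsum fun b => ?_
  by_cases h : B2 b ∧ TD D (nxt D b) b
  · rw [if_pos h]
    by_cases hf : 4 * bl b + 10 ≤ nl D
    · rw [if_pos ⟨h.1, (td_far h0 (by omega)).1 h.2, hf⟩, nxt_dv]
      exact le_self_add
    · rw [if_pos (c := (B2 b ∧ nl D < 4 * bl b + 10) ∧ TD D (nxt D b) b)
        ⟨⟨h.1, by omega⟩, h.2⟩]
      exact le_add_self
  · rw [if_neg h]
    exact zero_le

/-- the far blocks are invariant -/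
theorem far_rb (D : Z3) (b : Blk) : (B2 (rb b) ∧ Sb (rb b) ∧ 4 * bl (rb b) + 10 ≤ nl D) ↔
    (B2 b ∧ Sb b ∧ 4 * bl b + 10 ≤ nl D) := by
  rw [B2_rb, Sb_rb, bl_rb]

theorem four_le {a b : ℝ≥0∞} (h : 4 * a ≤ 4 * b) : a ≤ b :=
  (ENNReal.mul_le_mul_iff_right (by norm_num) (by norm_num)).1 h

theorem q3 {q : ℝ≥0∞} (hq : 7 / 10 ≤ q) : 1 / 4 ≤ q ^ 3 := by
  refine le_trans ?_ (pow_le_pow_left' hq 3)
  have e7 : (7 / 10 : ℝ≥0∞) = ENNReal.ofReal (7 / 10) := by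
    rw [ENNReal.ofReal_div_of_pos (by norm_num)]
    simp
  have e4 : (1 / 4 : ℝ≥0∞) = ENNReal.ofReal (1 / 4) := by
    rw [ENNReal.ofReal_div_of_pos (by norm_num)]
    simp
  rw [e7, e4, ← ENNReal.ofReal_pow (by norm_num)]
  exact ENNReal.ofReal_le_ofReal (by norm_num)

/-- `3 - 1 / |D| ^ 2` is a supersolution -/
theorem super_hh {s q : ℝ≥0∞} (hs : s ≤ 1 / 10 ^ 12) (hq : q ≤ 2) (hq' : 7 / 10 ≤ q) {D : Z3}
    (h0 : D.1 = 0) (hD : D ≠ 0) :
    ∑' E : Z3, Kr s q D E * hh E + r2 D * (s ^ 4 / 20) ≤ Ms s q * hh D := by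
  rw [Kr_split s q h0 hD hh hh_zero, Ms_eq]
  have h1 := B2_part (s := s) (q := q) h0 hh
  set P3 := ∑' b : Blk, (if B2 b ∧ TD D (nxt D b) b then om s q b * hh (nxt D b) else 0) with hP3
  have h2 : ∑' b : Blk, (if B2 b ∧ Sb b ∧ 4 * bl b + 10 ≤ nl D then
      om s q b * hh (D - dv b) else 0) ≤ Mr s q * hh D := by
    refine four_le ?_
    refine (le_of_eq (orbit s q (P := fun b => B2 b ∧ Sb b ∧ 4 * bl b + 10 ≤ nl D) (far_rb D)
      (fun v => hh (D - v)))).trans ?_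
    unfold Mr
    rw [← ENNReal.tsum_mul_right, ← ENNReal.tsum_mul_left]
    refine ENNReal.tsum_le_tsum fun b => ?_
    by_cases h : B2 b ∧ Sb b ∧ 4 * bl b + 10 ≤ nl D
    · rw [if_pos h, if_pos ⟨h.1, h.2.1⟩]
      have h3 : rr (dv b) < rr D := by
        have g1 := rr_dv h.2.1.1 h.2.1.2.1
        have g2 := rr_far h.2.2
        nlinarith [sq_nonneg (bl b : ℝ)]
      have h4 := (le_self_add).trans (hh_orbit h0 (dv_x h.2.1.1) hD h3)
      calc _ ≤ om s q b * (4 * hh D) := mul_le_mul_right h4 _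
        _ = _ := by ring
    · rw [if_neg h]
      exact zero_le
  have h3 : ∑' b : Blk, (if (B2 b ∧ nl D < 4 * bl b + 10) ∧ TD D (nxt D b) b then
        om s q b * hh (nxt D b) else 0) ≤ 3 * (r2 D * (s ^ 4 / 40)) := by
    refine le_trans ?_ (mul_le_mul_right (near1 hs hq h0 hD) _)
    rw [← ENNReal.tsum_mul_left]
    refine ENNReal.tsum_le_tsum fun b => ?_
    by_cases h : (B2 b ∧ nl D < 4 * bl b + 10) ∧ TD D (nxt D b) b
    · rw [if_pos h, if_pos h.1, mul_comm 3]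
      exact mul_le_mul_right (hh_le _) _
    · rw [if_neg h]
      exact zero_le
  have h4 : P3 ≤ Mr s q * hh D + 3 * (r2 D * (s ^ 4 / 40)) := h1.trans (add_le_add h2 h3)
  have h5 : 3 * (r2 D * (s ^ 4 / 40)) + r2 D * (s ^ 4 / 20) = r2 D * s ^ 4 * (1 / 8) := by
    have e : (1 / 8 : ℝ≥0∞) = 3 / 40 + 1 / 20 := by
      have e1 : (1 / 8 : ℝ≥0∞) = ENNReal.ofReal (1 / 8) := by
        rw [ENNReal.ofReal_div_of_pos (by norm_num)]; simp
      have e2 : (3 / 40 : ℝ≥0∞) = ENNReal.ofReal (3 / 40) := by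
        rw [ENNReal.ofReal_div_of_pos (by norm_num)]; simp
      have e3 : (1 / 20 : ℝ≥0∞) = ENNReal.ofReal (1 / 20) := by
        rw [ENNReal.ofReal_div_of_pos (by norm_num)]; simp
      rw [e1, e2, e3, ← ENNReal.ofReal_add (by norm_num) (by norm_num)]
      norm_num
    rw [e]
    simp only [div_eq_mul_inv]
    ring
  have h6 : r2 D * s ^ 4 * (1 / 8) ≤ 2 * q ^ 3 * s ^ 4 * (r2 D / 4) := by
    have e : (1 / 8 : ℝ≥0∞) ≤ 2 * q ^ 3 / 4 := by
      calc (1 / 8 : ℝ≥0∞) = 2 * (1 / 4) / 4 := by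
            have e1 : (1 / 8 : ℝ≥0∞) = ENNReal.ofReal (1 / 8) := by
              rw [ENNReal.ofReal_div_of_pos (by norm_num)]; simp
            have e2 : (1 / 4 : ℝ≥0∞) = ENNReal.ofReal (1 / 4) := by
              rw [ENNReal.ofReal_div_of_pos (by norm_num)]; simp
            have e3 : (4 : ℝ≥0∞) = ENNReal.ofReal 4 := by simp
            have e4 : (2 : ℝ≥0∞) = ENNReal.ofReal 2 := by simp
            rw [e1, e2, e3, e4, ← ENNReal.ofReal_mul (by norm_num),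
              ← ENNReal.ofReal_div_of_pos (by norm_num)]
            norm_num
        _ ≤ _ := by
            gcongr
            exact q3 hq'
    calc r2 D * s ^ 4 * (1 / 8) ≤ r2 D * s ^ 4 * (2 * q ^ 3 / 4) := mul_le_mul_right e _
      _ = _ := by simp only [div_eq_mul_inv]; ring
  calc q ^ 2 * hh D + 2 * q ^ 3 * s ^ 4 * ∑ v ∈ lat, hh (D - vec v) + P3 + r2 D * (s ^ 4 / 20)
      ≤ q ^ 2 * hh D + 2 * q ^ 3 * s ^ 4 * ∑ v ∈ lat, hh (D - vec v) +
        (Mr s q * hh D + 3 * (r2 D * (s ^ 4 / 40))) + r2 D * (s ^ 4 / 20) := by gcongr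
    _ = q ^ 2 * hh D + Mr s q * hh D + (2 * q ^ 3 * s ^ 4 * ∑ v ∈ lat, hh (D - vec v) +
        (3 * (r2 D * (s ^ 4 / 40)) + r2 D * (s ^ 4 / 20))) := by ring
    _ ≤ q ^ 2 * hh D + Mr s q * hh D + (2 * q ^ 3 * s ^ 4 * ∑ v ∈ lat, hh (D - vec v) +
        2 * q ^ 3 * s ^ 4 * (r2 D / 4)) := by
        rw [h5]
        gcongr
    _ = q ^ 2 * hh D + Mr s q * hh D + 2 * q ^ 3 * s ^ 4 * (∑ v ∈ lat, hh (D - vec v) +
        r2 D / 4) := by ring
    _ ≤ q ^ 2 * hh D + Mr s q * hh D + 2 * q ^ 3 * s ^ 4 * (4 * hh D) :=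
        add_le_add_right (mul_le_mul_right (hh_unit h0 hD) _) _
    _ = _ := by ring

end

end KN.ST
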