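import Pool.Agent.H132.LG.Diag

/-!
# The survival and the return weights
-/

set_option autoImplicit false

namespace KN.ST

open KN KN.KQ Finset
open scoped Classical ENNReal

noncomputable section

variable {K : Z3 → Z3 → ℝ≥0∞} {κ : ℝ≥0∞}

/-- `log (n + 1)` -/
def lo (n : ℕ) : ℝ≥0∞ := ENNReal.ofReal (Real.log (n + 1))

theorem lo_mono {m n : ℕ} (h : m ≤ n) : lo m ≤ lo n := by
  unfold lo
  refine ENNReal.ofReal_le_ofReal (Real.log_le_log (by positivity) ?_)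
  have : (m : ℝ) ≤ n := by exact_mod_cast h
  linarith

theorem comb {T : ℕ} {a A B : ℝ≥0∞} (ha : a ≤ 2)
    (H : ∀ R : ℕ, 2 ≤ R → ∃ o i : ℝ≥0∞, a ≤ o + i ∧ ENNReal.ofReal (LR R) * o ≤ A ∧
      (T : ℝ≥0∞) * i ≤ B * (R : ℝ≥0∞) ^ 2) : a * lo T ≤ 6 + 4 * A + 4 * B := by
  by_cases hT : T < 16
  · have h1 : lo T ≤ 3 := by
      unfold lo
      rw [show (3 : ℝ≥0∞) = ENNReal.ofReal 3 by simp]
      refine ENNReal.ofReal_le_ofReal ?_
      have h2 : (T : ℝ) + 1 ≤ 16 := by exact_mod_cast hT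
      have h3 : Real.log (T + 1) ≤ Real.log 16 := Real.log_le_log (by positivity) h2
      have h4 : Real.log 16 = 4 * Real.log 2 := by
        rw [show (16 : ℝ) = 2 ^ 4 by norm_num, Real.log_pow]
        push_cast
        ring
      have := Real.log_two_lt_d9
      linarith
    calc a * lo T ≤ 2 * 3 := mul_le_mul' ha h1
      _ = 6 := by norm_num
      _ ≤ _ := by
        rw [add_assoc]
        exact le_self_add
  · push Not at hT
    obtain ⟨S, hS⟩ : ∃ S, S = Nat.sqrt T := ⟨_, rfl⟩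
    obtain ⟨R, hR⟩ : ∃ R, R = Nat.sqrt S := ⟨_, rfl⟩
    have h1 : S ^ 2 ≤ T := by rw [hS]; exact Nat.sqrt_le' T
    have h2 : T < (S + 1) ^ 2 := by rw [hS]; exact Nat.lt_succ_sqrt' T
    have h3 : R ^ 2 ≤ S := by rw [hR]; exact Nat.sqrt_le' S
    have h4 : S < (R + 1) ^ 2 := by rw [hR]; exact Nat.lt_succ_sqrt' S
    have hS4 : 4 ≤ S := by
      by_contra hn
      push Not at hn
      have : (S + 1) ^ 2 ≤ 4 ^ 2 := Nat.pow_le_pow_left (by omega) 2
      omega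
    have hR2 : 2 ≤ R := by
      by_contra hn
      push Not at hn
      have : (R + 1) ^ 2 ≤ 2 ^ 2 := Nat.pow_le_pow_left (by omega) 2
      omega
    have h5 : R ^ 4 ≤ T := by
      calc R ^ 4 = (R ^ 2) ^ 2 := by ring
        _ ≤ S ^ 2 := Nat.pow_le_pow_left h3 2
        _ ≤ T := h1
    have h6 : T + 1 ≤ (R + 1) ^ 4 := by
      calc T + 1 ≤ (S + 1) ^ 2 := h2
        _ ≤ ((R + 1) ^ 2) ^ 2 := Nat.pow_le_pow_left h4 2
        _ = _ := by ring
    obtain ⟨o, i, g1, g2, g3⟩ := H R hR2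
    have hRr : (2 : ℝ) ≤ R := by exact_mod_cast hR2
    have h7 : lo T ≤ 4 * ENNReal.ofReal (LR R) := by
      unfold lo LR
      rw [show (4 : ℝ≥0∞) = ENNReal.ofReal 4 by simp, ← ENNReal.ofReal_mul (by norm_num)]
      refine ENNReal.ofReal_le_ofReal ?_
      have h8 : ((T : ℝ) + 1) ≤ ((R : ℝ) ^ 2) ^ 4 := by
        have g4 : (T + 1 : ℝ) ≤ ((R : ℝ) + 1) ^ 4 := by exact_mod_cast h6
        refine g4.trans (pow_le_pow_left₀ (by positivity) ?_ 4)
        nlinarith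
      have h9 := Real.log_le_log (by positivity) h8
      rw [Real.log_pow] at h9
      push_cast at h9
      exact h9
    have h8 : ENNReal.ofReal (LR R) ≤ (R : ℝ≥0∞) ^ 2 := by
      unfold LR
      rw [← ENNReal.ofReal_natCast, ← ENNReal.ofReal_pow (by positivity)]
      refine ENNReal.ofReal_le_ofReal ?_
      have := Real.log_le_sub_one_of_pos (show 0 < (R : ℝ) ^ 2 by positivity)
      linarith
    have hR0 : ((R : ℝ≥0∞) ^ 4) ≠ 0 := by
      have : (R : ℝ≥0∞) ≠ 0 := by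
        rw [Nat.cast_ne_zero]
        omega
      exact pow_ne_zero _ this
    have hRt : ((R : ℝ≥0∞) ^ 4) ≠ ⊤ := ENNReal.pow_ne_top (ENNReal.natCast_ne_top _)
    have h9 : ENNReal.ofReal (LR R) * i ≤ B := by
      have k1 : (R : ℝ≥0∞) ^ 4 * i ≤ B * (R : ℝ≥0∞) ^ 2 := by
        refine le_trans (mul_le_mul_left ?_ _) g3
        exact_mod_cast h5
      have k2 : (R : ℝ≥0∞) ^ 4 * (ENNReal.ofReal (LR R) * i) ≤ (R : ℝ≥0∞) ^ 4 * B := by
        calc (R : ℝ≥0∞) ^ 4 * (ENNReal.ofReal (LR R) * i) =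
              ENNReal.ofReal (LR R) * ((R : ℝ≥0∞) ^ 4 * i) := by ring
          _ ≤ (R : ℝ≥0∞) ^ 2 * (B * (R : ℝ≥0∞) ^ 2) := mul_le_mul' h8 k1
          _ = _ := by ring
      exact (ENNReal.mul_le_mul_iff_right hR0 hRt).1 k2
    calc a * lo T ≤ (o + i) * (4 * ENNReal.ofReal (LR R)) := mul_le_mul' g1 h7
      _ = 4 * (ENNReal.ofReal (LR R) * o) + 4 * (ENNReal.ofReal (LR R) * i) := by ring
      _ ≤ 4 * A + 4 * B := add_le_add (mul_le_mul_right g2 _) (mul_le_mul_right h9 _)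
      _ ≤ _ := by
        rw [add_assoc]
        exact le_add_self

/-- the survival constant -/
def Cs (κ : ℝ≥0∞) (D : Z3) : ℝ≥0∞ := 6 + 4 * lg D + 4 * (κ⁻¹ * 11664)

theorem WK.surv (h : WK K κ) {D : Z3} (hD : St D) (m : ℕ) :
    ap K m (fun _ => 1) D * lo (m + 1) ≤ Cs κ D := by
  refine comb (h.mass m hD) fun R hR => ?_
  refine ⟨∑' E, (if E ∈ BR R then 0 else pw K m D E),
    ∑' E, (if E ∈ BR R then pw K m D E else 0), ?_, h.out hD m (by omega), ?_⟩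
  · unfold ap
    rw [← ENNReal.tsum_add]
    refine ENNReal.tsum_le_tsum fun E => ?_
    rw [mul_one]
    split_ifs <;> simp
  · have h1 := h.inn hD m R
    have h2 : ((2 * R + 1 : ℕ) : ℝ≥0∞) ^ 2 ≤ 9 * (R : ℝ≥0∞) ^ 2 := by
      have : (2 * R + 1) ^ 2 ≤ 9 * R ^ 2 := by nlinarith
      exact_mod_cast this
    set i := ∑' E, (if E ∈ BR R then pw K m D E else 0)
    calc ((m + 1 : ℕ) : ℝ≥0∞) * i = κ⁻¹ * (κ * ((m + 1 : ℕ) : ℝ≥0∞) * i) := by
          rw [← mul_assoc, ← mul_assoc, ENNReal.inv_mul_cancel h.k0 h.ktop, one_mul]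
      _ ≤ κ⁻¹ * (1296 * (9 * (R : ℝ≥0∞) ^ 2)) :=
          mul_le_mul_right (h1.trans (mul_le_mul_right h2 _)) _
      _ = _ := by
          ring

theorem lo_two {m a : ℕ} (h : m ≤ 3 * a + 2) : lo (m + 1) ≤ 2 * lo (a + 1) := by
  unfold lo
  rw [show (2 : ℝ≥0∞) = ENNReal.ofReal 2 by simp, ← ENNReal.ofReal_mul (by norm_num)]
  refine ENNReal.ofReal_le_ofReal ?_
  have h1 : (m : ℝ) ≤ 3 * a + 2 := by exact_mod_cast h
  have h2 : ((m + 1 : ℕ) : ℝ) + 1 ≤ (((a + 1 : ℕ) : ℝ) + 1) ^ 2 := by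
    push_cast
    nlinarith [Nat.cast_nonneg (α := ℝ) a]
  have h3 := Real.log_le_log (by positivity) h2
  rw [Real.log_pow] at h3
  push_cast at h3 ⊢
  exact h3

/-- the return weights -/
theorem WK.back (h : WK K κ) {D : Z3} (hD : St D) (m : ℕ) :
    κ * ((m + 1 : ℕ) : ℝ≥0∞) * lo (m + 1) ^ 2 * pw K m D D ≤ 15552 * Cs κ D ^ 2 := by
  obtain ⟨a, r, hr, rfl⟩ : ∃ a r, r < 3 ∧ m = 3 * a + r :=
    ⟨m / 3, m % 3, Nat.mod_lt _ (by norm_num), (Nat.div_add_mod m 3).symm⟩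
  set M := ap K a (fun _ => 1) D with hM
  have h1 : κ * ((a + r + 1 : ℕ) : ℝ≥0∞) * pw K (3 * a + r) D D ≤ 1296 * M ^ 2 := by
    have e : 3 * a + r = a + ((a + r) + a) := by ring
    rw [e, pw_add]
    have e2 : ∀ E, pw K (a + r + a) E D = ∑' F, pw K (a + r) E F * pw K a F D := fun E =>
      pw_add K _ _ E D
    simp only [e2]
    calc κ * ((a + r + 1 : ℕ) : ℝ≥0∞) *
          ∑' E, pw K a D E * ∑' F, pw K (a + r) E F * pw K a F D =
          ∑' E, ∑' F, pw K a D E * ((κ * ((a + r + 1 : ℕ) : ℝ≥0∞) * pw K (a + r) E F) *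
            pw K a D F) := by
          rw [← ENNReal.tsum_mul_left]
          refine tsum_congr fun E => ?_
          rw [← ENNReal.tsum_mul_left, ← ENNReal.tsum_mul_left]
          refine tsum_congr fun F => ?_
          rw [pw_symm h.sym a F D]
          ring
      _ ≤ ∑' E, ∑' F, pw K a D E * (1296 * pw K a D F) := by
          refine ENNReal.tsum_le_tsum fun E => ENNReal.tsum_le_tsum fun F => ?_
          by_cases hE : pw K a D E = 0
          · rw [hE, zero_mul, zero_mul]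
          by_cases hF : pw K a D F = 0
          · rw [hF]; simp
          · gcongr
            exact h.off (pw_G (G := St) h.st hD hE) (pw_G (G := St) h.st hD hF) (a + r)
      _ = 1296 * M ^ 2 := by
          rw [hM]
          unfold ap
          simp only [mul_one, ENNReal.tsum_mul_left, ENNReal.tsum_mul_right]
          ring
  have h2 := h.surv hD a
  have h3 : ((3 * a + r + 1 : ℕ) : ℝ≥0∞) ≤ 3 * ((a + r + 1 : ℕ) : ℝ≥0∞) := by
    exact_mod_cast (by omega : 3 * a + r + 1 ≤ 3 * (a + r + 1))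
  have h4 : lo (3 * a + r + 1) ≤ 2 * lo (a + 1) := lo_two (by omega)
  calc κ * ((3 * a + r + 1 : ℕ) : ℝ≥0∞) * lo (3 * a + r + 1) ^ 2 * pw K (3 * a + r) D D ≤
        κ * (3 * ((a + r + 1 : ℕ) : ℝ≥0∞)) * (2 * lo (a + 1)) ^ 2 * pw K (3 * a + r) D D := by
        gcongr
    _ = 12 * lo (a + 1) ^ 2 * (κ * ((a + r + 1 : ℕ) : ℝ≥0∞) * pw K (3 * a + r) D D) := by ring
    _ ≤ 12 * lo (a + 1) ^ 2 * (1296 * M ^ 2) := mul_le_mul_right h1 _
    _ = 15552 * (M * lo (a + 1)) ^ 2 := by ring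
    _ ≤ _ := by gcongr

end

end KN.ST
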