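import Pool.Agent.H132.LG.Chn

/-!
# The tail of the return weights
-/

set_option autoImplicit false

namespace KN.ST

open KN KN.KQ Finset
open scoped Classical ENNReal

noncomputable section

variable {s q : ℝ≥0∞}

theorem Cr.tail_low (h : Cr s q) {p a : ℕ} (hp : 1 ≤ p) (ha : 10 ^ 7 ≤ a)
    (ha' : 40 * (p + 1) ≤ a) : (q ^ 3 * s ^ 4) ^ 1998 ≤
      ((36 * (2 * p + 2) ^ 2 * a ^ 4 : ℕ) : ℝ≥0∞) *
        ∑' m : ℕ, pw (Kr s q) (a ^ (2 * p) + m) (vec .yp) (vec .yp) := by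
  obtain ⟨M, hM⟩ : ∃ M, M = a ^ (2 * p) := ⟨_, rfl⟩
  obtain ⟨R, hR⟩ : ∃ R, R = a ^ (p + 1) := ⟨_, rfl⟩
  have ha1 : 1 ≤ a := le_trans (by norm_num) ha
  have hMa : a ≤ M := by
    rw [hM]
    calc a = a ^ 1 := (pow_one a).symm
      _ ≤ a ^ (2 * p) := Nat.pow_le_pow_right ha1 (by omega)
  have hRa : a ≤ R := by
    rw [hR]
    calc a = a ^ 1 := (pow_one a).symm
      _ ≤ a ^ (p + 1) := Nat.pow_le_pow_right ha1 (by omega)
  have hR2 : R ^ 2 = M * a ^ 2 := by rw [hR, hM]; ring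
  have haR : (1 : ℝ) ≤ a := by exact_mod_cast ha1
  have hR2R : (R : ℝ) ^ 2 = M * (a : ℝ) ^ 2 := by exact_mod_cast hR2
  have hLR : LR R ≤ (2 * p + 2) * a := by
    unfold LR
    rw [hR]
    push_cast
    rw [← pow_mul, Real.log_pow]
    have h1 : Real.log a ≤ a := by
      have := Real.log_le_sub_one_of_pos (show (0 : ℝ) < a by linarith)
      linarith
    calc (((p + 1) * 2 : ℕ) : ℝ) * Real.log a ≤ (((p + 1) * 2 : ℕ) : ℝ) * a :=
          mul_le_mul_of_nonneg_left h1 (by positivity)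
      _ = _ := by push_cast; ring
  have hLR0 : 0 ≤ LR R := Real.log_nonneg (by
    have : (1 : ℝ) ≤ R := by exact_mod_cast ha1.trans hRa
    nlinarith)
  have hMR : (a : ℝ) ≤ M := by exact_mod_cast hMa
  -- one term
  have h1 : ∀ m : ℕ, m ≤ 2 * M → (q ^ 3 * s ^ 4) ^ 1998 ≤
      ((36 * (2 * p + 2) ^ 2 * a ^ 4 * M : ℕ) : ℝ≥0∞) *
        pw (Kr s q) (999 + (m + m) + 999) (vec .yp) (vec .yp) := by
    intro m hm
    have h2 : ENNReal.ofReal (LR R / (R : ℝ) ^ 2) * (qq D1 + m * 2) ≤ 1 / 2 := by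
      have e1 : qq D1 + (m : ℝ≥0∞) * 2 = ENNReal.ofReal (10 ^ 6 + m * 2) := by
        unfold qq
        rw [rr_D1, ENNReal.ofReal_add (by norm_num) (by positivity),
          ENNReal.ofReal_mul (by positivity), ENNReal.ofReal_natCast]
        simp
      have e2 : (1 / 2 : ℝ≥0∞) = ENNReal.ofReal (1 / 2) := by
        rw [ENNReal.ofReal_div_of_pos (by norm_num)]; simp
      rw [e1, e2, ← ENNReal.ofReal_mul (by positivity)]
      refine ENNReal.ofReal_le_ofReal ?_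
      have hm' : (m : ℝ) ≤ 2 * M := by exact_mod_cast hm
      have h3 : (10 : ℝ) ^ 6 + m * 2 ≤ 5 * M := by
        have : (10 : ℝ) ^ 7 ≤ a := by exact_mod_cast ha
        linarith
      have h4 : (0 : ℝ) < (R : ℝ) ^ 2 := by
        rw [hR2R]
        have : (0 : ℝ) < M := by linarith
        positivity
      have hap : 40 * ((p : ℝ) + 1) ≤ a := by exact_mod_cast ha'
      rw [div_mul_eq_mul_div, div_le_iff₀ h4, hR2R]
      calc LR R * (10 ^ 6 + m * 2) ≤ ((2 * p + 2) * a) * (5 * M) :=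
            mul_le_mul hLR h3 (by positivity) (by positivity)
        _ = (10 * (p + 1)) * (a * M) := by ring
        _ ≤ (1 / 2 * a) * (a * M) := mul_le_mul_of_nonneg_right (by linarith) (by positivity)
        _ = _ := by ring
    have h3 := h.ret st_D1 (m := m) (R := R) (by omega) gg_D1 h2
    have h4 := pw_conn (s := s) (q := q) (m + m)
    have h5 : 4 * ENNReal.ofReal (LR R) ^ 2 * ((2 * R + 1 : ℕ) : ℝ≥0∞) ^ 2 ≤
        ((36 * (2 * p + 2) ^ 2 * a ^ 4 * M : ℕ) : ℝ≥0∞) := by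
      have g1 : ENNReal.ofReal (LR R) ≤ (((2 * p + 2) * a : ℕ) : ℝ≥0∞) := by
        rw [← ENNReal.ofReal_natCast]
        refine ENNReal.ofReal_le_ofReal ?_
        push_cast
        exact hLR
      have g2 : ((2 * R + 1 : ℕ) : ℝ≥0∞) ≤ ((3 * R : ℕ) : ℝ≥0∞) := by
        exact_mod_cast (by omega : 2 * R + 1 ≤ 3 * R)
      calc 4 * ENNReal.ofReal (LR R) ^ 2 * ((2 * R + 1 : ℕ) : ℝ≥0∞) ^ 2 ≤
            4 * (((2 * p + 2) * a : ℕ) : ℝ≥0∞) ^ 2 * ((3 * R : ℕ) : ℝ≥0∞) ^ 2 := by gcongr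
        _ = ((36 * (2 * p + 2) ^ 2 * a ^ 2 * R ^ 2 : ℕ) : ℝ≥0∞) := by push_cast; ring
        _ = _ := by
          rw [hR2]
          congr 1
          ring
    calc (q ^ 3 * s ^ 4) ^ 1998 = (q ^ 3 * s ^ 4) ^ 1998 * 1 := (mul_one _).symm
      _ ≤ (q ^ 3 * s ^ 4) ^ 1998 * (4 * ENNReal.ofReal (LR R) ^ 2 *
            ((2 * R + 1 : ℕ) : ℝ≥0∞) ^ 2 * pw (Kr s q) (m + m) D1 D1) := mul_le_mul_right h3 _
      _ = 4 * ENNReal.ofReal (LR R) ^ 2 * ((2 * R + 1 : ℕ) : ℝ≥0∞) ^ 2 *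
            ((q ^ 3 * s ^ 4) ^ 1998 * pw (Kr s q) (m + m) D1 D1) := by ring
      _ ≤ _ := mul_le_mul' h5 h4
  -- the sum
  have h2 : (M : ℝ≥0∞) * (q ^ 3 * s ^ 4) ^ 1998 ≤
      ((36 * (2 * p + 2) ^ 2 * a ^ 4 * M : ℕ) : ℝ≥0∞) *
        ∑' m : ℕ, pw (Kr s q) (M + m) (vec .yp) (vec .yp) := by
    have h3 : (M : ℝ≥0∞) * (q ^ 3 * s ^ 4) ^ 1998 =
        ∑ m ∈ range M, (q ^ 3 * s ^ 4) ^ 1998 := by simp
    rw [h3]
    refine (sum_le_sum (fun m hm => h1 (M + m) (by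
      have := mem_range.1 hm
      omega))).trans ?_
    rw [← mul_sum]
    refine mul_le_mul_right ?_ _
    have h4 : ∀ m : ℕ, 999 + (M + m + (M + m)) + 999 = M + (1998 + M + 2 * m) := fun m => by ring
    simp only [h4]
    have h5 : ∑ m ∈ range M, pw (Kr s q) (M + (1998 + M + 2 * m)) (vec .yp) (vec .yp) =
        ∑ x ∈ (range M).image (fun m => 1998 + M + 2 * m),
          pw (Kr s q) (M + x) (vec .yp) (vec .yp) := by
      rw [sum_image]
      intro x _ y _ hxy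
      simp only at hxy
      omega
    rw [h5]
    exact ENNReal.sum_le_tsum _
  rw [← hM]
  have hM0 : (M : ℝ≥0∞) ≠ 0 := by
    rw [Nat.cast_ne_zero]
    omega
  have h3 : (M : ℝ≥0∞) * (q ^ 3 * s ^ 4) ^ 1998 ≤ M * (((36 * (2 * p + 2) ^ 2 * a ^ 4 : ℕ) : ℝ≥0∞) *
      ∑' m : ℕ, pw (Kr s q) (M + m) (vec .yp) (vec .yp)) := by
    refine h2.trans (le_of_eq ?_)
    push_cast
    ring
  exact (ENNReal.mul_le_mul_iff_right hM0 (ENNReal.natCast_ne_top M)).1 h3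

end

end KN.ST
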