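import Pool.Agent.H132.LG.Smooth2
import Pool.Agent.H132.LG.Surv

/-!
# The tilted masses
-/

set_option autoImplicit false

namespace KN.ST

open KN KN.KQ Finset
open scoped Classical ENNReal

noncomputable section

theorem om_mul (s q x : ℝ≥0∞) (b : Blk) : om s (q * x) b = x ^ (bl b + 2) * om s q b := by
  unfold om
  rw [mul_pow]
  ring

theorem wt_mul (s q x : ℝ≥0∞) (bs : List Blk) : wt s (q * x) bs = x ^ ln bs * wt s q bs := by
  induction bs with
  | nil => simp [wt, ln]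
  | cons b bs ih =>
    rw [wt_cons, wt_cons, ih, ln_cons, om_mul, pow_add]
    ring

theorem Sb_mom {s q : ℝ≥0∞} (hs : s ≤ 1 / 10 ^ 12) (hq : q ≤ 2) :
    ∑' b : Blk, (if Sb b then om s q b * ((bl b + 2 : ℕ) : ℝ≥0∞) ^ 2 else 0) ≤ 46 := by
  have h1 : ∑' b : Blk, (if Sb b then om s q b * ((bl b + 2 : ℕ) : ℝ≥0∞) ^ 2 else 0) ≤
      ∑' b : Blk, (9 * (if Sb b then om s q b else 0) +
        (if B2 b then om s q b * ((4 * bl b + 10 : ℕ) : ℝ≥0∞) ^ 6 else 0)) := by
    refine ENNReal.tsum_le_tsum fun b => ?_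
    by_cases h : Sb b
    · rw [if_pos h, if_pos h]
      by_cases h2 : B2 b
      · rw [if_pos h2]
        refine le_trans (mul_le_mul_right ?_ _) le_add_self
        have : (bl b + 2) ^ 2 ≤ (4 * bl b + 10) ^ 6 :=
          le_trans (Nat.pow_le_pow_left (by omega) 2)
            (Nat.pow_le_pow_right (by omega) (by norm_num))
        exact_mod_cast this
      · rw [if_neg h2, add_zero, mul_comm]
        refine mul_le_mul_left ?_ _
        have h3 := bl_U1 (blk_cases h.1 h.2.1 h2)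
        have : (bl b + 2) ^ 2 ≤ 3 ^ 2 := Nat.pow_le_pow_left (by omega) 2
        have h4 : ((bl b + 2 : ℕ) : ℝ≥0∞) ^ 2 ≤ ((3 ^ 2 : ℕ) : ℝ≥0∞) := by exact_mod_cast this
        refine h4.trans (le_of_eq ?_)
        norm_num
    · rw [if_neg h]
      exact zero_le
  refine h1.trans ?_
  rw [ENNReal.tsum_add, ENNReal.tsum_mul_left]
  calc 9 * Ms s q + _ ≤ 9 * 5 + s ^ 4 / 40 :=
        add_le_add (mul_le_mul_right (Ms_le_five hs hq) _) (big_sum hs hq)
    _ ≤ 45 + 1 := by
        refine add_le_add (by norm_num) ?_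
        rw [div_eq_mul_inv]
        exact mul_le_one' (pow_le_one₀ zero_le (s_le1 hs)) (ENNReal.inv_le_one.2 (by norm_num))
    _ = 46 := by norm_num

theorem Sb_len {s q : ℝ≥0∞} (hs : s ≤ 1 / 10 ^ 12) (hq : q ≤ 1) :
    ∑' b : Blk, (if Sb b then om s q b * ((bl b : ℕ) : ℝ≥0∞) else 0) ≤ 1 / 10 := by
  rw [split_sum]
  · have h0 : (if Sb S0 then om s q S0 * ((bl S0 : ℕ) : ℝ≥0∞) else 0) = 0 := by
      have : bl S0 = 0 := rfl
      rw [this]
      simp
    have h1 : ∑ v ∈ lat, ((if Sb ([], [v]) then om s q ([], [v]) * ((bl ([], [v]) : ℕ) : ℝ≥0∞)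
        else 0) + (if Sb ([v], []) then om s q ([v], []) * ((bl ([v], []) : ℕ) : ℝ≥0∞) else 0)) =
        8 * q ^ 3 * s ^ 4 := by
      have : ∀ v ∈ lat, ((if Sb ([], [v]) then om s q ([], [v]) * ((bl ([], [v]) : ℕ) : ℝ≥0∞)
        else 0) + (if Sb ([v], []) then om s q ([v], []) * ((bl ([v], []) : ℕ) : ℝ≥0∞) else 0)) =
          2 * q ^ 3 * s ^ 4 := by
        intro v hv
        have hv' := mem_lat.1 hv
        rw [if_pos (Sb_E hv').1, if_pos (Sb_E hv').2, (om_E s q hv').1, (om_E s q hv').2]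
        simp only [bl, List.length_nil, List.length_singleton]
        push_cast
        ring
      rw [sum_congr rfl this, sum_const, card_lat, nsmul_eq_mul]
      push_cast
      ring
    have h2 : ∑' b : Blk, (if B2 b then (if Sb b then om s q b * ((bl b : ℕ) : ℝ≥0∞) else 0)
        else 0) ≤ s ^ 4 / 40 := by
      refine le_trans (ENNReal.tsum_le_tsum fun b => ?_) (big_sum hs (hq.trans (by norm_num)))
      by_cases h : B2 b
      · rw [if_pos h, if_pos h]
        split_ifs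
        · refine mul_le_mul_right ?_ _
          have : bl b ≤ (4 * bl b + 10) ^ 6 :=
            le_trans (by omega : bl b ≤ (4 * bl b + 10)) (Nat.le_self_pow (by norm_num) _)
          exact_mod_cast this
        · exact zero_le
      · rw [if_neg h, if_neg h]
    rw [h0, h1, zero_add]
    calc 8 * q ^ 3 * s ^ 4 + _ ≤ 8 * 1 ^ 3 * s ^ 4 + s ^ 4 * 1 := by
          refine add_le_add (by gcongr) (h2.trans ?_)
          rw [div_eq_mul_inv]
          exact mul_le_mul_right (ENNReal.inv_le_one.2 (by norm_num)) _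
      _ = 9 * s ^ 4 := by ring
      _ ≤ 9 * (1 / 10 ^ 12) := mul_le_mul_right (s4_le hs) _
      _ ≤ 1 / 10 := by
        rw [← mul_div_assoc, mul_one]
        refine num_le (x := 9 / 10 ^ 12) (y := 1 / 10) ?_ ?_ (by norm_num)
        · rw [ENNReal.ofReal_div_of_pos (by norm_num)]; simp
        · rw [ENNReal.ofReal_div_of_pos (by norm_num)]; simp
  · intro b hb
    by_cases h : Sb b
    · exact ⟨h.1, h.2.1⟩
    · rw [if_neg h] at hb
      exact absurd rfl hb

theorem exp_quad (u : ℝ) : Real.exp u ≤ 1 + u + u ^ 2 * Real.exp |u| := by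
  have h := Complex.norm_exp_sub_sum_le_norm_mul_exp (u : ℂ) 2
  have e : Complex.exp (u : ℂ) - ∑ m ∈ range 2, (u : ℂ) ^ m / (m.factorial : ℂ) =
      ((Real.exp u - (1 + u) : ℝ) : ℂ) := by
    rw [sum_range_succ, sum_range_succ, sum_range_zero]
    push_cast
    simp
  rw [e, Complex.norm_real, Complex.norm_real, Real.norm_eq_abs, Real.norm_eq_abs] at h
  have h2 := (le_abs_self _).trans h
  rw [sq_abs] at h2
  linarith

/-- the real weights of the free blocks -/
def aa (s q : ℝ≥0∞) (b : Blk) : ℝ := (if Sb b then om s q b else 0 : ℝ≥0∞).toReal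

/-- the length of a block -/
def LB (b : Blk) : ℝ := (bl b : ℝ) + 2

theorem LB_two (b : Blk) : 2 ≤ LB b := by
  unfold LB
  have : (0 : ℝ) ≤ bl b := Nat.cast_nonneg _
  linarith

theorem aa_nonneg (s q : ℝ≥0∞) (b : Blk) : 0 ≤ aa s q b := ENNReal.toReal_nonneg

variable {s q : ℝ≥0∞}

theorem aa_mul (δ : ℝ) (b : Blk) : (if Sb b then om s (q * ENNReal.ofReal (Real.exp δ)) b else 0 :
    ℝ≥0∞).toReal = aa s q b * Real.exp (δ * LB b) := by
  unfold aa
  by_cases h : Sb b
  · rw [if_pos h, if_pos h, om_mul, ENNReal.toReal_mul, ENNReal.toReal_pow,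
      ENNReal.toReal_ofReal (Real.exp_pos _).le, mul_comm]
    congr 1
    rw [← Real.exp_nat_mul]
    congr 1
    unfold LB
    push_cast
    ring
  · simp [h]

theorem q_exp (hq : q ≤ 1) {δ : ℝ} (hδ : δ ≤ 1 / 5) : q * ENNReal.ofReal (Real.exp δ) ≤ 2 := by
  have h1 : ENNReal.ofReal (Real.exp δ) ≤ 2 := by
    rw [show (2 : ℝ≥0∞) = ENNReal.ofReal 2 by simp]
    refine ENNReal.ofReal_le_ofReal ?_
    have h2 : Real.exp δ ≤ Real.exp (1 / 5) := Real.exp_le_exp.2 hδ
    have h3 : Real.exp (1 / 5) ≤ 2 := by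
      rw [← Real.le_log_iff_exp_le (by norm_num)]
      have := Real.log_two_gt_d9
      linarith
    linarith
  calc q * ENNReal.ofReal (Real.exp δ) ≤ 1 * 2 := mul_le_mul' hq h1
    _ = 2 := one_mul 2

theorem Cr.aa_one (h : Cr s q) : Summable (aa s q) ∧ ∑' b, aa s q b = 1 := by
  have ht := Ms_ne_top h.hs h.q2
  refine ⟨ENNReal.summable_toReal ht, ?_⟩
  unfold aa
  rw [← ENNReal.tsum_toReal_eq (fun b => ne_top_of_le_ne_top ht (ENNReal.le_tsum b))]
  have := h.hc
  unfold Ms at this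
  rw [this]
  rfl

theorem Cr.aa_two (h : Cr s q) : Summable (fun b => aa s q b * (LB b ^ 2 * Real.exp (LB b / 5))) ∧
    ∑' b, aa s q b * (LB b ^ 2 * Real.exp (LB b / 5)) ≤ 46 := by
  have h1 := Sb_mom h.hs (q_exp h.h2 (le_refl (1 / 5)))
  have ht := ne_top_of_le_ne_top (by simp) h1
  have e : ∀ b : Blk, ((if Sb b then om s (q * ENNReal.ofReal (Real.exp (1 / 5))) b *
      ((bl b + 2 : ℕ) : ℝ≥0∞) ^ 2 else 0 : ℝ≥0∞)).toReal =
      aa s q b * (LB b ^ 2 * Real.exp (LB b / 5)) := by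
    intro b
    have h2 := aa_mul (s := s) (q := q) (1 / 5) b
    by_cases hb : Sb b
    · rw [if_pos hb] at h2 ⊢
      rw [ENNReal.toReal_mul, h2, ENNReal.toReal_pow, ENNReal.toReal_natCast]
      unfold LB
      push_cast
      rw [show (1 / 5 : ℝ) * ((bl b : ℝ) + 2) = ((bl b : ℝ) + 2) / 5 by ring]
      ring
    · rw [if_neg hb]
      unfold aa
      rw [if_neg hb]
      simp
  constructor
  · have := ENNReal.summable_toReal ht
    refine this.congr fun b => ?_
    exact e b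
  · have h3 := ENNReal.toReal_mono (by simp) h1
    rw [ENNReal.tsum_toReal_eq (fun b => ne_top_of_le_ne_top ht (ENNReal.le_tsum b))] at h3
    simp only [e] at h3
    simpa using h3

/-- the mean length -/
def lam (s q : ℝ≥0∞) : ℝ := ∑' b, aa s q b * LB b

theorem Cr.aa_sum (h : Cr s q) : Summable (fun b => aa s q b * LB b) := by
  refine Summable.of_nonneg_of_le (fun b => mul_nonneg (aa_nonneg s q b) (by
    have := LB_two b
    linarith)) (fun b => ?_) h.aa_two.1
  refine mul_le_mul_of_nonneg_left ?_ (aa_nonneg s q b)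
  have h1 := LB_two b
  have h2 : 1 ≤ Real.exp (LB b / 5) := Real.one_le_exp (by linarith)
  nlinarith

theorem Cr.lam_ge (h : Cr s q) : 2 ≤ lam s q := by
  have h1 : ∑' b, aa s q b * 2 ≤ lam s q := by
    unfold lam
    refine Summable.tsum_le_tsum (fun b => ?_) (h.aa_one.1.mul_right 2) h.aa_sum
    exact mul_le_mul_of_nonneg_left (LB_two b) (aa_nonneg s q b)
  rw [tsum_mul_right, h.aa_one.2] at h1
  linarith

theorem Cr.lam_le (h : Cr s q) : lam s q ≤ 21 / 10 := by
  have h1 := Sb_len h.hs h.h2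
  have ht := ne_top_of_le_ne_top (by simp) h1
  have e : ∀ b : Blk, ((if Sb b then om s q b * ((bl b : ℕ) : ℝ≥0∞) else 0 : ℝ≥0∞)).toReal =
      aa s q b * bl b := by
    intro b
    unfold aa
    by_cases hb : Sb b
    · rw [if_pos hb, if_pos hb, ENNReal.toReal_mul, ENNReal.toReal_natCast]
    · simp [hb]
  have hs := ENNReal.summable_toReal ht
  have h3 := ENNReal.toReal_mono (by simp) h1
  rw [ENNReal.tsum_toReal_eq (fun b => ne_top_of_le_ne_top ht (ENNReal.le_tsum b))] at h3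
  simp only [e] at h3 hs
  have e2 : lam s q = ∑' b, aa s q b * bl b + 2 := by
    unfold lam LB
    have : ∀ b, aa s q b * ((bl b : ℝ) + 2) = aa s q b * bl b + aa s q b * 2 := fun b => by ring
    simp only [this]
    rw [Summable.tsum_add hs (h.aa_one.1.mul_right 2), tsum_mul_right, h.aa_one.2]
    ring
  rw [e2]
  have h4 : (1 / 10 : ℝ≥0∞).toReal = 1 / 10 := by simp
  rw [h4] at h3
  linarith

/-- the tilted mass -/
theorem Cr.tilt (h : Cr s q) {δ : ℝ} (hδ : |δ| ≤ 1 / 5) :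
    Ms s (q * ENNReal.ofReal (Real.exp δ)) ≤
      ENNReal.ofReal (Real.exp (lam s q * δ + 46 * δ ^ 2)) := by
  obtain ⟨hδ1, hδ2⟩ := abs_le.1 hδ
  have ht := Ms_ne_top h.hs (q_exp h.h2 hδ2)
  have hfin : ∀ b : Blk, (if Sb b then om s (q * ENNReal.ofReal (Real.exp δ)) b else 0 :
      ℝ≥0∞) ≠ ⊤ := fun b => ne_top_of_le_ne_top ht (ENNReal.le_tsum b)
  have h1 : (Ms s (q * ENNReal.ofReal (Real.exp δ))).toReal =
      ∑' b, aa s q b * Real.exp (δ * LB b) := by
    unfold Ms
    rw [ENNReal.tsum_toReal_eq hfin]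
    exact tsum_congr fun b => aa_mul δ b
  have hs1 : Summable (fun b => aa s q b * Real.exp (δ * LB b)) := by
    have := ENNReal.summable_toReal (show ∑' b : Blk, (if Sb b then
      om s (q * ENNReal.ofReal (Real.exp δ)) b else 0 : ℝ≥0∞) ≠ ⊤ from ht)
    exact this.congr fun b => aa_mul δ b
  have h2 : ∀ b, aa s q b * Real.exp (δ * LB b) ≤ aa s q b + δ * (aa s q b * LB b) +
      δ ^ 2 * (aa s q b * (LB b ^ 2 * Real.exp (LB b / 5))) := by
    intro b
    have h3 := exp_quad (δ * LB b)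
    have h4 := LB_two b
    have h5 : Real.exp |δ * LB b| ≤ Real.exp (LB b / 5) := by
      refine Real.exp_le_exp.2 ?_
      rw [abs_mul, abs_of_nonneg (show (0 : ℝ) ≤ LB b by linarith)]
      nlinarith
    have h6 : (δ * LB b) ^ 2 * Real.exp |δ * LB b| ≤ (δ * LB b) ^ 2 * Real.exp (LB b / 5) :=
      mul_le_mul_of_nonneg_left h5 (by positivity)
    calc aa s q b * Real.exp (δ * LB b) ≤
          aa s q b * (1 + δ * LB b + (δ * LB b) ^ 2 * Real.exp (LB b / 5)) :=
          mul_le_mul_of_nonneg_left (by linarith) (aa_nonneg s q b)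
      _ = _ := by ring
  have h3 : ∑' b, aa s q b * Real.exp (δ * LB b) ≤ 1 + δ * lam s q + δ ^ 2 * 46 := by
    have h4 := Summable.tsum_le_tsum h2 hs1 (((h.aa_one.1).add (h.aa_sum.mul_left δ)).add
      (h.aa_two.1.mul_left (δ ^ 2)))
    rw [Summable.tsum_add ((h.aa_one.1).add (h.aa_sum.mul_left δ))
      (h.aa_two.1.mul_left (δ ^ 2)), Summable.tsum_add h.aa_one.1 (h.aa_sum.mul_left δ),
      tsum_mul_left, tsum_mul_left, h.aa_one.2] at h4
    refine h4.trans ?_
    have h5 := mul_le_mul_of_nonneg_left h.aa_two.2 (sq_nonneg δ)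
    unfold lam
    linarith
  rw [← ENNReal.ofReal_toReal ht, h1]
  refine ENNReal.ofReal_le_ofReal (h3.trans ?_)
  have := Real.add_one_le_exp (lam s q * δ + 46 * δ ^ 2)
  linarith

theorem Cr.q9 (h : Cr s q) : 9 / 10 ≤ q := by
  by_contra hn
  push Not at hn
  have h1 : Ms s q < 1 := by
    rw [Ms_eq, add_assoc]
    calc q ^ 2 + (8 * q ^ 3 * s ^ 4 + Mr s q) ≤ (9 / 10) ^ 2 + (8 * 1 ^ 3 * s ^ 4 + s ^ 4) := by
          have := h.h2
          gcongr
          exact Mr_le h.hs h.q2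
      _ = (9 / 10) ^ 2 + 9 * s ^ 4 := by ring
      _ ≤ (9 / 10) ^ 2 + 9 * (1 / 10 ^ 12) := by
          gcongr
          exact s4_le h.hs
      _ < 1 := by
        have e1 : (9 / 10 : ℝ≥0∞) = ENNReal.ofReal (9 / 10) := by
          rw [ENNReal.ofReal_div_of_pos (by norm_num)]; simp
        have e2 : (1 / 10 ^ 12 : ℝ≥0∞) = ENNReal.ofReal (1 / 10 ^ 12) := by
          rw [ENNReal.ofReal_div_of_pos (by norm_num)]; simp
        have e3 : (9 : ℝ≥0∞) = ENNReal.ofReal 9 := by simp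
        rw [e1, e2, ← ENNReal.ofReal_pow (by norm_num), e3, ← ENNReal.ofReal_mul (by norm_num),
          ← ENNReal.ofReal_add (by norm_num) (by norm_num), ← ENNReal.ofReal_one,
          ENNReal.ofReal_lt_ofReal_iff (by norm_num)]
        norm_num
  rw [h.hc] at h1
  exact absurd h1 (lt_irrefl _)

theorem Cr.q_lo (h : Cr s q) {δ : ℝ} (hδ : -(1 / 5) ≤ δ) :
    7 / 10 ≤ q * ENNReal.ofReal (Real.exp δ) := by
  have h1 : 4 / 5 ≤ Real.exp δ := by
    have := Real.add_one_le_exp δ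
    linarith
  have e1 : (9 / 10 : ℝ≥0∞) = ENNReal.ofReal (9 / 10) := by
    rw [ENNReal.ofReal_div_of_pos (by norm_num)]; simp
  have e2 : (7 / 10 : ℝ≥0∞) = ENNReal.ofReal (7 / 10) := by
    rw [ENNReal.ofReal_div_of_pos (by norm_num)]; simp
  calc (7 / 10 : ℝ≥0∞) ≤ 9 / 10 * ENNReal.ofReal (4 / 5) := by
        rw [e1, e2, ← ENNReal.ofReal_mul (by norm_num)]
        exact ENNReal.ofReal_le_ofReal (by norm_num)
    _ ≤ _ := mul_le_mul' h.q9 (ENNReal.ofReal_le_ofReal h1)

end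

end KN.ST
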