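import Pool.Agent.H132.LG.Loc

/-!
# Upper bounds for the chains of a given length
-/

set_option autoImplicit false

namespace KN.ST

open KN KN.KQ Finset
open scoped Classical ENNReal

noncomputable section

variable {K : Z3 → Z3 → ℝ≥0∞} {κ : ℝ≥0∞}

/-- two points -/
theorem WK.back2 (h : WK K κ) {D E : Z3} (hD : St D) (hE : St E) (m : ℕ) :
    κ * ((m + 1 : ℕ) : ℝ≥0∞) * lo (m + 1) ^ 2 * pw K m D E ≤ 15552 * (Cs κ D * Cs κ E) := by
  obtain ⟨a, r, hr, rfl⟩ : ∃ a r, r < 3 ∧ m = 3 * a + r :=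
    ⟨m / 3, m % 3, Nat.mod_lt _ (by norm_num), (Nat.div_add_mod m 3).symm⟩
  set M := ap K a (fun _ => 1) D with hM
  set N := ap K a (fun _ => 1) E with hN
  have h1 : κ * ((a + r + 1 : ℕ) : ℝ≥0∞) * pw K (3 * a + r) D E ≤ 1296 * (M * N) := by
    have e : 3 * a + r = a + ((a + r) + a) := by ring
    rw [e, pw_add]
    have e2 : ∀ G, pw K (a + r + a) G E = ∑' F, pw K (a + r) G F * pw K a F E := fun G =>
      pw_add K _ _ G E
    simp only [e2]
    calc κ * ((a + r + 1 : ℕ) : ℝ≥0∞) *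
          ∑' G, pw K a D G * ∑' F, pw K (a + r) G F * pw K a F E =
          ∑' G, ∑' F, pw K a D G * ((κ * ((a + r + 1 : ℕ) : ℝ≥0∞) * pw K (a + r) G F) *
            pw K a E F) := by
          rw [← ENNReal.tsum_mul_left]
          refine tsum_congr fun G => ?_
          rw [← ENNReal.tsum_mul_left, ← ENNReal.tsum_mul_left]
          refine tsum_congr fun F => ?_
          rw [pw_symm h.sym a F E]
          ring
      _ ≤ ∑' G, ∑' F, pw K a D G * (1296 * pw K a E F) := by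
          refine ENNReal.tsum_le_tsum fun G => ENNReal.tsum_le_tsum fun F => ?_
          by_cases hG : pw K a D G = 0
          · rw [hG, zero_mul, zero_mul]
          by_cases hF : pw K a E F = 0
          · rw [hF]; simp
          · gcongr
            exact h.off (pw_G (G := St) h.st hD hG) (pw_G (G := St) h.st hE hF) (a + r)
      _ = 1296 * (M * N) := by
          rw [hM, hN]
          unfold ap
          simp only [mul_one, ENNReal.tsum_mul_left, ENNReal.tsum_mul_right]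
          ring
  have h2 := h.surv hD a
  have h2' := h.surv hE a
  have h3 : ((3 * a + r + 1 : ℕ) : ℝ≥0∞) ≤ 3 * ((a + r + 1 : ℕ) : ℝ≥0∞) := by
    exact_mod_cast (by omega : 3 * a + r + 1 ≤ 3 * (a + r + 1))
  have h4 : lo (3 * a + r + 1) ≤ 2 * lo (a + 1) := lo_two (by omega)
  calc κ * ((3 * a + r + 1 : ℕ) : ℝ≥0∞) * lo (3 * a + r + 1) ^ 2 * pw K (3 * a + r) D E ≤
        κ * (3 * ((a + r + 1 : ℕ) : ℝ≥0∞)) * (2 * lo (a + 1)) ^ 2 * pw K (3 * a + r) D E := by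
        gcongr
    _ = 12 * lo (a + 1) ^ 2 * (κ * ((a + r + 1 : ℕ) : ℝ≥0∞) * pw K (3 * a + r) D E) := by ring
    _ ≤ 12 * lo (a + 1) ^ 2 * (1296 * (M * N)) := mul_le_mul_right h1 _
    _ = 15552 * ((M * lo (a + 1)) * (N * lo (a + 1))) := by ring
    _ ≤ _ := by gcongr

theorem lo_pos {n : ℕ} (hn : 1 ≤ n) : lo n ≠ 0 := by
  unfold lo
  have : (1 : ℝ) ≤ n := by exact_mod_cast hn
  have h : 0 < Real.log (n + 1) := Real.log_pos (by linarith)
  simpa using h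

theorem lo_top (n : ℕ) : lo n ≠ ⊤ := ENNReal.ofReal_ne_top

theorem lo_four {m a : ℕ} (h : m + 2 ≤ (a + 2) ^ 4) : lo (m + 1) ≤ 4 * lo (a + 1) := by
  unfold lo
  rw [show (4 : ℝ≥0∞) = ENNReal.ofReal 4 by simp, ← ENNReal.ofReal_mul (by norm_num)]
  refine ENNReal.ofReal_le_ofReal ?_
  have h2 : ((m + 1 : ℕ) : ℝ) + 1 ≤ (((a + 1 : ℕ) : ℝ) + 1) ^ 4 := by
    have : ((m + 2 : ℕ) : ℝ) ≤ (((a + 2) ^ 4 : ℕ) : ℝ) := by exact_mod_cast h
    push_cast at this ⊢
    have e : (a : ℝ) + 1 + 1 = a + 2 := by ring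
    rw [e]
    linarith
  have h3 := Real.log_le_log (by positivity) h2
  rw [Real.log_pow] at h3
  push_cast at h3 ⊢
  exact h3

variable {s q : ℝ≥0∞}

/-! ### the action of the chains of a given length -/

theorem Un_zero (s q : ℝ≥0∞) (D E : Z3) : Un s q 0 D E = if D = E then 1 else 0 := by
  unfold Un
  rw [tsum_eq_single []]
  · simp only [cp_nil, ln]
    simp [wt]
  · intro bs hbs
    rw [if_neg]
    rintro ⟨-, h⟩
    have := two_len bs
    exact hbs (List.length_eq_zero_iff.1 (by omega))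

/-- the first block -/
theorem Un_succ (s q : ℝ≥0∞) (n : ℕ) (D E : Z3) : Un s q (n + 1) D E =
    ∑' b : Blk, if TD D (nxt D b) b ∧ bl b + 2 ≤ n + 1 then
      om s q b * Un s q (n + 1 - (bl b + 2)) (nxt D b) E else 0 := by
  unfold Un
  rw [tsum_cons' _ (by simp [ln])]
  refine tsum_congr fun b => ?_
  by_cases h : TD D (nxt D b) b ∧ bl b + 2 ≤ n + 1
  · rw [if_pos h, ← ENNReal.tsum_mul_left]
    refine tsum_congr fun l => ?_
    by_cases hc : CP (nxt D b) E l ∧ ln l = n + 1 - (bl b + 2)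
    · rw [if_pos hc, if_pos ⟨cp_cons.2 ⟨h.1, hc.1⟩, by rw [ln_cons, hc.2]; omega⟩, wt_cons]
    · rw [if_neg hc, mul_zero, if_neg]
      rintro ⟨h1, h2⟩
      rw [ln_cons] at h2
      exact hc ⟨(cp_cons.1 h1).2, by omega⟩
  · rw [if_neg h, ENNReal.tsum_eq_zero]
    intro l
    rw [if_neg]
    rintro ⟨h1, h2⟩
    rw [ln_cons] at h2
    exact h ⟨(cp_cons.1 h1).1, by omega⟩

/-- the action -/
def UA (s q : ℝ≥0∞) (n : ℕ) (φ : Z3 → ℝ≥0∞) (D : Z3) : ℝ≥0∞ := ∑' E : Z3, Un s q n D E * φ E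

theorem UA_zero (φ : Z3 → ℝ≥0∞) (D : Z3) : UA s q 0 φ D = φ D := by
  unfold UA
  rw [tsum_eq_single D]
  · rw [Un_zero]
    simp
  · intro E hE
    rw [Un_zero, if_neg hE.symm, zero_mul]

theorem UA_succ (n : ℕ) (φ : Z3 → ℝ≥0∞) (D : Z3) : UA s q (n + 1) φ D =
    ∑' b : Blk, if TD D (nxt D b) b ∧ bl b + 2 ≤ n + 1 then
      om s q b * UA s q (n + 1 - (bl b + 2)) φ (nxt D b) else 0 := by
  unfold UA
  simp only [Un_succ, ← ENNReal.tsum_mul_right]
  rw [ENNReal.tsum_comm]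
  refine tsum_congr fun b => ?_
  by_cases h : TD D (nxt D b) b ∧ bl b + 2 ≤ n + 1
  · simp only [if_pos h]
    rw [← ENNReal.tsum_mul_left]
    refine tsum_congr fun E => ?_
    ring
  · simp only [if_neg h, zero_mul, tsum_zero]

theorem TD.st {D E : Z3} {b : Blk} (h : TD D E b) : St E := ⟨h.1.h0, h.1.ne.2⟩

/-- supersolutions -/
theorem UA_super {Ψ : Z3 → ℝ≥0∞} (H : ∀ D, St D → ∑' E, Kr s q D E * Ψ E ≤ Ψ D) (n : ℕ) {D : Z3}
    (hD : St D) : UA s q n Ψ D ≤ Ψ D := by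
  induction n using Nat.strong_induction_on generalizing D with
  | _ n ih =>
    cases n with
    | zero => rw [UA_zero]
    | succ n =>
      rw [UA_succ]
      refine le_trans (ENNReal.tsum_le_tsum fun b => ?_) ((le_of_eq (Kr_sum s q D Ψ).symm).trans
        (H D hD))
      by_cases h : TD D (nxt D b) b
      · rw [if_pos h]
        by_cases h2 : bl b + 2 ≤ n + 1
        · rw [if_pos ⟨h, h2⟩]
          exact mul_le_mul_right (ih _ (by omega) h.st) _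
        · rw [if_neg (fun h' => h2 h'.2)]
          exact zero_le
      · rw [if_neg (fun h' => h h'.1)]
        exact zero_le

theorem Un_G {n : ℕ} {D E : Z3} (hD : St D) (h : Un s q n D E ≠ 0) : St E := by
  by_contra hE
  apply h
  unfold Un
  rw [ENNReal.tsum_eq_zero]
  intro bs
  rw [if_neg]
  rintro ⟨h1, -⟩
  have h2 := vc_ne h1.1 hD.1 hD.2
  exact hE ⟨h2.1, h2.2⟩

theorem UA_mono {n : ℕ} {D : Z3} (hD : St D) {φ ψ : Z3 → ℝ≥0∞} (h : ∀ E, St E → φ E ≤ ψ E) :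
    UA s q n φ D ≤ UA s q n ψ D := by
  refine ENNReal.tsum_le_tsum fun E => ?_
  by_cases hE : Un s q n D E = 0
  · rw [hE, zero_mul, zero_mul]
  · exact mul_le_mul_right (h E (Un_G hD hE)) _

theorem UA_const (n : ℕ) (c : ℝ≥0∞) (φ : Z3 → ℝ≥0∞) (D : Z3) :
    UA s q n (fun E => c * φ E) D = c * UA s q n φ D := by
  unfold UA
  rw [← ENNReal.tsum_mul_left]
  refine tsum_congr fun E => ?_
  ring

theorem Cr.umass (h : Cr s q) (n : ℕ) {D : Z3} (hD : St D) : UA s q n (fun _ => 1) D ≤ 2 := by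
  have h1 := UA_super (s := s) (q := q) (Ψ := hh) (fun D hD => le_self_add.trans (h.super hD)) n hD
  have h2 : 2 * UA s q n (fun _ => 1) D ≤ 3 := by
    rw [← UA_const]
    refine le_trans ?_ (h1.trans (hh_le D))
    refine UA_mono hD fun E hE => ?_
    rw [mul_one]
    exact hh_ge hE.1 hE.2
  have h3 : 2 * UA s q n (fun _ => 1) D ≤ 2 * 2 := h2.trans (by norm_num)
  exact (ENNReal.mul_le_mul_iff_right (by norm_num) (by norm_num)).1 h3

theorem Cr.un_two (h : Cr s q) (n : ℕ) {D : Z3} (hD : St D) (E : Z3) : Un s q n D E ≤ 2 := by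
  refine le_trans ?_ (h.umass n hD)
  unfold UA
  refine le_trans ?_ (ENNReal.le_tsum E)
  rw [mul_one]

/-! ### upper bounds -/

theorem exp_six (n : ℕ) : (n : ℝ) ^ 3 * Real.exp (-(√n / 5)) ≤ 11250000 := by
  have h1 := Real.pow_div_factorial_le_exp (√(n : ℝ) / 5) (by positivity) 6
  have h2 : (√(n : ℝ) / 5) ^ 6 = (n : ℝ) ^ 3 / 15625 := by
    rw [div_pow]
    have : √(n : ℝ) ^ 6 = (√(n : ℝ) ^ 2) ^ 3 := by ring
    rw [this, Real.sq_sqrt (Nat.cast_nonneg n)]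
    norm_num
  rw [h2, show ((Nat.factorial 6 : ℕ) : ℝ) = 720 by norm_num [Nat.factorial]] at h1
  rw [Real.exp_neg, ← div_eq_mul_inv, div_le_iff₀ (Real.exp_pos _)]
  rw [div_div, div_le_iff₀ (by norm_num)] at h1
  linarith

/-- the local bound with weights -/
theorem Cr.loc_w (h : Cr s q) {D E : Z3} (hD : St D) (hE : St E) {g : ℕ → ℝ≥0∞}
    (g0 : ∀ m, g m ≠ 0) (gt : ∀ m, g m ≠ ⊤) (gm : ∀ a b : ℕ, a ≤ b → g a ≤ g b) {G B C : ℝ≥0∞}
    (hG : ∀ n, 25 ≤ n → g n ≤ G * g (n / 8))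
    (hB : ∀ n : ℕ, 25 ≤ n → g n * ENNReal.ofReal (n * Real.exp (-(√n / 5))) ≤ B)
    (hf : ∀ q' : ℝ≥0∞, 7 / 10 ≤ q' → q' ≤ 2 → ∀ m, g m * pw (Kn s q') m D E ≤ C) (n : ℕ) :
    g n * Un s q n D E ≤
      ENNReal.ofReal (34 * Real.exp 47) * ((G + B * (g 0)⁻¹) * C) + g 25 * 2 := by
  by_cases hn : 25 ≤ n
  · refine le_trans ?_ le_self_add
    have h1 := h.loc hD hE (f := fun m => C * (g m)⁻¹) (fun q' h7 h2 m => by
      rw [← ENNReal.div_eq_inv_mul.trans (mul_comm _ _)]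
      rw [ENNReal.le_div_iff_mul_le (Or.inl (g0 m)) (Or.inl (gt m)), mul_comm]
      exact hf q' h7 h2 m) (fun a b hab => mul_le_mul_right (ENNReal.inv_le_inv.2 (gm a b hab)) _)
      hn
    calc g n * Un s q n D E ≤ g n * (ENNReal.ofReal (34 * Real.exp 47) *
          (C * (g (n / 8))⁻¹ + ENNReal.ofReal (n * Real.exp (-(√n / 5))) * (C * (g 0)⁻¹))) :=
          mul_le_mul_right h1 _
      _ = ENNReal.ofReal (34 * Real.exp 47) * ((g n * (g (n / 8))⁻¹ +
          (g n * ENNReal.ofReal (n * Real.exp (-(√n / 5)))) * (g 0)⁻¹) * C) := by ring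
      _ ≤ _ := by
        refine mul_le_mul_right (mul_le_mul_left (add_le_add ?_ (mul_le_mul_left (hB n hn) _)) _) _
        calc g n * (g (n / 8))⁻¹ ≤ G * g (n / 8) * (g (n / 8))⁻¹ := mul_le_mul_left (hG n hn) _
          _ = G := by rw [mul_assoc, ENNReal.mul_inv_cancel (g0 _) (gt _), mul_one]
  · refine le_trans ?_ le_add_self
    exact mul_le_mul' (gm _ _ (by omega)) (h.un_two n hD E)

theorem Cr.kk (h : Cr s q) : s ^ 4 / 100 ≠ 0 ∧ s ^ 4 / 100 ≠ ⊤ := by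
  have h1 := Kn_wk h.hs h.h0 h.q2 h.h1
  exact ⟨h1.k0, h1.ktop⟩

/-- the first upper bound -/
theorem Cr.upp1 (h : Cr s q) : ∃ C : ℝ≥0∞, C ≠ ⊤ ∧ ∀ D E, St D → St E → ∀ n : ℕ,
    ((n + 1 : ℕ) : ℝ≥0∞) * Un s q n D E ≤ C := by
  obtain ⟨k0, kt⟩ := h.kk
  refine ⟨ENNReal.ofReal (34 * Real.exp 47) * ((8 + ENNReal.ofReal 22500000 *
    (((0 + 1 : ℕ) : ℝ≥0∞))⁻¹) * ((s ^ 4 / 100)⁻¹ * 1296)) + ((25 + 1 : ℕ) : ℝ≥0∞) * 2, ?_, ?_⟩
  · refine ENNReal.add_ne_top.2 ⟨?_, ENNReal.mul_ne_top (ENNReal.natCast_ne_top _) (by simp)⟩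
    refine ENNReal.mul_ne_top ENNReal.ofReal_ne_top (ENNReal.mul_ne_top ?_ ?_)
    · exact ENNReal.add_ne_top.2 ⟨by simp, ENNReal.mul_ne_top (by simp) (by simp)⟩
    · exact ENNReal.mul_ne_top (ENNReal.inv_ne_top.2 k0) (by simp)
  · intro D E hD hE n
    refine h.loc_w hD hE (g := fun m => ((m + 1 : ℕ) : ℝ≥0∞)) (fun m => by
      rw [Nat.cast_ne_zero]; omega) (fun m => ENNReal.natCast_ne_top _) (fun a b hab => by
      exact_mod_cast (by omega : a + 1 ≤ b + 1)) (fun n hn => ?_) (fun n hn => ?_)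
      (fun q' h7 h2 m => ?_) n
    · exact_mod_cast (by omega : n + 1 ≤ 8 * (n / 8 + 1))
    · rw [← ENNReal.ofReal_natCast, ← ENNReal.ofReal_mul (by positivity)]
      refine ENNReal.ofReal_le_ofReal ?_
      have h1 := exp_six n
      have hn' : (25 : ℝ) ≤ n := by exact_mod_cast hn
      have h3 := Real.exp_pos (-(√(n : ℝ) / 5))
      push_cast
      calc ((n : ℝ) + 1) * (n * Real.exp (-(√n / 5))) ≤
            2 * (n : ℝ) ^ 3 * Real.exp (-(√n / 5)) := by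
            rw [← mul_assoc]
            refine mul_le_mul_of_nonneg_right ?_ h3.le
            nlinarith [mul_nonneg (sub_nonneg.2 hn') (sub_nonneg.2 hn')]
        _ ≤ 22500000 := by linarith
    · have h3 := (Kn_wk h.hs h.h0 h2 h7).off hD hE m
      calc ((m + 1 : ℕ) : ℝ≥0∞) * pw (Kn s q') m D E = (s ^ 4 / 100)⁻¹ *
            (s ^ 4 / 100 * ((m + 1 : ℕ) : ℝ≥0∞) * pw (Kn s q') m D E) := by
            rw [← mul_assoc, ← mul_assoc, ENNReal.inv_mul_cancel k0 kt, one_mul]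
        _ ≤ _ := mul_le_mul_right h3 _

theorem log_sq {x : ℝ} (hx : 1 ≤ x) : Real.log x ^ 2 ≤ 4 * x := by
  have h0 : 0 ≤ Real.log x := Real.log_nonneg hx
  have h1 : Real.log x = 2 * Real.log √x := by
    rw [Real.log_sqrt (by linarith)]
    ring
  have h2 := Real.log_le_sub_one_of_pos (show 0 < √x by positivity)
  have h3 : Real.log x ≤ 2 * √x := by linarith
  calc Real.log x ^ 2 ≤ (2 * √x) ^ 2 := pow_le_pow_left₀ h0 h3 2
    _ = 4 * x := by
      rw [mul_pow, Real.sq_sqrt (by linarith)]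
      norm_num

/-- the second upper bound -/
theorem Cr.upp2 (h : Cr s q) {D E : Z3} (hD : St D) (hE : St E) : ∃ C : ℝ≥0∞, C ≠ ⊤ ∧
    ∀ n : ℕ, ((n + 1 : ℕ) : ℝ≥0∞) * lo (n + 1) ^ 2 * Un s q n D E ≤ C := by
  obtain ⟨k0, kt⟩ := h.kk
  have hlg : ∀ F, lg F ≠ ⊤ := by
    intro F
    unfold lg
    split_ifs <;> simp
  have hC : ∀ F, Cs (s ^ 4 / 100) F ≠ ⊤ := by
    intro F
    unfold Cs
    refine ENNReal.add_ne_top.2 ⟨ENNReal.add_ne_top.2 ⟨by simp, ENNReal.mul_ne_top (by simp)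
      (hlg F)⟩, ENNReal.mul_ne_top (by simp) (ENNReal.mul_ne_top (ENNReal.inv_ne_top.2 k0)
      (by simp))⟩
  refine ⟨ENNReal.ofReal (34 * Real.exp 47) * ((128 + ENNReal.ofReal 180000000 *
    (((0 + 1 : ℕ) : ℝ≥0∞) * lo (0 + 1) ^ 2)⁻¹) * ((s ^ 4 / 100)⁻¹ *
      (15552 * (Cs (s ^ 4 / 100) D * Cs (s ^ 4 / 100) E)))) +
    ((25 + 1 : ℕ) : ℝ≥0∞) * lo (25 + 1) ^ 2 * 2, ?_, ?_⟩
  · refine ENNReal.add_ne_top.2 ⟨?_, ?_⟩
    · refine ENNReal.mul_ne_top ENNReal.ofReal_ne_top (ENNReal.mul_ne_top ?_ ?_)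
      · refine ENNReal.add_ne_top.2 ⟨by simp, ENNReal.mul_ne_top (by simp)
          (ENNReal.inv_ne_top.2 ?_)⟩
        exact mul_ne_zero (by simp) (pow_ne_zero _ (lo_pos (by norm_num)))
      · exact ENNReal.mul_ne_top (ENNReal.inv_ne_top.2 k0) (ENNReal.mul_ne_top (by simp)
          (ENNReal.mul_ne_top (hC D) (hC E)))
    · exact ENNReal.mul_ne_top (ENNReal.mul_ne_top (by simp) (ENNReal.pow_ne_top (lo_top _)))
        (by simp)
  · intro n
    refine h.loc_w hD hE (g := fun m => ((m + 1 : ℕ) : ℝ≥0∞) * lo (m + 1) ^ 2) (fun m => ?_)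
      (fun m => ?_) (fun a b hab => ?_) (fun n hn => ?_) (fun n hn => ?_)
      (fun q' h7 h2 m => ?_) n
    · exact mul_ne_zero (by rw [Nat.cast_ne_zero]; omega) (pow_ne_zero _ (lo_pos (by omega)))
    · exact ENNReal.mul_ne_top (ENNReal.natCast_ne_top _) (ENNReal.pow_ne_top (lo_top _))
    · refine mul_le_mul' ?_ (pow_le_pow_left' (lo_mono (by omega)) 2)
      exact_mod_cast (by omega : a + 1 ≤ b + 1)
    · have h1 : ((n + 1 : ℕ) : ℝ≥0∞) ≤ 8 * ((n / 8 + 1 : ℕ) : ℝ≥0∞) := by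
        exact_mod_cast (by omega : n + 1 ≤ 8 * (n / 8 + 1))
      have h2 : lo (n + 1) ≤ 4 * lo (n / 8 + 1) := by
        refine lo_four ?_
        obtain ⟨a, ha⟩ : ∃ a, a = n / 8 := ⟨_, rfl⟩
        rw [← ha]
        have h3 : n ≤ 8 * a + 7 := by omega
        have h4 : 1 ≤ a := by omega
        nlinarith [pow_pos (show 0 < a by omega) 4, pow_pos (show 0 < a by omega) 3,
          pow_pos (show 0 < a by omega) 2]
      calc ((n + 1 : ℕ) : ℝ≥0∞) * lo (n + 1) ^ 2 ≤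
            (8 * ((n / 8 + 1 : ℕ) : ℝ≥0∞)) * (4 * lo (n / 8 + 1)) ^ 2 := by gcongr
        _ = _ := by ring
    · have e : ((n + 1 : ℕ) : ℝ≥0∞) * lo (n + 1) ^ 2 * ENNReal.ofReal (n * Real.exp (-(√n / 5))) =
          ENNReal.ofReal (((n + 1 : ℕ) : ℝ) * Real.log (((n + 1 : ℕ) : ℝ) + 1) ^ 2 *
            (n * Real.exp (-(√n / 5)))) := by
        unfold lo
        have hl : 0 ≤ Real.log (((n + 1 : ℕ) : ℝ) + 1) := Real.log_nonneg (by
          push_cast
          have := Nat.cast_nonneg (α := ℝ) n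
          linarith)
        rw [ENNReal.ofReal_mul (p := ((n + 1 : ℕ) : ℝ) * Real.log (((n + 1 : ℕ) : ℝ) + 1) ^ 2)
            (by positivity),
          ENNReal.ofReal_mul (p := ((n + 1 : ℕ) : ℝ)) (by positivity),
          ENNReal.ofReal_natCast, ENNReal.ofReal_pow hl]
      rw [e]
      refine ENNReal.ofReal_le_ofReal ?_
      have h1 := exp_six n
      have hn' : (25 : ℝ) ≤ n := by exact_mod_cast hn
      have h3 := Real.exp_pos (-(√(n : ℝ) / 5))
      have h4 := log_sq (x := ((n + 1 : ℕ) : ℝ) + 1) (by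
        push_cast
        linarith)
      have h5 : Real.log (((n + 1 : ℕ) : ℝ) + 1) ^ 2 ≤ 8 * n := by
        refine h4.trans ?_
        push_cast
        linarith
      have h6 : ((n + 1 : ℕ) : ℝ) ≤ 2 * n := by
        push_cast
        linarith
      calc ((n + 1 : ℕ) : ℝ) * Real.log (((n + 1 : ℕ) : ℝ) + 1) ^ 2 *
            (n * Real.exp (-(√n / 5))) ≤ (2 * n) * (8 * n) * (n * Real.exp (-(√n / 5))) := by
            refine mul_le_mul_of_nonneg_right ?_ (by positivity)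
            exact mul_le_mul h6 h5 (by positivity) (by positivity)
        _ = 16 * ((n : ℝ) ^ 3 * Real.exp (-(√n / 5))) := by ring
        _ ≤ 180000000 := by linarith
    · have h3 := (Kn_wk h.hs h.h0 h2 h7).back2 hD hE m
      calc ((m + 1 : ℕ) : ℝ≥0∞) * lo (m + 1) ^ 2 * pw (Kn s q') m D E = (s ^ 4 / 100)⁻¹ *
            (s ^ 4 / 100 * ((m + 1 : ℕ) : ℝ≥0∞) * lo (m + 1) ^ 2 * pw (Kn s q') m D E) := by
            rw [mul_assoc (s ^ 4 / 100), mul_assoc (s ^ 4 / 100), ← mul_assoc (s ^ 4 / 100)⁻¹,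
              ENNReal.inv_mul_cancel k0 kt, one_mul]
        _ ≤ _ := mul_le_mul_right h3 _

end

end KN.ST
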