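import Pool.Agent.H132.LG.Lg

/-!
# The normalized kernel
-/

set_option autoImplicit false

namespace KN.ST

open KN KN.KQ Finset
open scoped Classical ENNReal

noncomputable section

/-- symmetric kernels on the states with the super- and subsolutions -/
structure WK (K : Z3 → Z3 → ℝ≥0∞) (κ : ℝ≥0∞) : Prop where
  k0 : κ ≠ 0
  k1 : κ ≤ 1
  sym : ∀ D E, K D E = K E D
  st : ∀ D E, K D E ≠ 0 → St E
  sup : ∀ D, St D → ∑' E, K D E * hh E + κ * r2 D ≤ hh D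
  sup2 : ∀ D, St D → ∑' E, K D E * lg E ≤ lg D
  mom : ∀ D, St D → ∑' E, K D E * qq E ≤ qq D + 3
  sub : ∀ D, St D → gg D ≤ ∑' E, K D E * gg E
  lazy : ∀ D, St D → 1 / 4 ≤ K D D
  unit : ∀ D, St D → ∀ v, Lat v → D - vec v ≠ 0 → κ ≤ K D (D - vec v)

/-- the normalized kernel -/
def Kn (s q : ℝ≥0∞) (D E : Z3) : ℝ≥0∞ := (Ms s q)⁻¹ * Kr s q D E

theorem Kn_sum (s q : ℝ≥0∞) (D : Z3) (φ : Z3 → ℝ≥0∞) :
    ∑' E, Kn s q D E * φ E = (Ms s q)⁻¹ * ∑' E, Kr s q D E * φ E := by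
  unfold Kn
  rw [← ENNReal.tsum_mul_left]
  refine tsum_congr fun E => ?_
  ring

theorem pw_Kn (s q : ℝ≥0∞) (m : ℕ) (D E : Z3) :
    pw (Kn s q) m D E = ((Ms s q)⁻¹) ^ m * pw (Kr s q) m D E := by
  induction m generalizing D with
  | zero => simp [pw]
  | succ m ih =>
    simp only [pw]
    rw [← ENNReal.tsum_mul_left]
    refine tsum_congr fun F => ?_
    rw [ih]
    unfold Kn
    ring

theorem num_le {a b : ℝ≥0∞} {x y : ℝ} (ha : a = ENNReal.ofReal x) (hb : b = ENNReal.ofReal y)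
    (h : x ≤ y) : a ≤ b := by
  rw [ha, hb]
  exact ENNReal.ofReal_le_ofReal h

theorem q_sq {q : ℝ≥0∞} (hq : 7 / 10 ≤ q) : 1 / 3 ≤ q ^ 2 := by
  refine le_trans ?_ (pow_le_pow_left' hq 2)
  have e7 : (7 / 10 : ℝ≥0∞) = ENNReal.ofReal (7 / 10) := by
    rw [ENNReal.ofReal_div_of_pos (by norm_num)]; simp
  have e3 : (1 / 3 : ℝ≥0∞) = ENNReal.ofReal (1 / 3) := by
    rw [ENNReal.ofReal_div_of_pos (by norm_num)]; simp
  rw [e7, e3, ← ENNReal.ofReal_pow (by norm_num)]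
  exact ENNReal.ofReal_le_ofReal (by norm_num)

theorem Ms_ge {s q : ℝ≥0∞} (hq : 7 / 10 ≤ q) : 1 / 3 ≤ Ms s q := by
  rw [Ms_eq, add_assoc]
  exact (q_sq hq).trans le_self_add

theorem Ms_le5 {s q : ℝ≥0∞} (hs : s ≤ 1 / 10 ^ 12) (hq : q ≤ 2) :
    8 * q ^ 3 * s ^ 4 + Mr s q ≤ 1 / 3 := by
  calc 8 * q ^ 3 * s ^ 4 + Mr s q ≤ 8 * 2 ^ 3 * s ^ 4 + s ^ 4 := by
        gcongr
        exact Mr_le hs hq
    _ = 65 * s ^ 4 := by ring
    _ ≤ 65 * (1 / 10 ^ 12) := by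
        gcongr
        exact s4_le hs
    _ ≤ 1 / 3 := by
        rw [← mul_div_assoc, mul_one]
        refine num_le (x := 65 / 10 ^ 12) (y := 1 / 3) ?_ ?_ (by norm_num)
        · rw [ENNReal.ofReal_div_of_pos (by norm_num)]; simp
        · rw [ENNReal.ofReal_div_of_pos (by norm_num)]; simp

theorem Ms_le_five {s q : ℝ≥0∞} (hs : s ≤ 1 / 10 ^ 12) (hq : q ≤ 2) : Ms s q ≤ 5 := by
  rw [Ms_eq, add_assoc]
  calc q ^ 2 + (8 * q ^ 3 * s ^ 4 + Mr s q) ≤ 2 ^ 2 + 1 / 3 := by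
        gcongr
        exact Ms_le5 hs hq
    _ ≤ 4 + 1 := by
        gcongr
        · norm_num
        · rw [one_div]
          exact ENNReal.inv_le_one.2 (by norm_num)
    _ = 5 := by norm_num

theorem Ms_le_sq {s q : ℝ≥0∞} (hs : s ≤ 1 / 10 ^ 12) (hq : q ≤ 2) (hq' : 7 / 10 ≤ q) :
    Ms s q ≤ 2 * q ^ 2 := by
  rw [Ms_eq, add_assoc, two_mul]
  exact add_le_add_right ((Ms_le5 hs hq).trans (q_sq hq')) _

theorem Kn_wk {s q : ℝ≥0∞} (hs : s ≤ 1 / 10 ^ 12) (h0 : s ≠ 0) (hq : q ≤ 2) (hq' : 7 / 10 ≤ q) :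
    WK (Kn s q) (s ^ 4 / 100) := by
  have hM3 := Ms_ge (s := s) hq'
  have hM0 : Ms s q ≠ 0 := by
    intro h
    rw [h] at hM3
    simp at hM3
  have hMt := Ms_ne_top hs hq
  have hM5 := Ms_le_five hs hq
  have hinv5 : (5 : ℝ≥0∞)⁻¹ ≤ (Ms s q)⁻¹ := ENNReal.inv_le_inv.2 hM5
  have hinv3 : (Ms s q)⁻¹ ≤ 3 := by
    have := ENNReal.inv_le_inv.2 hM3
    simpa using this
  have hs4 : s ^ 4 ≤ 1 := pow_le_one₀ zero_le (s_le1 hs)
  have hdiv : s ^ 4 / 100 ≤ (Ms s q)⁻¹ * (s ^ 4 / 20) := by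
    calc s ^ 4 / 100 = 5⁻¹ * (s ^ 4 / 20) := by
          have : (100 : ℝ≥0∞)⁻¹ = 5⁻¹ * 20⁻¹ := by
            rw [← ENNReal.mul_inv (Or.inl (by norm_num)) (Or.inl (by simp))]
            norm_num
          simp only [div_eq_mul_inv]
          rw [this]
          ring
      _ ≤ _ := mul_le_mul_left hinv5 _
  refine ⟨?_, ?_, ?_, ?_, ?_, ?_, ?_, ?_, ?_, ?_⟩
  · rw [div_eq_mul_inv]
    exact mul_ne_zero (pow_ne_zero _ h0) (by simp)
  · rw [div_eq_mul_inv]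
    calc s ^ 4 * 100⁻¹ ≤ 1 * 1 := mul_le_mul' hs4 (ENNReal.inv_le_one.2 (by norm_num))
      _ = 1 := one_mul 1
  · intro D E
    unfold Kn
    rw [Kr_symm]
  · intro D E h
    refine Kr_St D E (s := s) (q := q) fun h' => h ?_
    unfold Kn
    rw [h', mul_zero]
  · intro D hD
    rw [Kn_sum]
    have h1 := super_hh hs hq hq' hD.1 hD.2
    calc (Ms s q)⁻¹ * ∑' E, Kr s q D E * hh E + s ^ 4 / 100 * r2 D ≤
          (Ms s q)⁻¹ * ∑' E, Kr s q D E * hh E + (Ms s q)⁻¹ * (s ^ 4 / 20) * r2 D := by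
          gcongr
      _ = (Ms s q)⁻¹ * (∑' E, Kr s q D E * hh E + r2 D * (s ^ 4 / 20)) := by ring
      _ ≤ (Ms s q)⁻¹ * (Ms s q * hh D) := mul_le_mul_right h1 _
      _ = hh D := by rw [← mul_assoc, ENNReal.inv_mul_cancel hM0 hMt, one_mul]
  · intro D hD
    rw [Kn_sum]
    calc (Ms s q)⁻¹ * ∑' E, Kr s q D E * lg E ≤ (Ms s q)⁻¹ * (Ms s q * lg D) :=
          mul_le_mul_right (super_lg hs hq hq' hD.1 hD.2) _
      _ = lg D := by rw [← mul_assoc, ENNReal.inv_mul_cancel hM0 hMt, one_mul]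
  · intro D hD
    rw [Kn_sum]
    calc (Ms s q)⁻¹ * ∑' E, Kr s q D E * qq E ≤ (Ms s q)⁻¹ * (Ms s q * qq D + 1) :=
          mul_le_mul_right (mom_qq hs hq hD.1 hD.2) _
      _ = qq D + (Ms s q)⁻¹ := by
          rw [mul_add, ← mul_assoc, ENNReal.inv_mul_cancel hM0 hMt, one_mul, mul_one]
      _ ≤ _ := add_le_add_right hinv3 _
  · intro D hD
    rw [Kn_sum]
    calc gg D = (Ms s q)⁻¹ * (Ms s q * gg D) := by
          rw [← mul_assoc, ENNReal.inv_mul_cancel hM0 hMt, one_mul]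
      _ ≤ _ := mul_le_mul_right (sub_gg hs hq hq' hD.1 hD.2) _
  · intro D hD
    have h1 : q ^ 2 ≤ Kr s q D D := by
      unfold Kr
      refine le_trans ?_ (ENNReal.le_tsum S0)
      have h2 := td_S0 hD.1 hD.2
      rw [nxt_S0] at h2
      rw [if_pos h2, om_S0]
    unfold Kn
    have h2 : 1 / 2 ≤ (Ms s q)⁻¹ * q ^ 2 := by
      have h3 := Ms_le_sq hs hq hq'
      have hq2 : q ^ 2 ≠ 0 := by
        intro h
        have := q_sq hq'
        rw [h] at this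
        simp at this
      have hqt : q ^ 2 ≠ ⊤ := ENNReal.pow_ne_top (ne_top_of_le_ne_top (by simp) hq)
      calc (1 / 2 : ℝ≥0∞) = (2 * q ^ 2)⁻¹ * q ^ 2 := by
            rw [ENNReal.mul_inv (Or.inl (by norm_num)) (Or.inl (by simp)), mul_assoc,
              ENNReal.inv_mul_cancel hq2 hqt, mul_one, one_div]
        _ ≤ _ := mul_le_mul_left (ENNReal.inv_le_inv.2 h3) _
    refine le_trans ?_ (h2.trans (mul_le_mul_right h1 _))
    rw [one_div, one_div]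
    exact ENNReal.inv_le_inv.2 (by norm_num)
  · intro D hD v hv hne
    have h1 := Kr_step (s := s) (q := q) hD hv hne
    unfold Kn
    calc s ^ 4 / 100 = 5⁻¹ * (1 / 20 * s ^ 4) := by
          have : (100 : ℝ≥0∞)⁻¹ = 5⁻¹ * 20⁻¹ := by
            rw [← ENNReal.mul_inv (Or.inl (by norm_num)) (Or.inl (by simp))]
            norm_num
          simp only [div_eq_mul_inv]
          rw [this]
          ring
      _ ≤ (Ms s q)⁻¹ * (q ^ 3 * s ^ 4) := by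
          refine mul_le_mul' hinv5 (mul_le_mul_left (le_trans ?_ (q3 hq')) _)
          rw [one_div, one_div]
          exact ENNReal.inv_le_inv.2 (by norm_num)
      _ ≤ _ := mul_le_mul_right h1 _

end

end KN.ST
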