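import Pool.Agent.H132.LG.Par
import Pool.Agent.H132.ST.Dom2

/-!
# Weights of blocks
-/

set_option autoImplicit false

namespace KN.ST

open KN KN.KQ Finset
open scoped Classical ENNReal

noncomputable section

/-- the weight of a block -/
def om (s q : ℝ≥0∞) (b : Blk) : ℝ≥0∞ := q ^ (bl b + 2) * s ^ (4 * bl b - 8 * wd b)

/-- the blocks that are not simple -/
def B2 (b : Blk) : Prop := 2 ≤ bl b ∧ 4 * wd b ≤ bl b

theorem om_le {s q : ℝ≥0∞} (hs : s ≤ 1 / 10 ^ 12) (hq : q ≤ 2) {b : Blk} (hb : B2 b) :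
    om s q b * ((4 * bl b + 10 : ℕ) : ℝ≥0∞) ^ 6 ≤
      4 * 10 ^ 6 * 1536 * s * s ^ 4 * 12⁻¹ ^ bl b := by
  obtain ⟨h2, h4⟩ := hb
  obtain ⟨n, hn⟩ : ∃ n, n = bl b := ⟨_, rfl⟩
  have hs1 : s ≤ 1 := hs.trans (by
    rw [one_div]
    exact ENNReal.inv_le_one.2 (one_le_pow₀ (by norm_num)))
  have e1 : s ^ (4 * bl b - 8 * wd b) ≤ s ^ (n + 4) :=
    pow_le_pow_right_of_le_one' hs1 (by omega)
  have e2 : q ^ (bl b + 2) ≤ 2 ^ (n + 2) := by rw [hn]; exact pow_le_pow_left' hq _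
  have e3 : ((4 * bl b + 10 : ℕ) : ℝ≥0∞) ^ 6 ≤ (10 * 2 ^ n) ^ 6 := by
    refine pow_le_pow_left' ?_ _
    have : 4 * bl b + 10 ≤ 10 * 2 ^ n := by
      have : n + 1 ≤ 2 ^ n := Nat.lt_two_pow_self
      omega
    exact_mod_cast this
  have h1536 : (1536 : ℝ≥0∞) * s ≤ 1 := by
    calc (1536 : ℝ≥0∞) * s ≤ 1536 * (1 / 10 ^ 12) := by gcongr
      _ = 1536 / 10 ^ 12 := by rw [← mul_div_assoc, mul_one]
      _ ≤ 1 := by
        rw [ENNReal.div_le_iff_le_mul (Or.inl (by norm_num)) (Or.inl (by simp))]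
        norm_num
  have e4 : (128 * s) ^ n ≤ 1536 * s * 12⁻¹ ^ n := by
    have e5 : (128 : ℝ≥0∞) * s = 1536 * s * 12⁻¹ := by
      have h12 : (1536 : ℝ≥0∞) = 128 * 12 := by norm_num
      rw [h12]
      calc (128 : ℝ≥0∞) * s = 128 * s * (12 * 12⁻¹) := by
            rw [ENNReal.mul_inv_cancel (by norm_num) (by simp), mul_one]
        _ = _ := by ring
    rw [e5, mul_pow]
    refine mul_le_mul_left ?_ _
    calc (1536 * s) ^ n ≤ (1536 * s) ^ 1 := pow_le_pow_right_of_le_one' h1536 (by omega)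
      _ = _ := pow_one _
  calc om s q b * ((4 * bl b + 10 : ℕ) : ℝ≥0∞) ^ 6 ≤ 2 ^ (n + 2) * s ^ (n + 4) *
        (10 * 2 ^ n) ^ 6 := by
        unfold om
        exact mul_le_mul' (mul_le_mul' e2 e1) e3
    _ = 4 * 10 ^ 6 * (128 * s) ^ n * s ^ 4 := by
        have e6 : (128 : ℝ≥0∞) = 2 * 2 ^ 6 := by norm_num
        rw [e6, mul_pow, mul_pow, mul_pow, ← pow_mul, ← pow_mul, pow_add, pow_add]
        ring
    _ ≤ 4 * 10 ^ 6 * (1536 * s * 12⁻¹ ^ n) * s ^ 4 := by gcongr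
    _ = _ := by rw [hn]; ring

/-- the sum over the blocks that are not simple -/
theorem big_sum {s q : ℝ≥0∞} (hs : s ≤ 1 / 10 ^ 12) (hq : q ≤ 2) :
    ∑' b : Blk, (if B2 b then om s q b * ((4 * bl b + 10 : ℕ) : ℝ≥0∞) ^ 6 else 0) ≤
      s ^ 4 / 40 := by
  have h1 : ∑' b : Blk, (if B2 b then om s q b * ((4 * bl b + 10 : ℕ) : ℝ≥0∞) ^ 6 else 0) ≤
      ∑' b : Blk, 4 * 10 ^ 6 * 1536 * s * s ^ 4 * 12⁻¹ ^ bl b := by
    refine ENNReal.tsum_le_tsum fun b => ?_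
    split_ifs with h
    · exact om_le hs hq h
    · exact zero_le
  refine h1.trans ?_
  rw [ENNReal.tsum_mul_left]
  calc 4 * 10 ^ 6 * 1536 * s * s ^ 4 * ∑' b : Blk, (12 : ℝ≥0∞)⁻¹ ^ bl b
      ≤ 4 * 10 ^ 6 * 1536 * (1 / 10 ^ 12) * s ^ 4 * 4 := by
        gcongr
        exact tsum_blk12
    _ = s ^ 4 * (4 * 10 ^ 6 * 1536 * (1 / 10 ^ 12) * 4) := by ring
    _ ≤ s ^ 4 * 40⁻¹ := by
        refine mul_le_mul_right ?_ _
        rw [← one_div, ENNReal.le_div_iff_mul_le (Or.inl (by norm_num)) (Or.inl (by simp))]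
        have : (4 * 10 ^ 6 * 1536 * (1 / 10 ^ 12) * 4 * 40 : ℝ≥0∞) =
            (4 * 10 ^ 6 * 1536 * 4 * 40) / 10 ^ 12 := by
          rw [one_div, div_eq_mul_inv]; ring
        rw [this, ENNReal.div_le_iff_le_mul (Or.inl (by norm_num)) (Or.inl (by simp))]
        norm_num
    _ = s ^ 4 / 40 := by rw [div_eq_mul_inv]

end

end KN.ST
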